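import Mathlib

namespace Pool.Agent.MP_295da9_pr

/-- lowest set bit -/
def lb (u : ℕ) : ℕ := if u % 2 = 1 then 1 else if _h : u = 0 then 0 else 2 * lb (u / 2)
termination_by u
decreasing_by omega

lemma lb_odd (u : ℕ) : lb (2 * u + 1) = 1 := by
  rw [lb, if_pos (by omega)]

lemma lb_zero : lb 0 = 0 := by
  rw [lb]; simp

lemma lb_even (u : ℕ) : lb (2 * u) = 2 * lb u := by
  rcases Nat.eq_zero_or_pos u with rfl | h
  · simp [lb_zero]
  · rw [lb, if_neg (by omega), dif_neg (by omega)]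
    congr 2; omega

lemma lb_le (u : ℕ) : lb u ≤ u := by
  induction u using Nat.strong_induction_on with
  | _ u ih =>
    rcases Nat.even_or_odd' u with ⟨k, rfl | rfl⟩
    · rcases Nat.eq_zero_or_pos k with rfl | h
      · simp [lb_zero]
      · rw [lb_even]; have := ih k (by omega); omega
    · rw [lb_odd]; omega

lemma lb_cases (u : ℕ) : lb u = 0 ∨ ∃ i, lb u = 2 ^ i := by
  induction u using Nat.strong_induction_on with
  | _ u ih =>
    rcases Nat.even_or_odd' u with ⟨k, rfl | rfl⟩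
    · rcases Nat.eq_zero_or_pos k with rfl | h
      · simp [lb_zero]
      · rw [lb_even]
        rcases ih k (by omega) with h | ⟨i, h⟩
        · left; omega
        · right; exact ⟨i + 1, by rw [h, pow_succ]; ring⟩
    · rw [lb_odd]; exact Or.inr ⟨0, rfl⟩

lemma lb_mod (i : ℕ) : ∀ u, u % 2 ^ i ≠ 0 → lb u = lb (u % 2 ^ i) := by
  induction i with
  | zero => intro u h; simp [Nat.mod_one] at h
  | succ i ih =>
    intro u h
    rcases Nat.even_or_odd' u with ⟨k, rfl | rfl⟩
    · rw [pow_succ', Nat.mul_mod_mul_left] at h ⊢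
      rw [lb_even, lb_even, ih k (by omega)]
    · have h1 : (2 * k + 1) % 2 ^ (i + 1) = 2 * (k % 2 ^ i) + 1 := by
        have h2 : 0 < 2 ^ i := by positivity
        have h3 := Nat.div_add_mod k (2 ^ i)
        have h4 := Nat.mod_lt k h2
        have h5 : 2 * k + 1 = (2 * (k % 2 ^ i) + 1) + 2 ^ (i + 1) * (k / 2 ^ i) := by
          rw [pow_succ]; nlinarith
        rw [h5, Nat.add_mul_mod_self_left, Nat.mod_eq_of_lt]
        rw [pow_succ]; omega
      rw [h1, lb_odd, lb_odd]

lemma lb_pow_mul (i q : ℕ) : lb (2 ^ i * (2 * q + 1)) = 2 ^ i := by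
  induction i with
  | zero => simp [lb_odd]
  | succ i ih => rw [pow_succ', mul_assoc, lb_even, ih]

/-- length of the side branches at a node with remaining length `t` -/
def side (t : ℕ) : ℕ := if t % 4 = 0 then 0 else 4 * lb (t / 4)

lemma side_le (t : ℕ) : side t ≤ t - 1 := by
  unfold side
  split_ifs with h
  · omega
  · have := lb_le (t / 4); omega

lemma side_side (t : ℕ) : side (side t) = 0 := by
  have : side t % 4 = 0 := by
    unfold side; split_ifs <;> omega
  rw [side, if_pos this]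

lemma side_cases (t : ℕ) : side t = 0 ∨ ∃ i, side t = 4 * 2 ^ i := by
  unfold side
  split_ifs
  · exact Or.inl rfl
  · rcases lb_cases (t / 4) with h | ⟨i, h⟩
    · left; omega
    · right; exact ⟨i, by rw [h]⟩

lemma side_mod (i s : ℕ) (h : 4 ≤ s % (4 * 2 ^ i)) : side s = side (s % (4 * 2 ^ i)) := by
  have h1 : s % (4 * 2 ^ i) / 4 = s / 4 % 2 ^ i := Nat.mod_mul_right_div_self s 4 (2 ^ i)
  have h2 : s % (4 * 2 ^ i) % 4 = s % 4 := Nat.mod_mul_right_mod s 4 (2 ^ i)
  unfold side
  rw [h1, h2, ← lb_mod i (s / 4) (by omega)]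

lemma side_small {s : ℕ} (h : s < 4) : side s = 0 := by
  unfold side
  have : s / 4 = 0 := by omega
  simp [this, lb_zero]

lemma side_big (i q r : ℕ) (hr : 0 < r) (hr' : r < 4) :
    side (4 * (2 ^ i * (2 * q + 1)) + r) = 4 * 2 ^ i := by
  unfold side
  rw [if_neg (by omega)]
  have : (4 * (2 ^ i * (2 * q + 1)) + r) / 4 = 2 ^ i * (2 * q + 1) := by omega
  rw [this, lb_pow_mul]

/-- number of descendants at depth `< m` of a node with remaining length `t` -/
def D : ℕ → ℕ → ℕ
  | _, 0 => 0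
  | t, m + 1 => if t = 0 then 0 else 1 + D (t - 1) m + 2 * D (side t) m

lemma D_zero (m : ℕ) : D 0 m = 0 := by cases m <;> simp [D]

lemma D_succ (t m : ℕ) : D (t + 1) (m + 1) = 1 + D t m + 2 * D (side (t + 1)) m := by
  simp [D]

lemma D_le_succ (m : ℕ) : ∀ t, D t m ≤ D t (m + 1) := by
  induction m with
  | zero => intro t; simp [D]
  | succ m ih =>
    intro t
    cases t with
    | zero => simp [D_zero]
    | succ t =>
      rw [D_succ, D_succ]
      have := ih t
      have := ih (side (t + 1))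
      omega

lemma D_mono (t : ℕ) {m m' : ℕ} (h : m ≤ m') : D t m ≤ D t m' :=
  monotone_nat_of_le_succ (fun m => D_le_succ m t) h

/-- total size -/
def S (t : ℕ) : ℕ := D t t

lemma D_stab (t : ℕ) : ∀ m, t ≤ m → D t m = S t := by
  induction t using Nat.strong_induction_on with
  | _ t ih =>
    intro m hm
    cases t with
    | zero => simp [S, D_zero]
    | succ t =>
      obtain ⟨m, rfl⟩ : ∃ k, m = k + 1 := ⟨m - 1, by omega⟩
      have hs := side_le (t + 1)
      unfold S
      rw [D_succ, D_succ, ih t (by omega) m (by omega), ih t (by omega) t le_rfl,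
        ih _ (by omega) m (by omega), ih _ (by omega) t (by omega)]

lemma D_le_S (t m : ℕ) : D t m ≤ S t := by
  rw [← D_stab t (max t m) (le_max_left _ _)]
  exact D_mono t (le_max_right _ _)

lemma S_zero : S 0 = 0 := rfl

lemma S_succ (t : ℕ) : S (t + 1) = 1 + S t + 2 * S (side (t + 1)) := by
  have hs := side_le (t + 1)
  rw [S, D_succ, D_stab t t le_rfl, D_stab _ t (by omega)]

lemma S_mono {t t' : ℕ} (h : t ≤ t') : S t ≤ S t' :=
  monotone_nat_of_le_succ (fun t => by rw [S_succ]; omega) h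

lemma S_eq_sum (t : ℕ) : S t = ∑ x ∈ Finset.range t, (1 + 2 * S (side (x + 1))) := by
  induction t with
  | zero => simp [S_zero]
  | succ t ih => rw [S_succ, Finset.sum_range_succ, ← ih]; ring

lemma S_add (i : ℕ) (x : ℕ) (hx : 3 ≤ x) (hx' : x ≤ 4 * 2 ^ i) :
    S (4 * 2 ^ i + x) = 7 * S (4 * 2 ^ i) + S x := by
  have hb : ∀ r, 0 < r → r < 4 → side (4 * 2 ^ i + r) = 4 * 2 ^ i := by
    intro r h1 h2
    have := side_big i 0 r h1 h2
    simpa using this
  have hpos : 0 < 2 ^ i := by positivity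
  induction x, hx using Nat.le_induction with
  | base =>
    have e1 := S_succ (4 * 2 ^ i)
    have e2 := S_succ (4 * 2 ^ i + 1)
    have e3 := S_succ (4 * 2 ^ i + 2)
    rw [hb 1 (by norm_num) (by norm_num)] at e1
    rw [add_assoc (4 * 2 ^ i), hb (1 + 1) (by norm_num) (by norm_num)] at e2
    rw [add_assoc (4 * 2 ^ i), hb (2 + 1) (by norm_num) (by norm_num)] at e3
    have e4 : S 3 = 3 := by
      rw [S_succ, S_succ, S_succ, side_small (by norm_num), side_small (by norm_num),
        side_small (by norm_num), S_zero]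
    norm_num at e1 e2 e3
    omega
  | succ x hx ih =>
    rw [← add_assoc, S_succ, ih (by omega), S_succ]
    have : side (4 * 2 ^ i + x + 1) = side (x + 1) := by
      by_cases h : x + 1 = 4 * 2 ^ i
      · unfold side
        rw [if_pos (by omega), if_pos (by omega)]
      · have h1 : (4 * 2 ^ i + x + 1) % (4 * 2 ^ i) = x + 1 := by
          rw [add_assoc, Nat.add_mod_left, Nat.mod_eq_of_lt (by omega)]
        rw [side_mod i _ (by omega), h1]
    rw [this]; ring

lemma S_pow (i : ℕ) : S (4 * 2 ^ i) = 4 * 8 ^ i := by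
  induction i with
  | zero =>
    have : S 4 = 4 := by
      rw [S_succ, S_succ, S_succ, S_succ, side_small (s := 1) (by norm_num),
        side_small (s := 1 + 1) (by norm_num), side_small (s := 2 + 1) (by norm_num), S_zero]
      have : side (3 + 1) = 0 := by simp [side]
      rw [this, S_zero]
    simpa using this
  | succ i ih =>
    have hpos : 0 < 2 ^ i := by positivity
    have : 4 * 2 ^ (i + 1) = 4 * 2 ^ i + 4 * 2 ^ i := by ring
    rw [this, S_add i _ (by omega) le_rfl, ih]; ring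

lemma D_shift (k : ℕ) : ∀ t m, D t m ≤ D (t + k) (m + k) := by
  induction k with
  | zero => intro t m; rfl
  | succ k ih =>
    intro t m
    rw [← add_assoc, ← add_assoc, D_succ]
    have := ih t m
    omega

lemma D_lower_pow (i t m : ℕ) (hm : 12 * 2 ^ i ≤ m) (ht : 12 * 2 ^ i + 1 ≤ t) :
    4 * 8 ^ i ≤ D t m := by
  have hpos : 0 < 2 ^ i := by positivity
  set a := t - (4 * 2 ^ i + 1) with ha
  set q := a / (8 * 2 ^ i) with hq
  set k := a % (8 * 2 ^ i) with hk
  have hk1 : k < 8 * 2 ^ i := Nat.mod_lt _ (by omega)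
  have hdm : 8 * 2 ^ i * q + k = a := Nat.div_add_mod _ _
  have h1 : t = (4 * (2 ^ i * (2 * q + 1)) + 1) + k := by
    have : 4 * (2 ^ i * (2 * q + 1)) = 8 * 2 ^ i * q + 4 * 2 ^ i := by ring
    omega
  obtain ⟨m', rfl⟩ : ∃ m', m = m' + 1 + k := ⟨m - k - 1, by omega⟩
  have h2 := D_shift k (4 * (2 ^ i * (2 * q + 1)) + 1) (m' + 1)
  rw [← h1, D_succ, side_big i q 1 (by norm_num) (by norm_num),
    D_stab (4 * 2 ^ i) m' (by omega), S_pow] at h2
  omega

lemma D_pos (t m : ℕ) (ht : 0 < t) (hm : 0 < m) : 0 < D t m := by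
  obtain ⟨t, rfl⟩ : ∃ k, t = k + 1 := ⟨t - 1, by omega⟩
  obtain ⟨m, rfl⟩ : ∃ k, m = k + 1 := ⟨m - 1, by omega⟩
  rw [D_succ]; omega

lemma exists_scale (c m : ℕ) (hc : 0 < c) (hm : c ≤ m) : ∃ i, c * 2 ^ i ≤ m ∧ m < c * 2 ^ (i + 1) := by
  have h0 : m / c ≠ 0 := by
    have := Nat.div_pos hm hc; omega
  refine ⟨Nat.log 2 (m / c), ?_, ?_⟩
  · have := Nat.pow_log_le_self 2 h0
    calc c * 2 ^ Nat.log 2 (m / c) ≤ c * (m / c) := Nat.mul_le_mul_left _ this
      _ ≤ m := Nat.mul_div_le _ _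
  · have h1 := Nat.lt_pow_succ_log_self (b := 2) (by norm_num) (m / c)
    have h2 := Nat.lt_mul_div_succ m hc
    calc m < c * (m / c + 1) := h2
      _ ≤ c * 2 ^ (Nat.log 2 (m / c) + 1) := Nat.mul_le_mul_left _ h1

/-- lower bound -/
lemma D_lower (t m : ℕ) (hm : 0 < m) (ht : m + 1 ≤ t) : m ^ 3 ≤ 3456 * D t m := by
  by_cases h : m < 12
  · have h1 := D_pos t m (by omega) hm
    have h2 : m ^ 3 ≤ 12 ^ 3 := Nat.pow_le_pow_left (by omega) 3
    omega
  · obtain ⟨i, h1, h2⟩ := exists_scale 12 m (by norm_num) (by omega)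
    have h3 := D_lower_pow i t m h1 (by omega)
    have h4 : m ^ 3 ≤ (12 * 2 ^ (i + 1)) ^ 3 := Nat.pow_le_pow_left h2.le 3
    have h5 : (12 * 2 ^ (i + 1)) ^ 3 = 3456 * (4 * 8 ^ i) := by
      have : (8 : ℕ) ^ i = (2 ^ i) ^ 3 := by rw [← pow_mul, mul_comm, pow_mul]; norm_num
      rw [this]; ring
    nlinarith

lemma D_le_sum (m : ℕ) : ∀ t, D t m ≤
    ∑ k ∈ Finset.range (min m t), (1 + 2 * D (side (t - k)) m) := by
  induction m with
  | zero => intro t; simp [D]
  | succ m ih =>
    intro t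
    cases t with
    | zero => simp [D_zero]
    | succ t =>
      rw [D_succ, Nat.succ_min_succ, Finset.sum_range_succ']
      have h1 := ih t
      have h2 : ∑ k ∈ Finset.range (min m t), (1 + 2 * D (side (t - k)) m) ≤
          ∑ k ∈ Finset.range (min m t), (1 + 2 * D (side (t + 1 - (k + 1))) (m + 1)) := by
        refine Finset.sum_le_sum fun k _ => ?_
        rw [Nat.add_sub_add_right]
        have := D_le_succ m (side (t - k))
        omega
      have h3 := D_le_succ m (side (t + 1))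
      simp only [Nat.sub_zero]
      omega

lemma window_sum_le (N m t : ℕ) (hN : 0 < N) (hm : m ≤ N) (p : ℕ → ℕ) :
    ∑ k ∈ Finset.range (min m t), p ((t - k) % N) ≤ ∑ x ∈ Finset.range N, p x := by
  rw [← Finset.sum_image (s := Finset.range (min m t)) (g := fun k => (t - k) % N) (f := p)]
  · refine Finset.sum_le_sum_of_subset ?_
    intro x hx
    obtain ⟨k, -, rfl⟩ := Finset.mem_image.mp hx
    exact Finset.mem_range.mpr (Nat.mod_lt _ hN)
  · intro a ha b hb hab
    simp only [Finset.coe_range, Set.mem_Iio, lt_min_iff] at ha hb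
    have h1 : (t - a) ≡ (t - b) [MOD N] := hab
    rcases le_total a b with h | h
    · have h2 := (Nat.modEq_iff_dvd' (by omega : t - b ≤ t - a)).mp h1.symm
      have h3 := Nat.eq_zero_of_dvd_of_lt h2 (by omega)
      omega
    · have h2 := (Nat.modEq_iff_dvd' (by omega : t - a ≤ t - b)).mp h1
      have h3 := Nat.eq_zero_of_dvd_of_lt h2 (by omega)
      omega

lemma sum_period (i : ℕ) :
    ∑ x ∈ Finset.range (4 * 2 ^ i), (1 + 2 * S (side x)) = S (4 * 2 ^ i) := by
  have hpos : 0 < 2 ^ i := by positivity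
  have h1 := Finset.sum_range_succ (fun x => 1 + 2 * S (side x)) (4 * 2 ^ i)
  have h2 := Finset.sum_range_succ' (fun x => 1 + 2 * S (side x)) (4 * 2 ^ i)
  have h3 : side (4 * 2 ^ i) = 0 := by unfold side; rw [if_pos (by omega)]
  have h4 : side 0 = 0 := side_small (by norm_num)
  rw [← S_eq_sum] at h2
  rw [h3] at h1
  rw [h4] at h2
  omega

lemma D_bush_le (i j m : ℕ) (hm : m + 4 ≤ 4 * 2 ^ i) : D (4 * 2 ^ j) m ≤ S (4 * 2 ^ i) := by
  have hpos : 0 < 2 ^ i := by positivity
  by_cases hj : j ≤ i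
  · exact (D_le_S _ _).trans (S_mono (Nat.mul_le_mul_left _ (Nat.pow_le_pow_right (by norm_num) hj)))
  · refine (D_le_sum m _).trans ?_
    rw [← sum_period i]
    refine le_trans (Finset.sum_le_sum fun k hk => ?_)
      (window_sum_le (4 * 2 ^ i) m (4 * 2 ^ j) (by omega) (by omega) (fun x => 1 + 2 * S (side x)))
    simp only [Finset.mem_range, lt_min_iff] at hk
    rcases Nat.eq_zero_or_pos k with rfl | hk0
    · have h3 : side (4 * 2 ^ j - 0) = 0 := by unfold side; rw [if_pos (by omega)]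
      rw [h3, D_zero]; omega
    · obtain ⟨d, rfl⟩ : ∃ d, j = i + d := ⟨j - i, by omega⟩
      have hd : 0 < 2 ^ d := by positivity
      have h1 : (4 * 2 ^ (i + d) - k) % (4 * 2 ^ i) = 4 * 2 ^ i - k := by
        have h2 : 4 * 2 ^ (i + d) = 4 * 2 ^ i + 4 * 2 ^ i * (2 ^ d - 1) := by
          obtain ⟨e, he⟩ : ∃ e, 2 ^ d = e + 1 := ⟨2 ^ d - 1, by omega⟩
          rw [pow_add, he]; simp; ring
        have h3 : 4 * 2 ^ (i + d) - k = (4 * 2 ^ i - k) + 4 * 2 ^ i * (2 ^ d - 1) := by omega
        rw [h3, Nat.add_mul_mod_self_left, Nat.mod_eq_of_lt (by omega)]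
      rw [← side_mod i _ (by omega)]
      have := D_le_S (side (4 * 2 ^ (i + d) - k)) m
      omega

lemma D_upper_pow (i t m : ℕ) (hm : m + 4 ≤ 4 * 2 ^ i) : D t m ≤ 36 * 8 ^ i := by
  have hpos : 0 < 2 ^ i := by positivity
  refine (D_le_sum m _).trans ?_
  refine le_trans (Finset.sum_le_sum fun k hk => ?_)
    ((window_sum_le (4 * 2 ^ i) m t (by omega) (by omega)
      (fun x => (1 + 2 * S (side x)) + if x < 4 then 2 * S (4 * 2 ^ i) else 0)).trans ?_)
  · split_ifs with h
    · rcases side_cases (t - k) with h1 | ⟨j, h1⟩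
      · rw [h1, D_zero]; omega
      · rw [h1]
        have := D_bush_le i j m hm
        omega
    · rw [← side_mod i _ (by omega)]
      have := D_le_S (side (t - k)) m
      omega
  · rw [Finset.sum_add_distrib, sum_period, ← Finset.sum_filter, Finset.sum_const, S_pow]
    have : (Finset.filter (fun x => x < 4) (Finset.range (4 * 2 ^ i))).card ≤ 4 := by
      refine (Finset.card_le_card (t := Finset.range 4) ?_).trans (by simp)
      intro x hx
      exact Finset.mem_range.mpr (Finset.mem_filter.mp hx).2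
    simp only [smul_eq_mul]
    nlinarith [Nat.zero_le (8 ^ i)]

/-- upper bound -/
lemma D_upper (t m : ℕ) : D t m ≤ 5 * (m + 4) ^ 3 := by
  obtain ⟨i, h1, h2⟩ := exists_scale 2 (m + 4) (by norm_num) (by omega)
  have h3 := D_upper_pow i t m (by rw [pow_succ] at h2; omega)
  have h4 : (2 * 2 ^ i) ^ 3 ≤ (m + 4) ^ 3 := Nat.pow_le_pow_left h1 3
  have h5 : (2 * 2 ^ i) ^ 3 = 8 * 8 ^ i := by
    have : (8 : ℕ) ^ i = (2 ^ i) ^ 3 := by rw [← pow_mul, mul_comm, pow_mul]; norm_num
    rw [this]; ring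
  omega

end Pool.Agent.MP_295da9_pr
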