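import Mathlib
import Pool.Agent.MP_295da9_pr.Count

namespace Pool.Agent.MP_295da9_pr

/-- slots of the ternary tree rooted at infinity -/
abbrev Slot := ℤ × ℕ

def par (σ : Slot) : Slot := (σ.1 + 1, σ.2 / 3)

def child (i : Fin 3) (σ : Slot) : Slot := (σ.1 - 1, 3 * σ.2 + i)

def lab (σ : Slot) : Fin 3 := ⟨σ.2 % 3, Nat.mod_lt _ (by norm_num)⟩

@[simp] lemma par_child (i : Fin 3) (σ : Slot) : par (child i σ) = σ := by
  have := i.2
  ext
  · simp [par, child]
  · simp only [par, child]; omega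

@[simp] lemma lab_child (i : Fin 3) (σ : Slot) : lab (child i σ) = i := by
  have := i.2
  ext
  simp only [lab, child]; omega

lemma child_lab_par (σ : Slot) : child (lab σ) (par σ) = σ := by
  ext
  · simp [par, child]
  · simp only [par, child, lab]; omega

lemma child_zero_spine (l : ℤ) : child 0 (l, 0) = (l - 1, 0) := by simp [child]

lemma slot_induction {p : Slot → Prop} (h0 : ∀ l : ℤ, p (l, 0))
    (h1 : ∀ σ i, p σ → p (child i σ)) (σ : Slot) : p σ := by
  obtain ⟨l, N⟩ := σ
  induction N using Nat.strong_induction_on generalizing l with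
  | _ N ih =>
    rcases Nat.eq_zero_or_pos N with rfl | h
    · exact h0 l
    · rw [← child_lab_par (l, N)]
      exact h1 _ _ (ih (N / 3) (by omega) (l + 1))

/-- top-down recursion on slots -/
def slotRec {α : Type*} (base : ℤ → α) (step : Fin 3 → Slot → α → α) (l : ℤ) (N : ℕ) : α :=
  if _h : N = 0 then base l
  else step (lab (l, N)) (par (l, N)) (slotRec base step (l + 1) (N / 3))
termination_by N
decreasing_by omega

lemma slotRec_spine {α : Type*} (base : ℤ → α) (step : Fin 3 → Slot → α → α) (l : ℤ) :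
    slotRec base step l 0 = base l := by
  rw [slotRec]; simp

lemma slotRec_child {α : Type*} (base : ℤ → α) (step : Fin 3 → Slot → α → α)
    (hb : ∀ l, base (l - 1) = step 0 (l, 0) (base l)) (i : Fin 3) (σ : Slot) :
    slotRec base step (child i σ).1 (child i σ).2 = step i σ (slotRec base step σ.1 σ.2) := by
  by_cases h : (child i σ).2 = 0
  · obtain ⟨l, N⟩ := σ
    simp only [child] at h
    have hN : N = 0 := by omega
    have hi : i = 0 := by ext; simp; omega
    subst hN hi
    simp only [child_zero_spine, slotRec_spine, hb]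
  · rw [slotRec, dif_neg h]
    have h1 : ((child i σ).1, (child i σ).2) = child i σ := rfl
    rw [h1, lab_child, par_child]
    have h2 := par_child i σ
    have h3 : (child i σ).1 + 1 = σ.1 := congrArg Prod.fst h2
    have h4 : (child i σ).2 / 3 = σ.2 := congrArg Prod.snd h2
    rw [h3, h4]

def nxt (i : Fin 3) (t : ℕ) : ℕ := if i = 0 then t - 1 else side t

/-- remaining length -/
def st (σ : Slot) : ℕ := slotRec Int.toNat (fun i _ t => nxt i t) σ.1 σ.2

lemma st_spine (l : ℤ) : st (l, 0) = l.toNat := slotRec_spine _ _ _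

lemma st_child (i : Fin 3) (σ : Slot) : st (child i σ) = nxt i (st σ) :=
  slotRec_child _ _ (fun l => by simp [nxt]) i σ

lemma nxt_le (i : Fin 3) (t : ℕ) : nxt i t ≤ t - 1 := by
  unfold nxt; split_ifs
  · rfl
  · exact side_le t

lemma st_le_par (σ : Slot) : st σ ≤ st (par σ) - 1 := by
  conv_lhs => rw [← child_lab_par σ, st_child]
  exact nxt_le _ _

/-- drop vertex `i` and append `w` -/
def upd {α : Type*} (i : Fin 3) (T : Fin 3 → α) (w : α) : Fin 3 → α :=
  ![T (if i = 0 then 1 else 0), T (if i = 2 then 1 else 2), w]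

/-- the ordered triangle of a slot -/
def tri (σ : Slot) : Fin 3 → Slot :=
  slotRec (fun l => ![(l + 3, 0), (l + 2, 0), (l + 1, 0)]) (fun i σ T => upd i T σ) σ.1 σ.2

lemma tri_spine (l : ℤ) : tri (l, 0) = ![(l + 3, 0), (l + 2, 0), (l + 1, 0)] :=
  slotRec_spine _ _ _

lemma tri_child (i : Fin 3) (σ : Slot) : tri (child i σ) = upd i (tri σ) σ :=
  slotRec_child _ _ (fun l => by
    ext j : 1
    fin_cases j <;> simp [upd] <;> ring) i σ

/-- ancestors -/
def anc (k : ℕ) (σ : Slot) : Slot := par^[k] σ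

@[simp] lemma anc_zero (σ : Slot) : anc 0 σ = σ := rfl

lemma anc_succ (k : ℕ) (σ : Slot) : anc (k + 1) σ = anc k (par σ) := rfl

lemma anc_succ' (k : ℕ) (σ : Slot) : anc (k + 1) σ = par (anc k σ) :=
  Function.iterate_succ_apply' _ _ _

lemma anc_add (a b : ℕ) (σ : Slot) : anc (a + b) σ = anc a (anc b σ) :=
  Function.iterate_add_apply _ _ _ _

lemma anc_succ_child (k : ℕ) (i : Fin 3) (σ : Slot) : anc (k + 1) (child i σ) = anc k σ := by
  rw [anc_succ, par_child]

lemma anc_fst (k : ℕ) (σ : Slot) : (anc k σ).1 = σ.1 + k := by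
  induction k with
  | zero => simp
  | succ k ih => rw [anc_succ', par, ih]; push_cast; ring

lemma anc_snd (k : ℕ) (σ : Slot) : (anc k σ).2 = σ.2 / 3 ^ k := by
  induction k with
  | zero => simp
  | succ k ih => rw [anc_succ', par, ih, pow_succ, Nat.div_div_eq_div_mul]

lemma anc_spine (k : ℕ) (l : ℤ) : anc k (l, 0) = (l + k, 0) := by
  ext
  · rw [anc_fst]
  · rw [anc_snd]; simp

lemma anc_inj {a b : ℕ} {σ : Slot} (h : anc a σ = anc b σ) : a = b := by
  have := congrArg Prod.fst h
  rw [anc_fst, anc_fst] at this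
  omega

lemma st_anc (k : ℕ) (σ : Slot) (h : st σ ≠ 0) : st σ + k ≤ st (anc k σ) := by
  induction k with
  | zero => simp
  | succ k ih =>
    rw [anc_succ']
    have := st_le_par (anc k σ)
    omega

lemma exists_spine_anc (σ : Slot) : ∃ l0 : ℤ, ∀ l, l0 ≤ l → ∃ k, anc k σ = (l, 0) := by
  refine ⟨σ.1 + σ.2, fun l hl => ⟨(l - σ.1).toNat, ?_⟩⟩
  ext
  · rw [anc_fst]; simp; omega
  · rw [anc_snd]
    apply Nat.div_eq_of_lt
    have h1 : σ.2 ≤ (l - σ.1).toNat := by omega
    calc σ.2 < 3 ^ σ.2 := Nat.lt_pow_self (by norm_num)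
      _ ≤ _ := Nat.pow_le_pow_right (by norm_num) h1

lemma tri_anc (σ : Slot) : ∃ k0 k1 : ℕ, tri σ 0 = anc k0 σ ∧ tri σ 1 = anc k1 σ ∧
    tri σ 2 = anc 1 σ ∧ 1 < k1 ∧ k1 < k0 ∧
    (st σ ≠ 0 → k0 ≤ 5 ∧ k1 ≤ 3 ∧ (side (st σ) ≠ 0 → k0 ≤ 4 ∧ k1 = 2)) := by
  induction σ using slot_induction with
  | h0 l =>
    refine ⟨3, 2, ?_, ?_, ?_, by norm_num, by norm_num, by simp⟩ <;>
      simp [tri_spine, anc_spine]
  | h1 σ i ih =>
    obtain ⟨k0, k1, h0, h1, h2, h3, h4, h5⟩ := ih
    have hle := nxt_le i (st σ)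
    rw [tri_child, st_child]
    fin_cases i
    · refine ⟨k1 + 1, 2, ?_, ?_, ?_, by norm_num, by omega, fun h => ?_⟩
      · simp [upd, anc_succ_child, h1]
      · simp [upd, anc_succ_child, h2]
      · simp [upd, anc_succ_child]
      · have := h5 (by intro h'; rw [h'] at hle h; omega)
        omega
    · refine ⟨k0 + 1, 2, ?_, ?_, ?_, by norm_num, by omega, fun h => ?_⟩
      · simp [upd, anc_succ_child, h0]
      · simp [upd, anc_succ_child, h2]
      · simp [upd, anc_succ_child]
      · have h6 := h5 (by intro h'; rw [h'] at hle h; omega)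
        simp only [nxt] at h ⊢
        simp at h ⊢
        have := h6.2.2 h
        simp [side_side]; omega
    · refine ⟨k0 + 1, k1 + 1, ?_, ?_, ?_, by omega, by omega, fun h => ?_⟩
      · simp [upd, anc_succ_child, h0]
      · simp [upd, anc_succ_child, h1]
      · simp [upd, anc_succ_child]
      · have h6 := h5 (by intro h'; rw [h'] at hle h; omega)
        simp only [nxt] at h ⊢
        simp at h ⊢
        have := h6.2.2 h
        simp [side_side]; omega

lemma tri_two (σ : Slot) : tri σ 2 = par σ := by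
  obtain ⟨k0, k1, h0, h1, h2, -⟩ := tri_anc σ
  exact h2

lemma tri_eq_anc (σ : Slot) (j : Fin 3) :
    ∃ k, 1 ≤ k ∧ tri σ j = anc k σ ∧ (st σ ≠ 0 → k ≤ 5) := by
  obtain ⟨k0, k1, h0, h1, h2, h3, h4, h5⟩ := tri_anc σ
  fin_cases j
  · exact ⟨k0, by omega, h0, fun h => (h5 h).1⟩
  · exact ⟨k1, by omega, h1, fun h => by have := h5 h; omega⟩
  · exact ⟨1, le_rfl, h2, fun _ => by norm_num⟩

lemma tri_injective (σ : Slot) : Function.Injective (tri σ) := by
  obtain ⟨k0, k1, h0, h1, h2, h3, h4, -⟩ := tri_anc σ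
  intro a b hab
  fin_cases a <;> fin_cases b <;> simp only [Fin.zero_eta, Fin.mk_one, Fin.reduceFinMk] at hab ⊢ <;>
    first
    | rfl
    | (simp only [h0, h1, h2] at hab; have := anc_inj hab; omega)

lemma tri_ne_self (σ : Slot) (j : Fin 3) : tri σ j ≠ σ := by
  obtain ⟨k, hk, h, -⟩ := tri_eq_anc σ j
  rw [h]
  intro h'
  have := anc_inj (h'.trans (anc_zero σ).symm)
  omega

lemma st_tri_ne (σ : Slot) (h : st (par σ) ≠ 0) (j : Fin 3) : st (tri σ j) ≠ 0 := by
  obtain ⟨k, hk, h1, -⟩ := tri_eq_anc σ j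
  obtain ⟨k, rfl⟩ : ∃ k', k = k' + 1 := ⟨k - 1, by omega⟩
  rw [h1, anc_succ]
  have := st_anc k _ h
  omega

lemma st_par_ne {σ : Slot} (h : st σ ≠ 0) : st (par σ) ≠ 0 := by
  have := st_le_par σ; omega

lemma upd_mem {α : Type*} (i : Fin 3) (T : Fin 3 → α) (w : α) (j : Fin 3) :
    upd i T w j = w ∨ ∃ a, a ≠ i ∧ upd i T w j = T a := by
  fin_cases j
  · right; refine ⟨if i = 0 then 1 else 0, ?_, rfl⟩; fin_cases i <;> simp
  · right; refine ⟨if i = 2 then 1 else 2, ?_, rfl⟩; fin_cases i <;> simp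
  · left; rfl

lemma mem_upd {α : Type*} (i : Fin 3) (T : Fin 3 → α) (w : α) (a : Fin 3) (ha : a ≠ i) :
    ∃ j, upd i T w j = T a := by
  fin_cases i <;> fin_cases a <;> simp at ha <;>
    first
    | exact ⟨0, rfl⟩
    | exact ⟨1, rfl⟩

/-- two vertices of a triangle are related -/
lemma tri_rel (σ : Slot) : ∀ a b : Fin 3, a ≠ b →
    (∃ j, tri (tri σ a) j = tri σ b) ∨ (∃ j, tri (tri σ b) j = tri σ a) := by
  induction σ using slot_induction with
  | h0 l =>
    intro a b hab
    have e1 : tri (l + 1, 0) 1 = (l + 3, 0) := by simp [tri_spine]; ring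
    have e2 : tri (l + 1, 0) 2 = (l + 2, 0) := by simp [tri_spine]; ring
    have e3 : tri (l + 2, 0) 2 = (l + 3, 0) := by simp [tri_spine]; ring
    rw [tri_spine]
    fin_cases a <;> fin_cases b <;> simp at hab
    · exact Or.inr ⟨2, e3⟩
    · exact Or.inr ⟨1, e1⟩
    · exact Or.inl ⟨2, e3⟩
    · exact Or.inr ⟨2, e2⟩
    · exact Or.inl ⟨1, e1⟩
    · exact Or.inl ⟨2, e2⟩
  | h1 σ i ih =>
    intro a b hab
    have hinj := (tri_injective (child i σ)).ne hab
    rw [tri_child] at hinj ⊢
    rcases upd_mem i (tri σ) σ a with ha | ⟨a', -, ha⟩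
    · rcases upd_mem i (tri σ) σ b with hb | ⟨b', -, hb⟩
      · exact absurd (ha.trans hb.symm) hinj
      · rw [ha, hb]; exact Or.inl ⟨b', rfl⟩
    · rcases upd_mem i (tri σ) σ b with hb | ⟨b', -, hb⟩
      · rw [ha, hb]; exact Or.inr ⟨a', rfl⟩
      · rw [ha, hb] at hinj ⊢
        exact ih a' b' (fun h => hinj (by rw [h]))

/-- leaf slots are the faces -/
def IsLeaf (τ : Slot) : Prop := st τ = 0 ∧ st (par τ) ≠ 0

lemma exists_leaf (σ : Slot) (h : st (par σ) ≠ 0) (a b : Fin 3) :
    ∃ τ, IsLeaf τ ∧ (∃ j, tri τ j = tri σ a) ∧ ∃ j, tri τ j = tri σ b := by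
  induction hn : st σ using Nat.strong_induction_on generalizing σ a b with
  | _ n ih =>
    by_cases h0 : st σ = 0
    · exact ⟨σ, ⟨h0, h⟩, ⟨a, rfl⟩, ⟨b, rfl⟩⟩
    · obtain ⟨i, hia, hib⟩ : ∃ i : Fin 3, a ≠ i ∧ b ≠ i := by
        revert a b; decide
      obtain ⟨a', ha'⟩ := mem_upd i (tri σ) σ a hia
      obtain ⟨b', hb'⟩ := mem_upd i (tri σ) σ b hib
      have hle := nxt_le i (st σ)
      obtain ⟨τ, h1, h2, h3⟩ := ih (st (child i σ)) (by rw [st_child]; omega) (child i σ)
        (by rwa [par_child]) a' b' rfl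
      rw [tri_child, ha'] at h2
      rw [tri_child, hb'] at h3
      exact ⟨τ, h1, h2, h3⟩

lemma tri_desc (σ : Slot) (k : ℕ) : ∀ u, anc k u = σ → ∀ j,
    (∃ k', anc k' (tri u j) = σ) ∨ ∃ j', tri u j = tri σ j' := by
  induction k with
  | zero => rintro u rfl j; exact Or.inr ⟨j, rfl⟩
  | succ k ih =>
    intro u hu j
    rw [anc_succ] at hu
    rw [← child_lab_par u, tri_child]
    rcases upd_mem (lab u) (tri (par u)) (par u) j with h | ⟨a, -, h⟩
    · rw [h]; exact Or.inl ⟨k, hu⟩
    · rw [h]; exact ih _ hu a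

/-- descendants in the tree at depth `< m` -/
def DF : Slot → ℕ → Finset Slot
  | _, 0 => ∅
  | σ, m + 1 => if st σ = 0 then ∅ else
      insert σ (Finset.univ.biUnion fun i : Fin 3 => DF (child i σ) m)

lemma mem_DF (m : ℕ) : ∀ σ τ, τ ∈ DF σ m ↔ st τ ≠ 0 ∧ ∃ k < m, anc k τ = σ := by
  induction m with
  | zero => intro σ τ; simp [DF]
  | succ m ih =>
    intro σ τ
    rw [DF]
    split_ifs with h
    · simp only [Finset.notMem_empty, false_iff, not_and, not_exists]
      rintro h1 k - rfl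
      have := st_anc k τ h1
      omega
    · simp only [Finset.mem_insert, Finset.mem_biUnion, Finset.mem_univ, true_and, ih]
      constructor
      · rintro (rfl | ⟨i, h1, k, hk, h2⟩)
        · exact ⟨h, 0, by omega, rfl⟩
        · exact ⟨h1, k + 1, by omega, by rw [anc_succ', h2, par_child]⟩
      · rintro ⟨h1, k, hk, h2⟩
        cases k with
        | zero => exact Or.inl h2
        | succ k =>
          right
          refine ⟨lab (anc k τ), h1, k, by omega, ?_⟩
          rw [← h2, anc_succ', child_lab_par]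

lemma card_DF (m : ℕ) : ∀ σ, (DF σ m).card = D (st σ) m := by
  induction m with
  | zero => intro σ; simp [DF, D]
  | succ m ih =>
    intro σ
    rw [DF, D]
    split_ifs with h
    · simp
    · rw [Finset.card_insert_of_notMem, Finset.card_biUnion]
      · simp only [ih, st_child, Fin.sum_univ_three, nxt]
        simp; ring
      · intro i _ j _ hij
        rw [Function.onFun, Finset.disjoint_left]
        intro τ h1 h2
        rw [mem_DF] at h1 h2
        obtain ⟨-, k, -, h1⟩ := h1
        obtain ⟨-, k', -, h2⟩ := h2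
        have h3 := congrArg Prod.fst h1
        have h4 := congrArg Prod.fst h2
        rw [anc_fst] at h3 h4
        simp only [child] at h3 h4
        have : k = k' := by omega
        subst this
        have h5 := congrArg lab (h1.symm.trans h2)
        simp at h5
        exact hij h5
      · simp only [Finset.mem_biUnion, Finset.mem_univ, true_and, not_exists, mem_DF]
        rintro i ⟨-, k, -, h1⟩
        have h3 := congrArg Prod.fst h1
        rw [anc_fst] at h3
        simp only [child] at h3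
        omega

lemma finite_desc (σ : Slot) : {τ | st τ ≠ 0 ∧ ∃ k, anc k τ = σ}.Finite := by
  refine (DF σ (st σ)).finite_toSet.subset ?_
  rintro τ ⟨h1, k, rfl⟩
  rw [Finset.mem_coe, mem_DF]
  have := st_anc k τ h1
  exact ⟨h1, k, by omega, rfl⟩

end Pool.Agent.MP_295da9_pr
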