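import Mathlib
import Pool.Agent.MP_295da9_pr.Tree

namespace Pool.Agent.MP_295da9_pr

variable {E : Type*} [AddCommGroup E] [Module ℝ E]

/-- barycentric coordinates -/
def IsBC (T : Fin 3 → E) (x : E) (b : Fin 3 → ℝ) : Prop :=
  b 0 + b 1 + b 2 = 1 ∧ b 0 • T 0 + b 1 • T 1 + b 2 • T 2 = x

def Good (T : Fin 3 → E) : Prop := ∀ x, ∃! b, IsBC T x b

noncomputable def ctr (T : Fin 3 → E) : E := (1 / 3 : ℝ) • (T 0 + T 1 + T 2)

def updB (i : Fin 3) (b : Fin 3 → ℝ) : Fin 3 → ℝ :=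
  ![b (if i = 0 then 1 else 0) - b i, b (if i = 2 then 1 else 2) - b i, 3 * b i]

lemma isBC_upd_iff (i : Fin 3) (T : Fin 3 → E) (x : E) (b : Fin 3 → ℝ) :
    IsBC (upd i T (ctr T)) x (updB i b) ↔ IsBC T x b := by
  unfold IsBC
  have h1 : updB i b 0 + updB i b 1 + updB i b 2 = b 0 + b 1 + b 2 := by
    fin_cases i <;> simp [updB] <;> ring
  have h2 : updB i b 0 • upd i T (ctr T) 0 + updB i b 1 • upd i T (ctr T) 1 +
      updB i b 2 • upd i T (ctr T) 2 = b 0 • T 0 + b 1 • T 1 + b 2 • T 2 := by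
    fin_cases i <;> simp [updB, upd, ctr] <;> module
  rw [h1, h2]

lemma updB_surj (i : Fin 3) (b' : Fin 3 → ℝ) : ∃ b, updB i b = b' := by
  fin_cases i
  · exact ⟨![b' 2 / 3, b' 0 + b' 2 / 3, b' 1 + b' 2 / 3], by
      ext j; fin_cases j <;> simp [updB] <;> ring⟩
  · exact ⟨![b' 0 + b' 2 / 3, b' 2 / 3, b' 1 + b' 2 / 3], by
      ext j; fin_cases j <;> simp [updB] <;> ring⟩
  · exact ⟨![b' 0 + b' 2 / 3, b' 1 + b' 2 / 3, b' 2 / 3], by
      ext j; fin_cases j <;> simp [updB] <;> ring⟩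

lemma Good.upd {T : Fin 3 → E} (h : Good T) (i : Fin 3) : Good (upd i T (ctr T)) := by
  intro x
  obtain ⟨b, hb, hu⟩ := h x
  refine ⟨updB i b, (isBC_upd_iff i T x b).mpr hb, fun b' hb' => ?_⟩
  obtain ⟨c, rfl⟩ := updB_surj i b'
  rw [hu c ((isBC_upd_iff i T x c).mp hb')]

lemma updB_nonneg_iff (i : Fin 3) (b : Fin 3 → ℝ) :
    (∀ j, 0 ≤ updB i b j) ↔ 0 ≤ b i ∧ ∀ j, b i ≤ b j := by
  simp only [Fin.forall_fin_succ, IsEmpty.forall_iff, and_true]
  fin_cases i <;> simp [updB] <;> tauto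

open Classical in
/-- weights on vertices -/
noncomputable def wt {α : Type*} (T : Fin 3 → α) (b : Fin 3 → ℝ) (v : α) : ℝ :=
  ∑ j, if T j = v then b j else 0

lemma wt_upd_zero {α : Type*} (i : Fin 3) (T : Fin 3 → α) (w : α) (b : Fin 3 → ℝ) (h : b i = 0) :
    wt (upd i T w) (updB i b) = wt T b := by
  funext v
  unfold wt
  simp only [Fin.sum_univ_three]
  fin_cases i <;> simp [updB, upd] at h ⊢ <;> simp [h] <;> rfl

lemma wt_upd_upd {α : Type*} (i i' : Fin 3) (hi : i ≠ i') (T : Fin 3 → α) (w : α)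
    (b : Fin 3 → ℝ) (h : b i = b i') :
    wt (upd i T w) (updB i b) = wt (upd i' T w) (updB i' b) ∧ ∃ j, updB i b j = 0 := by
  constructor
  · funext v
    unfold wt
    simp only [Fin.sum_univ_three]
    fin_cases i <;> fin_cases i' <;> simp [updB, upd] at h hi ⊢ <;> simp [h] <;> rfl
  · fin_cases i <;> fin_cases i' <;> simp [updB] at h hi ⊢ <;>
      first
      | (refine ⟨0, ?_⟩; simp [h]; done)
      | (refine ⟨1, ?_⟩; simp [h]; done)

lemma wt_apply {α : Type*} {T : Fin 3 → α} (hT : Function.Injective T) (b : Fin 3 → ℝ)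
    (j : Fin 3) : wt T b (T j) = b j := by
  unfold wt
  simp [hT.eq_iff]

lemma exists_of_wt_ne {α : Type*} {T : Fin 3 → α} {b : Fin 3 → ℝ} {v : α} (h : wt T b v ≠ 0) :
    ∃ j, T j = v ∧ b j ≠ 0 := by
  unfold wt at h
  obtain ⟨j, -, hj⟩ := Finset.exists_ne_zero_of_sum_ne_zero h
  split_ifs at hj with h1
  · exact ⟨j, h1, hj⟩
  · exact absurd rfl hj

lemma isBC_vertex (T : Fin 3 → E) (j : Fin 3) : IsBC T (T j) (Pi.single j 1) := by
  fin_cases j <;> simp [IsBC]

lemma Good.affineIndependent {T : Fin 3 → E} (h : Good T) : AffineIndependent ℝ T := by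
  rw [affineIndependent_iff_of_fintype]
  intro w hw hs
  rw [Finset.weightedVSub_eq_linear_combination _ hw] at hs
  simp only [Fin.sum_univ_three] at hw hs
  have h1 := isBC_vertex T 0
  have h2 : IsBC T (T 0) (Pi.single 0 1 + w) := by
    constructor
    · simp; linarith
    · simp only [Pi.add_apply, add_smul]
      have := h1.2
      linear_combination (norm := module) this + hs
  have h3 := (h (T 0)).unique h1 h2
  intro i
  have := congrFun h3 i
  simpa using this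

lemma Good.of_mem_convexHull {T : Fin 3 → E} (h : Good T) {s : Set E} (hs : s ⊆ Set.range T)
    {x : E} (hx : x ∈ convexHull ℝ s) {b : Fin 3 → ℝ} (hb : IsBC T x b) :
    (∀ j, 0 ≤ b j) ∧ ∀ j, T j ∉ s → b j = 0 := by
  have h1 : convexHull ℝ s ⊆ {x | ∃ b, IsBC T x b ∧ (∀ j, 0 ≤ b j) ∧ ∀ j, T j ∉ s → b j = 0} := by
    apply convexHull_min
    · intro y hy
      obtain ⟨j, rfl⟩ := hs hy
      refine ⟨_, isBC_vertex T j, fun k => ?_, fun k hk => ?_⟩
      · rw [Pi.single_apply]; split_ifs <;> norm_num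
      · rw [Pi.single_apply, if_neg]; rintro rfl; exact hk hy
    · rintro y ⟨c, hc1, hc2, hc3⟩ z ⟨d, hd1, hd2, hd3⟩ α β hα hβ hαβ
      refine ⟨α • c + β • d, ⟨?_, ?_⟩, fun j => ?_, fun j hj => ?_⟩
      · simp only [Pi.add_apply, Pi.smul_apply, smul_eq_mul]
        linear_combination α * hc1.1 + β * hd1.1 + hαβ
      · rw [← hc1.2, ← hd1.2]
        simp only [Pi.add_apply, Pi.smul_apply, smul_eq_mul]
        module
      · have := hc2 j
        have := hd2 j
        simp only [Pi.add_apply, Pi.smul_apply, smul_eq_mul]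
        positivity
      · simp [hc3 j hj, hd3 j hj]
  obtain ⟨c, hc1, hc2⟩ := h1 hx
  rw [(h x).unique hb hc1]
  exact hc2

lemma IsBC.mem_convexHull {T : Fin 3 → E} {x : E} {b : Fin 3 → ℝ} (hb : IsBC T x b)
    (h0 : ∀ j, 0 ≤ b j) {A : Set E} (hA : ∀ j, b j ≠ 0 → T j ∈ A) : x ∈ convexHull ℝ A := by
  classical
  have h1 := (convex_convexHull ℝ A).sum_mem (t := Finset.univ.filter fun j => b j ≠ 0)
    (w := b) (z := T) (fun j _ => h0 j)
    (by rw [Finset.sum_filter_ne_zero, Fin.sum_univ_three]; exact hb.1)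
    (fun j hj => subset_convexHull ℝ A (hA j (Finset.mem_filter.mp hj).2))
  have h2 : ∑ j ∈ Finset.univ.filter (fun j => b j ≠ 0), b j • T j = ∑ j, b j • T j :=
    Finset.sum_filter_of_ne (fun j _ hj h => hj (by simp [h]))
  rw [h2, Fin.sum_univ_three, hb.2] at h1
  exact h1

/-- spine triangles -/
def spT (P : ℤ → E) (l : ℤ) : Fin 3 → E := ![P (l + 3), P (l + 2), P (l + 1)]

/-- hypotheses on the spine positions -/
structure Spine (P : ℤ → E) : Prop where
  ctr_eq : ∀ l, ctr (spT P l) = P l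
  good : ∀ l, Good (spT P l)

/-- positions of the triangle of a slot -/
noncomputable def Tp (P : ℤ → E) (σ : Slot) : Fin 3 → E :=
  slotRec (spT P) (fun i _ T => upd i T (ctr T)) σ.1 σ.2

noncomputable def pos (P : ℤ → E) (σ : Slot) : E := ctr (Tp P σ)

variable {P : ℤ → E}

lemma Tp_spine (l : ℤ) : Tp P (l, 0) = spT P l := slotRec_spine _ _ _

lemma Tp_child (hP : Spine P) (i : Fin 3) (σ : Slot) :
    Tp P (child i σ) = upd i (Tp P σ) (ctr (Tp P σ)) :=
  slotRec_child _ _ (fun l => by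
    rw [hP.ctr_eq]
    ext j : 1
    fin_cases j <;> simp [upd, spT] <;> ring_nf) i σ

lemma Tp_eq (hP : Spine P) (σ : Slot) : ∀ j, Tp P σ j = pos P (tri σ j) := by
  induction σ using slot_induction with
  | h0 l =>
    intro j
    rw [Tp_spine, tri_spine]
    fin_cases j <;> simp [pos, Tp_spine, spT]
    all_goals exact (hP.ctr_eq _).symm
  | h1 σ i ih =>
    intro j
    rw [Tp_child hP, tri_child]
    fin_cases j <;> simp [upd, ih, pos]

lemma good_Tp (hP : Spine P) (σ : Slot) : Good (Tp P σ) := by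
  induction σ using slot_induction with
  | h0 l => rw [Tp_spine]; exact hP.good l
  | h1 σ i ih => rw [Tp_child hP]; exact ih.upd i

/-- barycentric coordinates in the triangle of a slot -/
noncomputable def bc (hP : Spine P) (σ : Slot) (x : E) : Fin 3 → ℝ :=
  (good_Tp hP σ x).exists.choose

lemma isBC_bc (hP : Spine P) (σ : Slot) (x : E) : IsBC (Tp P σ) x (bc hP σ x) :=
  (good_Tp hP σ x).exists.choose_spec

lemma bc_eq (hP : Spine P) {σ : Slot} {x : E} {b : Fin 3 → ℝ} (h : IsBC (Tp P σ) x b) :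
    bc hP σ x = b := (good_Tp hP σ x).unique (isBC_bc hP σ x) h

lemma bc_child (hP : Spine P) (i : Fin 3) (σ : Slot) (x : E) :
    bc hP (child i σ) x = updB i (bc hP σ x) := by
  apply bc_eq
  rw [Tp_child hP, isBC_upd_iff]
  exact isBC_bc hP σ x

/-- closed triangle of a slot -/
def Reg (hP : Spine P) (σ : Slot) (x : E) : Prop := ∀ j, 0 ≤ bc hP σ x j

lemma reg_child_iff (hP : Spine P) (i : Fin 3) (σ : Slot) (x : E) :
    Reg hP (child i σ) x ↔ 0 ≤ bc hP σ x i ∧ ∀ j, bc hP σ x i ≤ bc hP σ x j := by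
  unfold Reg
  rw [bc_child, updB_nonneg_iff]

lemma Reg.par {hP : Spine P} {σ : Slot} {x : E} (h : Reg hP σ x) : Reg hP (par σ) x := by
  rw [← child_lab_par σ, reg_child_iff] at h
  exact fun j => h.1.trans (h.2 j)

lemma Reg.anc {hP : Spine P} {σ : Slot} {x : E} (h : Reg hP σ x) (k : ℕ) :
    Reg hP (anc k σ) x := by
  induction k with
  | zero => exact h
  | succ k ih => rw [anc_succ']; exact ih.par

lemma wt_anc (hP : Spine P) (x : E) (k : ℕ) : ∀ τ, Reg hP τ x → (∃ j, bc hP (anc k τ) x j = 0) →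
    wt (tri τ) (bc hP τ x) = wt (tri (anc k τ)) (bc hP (anc k τ) x) ∧ ∃ j, bc hP τ x j = 0 := by
  induction k with
  | zero => intro τ _ h; exact ⟨rfl, h⟩
  | succ k ih =>
    intro τ hτ h
    rw [anc_succ] at h ⊢
    obtain ⟨h1, j, h2⟩ := ih (par τ) hτ.par h
    rw [← h1]
    have h3 := hτ
    rw [← child_lab_par τ, reg_child_iff] at h3
    have h4 : bc hP (par τ) x (lab τ) = 0 := le_antisymm (h2 ▸ h3.2 j) h3.1
    constructor
    · conv_lhs => rw [← child_lab_par τ, tri_child, bc_child]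
      exact wt_upd_zero _ _ _ _ h4
    · refine ⟨2, ?_⟩
      rw [← child_lab_par τ, bc_child]
      simp [updB, h4]

lemma wt_compare (hP : Spine P) (x : E) {τ τ' : Slot} (h : Reg hP τ x) (h' : Reg hP τ' x)
    (a : ℕ) : ∀ b, anc a τ = anc b τ' → (∃ k, anc k τ = τ') ∨ (∃ k, anc k τ' = τ) ∨
      (wt (tri τ) (bc hP τ x) = wt (tri τ') (bc hP τ' x) ∧ ∃ j, bc hP τ' x j = 0) := by
  induction a with
  | zero => intro b hb; exact Or.inr (Or.inl ⟨b, hb.symm⟩)
  | succ a ih =>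
    intro b hb
    cases b with
    | zero => exact Or.inl ⟨a + 1, hb⟩
    | succ b =>
      rw [anc_succ', anc_succ'] at hb
      by_cases hl : lab (anc a τ) = lab (anc b τ')
      · refine ih b ?_
        rw [← child_lab_par (anc a τ), hl, hb, child_lab_par]
      · right; right
        set σ := par (anc b τ') with hσ
        have e1 : anc a τ = child (lab (anc a τ)) σ := by rw [← hb, child_lab_par]
        have e2 : anc b τ' = child (lab (anc b τ')) σ := by rw [hσ, child_lab_par]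
        generalize lab (anc a τ) = i at hl e1
        generalize lab (anc b τ') = i' at hl e2
        have h1 := h.anc a
        have h2 := h'.anc b
        rw [e1, reg_child_iff] at h1
        rw [e2, reg_child_iff] at h2
        have h3 : bc hP σ x i = bc hP σ x i' := le_antisymm (h1.2 _) (h2.2 _)
        obtain ⟨h4, h5⟩ := wt_upd_upd i i' hl (tri σ) σ _ h3
        obtain ⟨-, h6⟩ := wt_upd_upd i' i (Ne.symm hl) (tri σ) σ _ h3.symm
        obtain ⟨h7, -⟩ := wt_anc hP x a τ h (by rw [e1, bc_child]; exact h5)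
        obtain ⟨h8, h9⟩ := wt_anc hP x b τ' h' (by rw [e2, bc_child]; exact h6)
        refine ⟨?_, h9⟩
        rw [h7, h8, e1, e2, tri_child, tri_child, bc_child, bc_child, h4]

lemma leaf_eq_of_anc {τ τ' : Slot} (h : IsLeaf τ) (h' : IsLeaf τ') {k : ℕ} (hk : anc k τ = τ') :
    τ = τ' := by
  cases k with
  | zero => exact hk
  | succ k =>
    rw [anc_succ] at hk
    have h1 := st_anc k _ h.2
    rw [hk, h'.1] at h1
    have := h.2
    omega

lemma exists_common_anc' (σ τ : Slot) : ∃ a b, anc a σ = anc b τ := by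
  obtain ⟨l1, h1⟩ := exists_spine_anc σ
  obtain ⟨l2, h2⟩ := exists_spine_anc τ
  obtain ⟨a, ha⟩ := h1 _ (le_max_left l1 l2)
  obtain ⟨b, hb⟩ := h2 _ (le_max_right l1 l2)
  exact ⟨a, b, ha.trans hb.symm⟩

lemma wt_leaf_eq (hP : Spine P) (x : E) {τ τ' : Slot} (hτ : IsLeaf τ) (hτ' : IsLeaf τ')
    (h : Reg hP τ x) (h' : Reg hP τ' x) : wt (tri τ) (bc hP τ x) = wt (tri τ') (bc hP τ' x) := by
  obtain ⟨a, b, hab⟩ := exists_common_anc' τ τ'
  rcases wt_compare hP x h h' a b hab with ⟨k, hk⟩ | ⟨k, hk⟩ | h1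
  · rw [leaf_eq_of_anc hτ hτ' hk]
  · rw [leaf_eq_of_anc hτ' hτ hk]
  · exact h1.1

lemma leaf_desc (hP : Spine P) (x : E) {τ σ : Slot} (hτ : IsLeaf τ) (hσ : st σ ≠ 0)
    (h : Reg hP τ x) (h' : ∀ j, 0 < bc hP σ x j) : ∃ k, anc k (par τ) = σ := by
  obtain ⟨a, b, hab⟩ := exists_common_anc' τ σ
  rcases wt_compare hP x h (fun j => (h' j).le) a b hab with ⟨k, hk⟩ | ⟨k, hk⟩ | ⟨-, j, hj⟩
  · cases k with
    | zero => exact absurd (hk ▸ hτ.1) hσ
    | succ k => exact ⟨k, hk⟩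
  · have h1 := st_anc k σ hσ
    rw [hk, hτ.1] at h1
    omega
  · exact absurd hj (h' j).ne'

lemma exists_leaf_reg (hP : Spine P) (x : E) (σ : Slot) (h : st (par σ) ≠ 0) (hx : Reg hP σ x) :
    ∃ τ, IsLeaf τ ∧ Reg hP τ x := by
  induction hn : st σ using Nat.strong_induction_on generalizing σ with
  | _ n ih =>
    by_cases h0 : st σ = 0
    · exact ⟨σ, ⟨h0, h⟩, hx⟩
    · obtain ⟨i, hi⟩ := Finite.exists_min (bc hP σ x)
      have hle := nxt_le i (st σ)
      exact ih (st (child i σ)) (by rw [st_child]; omega) (child i σ)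
        (by rwa [par_child]) ((reg_child_iff hP i σ x).mpr ⟨hx i, hi⟩) rfl

end Pool.Agent.MP_295da9_pr
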