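import Mathlib
import Pool.Agent.MP_295da9_pr.Tree

namespace Pool.Agent.MP_295da9_pr

open MeasureTheory ProbabilityTheory Filter
open scoped ENNReal

/-- vertices -/
abbrev V : Type := {σ : Slot // st σ ≠ 0}

/-- the graph -/
def G : SimpleGraph V where
  Adj u v := (∃ j, tri u.1 j = v.1) ∨ (∃ j, tri v.1 j = u.1)
  symm := ⟨fun _ _ h => h.symm⟩
  loopless := ⟨fun u h => by
    rcases h with ⟨j, h⟩ | ⟨j, h⟩ <;> exact tri_ne_self _ _ h⟩

lemma G_adj {u v : V} : G.Adj u v ↔ (∃ j, tri u.1 j = v.1) ∨ (∃ j, tri v.1 j = u.1) := Iff.rfl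

/-- spine vertices -/
def sp (n : ℕ) : V := ⟨((n : ℤ) + 1, 0), by rw [st_spine]; omega⟩

lemma sp_injective : Function.Injective sp := by
  intro a b h
  have := congrArg (fun v : V => v.1.1) h
  simpa [sp] using this

instance : Infinite V := Infinite.of_injective sp sp_injective

lemma exists_walk_anc (k : ℕ) : ∀ u w : V, anc k u.1 = w.1 → ∃ q : G.Walk u w, q.length = k := by
  induction k with
  | zero =>
    intro u w h
    have : u = w := Subtype.ext h
    subst this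
    exact ⟨.nil, rfl⟩
  | succ k ih =>
    intro u w h
    rw [anc_succ] at h
    obtain ⟨q, hq⟩ := ih ⟨par u.1, st_par_ne u.2⟩ w h
    exact ⟨.cons (v := ⟨par u.1, st_par_ne u.2⟩) (Or.inl ⟨2, tri_two _⟩) q, by simp [hq]⟩

lemma exists_common_anc (σ τ : Slot) : ∃ a b, anc a σ = anc b τ := by
  obtain ⟨l1, h1⟩ := exists_spine_anc σ
  obtain ⟨l2, h2⟩ := exists_spine_anc τ
  obtain ⟨a, ha⟩ := h1 _ (le_max_left l1 l2)
  obtain ⟨b, hb⟩ := h2 _ (le_max_right l1 l2)
  exact ⟨a, b, ha.trans hb.symm⟩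

/-- ancestor vertex -/
def ancV (k : ℕ) (u : V) : V := ⟨anc k u.1, by have := st_anc k u.1 u.2; have := u.2; omega⟩

lemma G_connected : G.Connected := by
  refine ⟨fun u w => ?_⟩
  obtain ⟨a, b, h⟩ := exists_common_anc u.1 w.1
  obtain ⟨q1, -⟩ := exists_walk_anc a u (ancV a u) rfl
  obtain ⟨q2, -⟩ := exists_walk_anc b w (ancV a u) h.symm
  exact ⟨q1.append q2.reverse⟩

lemma near_of_walk {u w : V} (q : G.Walk u w) :
    ∃ a b, a ≤ 5 * q.length ∧ b ≤ 5 * q.length ∧ anc a u.1 = anc b w.1 := by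
  induction q with
  | nil => exact ⟨0, 0, by simp, by simp, rfl⟩
  | @cons u v w h q ih =>
    obtain ⟨a, b, ha, hb, hab⟩ := ih
    simp only [SimpleGraph.Walk.length_cons]
    rcases h with ⟨j, h⟩ | ⟨j, h⟩
    · obtain ⟨k, -, h1, h2⟩ := tri_eq_anc u.1 j
      have := h2 u.2
      exact ⟨a + k, b, by omega, by omega, by rw [anc_add, ← h1, h, hab]⟩
    · obtain ⟨k, -, h1, h2⟩ := tri_eq_anc v.1 j
      have := h2 v.2
      by_cases hk : k ≤ a
      · refine ⟨a - k, b, by omega, by omega, ?_⟩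
        rw [← h, h1, ← anc_add, Nat.sub_add_cancel hk, hab]
      · refine ⟨0, k - a + b, by omega, by omega, ?_⟩
        rw [anc_add, ← hab, ← anc_add, Nat.sub_add_cancel (by omega), ← h1, h, anc_zero]

lemma ball_subset (v : V) (n : ℕ) :
    Subtype.val '' {w : V | G.dist v w ≤ n} ⊆ DF (anc (5 * n) v.1) (10 * n + 1) := by
  rintro _ ⟨w, hw, rfl⟩
  obtain ⟨q, hq⟩ := G_connected.exists_walk_length_eq_dist v w
  obtain ⟨a, b, ha, hb, hab⟩ := near_of_walk q
  have hw' : G.dist v w ≤ n := hw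
  rw [Finset.mem_coe, mem_DF]
  refine ⟨w.2, 5 * n - a + b, by omega, ?_⟩
  rw [anc_add, ← hab, ← anc_add, Nat.sub_add_cancel (by omega)]

lemma subset_ball (v : V) (m n : ℕ) (h : 2 * m ≤ n + 1) (hm : 1 ≤ m) :
    (DF (anc m v.1) m : Set Slot) ⊆ Subtype.val '' {w : V | G.dist v w ≤ n} := by
  intro τ hτ
  rw [Finset.mem_coe, mem_DF] at hτ
  obtain ⟨h1, k, hk, h2⟩ := hτ
  refine ⟨⟨τ, h1⟩, ?_, rfl⟩
  obtain ⟨q1, hq1⟩ := exists_walk_anc m v (ancV m v) rfl
  obtain ⟨q2, hq2⟩ := exists_walk_anc k ⟨τ, h1⟩ (ancV m v) h2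
  have := SimpleGraph.dist_le (q1.append q2.reverse)
  simp only [SimpleGraph.Walk.length_append, SimpleGraph.Walk.length_reverse] at this
  change G.dist v ⟨τ, h1⟩ ≤ n
  omega

lemma ball_finite (v : V) (n : ℕ) : {w : V | G.dist v w ≤ n}.Finite :=
  Set.Finite.of_finite_image ((Finset.finite_toSet _).subset (ball_subset v n))
    Subtype.val_injective.injOn

lemma ball_ncard_le (v : V) (n : ℕ) (hn : 1 ≤ n) :
    {w : V | G.dist v w ≤ n}.ncard ≤ 16875 * n ^ 3 := by
  rw [← Set.ncard_image_of_injective _ Subtype.val_injective]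
  refine (Set.ncard_le_ncard (ball_subset v n) (Finset.finite_toSet _)).trans ?_
  rw [Set.ncard_coe_finset, card_DF]
  refine (D_upper _ _).trans ?_
  have : (10 * n + 1 + 4) ^ 3 ≤ (15 * n) ^ 3 := Nat.pow_le_pow_left (by omega) 3
  nlinarith

lemma le_ball_ncard (v : V) (n : ℕ) (hn : 1 ≤ n) :
    n ^ 3 ≤ 27648 * {w : V | G.dist v w ≤ n}.ncard := by
  rw [← Set.ncard_image_of_injective _ Subtype.val_injective]
  have h1 := Set.ncard_le_ncard (subset_ball v ((n + 1) / 2) n (by omega) (by omega))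
    ((ball_finite v n).image _)
  rw [Set.ncard_coe_finset, card_DF] at h1
  have h2 := st_anc ((n + 1) / 2) v.1 v.2
  have h3 := v.2
  have h4 := D_lower (st (anc ((n + 1) / 2) v.1)) ((n + 1) / 2) (by omega) (by omega)
  have h5 : n ^ 3 ≤ (2 * ((n + 1) / 2)) ^ 3 := Nat.pow_le_pow_left (by omega) 3
  nlinarith

lemma G_locallyFinite (v : V) : (G.neighborSet v).Finite := by
  refine (ball_finite v 1).subset fun w hw => ?_
  exact (SimpleGraph.dist_eq_one_iff_adj.mpr hw).le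

lemma G_growth : ∃ c C : ℝ, 0 < c ∧ c < C ∧ ∀ n : ℕ, 1 ≤ n → ∀ v : V,
    c * (n : ℝ) ^ 3 < ({w | G.dist v w ≤ n}.ncard : ℝ) ∧
      ({w | G.dist v w ≤ n}.ncard : ℝ) < C * (n : ℝ) ^ 3 := by
  refine ⟨1 / 27649, 16876, by norm_num, by norm_num, fun n hn v => ?_⟩
  have h1 : ((n : ℝ)) ^ 3 ≤ 27648 * ({w | G.dist v w ≤ n}.ncard : ℝ) := by
    exact_mod_cast le_ball_ncard v n hn
  have h2 : ({w | G.dist v w ≤ n}.ncard : ℝ) ≤ 16875 * (n : ℝ) ^ 3 := by
    exact_mod_cast ball_ncard_le v n hn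
  have h3 : (0 : ℝ) < (n : ℝ) ^ 3 := by positivity
  constructor <;> nlinarith

lemma walk_stays (σ : Slot) (ω : Set V) (hω : ∀ x : V, (∃ j, tri σ j = x.1) → x ∉ ω)
    {u w : V} (q : G.Walk u w) (hq : ∀ x ∈ q.support, x ∈ ω) (hu : ∃ k, anc k u.1 = σ) :
    ∃ k, anc k w.1 = σ := by
  induction q with
  | nil => exact hu
  | @cons u v w h q ih =>
    refine ih (fun x hx => hq x (by simp [hx])) ?_
    obtain ⟨k, hk⟩ := hu
    rcases h with ⟨j, h⟩ | ⟨j, h⟩
    · rcases tri_desc σ k u.1 hk j with h1 | ⟨j', h1⟩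
      · rwa [h] at h1
      · exact absurd (hq v (by simp)) (hω v ⟨j', by rw [← h1, h]⟩)
    · obtain ⟨k', -, h1, -⟩ := tri_eq_anc v.1 j
      exact ⟨k + k', by rw [anc_add, ← h1, h, hk]⟩

lemma setBer_closed {ι : Type*} (p : unitInterval) (F : Finset ι) :
    setBernoulli Set.univ p {ω : Set ι | ∀ x ∈ F, x ∉ ω} =
      (unitInterval.toNNReal (unitInterval.symm p) : ℝ≥0∞) ^ F.card := by
  rw [setBernoulli_apply']
  have : (fun p : ι → Prop => {i | p i}) ⁻¹' {ω : Set ι | ∀ x ∈ F, x ∉ ω}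
      = Set.pi F (fun _ => {False}) := by
    ext f; simp
  rw [this, Measure.infinitePi_pi _ (fun _ _ => MeasurableSet.of_discrete)]
  simp

lemma measurableSet_closed {ι : Type*} (F : Finset ι) :
    MeasurableSet {ω : Set ι | ∀ x ∈ F, x ∉ ω} := by
  have : {ω : Set ι | ∀ x ∈ F, x ∉ ω} = ⋂ x ∈ F, {ω : Set ι | x ∈ ω}ᶜ := by
    ext; simp
  rw [this]
  exact Finset.measurableSet_biInter _ fun x _ => (measurableSet_mem x).compl

lemma ae_exists_closed {ι : Type*} (p : unitInterval) (hp : p < 1) (T : ℕ → Finset ι)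
    (hT : Pairwise fun a b => Disjoint (T a) (T b)) (hc : ∀ k, (T k).card = 3) :
    setBernoulli Set.univ p {ω : Set ι | ∀ k, ¬ ∀ x ∈ T k, x ∉ ω} = 0 := by
  classical
  set μ := setBernoulli (Set.univ : Set ι) p with hμ
  set r : ℝ≥0∞ := (unitInterval.toNNReal (unitInterval.symm p) : ℝ≥0∞) with hr
  let C : ℕ → Set (Set ι) := fun k => {ω | ∀ x ∈ T k, x ∉ ω}
  have hC : ∀ k, MeasurableSet (C k) := fun k => measurableSet_closed _
  have hCk : ∀ k, μ (C k) = r ^ 3 := fun k => by rw [← hc k]; exact setBer_closed p _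
  have hind : iIndepSet C μ := by
    rw [iIndepSet_iff_meas_biInter hC]
    intro s
    have h1 : ⋂ k ∈ s, C k = {ω | ∀ x ∈ s.biUnion T, x ∉ ω} := by
      ext ω
      simp only [C, Set.mem_iInter, Set.mem_ofPred_eq, Finset.mem_biUnion]
      exact ⟨fun h x ⟨k, hk, hx⟩ => h k hk x hx, fun h k hk x hx => h x ⟨k, hk, hx⟩⟩
    rw [h1, setBer_closed, Finset.card_biUnion (fun a _ b _ hab => hT hab)]
    simp only [hc, hCk, Finset.sum_const, Finset.prod_const, smul_eq_mul]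
    rw [← pow_mul, mul_comm]
  have hr0 : r ≠ 0 := by
    simp only [hr, ne_eq, ENNReal.coe_eq_zero]
    intro h
    have h1 : ((unitInterval.symm p : unitInterval) : ℝ) = 0 := congrArg NNReal.toReal h
    rw [unitInterval.coe_symm_eq] at h1
    have h2 : (p : ℝ) < 1 := hp
    linarith
  have hsum : ∑' k, μ (C k) = ∞ := by
    simp only [hCk]
    exact ENNReal.tsum_const_eq_top_of_ne_zero (pow_ne_zero 3 hr0)
  have h1 := measure_limsup_eq_one hC hind hsum
  have h2 : μ (limsup C atTop)ᶜ = 0 :=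
    (prob_compl_eq_zero_iff (MeasurableSet.measurableSet_limsup hC)).mpr h1
  refine measure_mono_null ?_ h2
  intro ω hω h
  rw [mem_limsup_iff_frequently_mem] at h
  obtain ⟨k, hk⟩ := h.exists
  exact hω k hk

lemma G_percolation (p : unitInterval) (hp : p < 1) (v : V) :
    setBernoulli Set.univ p
      {ω : Set V | {w | ∃ q : G.Walk v w, ∀ x ∈ q.support, x ∈ ω}.Infinite} = 0 := by
  classical
  obtain ⟨l0, hl0⟩ := exists_spine_anc v.1
  let n0 := l0.toNat
  let T : ℕ → Finset V := fun k => {sp (n0 + 3 * k), sp (n0 + 3 * k + 1), sp (n0 + 3 * k + 2)}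
  refine measure_mono_null ?_ (ae_exists_closed p hp T ?_ ?_)
  · intro ω hω k hk
    apply hω
    have h1 := finite_desc (((n0 + 3 * k : ℕ) : ℤ), 0)
    refine Set.Finite.of_finite_image (h1.subset ?_) Subtype.val_injective.injOn
    rintro _ ⟨w, ⟨q, hq⟩, rfl⟩
    refine ⟨w.2, walk_stays _ ω ?_ q hq (hl0 _ (by omega))⟩
    rintro x ⟨j, hj⟩
    apply hk
    rw [tri_spine] at hj
    simp only [T, Finset.mem_insert, Finset.mem_singleton]
    fin_cases j
    · right; right; apply Subtype.ext; rw [← hj]; simp [sp]; ring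
    · right; left; apply Subtype.ext; rw [← hj]; simp [sp]; ring
    · left; apply Subtype.ext; rw [← hj]; simp [sp]
  · intro a b hab
    simp only [T, Finset.disjoint_insert_left, Finset.mem_insert, Finset.mem_singleton,
      Finset.disjoint_singleton_left, sp_injective.eq_iff]
    omega
  · intro k
    rw [Finset.card_eq_three]
    refine ⟨_, _, _, ?_, ?_, ?_, rfl⟩ <;> simp [sp_injective.eq_iff]

end Pool.Agent.MP_295da9_pr
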