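import Mathlib
import Pool.Agent.MP_295da9_pr.Bary
import Pool.Agent.MP_295da9_pr.Graph

namespace Pool.Agent.MP_295da9_pr

section Complex

variable {E : Type*} [AddCommGroup E] [Module ℝ E] {P : ℤ → E}

lemma face_bc (hP : Spine P) {τ : Slot} {s : Set E} (hs : s ⊆ Set.range (Tp P τ)) {x : E}
    (hx : x ∈ convexHull ℝ s) : Reg hP τ x ∧ ∀ j, Tp P τ j ∉ s → bc hP τ x j = 0 :=
  (good_Tp hP τ).of_mem_convexHull hs hx (isBC_bc hP τ x)

/-- the triangulation -/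
def cx (hP : Spine P) : Geometry.SimplicialComplex ℝ E where
  faces := {s | s.Nonempty ∧ ∃ τ, IsLeaf τ ∧ (s : Set E) ⊆ Set.range (Tp P τ)}
  isRelLowerSet_faces := by
    rintro s ⟨hs, τ, hτ, h⟩
    refine ⟨hs, fun t ht htn => ⟨htn, τ, hτ, Set.Subset.trans ?_ h⟩⟩
    exact_mod_cast ht
  indep := by
    rintro s ⟨-, τ, -, h⟩
    exact (good_Tp hP τ).affineIndependent.range.mono h
  inter_subset_convexHull := by
    rintro s t ⟨-, τ, hτ, hs⟩ ⟨-, τ', hτ', ht⟩ x ⟨hxs, hxt⟩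
    obtain ⟨h1, h2⟩ := face_bc hP hs hxs
    obtain ⟨h3, h4⟩ := face_bc hP ht hxt
    have h5 := wt_leaf_eq hP x hτ hτ' h1 h3
    refine (isBC_bc hP τ x).mem_convexHull h1 fun j hj => ⟨?_, ?_⟩
    · by_contra h; exact hj (h2 j h)
    · have h6 : wt (tri τ') (bc hP τ' x) (tri τ j) ≠ 0 := by
        rw [← h5, wt_apply (tri_injective τ)]; exact hj
      obtain ⟨j', h7, h8⟩ := exists_of_wt_ne h6
      rw [Tp_eq hP, ← h7, ← Tp_eq hP]
      by_contra h; exact h8 (h4 j' h)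

lemma mem_cx (hP : Spine P) {s : Finset E} :
    s ∈ (cx hP).faces ↔ s.Nonempty ∧ ∃ τ, IsLeaf τ ∧ (s : Set E) ⊆ Set.range (Tp P τ) := Iff.rfl

lemma exists_leaf_vertex (u : V) : ∃ τ j, IsLeaf τ ∧ tri τ j = u.1 := by
  obtain ⟨τ, h1, ⟨j, h2⟩, -⟩ := exists_leaf (child 0 u.1) (by simpa using u.2) 2 2
  exact ⟨τ, j, h1, by rw [h2, tri_two, par_child]⟩

lemma pos_injective (hP : Spine P) : Function.Injective (fun u : V => pos P u.1) := by
  intro u v huv
  obtain ⟨τ, j, hτ, hj⟩ := exists_leaf_vertex u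
  obtain ⟨τ', j', hτ', hj'⟩ := exists_leaf_vertex v
  have h1 : bc hP τ (pos P u.1) = Pi.single j 1 := by
    apply bc_eq; rw [← hj, ← Tp_eq hP]; exact isBC_vertex _ _
  have h2 : bc hP τ' (pos P u.1) = Pi.single j' 1 := by
    apply bc_eq
    simp only at huv
    rw [huv, ← hj', ← Tp_eq hP]; exact isBC_vertex _ _
  have hn : ∀ a b : Fin 3, (0 : ℝ) ≤ (Pi.single a 1 : Fin 3 → ℝ) b := by
    intro a b; rw [Pi.single_apply]; split_ifs <;> norm_num
  have h3 := wt_leaf_eq hP (pos P u.1) hτ hτ' (fun k => h1 ▸ hn _ _) (fun k => h2 ▸ hn _ _)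
  have h4 : wt (tri τ') (bc hP τ' (pos P u.1)) (tri τ j) ≠ 0 := by
    rw [← h3, wt_apply (tri_injective τ), h1]; simp
  obtain ⟨j'', h5, h6⟩ := exists_of_wt_ne h4
  rw [h2, Pi.single_apply] at h6
  have h7 : j'' = j' := by by_contra h; simp [h] at h6
  apply Subtype.ext
  rw [← hj, ← h5, h7, hj']

lemma range_pos (hP : Spine P) : Set.range (fun u : V => pos P u.1) = (cx hP).vertices := by
  ext x
  rw [Geometry.SimplicialComplex.mem_vertices, mem_cx]
  constructor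
  · rintro ⟨u, rfl⟩
    obtain ⟨τ, j, hτ, hj⟩ := exists_leaf_vertex u
    refine ⟨by simp, τ, hτ, ?_⟩
    simp only [Finset.coe_singleton, Set.singleton_subset_iff]
    exact ⟨j, by rw [Tp_eq hP, hj]⟩
  · rintro ⟨-, τ, hτ, h⟩
    simp only [Finset.coe_singleton, Set.singleton_subset_iff] at h
    obtain ⟨j, rfl⟩ := h
    exact ⟨⟨tri τ j, st_tri_ne τ hτ.2 j⟩, (Tp_eq hP τ j).symm⟩

lemma adj_iff (hP : Spine P) (u v : V) :
    G.Adj u v ↔ u ≠ v ∧ ∃ s ∈ (cx hP).faces, (s : Set E) = {pos P u.1, pos P v.1} := by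
  classical
  have key : ∀ u v : V, (∃ j, tri u.1 j = v.1) →
      ∃ τ, IsLeaf τ ∧ ({pos P u.1, pos P v.1} : Set E) ⊆ Set.range (Tp P τ) := by
    rintro u v ⟨j, hj⟩
    obtain ⟨i, hi⟩ := exists_ne j
    obtain ⟨a, ha⟩ := mem_upd i (tri u.1) u.1 j hi.symm
    obtain ⟨τ, h1, ⟨b, h2⟩, ⟨c, h3⟩⟩ := exists_leaf (child i u.1) (by simpa using u.2) 2 a
    rw [tri_two, par_child] at h2
    rw [tri_child, ha, hj] at h3
    refine ⟨τ, h1, ?_⟩
    rintro x (rfl | rfl)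
    · exact ⟨b, by rw [Tp_eq hP, h2]⟩
    · exact ⟨c, by rw [Tp_eq hP, h3]⟩
  constructor
  · intro h
    refine ⟨h.ne, {pos P u.1, pos P v.1}, ⟨by simp, ?_⟩, by simp⟩
    rcases h with h | h
    · simpa using key u v h
    · obtain ⟨τ, h1, h2⟩ := key v u h
      refine ⟨τ, h1, ?_⟩
      rw [Set.pair_comm] at h2
      simpa using h2
  · rintro ⟨huv, s, ⟨-, τ, hτ, h⟩, hs⟩
    rw [hs] at h
    obtain ⟨a, ha⟩ := h (Set.mem_insert _ _)
    obtain ⟨b, hb⟩ := h (Set.mem_insert_of_mem _ rfl)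
    rw [Tp_eq hP] at ha hb
    have ha' : (⟨tri τ a, st_tri_ne τ hτ.2 a⟩ : V) = u := pos_injective hP ha
    have hb' : (⟨tri τ b, st_tri_ne τ hτ.2 b⟩ : V) = v := pos_injective hP hb
    subst ha' hb'
    exact tri_rel τ a b (fun h => huv (by subst h; rfl))

lemma cx_pure (hP : Spine P) : ∀ s ∈ (cx hP).faces, ∃ t ∈ (cx hP).faces, s ⊆ t ∧ t.card = 3 := by
  classical
  rintro s ⟨-, τ, hτ, h⟩
  refine ⟨Finset.univ.image (Tp P τ), ⟨by simp, τ, hτ, by simp⟩, ?_, ?_⟩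
  · intro x hx
    simpa using h hx
  · rw [Finset.card_image_of_injective _ (good_Tp hP τ).affineIndependent.injective]
    simp

lemma cx_space (hP : Spine P) (hE : ∀ x, ∃ l : ℕ, Reg hP ((l : ℤ), 0) x) :
    (cx hP).space = Set.univ := by
  classical
  rw [Set.eq_univ_iff_forall]
  intro x
  obtain ⟨l, hl⟩ := hE x
  obtain ⟨τ, hτ, hx⟩ := exists_leaf_reg hP x _ (by
    have : par ((l : ℤ), 0) = ((l : ℤ) + 1, 0) := by simp [par]
    rw [this, st_spine]; omega) hl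
  rw [Geometry.SimplicialComplex.mem_space_iff]
  refine ⟨Finset.univ.image (Tp P τ), ⟨by simp, τ, hτ, by simp⟩, ?_⟩
  exact (isBC_bc hP τ x).mem_convexHull hx fun j _ => by simp

lemma cx_finite (hP : Spine P) (A : Set E) (σ : Slot) (hσ : st σ ≠ 0)
    (hA : ∀ x ∈ A, ∀ j, 0 < bc hP σ x j) :
    {s ∈ (cx hP).faces | (convexHull ℝ (s : Set E) ∩ A).Nonempty}.Finite := by
  classical
  have h1 := finite_desc σ
  have h2 : (⋃ u ∈ {τ | st τ ≠ 0 ∧ ∃ k, anc k τ = σ}, ⋃ i : Fin 3,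
      (((Finset.univ.image (Tp P (child i u))).powerset : Finset (Finset E)) :
        Set (Finset E))).Finite :=
    h1.biUnion fun u _ => Set.finite_iUnion fun i => Finset.finite_toSet _
  refine h2.subset ?_
  rintro s ⟨⟨-, τ, hτ, h⟩, x, hx, hxA⟩
  obtain ⟨h3, -⟩ := face_bc hP h hx
  obtain ⟨k, hk⟩ := leaf_desc hP x hτ hσ h3 (hA x hxA)
  simp only [Set.mem_iUnion]
  refine ⟨par τ, ⟨hτ.2, k, hk⟩, lab τ, ?_⟩
  rw [child_lab_par, Finset.mem_coe, Finset.mem_powerset]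
  intro y hy
  simpa using h hy

end Complex

section Plane

open Complex

/-- the multiplier of the spiral -/
noncomputable def lam : ℂ := ⟨-1, Real.sqrt 2⟩

lemma sq2 : Real.sqrt 2 * Real.sqrt 2 = 2 := Real.mul_self_sqrt (by norm_num)

lemma lam_sq : lam * lam = -2 * lam - 3 := by
  apply Complex.ext
  · simp [lam, sq2]; norm_num
  · simp [lam]; ring

lemma lam_ne : lam ≠ 0 := by
  intro h
  have := congrArg Complex.re h
  simp [lam] at this

lemma one_lt_norm_lam : 1 < ‖lam‖ := by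
  have h1 : ‖lam‖ ^ 2 = 3 := by
    rw [Complex.sq_norm, Complex.normSq_apply]; simp [lam, sq2]; norm_num
  nlinarith [norm_nonneg lam]

lemma isBC_base (y : ℂ) (b : Fin 3 → ℝ) : IsBC ![lam * lam, lam, 1] y b ↔
    b = ![((1 - y.re) / 2 - y.im / Real.sqrt 2) / 3, (1 - y.re) / 3 + y.im / Real.sqrt 2 / 3,
      (1 + y.re) / 2] := by
  have h2 : Real.sqrt 2 ≠ 0 := by positivity
  obtain ⟨s, hs⟩ : ∃ s, y.im = s * Real.sqrt 2 := ⟨y.im / Real.sqrt 2, by field_simp⟩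
  rw [lam_sq, hs, mul_div_cancel_right₀ _ h2]
  unfold IsBC
  rw [Complex.ext_iff, hs]
  simp only [funext_iff, Fin.forall_fin_succ, IsEmpty.forall_iff, and_true]
  simp [lam]
  constructor
  · rintro ⟨h1, h3, h4⟩
    have h5 : -2 * b 0 + b 1 = s := by
      apply mul_right_cancel₀ h2
      linarith
    refine ⟨by linarith, by linarith, by linarith⟩
  · rintro ⟨h1, h3, h4⟩
    rw [h1, h3, h4]
    refine ⟨by ring, by ring, by ring⟩

abbrev Pl := EuclideanSpace ℝ (Fin 2)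

noncomputable def eC : ℂ ≃ₗᵢ[ℝ] Pl := Complex.orthonormalBasisOneI.repr

noncomputable def PP (l : ℤ) : Pl := eC (lam ^ l)

lemma isBC_spT (l : ℤ) (x : Pl) (b : Fin 3 → ℝ) :
    IsBC (spT PP l) x b ↔ IsBC ![lam * lam, lam, 1] (eC.symm x / lam ^ (l + 1)) b := by
  have h0 : lam ^ (l + 1) ≠ 0 := zpow_ne_zero _ lam_ne
  have e3 : lam ^ (l + 3) = lam * lam * lam ^ (l + 1) := by
    rw [show l + 3 = (l + 1) + 1 + 1 by ring, zpow_add_one₀ lam_ne, zpow_add_one₀ lam_ne]; ring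
  have e2 : lam ^ (l + 2) = lam * lam ^ (l + 1) := by
    rw [show l + 2 = (l + 1) + 1 by ring, zpow_add_one₀ lam_ne]; ring
  unfold IsBC
  refine and_congr_right fun _ => ?_
  rw [eq_div_iff h0, eq_comm, eq_comm (b := eC.symm x), LinearIsometryEquiv.symm_apply_eq]
  simp only [spT, PP, Matrix.cons_val_zero, Matrix.cons_val_one, Matrix.cons_val_two,
    Matrix.head_cons, Matrix.tail_cons, e3, e2]
  rw [← map_smul, ← map_smul, ← map_smul, ← map_add, ← map_add]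
  simp only [Complex.real_smul]
  apply Eq.congr_right
  congr 1
  ring

lemma spine_PP : Spine PP where
  ctr_eq l := by
    have e1 : lam ^ (l + 1) = lam * lam ^ l := by rw [zpow_add_one₀ lam_ne]; ring
    have e3 : lam ^ (l + 3) = lam * lam * lam * lam ^ l := by
      rw [show l + 3 = (l + 1) + 1 + 1 by ring, zpow_add_one₀ lam_ne, zpow_add_one₀ lam_ne, e1]
      ring
    have e2 : lam ^ (l + 2) = lam * lam * lam ^ l := by
      rw [show l + 2 = (l + 1) + 1 by ring, zpow_add_one₀ lam_ne, e1]; ring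
    simp only [ctr, spT, PP, Matrix.cons_val_zero, Matrix.cons_val_one, Matrix.cons_val_two,
      Matrix.head_cons, Matrix.tail_cons, e3, e2, e1]
    rw [← map_add, ← map_add, ← map_smul]
    congr 1
    simp only [Complex.real_smul]
    push_cast
    linear_combination (lam ^ l * (lam - 1) / 3) * lam_sq
  good l x := by
    simp only [isBC_spT, isBC_base]
    exact existsUnique_eq

lemma exhaust (R : ℝ) : ∃ l : ℕ, 0 < l ∧ ∀ x : Pl, ‖x‖ < R → ∀ j, 0 < bc spine_PP ((l : ℤ), 0) x j := by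
  obtain ⟨n, hn⟩ := pow_unbounded_of_one_lt (4 * R) one_lt_norm_lam
  refine ⟨n + 1, by omega, fun x hx => ?_⟩
  have h1 := isBC_bc spine_PP (((n + 1 : ℕ) : ℤ), 0) x
  rw [Tp_spine, isBC_spT, isBC_base] at h1
  set y := eC.symm x / lam ^ (((n + 1 : ℕ) : ℤ) + 1) with hy
  have hy1 : ‖y‖ < 1 / 4 := by
    have h2 : (((n + 1 : ℕ) : ℤ) + 1) = ((n + 2 : ℕ) : ℤ) := by push_cast; ring
    have h3 : 0 < ‖lam‖ ^ (n + 2) := by have := one_lt_norm_lam; positivity
    have h4 : ‖lam‖ ^ n ≤ ‖lam‖ ^ (n + 2) := pow_le_pow_right₀ one_lt_norm_lam.le (by omega)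
    rw [hy, h2, zpow_natCast, norm_div, norm_pow, LinearIsometryEquiv.norm_map, div_lt_iff₀ h3]
    linarith
  have h2 := abs_lt.mp ((Complex.abs_re_le_norm y).trans_lt hy1)
  have h3 := (Complex.abs_im_le_norm y).trans_lt hy1
  have h4 : |y.im / Real.sqrt 2| < 1 / 4 := by
    have h5 : 1 ≤ Real.sqrt 2 := Real.one_le_sqrt.mpr (by norm_num)
    rw [abs_div, abs_of_pos (by linarith : 0 < Real.sqrt 2)]
    exact (div_le_self (abs_nonneg _) h5).trans_lt h3
  have h5 := abs_lt.mp h4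
  rw [h1]
  intro j
  fin_cases j <;> simp <;> linarith

end Plane

open ProbabilityTheory in
theorem main : ∃ (V : Type) (G : SimpleGraph V) (pos : V → EuclideanSpace ℝ (Fin 2))
    (K : Geometry.SimplicialComplex ℝ (EuclideanSpace ℝ (Fin 2))),
    G.Connected ∧ Infinite V ∧ (∀ v, (G.neighborSet v).Finite) ∧
    Function.Injective pos ∧ Set.range pos = K.vertices ∧
    (∀ u v, G.Adj u v ↔ u ≠ v ∧ ∃ s ∈ K.faces,
      (s : Set (EuclideanSpace ℝ (Fin 2))) = {pos u, pos v}) ∧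
    K.space = Set.univ ∧ (∀ s ∈ K.faces, ∃ t ∈ K.faces, s ⊆ t ∧ t.card = 3) ∧
    (∀ R : ℝ, {s ∈ K.faces |
      (convexHull ℝ (s : Set (EuclideanSpace ℝ (Fin 2))) ∩ Metric.ball 0 R).Nonempty}.Finite) ∧
    (∃ c C : ℝ, 0 < c ∧ c < C ∧ ∀ n : ℕ, 1 ≤ n → ∀ v : V,
      c * (n : ℝ) ^ 3 < ({w | G.dist v w ≤ n}.ncard : ℝ) ∧
        ({w | G.dist v w ≤ n}.ncard : ℝ) < C * (n : ℝ) ^ 3) ∧
    ∀ p : unitInterval, p < 1 → ∀ v : V, setBernoulli Set.univ p
      {ω : Set V | {w | ∃ q : G.Walk v w, ∀ x ∈ q.support, x ∈ ω}.Infinite} = 0 := by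
  refine ⟨V, G, fun u => pos PP u.1, cx spine_PP, G_connected, inferInstance, G_locallyFinite,
    pos_injective spine_PP, range_pos spine_PP, adj_iff spine_PP, cx_space spine_PP ?_,
    cx_pure spine_PP, ?_, G_growth, G_percolation⟩
  · intro x
    obtain ⟨l, -, hl⟩ := exhaust (‖x‖ + 1)
    exact ⟨l, fun j => (hl x (by linarith) j).le⟩
  · intro R
    obtain ⟨l, hl0, hl⟩ := exhaust R
    exact cx_finite spine_PP _ ((l : ℤ), 0) (by rw [st_spine]; omega)
      (fun x hx => hl x (by simpa using hx))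

end Pool.Agent.MP_295da9_pr
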