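import Mathlib
import Pool.Agent.MP_295da9_pr.Bary

/-! Barycentric coordinates for the two subdivision templates: the stellar split of a triangle
at its centroid and the split into four at the midpoints of the sides. -/

namespace Pool.Agent.MP_295da9_pr.Th

variable {E : Type*} [AddCommGroup E] [Module ℝ E]

/-- indices of children -/
abbrev Ix := Fin 3 ⊕ Option (Fin 3)

/-- the four triangles of the midpoint split -/
noncomputable def quadT : Option (Fin 3) → (Fin 3 → E) → Fin 3 → E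
  | some j, T => fun m => (1 / 2 : ℝ) • (T j + T m)
  | none, T => fun m => (1 / 2 : ℝ) • (T 0 + T 1 + T 2 - T m)

/-- coordinates in the four triangles -/
def quadB : Option (Fin 3) → (Fin 3 → ℝ) → Fin 3 → ℝ
  | some j, b => fun m => 2 * b m - if m = j then 1 else 0
  | none, b => fun m => 1 - 2 * b m

/-- child triangle, `w` being the new point of a stellar split -/
noncomputable def chT : Ix → (Fin 3 → E) → E → Fin 3 → E
  | .inl i, T, w => upd i T w
  | .inr k, T, _ => quadT k T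

/-- child coordinates -/
def chB : Ix → (Fin 3 → ℝ) → Fin 3 → ℝ
  | .inl i, b => updB i b
  | .inr k, b => quadB k b

lemma isBC_quad_iff (k : Option (Fin 3)) (T : Fin 3 → E) (x : E) (b : Fin 3 → ℝ) :
    IsBC (quadT k T) x (quadB k b) ↔ IsBC T x b := by
  unfold IsBC
  have h1 : quadB k b 0 + quadB k b 1 + quadB k b 2 = 1 ↔ b 0 + b 1 + b 2 = 1 := by
    rcases k with _ | j
    · simp only [quadB]; constructor <;> intro h <;> linarith
    · fin_cases j <;> simp [quadB] <;> constructor <;> intro h <;> linarith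
  rw [h1]
  refine and_congr_right fun h => ?_
  have h0 : b 0 = 1 - b 1 - b 2 := by linarith
  have h2 : quadB k b 0 • quadT k T 0 + quadB k b 1 • quadT k T 1 + quadB k b 2 • quadT k T 2
      = b 0 • T 0 + b 1 • T 1 + b 2 • T 2 := by
    rcases k with _ | j
    · simp only [quadB, quadT, h0]; module
    · fin_cases j <;> simp [quadB, quadT, h0] <;> module
  rw [h2]

lemma quadB_surj (k : Option (Fin 3)) (b' : Fin 3 → ℝ) : ∃ b, quadB k b = b' := by
  rcases k with _ | j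
  · exact ⟨fun m => (1 - b' m) / 2, by ext m; simp only [quadB]; ring⟩
  · exact ⟨fun m => (b' m + if m = j then 1 else 0) / 2, by ext m; simp only [quadB]; ring⟩

lemma isBC_ch_iff (k : Ix) (T : Fin 3 → E) (x : E) (b : Fin 3 → ℝ) :
    IsBC (chT k T (ctr T)) x (chB k b) ↔ IsBC T x b := by
  rcases k with i | k
  · exact isBC_upd_iff i T x b
  · exact isBC_quad_iff k T x b

lemma chB_surj (k : Ix) (b' : Fin 3 → ℝ) : ∃ b, chB k b = b' := by
  rcases k with i | k
  · exact updB_surj i b'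
  · exact quadB_surj k b'

lemma good_ch {T : Fin 3 → E} (h : Good T) (k : Ix) : Good (chT k T (ctr T)) := by
  intro x
  obtain ⟨b, hb, hu⟩ := h x
  refine ⟨chB k b, (isBC_ch_iff k T x b).mpr hb, fun b' hb' => ?_⟩
  obtain ⟨c, rfl⟩ := chB_surj k b'
  rw [hu c ((isBC_ch_iff k T x c).mp hb')]

lemma chB_inj (k : Ix) {b c : Fin 3 → ℝ} (h : chB k b = chB k c) : b = c := by
  have h0 := congrFun h 0
  have h1 := congrFun h 1
  have h2 := congrFun h 2
  rcases k with i | _ | j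
  · ext m
    fin_cases i <;> fin_cases m <;> simp [chB, updB] at h0 h1 h2 ⊢ <;> linarith
  · ext m
    fin_cases m <;> simp [chB, quadB] at h0 h1 h2 ⊢ <;> linarith
  · ext m
    fin_cases m <;> simp [chB, quadB] at h0 h1 h2 ⊢ <;> linarith

lemma good_of_ch {T : Fin 3 → E} (k : Ix) (h : Good (chT k T (ctr T))) : Good T := by
  intro x
  obtain ⟨b', hb, hu⟩ := h x
  obtain ⟨b, rfl⟩ := chB_surj k b'
  refine ⟨b, (isBC_ch_iff k T x b).mp hb, fun c hc => ?_⟩
  exact chB_inj k (hu _ ((isBC_ch_iff k T x c).mpr hc))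

lemma chT_surj (k : Ix) (T' : Fin 3 → E) : ∃ T, chT k T (ctr T) = T' := by
  rcases k with i | _ | j
  · fin_cases i
    · refine ⟨![(3 : ℝ) • T' 2 - T' 0 - T' 1, T' 0, T' 1], ?_⟩
      ext m; fin_cases m <;> simp [chT, upd, ctr]; module
    · refine ⟨![T' 0, (3 : ℝ) • T' 2 - T' 0 - T' 1, T' 1], ?_⟩
      ext m; fin_cases m <;> simp [chT, upd, ctr]; module
    · refine ⟨![T' 0, T' 1, (3 : ℝ) • T' 2 - T' 0 - T' 1], ?_⟩
      ext m; fin_cases m <;> simp [chT, upd, ctr]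
  · refine ⟨fun m => T' 0 + T' 1 + T' 2 - (2 : ℝ) • T' m, ?_⟩
    ext m; simp only [chT, quadT]; module
  · refine ⟨fun m => (2 : ℝ) • T' m - T' j, ?_⟩
    ext m; simp only [chT, quadT]; module

open Classical in
/-- barycentric coordinates -/
noncomputable def bcf (T : Fin 3 → E) (x : E) : Fin 3 → ℝ :=
  if h : ∃ b, IsBC T x b then h.choose else 0

lemma isBC_bcf {T : Fin 3 → E} (h : Good T) (x : E) : IsBC T x (bcf T x) := by
  unfold bcf
  rw [dif_pos (h x).exists]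
  exact (h x).exists.choose_spec

lemma bcf_eq {T : Fin 3 → E} (h : Good T) {x : E} {b : Fin 3 → ℝ} (hb : IsBC T x b) :
    bcf T x = b := (h x).unique (isBC_bcf h x) hb

lemma bcf_sum {T : Fin 3 → E} (h : Good T) (x : E) : bcf T x 0 + bcf T x 1 + bcf T x 2 = 1 :=
  (isBC_bcf h x).1

lemma bcf_ch {T : Fin 3 → E} (h : Good T) (k : Ix) (x : E) :
    bcf (chT k T (ctr T)) x = chB k (bcf T x) :=
  bcf_eq (good_ch h k) ((isBC_ch_iff k T x _).mpr (isBC_bcf h x))

lemma bcf_vertex {T : Fin 3 → E} (h : Good T) (j : Fin 3) : bcf T (T j) = Pi.single j 1 :=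
  bcf_eq h (isBC_vertex T j)

lemma eq_of_bcf_eq {T : Fin 3 → E} (h : Good T) {x y : E} (hxy : bcf T x = bcf T y) : x = y := by
  rw [← (isBC_bcf h x).2, ← (isBC_bcf h y).2, hxy]

lemma eq_vertex_of_bcf {T : Fin 3 → E} (h : Good T) {x : E} {j : Fin 3}
    (hx : bcf T x = Pi.single j 1) : x = T j :=
  eq_of_bcf_eq h (hx.trans (bcf_vertex h j).symm)

/-- nonnegative vector -/
def NN (b : Fin 3 → ℝ) : Prop := ∀ j, 0 ≤ b j

/-- positive vector -/
def PP (b : Fin 3 → ℝ) : Prop := ∀ j, 0 < b j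

lemma PP.nn {b : Fin 3 → ℝ} (h : PP b) : NN b := fun j => (h j).le

lemma nn_iff (b : Fin 3 → ℝ) : NN b ↔ 0 ≤ b 0 ∧ 0 ≤ b 1 ∧ 0 ≤ b 2 := by
  simp [NN, Fin.forall_fin_succ]

lemma pp_iff (b : Fin 3 → ℝ) : PP b ↔ 0 < b 0 ∧ 0 < b 1 ∧ 0 < b 2 := by
  simp [PP, Fin.forall_fin_succ]

lemma nn_single (j : Fin 3) : NN (Pi.single j 1) := by
  intro m; rw [Pi.single_apply]; split_ifs <;> norm_num

lemma not_pp_single (j : Fin 3) : ¬ PP (Pi.single j 1) := by
  rw [pp_iff]; fin_cases j <;> simp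

lemma nn_of_ch (k : Ix) {b : Fin 3 → ℝ} (hs : b 0 + b 1 + b 2 = 1) (h : NN (chB k b)) : NN b := by
  rw [nn_iff] at h ⊢
  rcases k with i | _ | j
  · fin_cases i <;> simp [chB, updB] at h <;> refine ⟨?_, ?_, ?_⟩ <;> linarith
  · simp [chB, quadB] at h; refine ⟨?_, ?_, ?_⟩ <;> linarith
  · fin_cases j <;> simp [chB, quadB] at h <;> refine ⟨?_, ?_, ?_⟩ <;> linarith

lemma pp_of_ch (k : Ix) {b : Fin 3 → ℝ} (hs : b 0 + b 1 + b 2 = 1) (h : PP (chB k b)) : PP b := by
  rw [pp_iff] at h ⊢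
  rcases k with i | _ | j
  · fin_cases i <;> simp [chB, updB] at h <;> refine ⟨?_, ?_, ?_⟩ <;> linarith
  · simp [chB, quadB] at h; refine ⟨?_, ?_, ?_⟩ <;> linarith
  · fin_cases j <;> simp [chB, quadB] at h <;> refine ⟨?_, ?_, ?_⟩ <;> linarith

lemma cover_tri {b : Fin 3 → ℝ} (h : NN b) : ∃ i, NN (chB (.inl i) b) := by
  obtain ⟨i, hi⟩ := Finite.exists_min b
  exact ⟨i, (updB_nonneg_iff i b).mpr ⟨h i, hi⟩⟩

lemma cover_quad {b : Fin 3 → ℝ} (h : NN b) : ∃ k, NN (chB (.inr k) b) := by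
  by_cases h1 : ∃ j, 1 ≤ 2 * b j
  · obtain ⟨j, hj⟩ := h1
    refine ⟨some j, fun m => ?_⟩
    have := h m
    simp only [chB, quadB]
    split_ifs with hm
    · subst hm; linarith
    · linarith
  · push Not at h1
    exact ⟨none, fun m => by simp only [chB, quadB]; linarith [h1 m]⟩

lemma sep_tri {i i' : Fin 3} (hi : i ≠ i') {b : Fin 3 → ℝ} (h : NN (chB (.inl i) b))
    (h' : NN (chB (.inl i') b)) : b i = b i' ∧ ¬ PP (chB (.inl i) b) := by
  have h1 := (updB_nonneg_iff i b).mp h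
  have h2 := (updB_nonneg_iff i' b).mp h'
  have h3 : b i = b i' := le_antisymm (h1.2 _) (h2.2 _)
  refine ⟨h3, fun hp => ?_⟩
  rw [pp_iff] at hp
  fin_cases i <;> fin_cases i' <;> simp [chB, updB] at hi hp h3 <;> linarith

lemma sep_quad {k k' : Option (Fin 3)} (hk : k ≠ k') {b : Fin 3 → ℝ} (hs : b 0 + b 1 + b 2 = 1)
    (h' : NN (chB (.inr k') b)) : ¬ PP (chB (.inr k) b) := by
  intro hp
  rw [pp_iff] at hp
  rw [nn_iff] at h'
  rcases k with _ | j <;> rcases k' with _ | j'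
  · exact hk rfl
  · fin_cases j' <;> simp [chB, quadB] at hp h' <;> linarith
  · fin_cases j <;> simp [chB, quadB] at hp h' <;> linarith
  · fin_cases j <;> fin_cases j' <;> simp [chB, quadB] at hk hp h' <;> linarith

/-- `c` is a point of the lattice of mesh `2 ^ (-e)` within `r` meshes of `b` -/
def Car (e : ℕ) (r : ℝ) (b c : Fin 3 → ℝ) : Prop :=
  ∀ j, ∃ k : ℤ, 2 ^ e * c j = k ∧ |2 ^ e * b j - k| ≤ r

lemma car_iff (e : ℕ) (r : ℝ) (b c : Fin 3 → ℝ) : Car e r b c ↔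
    (∃ k : ℤ, 2 ^ e * c 0 = k ∧ |2 ^ e * b 0 - k| ≤ r) ∧
    (∃ k : ℤ, 2 ^ e * c 1 = k ∧ |2 ^ e * b 1 - k| ≤ r) ∧
    (∃ k : ℤ, 2 ^ e * c 2 = k ∧ |2 ^ e * b 2 - k| ≤ r) := by
  simp [Car, Fin.forall_fin_succ]

lemma car_quad (k : Option (Fin 3)) (e : ℕ) (r : ℝ) (b c : Fin 3 → ℝ) :
    Car e r (quadB k b) (quadB k c) ↔ Car (e + 1) r b c := by
  refine forall_congr' fun j => ?_
  rcases k with _ | i
  · simp only [quadB]
    constructor
    · rintro ⟨k, h1, h2⟩
      refine ⟨2 ^ e - k, by push_cast; rw [pow_succ]; linarith, ?_⟩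
      rw [abs_sub_comm] at h2
      convert h2 using 2
      push_cast; rw [pow_succ]; ring
    · rintro ⟨k, h1, h2⟩
      refine ⟨2 ^ e - k, by push_cast; rw [pow_succ] at h1; linarith, ?_⟩
      rw [abs_sub_comm] at h2
      convert h2 using 2
      push_cast; rw [pow_succ]; ring
  · simp only [quadB]
    split_ifs
    · constructor
      · rintro ⟨k, h1, h2⟩
        refine ⟨k + 2 ^ e, by push_cast; rw [pow_succ]; linarith, ?_⟩
        convert h2 using 2
        push_cast; rw [pow_succ]; ring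
      · rintro ⟨k, h1, h2⟩
        refine ⟨k - 2 ^ e, by push_cast; rw [pow_succ] at h1; linarith, ?_⟩
        convert h2 using 2
        push_cast; rw [pow_succ]; ring
    · rw [pow_succ]
      simp only [sub_zero, mul_assoc]

lemma int_zero_of_abs {k : ℤ} {r : ℝ} (hr : r < 1) (h : |(k : ℝ)| ≤ r) : k = 0 := by
  have h1 : |(k : ℝ)| < 1 := h.trans_lt hr
  have h2 : |k| < 1 := by exact_mod_cast h1
  have := abs_lt.mp h2
  omega

lemma car_zero {e : ℕ} {r : ℝ} (hr : r < 1) {u v : ℝ} (hu : u = 0)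
    (h : ∃ k : ℤ, 2 ^ e * v = k ∧ |2 ^ e * u - k| ≤ r) : v = 0 := by
  obtain ⟨k, h1, h2⟩ := h
  rw [hu, mul_zero, zero_sub, abs_neg] at h2
  rw [int_zero_of_abs hr h2] at h1
  have : (0 : ℝ) < 2 ^ e := by positivity
  simpa [this.ne'] using h1

lemma car_tri (i : Fin 3) (e : ℕ) {r : ℝ} (hr : r < 1) {b : Fin 3 → ℝ} (c : Fin 3 → ℝ)
    (hb : b i = 0) : Car e r (updB i b) (updB i c) ↔ Car e r b c := by
  constructor
  · intro h
    have h2 : c i = 0 := by
      have := car_zero hr (u := updB i b 2) (v := updB i c 2) (by simp [updB, hb]) (h 2)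
      simpa [updB] using this
    rw [car_iff] at h ⊢
    fin_cases i <;> simp [updB] at hb h2 h ⊢ <;> simp [hb, h2] at h ⊢ <;> tauto
  · intro h
    have h2 : c i = 0 := car_zero hr hb (h i)
    rw [car_iff] at h ⊢
    fin_cases i <;> simp [updB] at hb h2 h ⊢ <;> simp [hb, h2] at h ⊢ <;> tauto

lemma car_sib {i i' : Fin 3} (hi : i ≠ i') (e : ℕ) {r : ℝ} (hr : r < 1) {b : Fin 3 → ℝ}
    (c : Fin 3 → ℝ) (hb : b i = b i') (h : Car e r (updB i b) (updB i c)) :
    Car e r (updB i' b) (updB i' c) := by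
  have h0 := fun h' => car_zero hr (u := updB i b 0) (v := updB i c 0) h' (h 0)
  have h1 := fun h' => car_zero hr (u := updB i b 1) (v := updB i c 1) h' (h 1)
  have h2 : c i = c i' := by
    fin_cases i <;> fin_cases i' <;> simp [updB] at hi hb h0 h1 ⊢ <;>
      first
      | linarith [h0 (by linarith)]
      | linarith [h1 (by linarith)]
  rw [car_iff] at h ⊢
  fin_cases i <;> fin_cases i' <;> simp [updB] at hi hb h2 h ⊢ <;> simp [hb, h2] at h ⊢ <;> tauto

lemma car_single {r : ℝ} {b : Fin 3 → ℝ} (hs : b 0 + b 1 + b 2 = 1) (hb : NN b) (j : Fin 3)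
    (h : 1 - b j ≤ r) : Car 0 r b (Pi.single j 1) := by
  rw [nn_iff] at hb
  intro m
  by_cases hm : m = j
  · subst hm
    refine ⟨1, by simp, ?_⟩
    simp only [pow_zero, one_mul, Int.cast_one]
    rw [abs_le]
    fin_cases m <;> simp at h ⊢ <;> constructor <;> linarith
  · refine ⟨0, by simp [hm], ?_⟩
    simp only [pow_zero, one_mul, Int.cast_zero, sub_zero]
    rw [abs_le]
    fin_cases m <;> fin_cases j <;> simp at h hm ⊢ <;> constructor <;> linarith

lemma single_of_car {r : ℝ} (hr : r < 1) {b c : Fin 3 → ℝ} (hs : b 0 + b 1 + b 2 = 1) (hb : NN b)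
    (hc : c 0 + c 1 + c 2 = 1) (h : Car 0 r b c) : ∃ j, c = Pi.single j 1 ∧ 1 - b j ≤ r := by
  rw [nn_iff] at hb
  rw [car_iff] at h
  obtain ⟨⟨k0, a0, b0⟩, ⟨k1, a1, b1⟩, ⟨k2, a2, b2⟩⟩ := h
  simp only [pow_zero, one_mul] at a0 a1 a2 b0 b1 b2
  rw [abs_le] at b0 b1 b2
  have e0 : (-1 : ℤ) < k0 := by
    have : ((-1 : ℤ) : ℝ) < k0 := by push_cast; linarith
    exact_mod_cast this
  have e1 : (-1 : ℤ) < k1 := by
    have : ((-1 : ℤ) : ℝ) < k1 := by push_cast; linarith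
    exact_mod_cast this
  have e2 : (-1 : ℤ) < k2 := by
    have : ((-1 : ℤ) : ℝ) < k2 := by push_cast; linarith
    exact_mod_cast this
  have e3 : k0 + k1 + k2 = 1 := by
    have : ((k0 + k1 + k2 : ℤ) : ℝ) = (1 : ℤ) := by push_cast; linarith
    exact_mod_cast this
  have e4 : (k0 = 1 ∧ k1 = 0 ∧ k2 = 0) ∨ (k0 = 0 ∧ k1 = 1 ∧ k2 = 0) ∨
      (k0 = 0 ∧ k1 = 0 ∧ k2 = 1) := by omega
  rcases e4 with ⟨rfl, rfl, rfl⟩ | ⟨rfl, rfl, rfl⟩ | ⟨rfl, rfl, rfl⟩
  · refine ⟨0, ?_, by push_cast at b0; linarith⟩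
    ext m; fin_cases m <;> simp [a0, a1, a2]
  · refine ⟨1, ?_, by push_cast at b1; linarith⟩
    ext m; fin_cases m <;> simp [a0, a1, a2]
  · refine ⟨2, ?_, by push_cast at b2; linarith⟩
    ext m; fin_cases m <;> simp [a0, a1, a2]

/-- value of the affine interpolation -/
def val (g b : Fin 3 → ℝ) : ℝ := b 0 * g 0 + b 1 * g 1 + b 2 * g 2

lemma val_single (g : Fin 3 → ℝ) (j : Fin 3) : val g (Pi.single j 1) = g j := by
  fin_cases j <;> simp [val]

lemma val_quad (k : Option (Fin 3)) (g : Fin 3 → ℝ) {b : Fin 3 → ℝ} (hs : b 0 + b 1 + b 2 = 1) :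
    val (quadT k g) (quadB k b) = val g b := by
  have h0 : b 0 = 1 - b 1 - b 2 := by linarith
  rcases k with _ | j
  · simp only [val, quadB, quadT, h0, smul_eq_mul]; ring
  · fin_cases j <;> simp [val, quadB, quadT, h0] <;> ring

lemma val_tri (i : Fin 3) (g : Fin 3 → ℝ) (w : ℝ) {b : Fin 3 → ℝ} (hb : b i = 0) :
    val (upd i g w) (updB i b) = val g b := by
  fin_cases i <;> simp [val, updB, upd] at hb ⊢ <;> simp [hb]

lemma val_sib {i i' : Fin 3} (hi : i ≠ i') (g : Fin 3 → ℝ) (w : ℝ) {b : Fin 3 → ℝ}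
    (hb : b i = b i') : val (upd i g w) (updB i b) = val (upd i' g w) (updB i' b) := by
  fin_cases i <;> fin_cases i' <;> simp [val, updB, upd] at hi hb ⊢ <;> simp [hb]

lemma zero_of_bdy_tri {i : Fin 3} {b : Fin 3 → ℝ} (h : NN (chB (.inl i) b)) (hb : ¬ PP b) :
    b i = 0 := by
  have h1 := (updB_nonneg_iff i b).mp h
  by_contra h2
  exact hb fun j => lt_of_lt_of_le (lt_of_le_of_ne h1.1 (Ne.symm h2)) (h1.2 j)

end Pool.Agent.MP_295da9_pr.Th
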