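import Mathlib
import Pool.Agent.MP_295da9_pr.ThGeo

/-! Subdivision trees, placed and decorated nodes, cells of a given level. -/

namespace Pool.Agent.MP_295da9_pr.Th

/-- subdivision trees -/
inductive Tr : Type
  | leaf : Tr
  | tri (c : Fin 3 → Tr) : Tr
  | quad (c : Option (Fin 3) → Tr) : Tr

/-- well levelled: the sides of a node of level `a` get cut into `2 ^ a` pieces -/
def WL : Tr → ℕ → Prop
  | .leaf, a => a = 0
  | .tri c, a => ∀ i, WL (c i) a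
  | .quad c, a => 1 ≤ a ∧ ∀ k, WL (c k) (a - 1)

/-- indices of the children -/
def idx : Tr → Finset Ix
  | .leaf => ∅
  | .tri _ => Finset.univ.map Function.Embedding.inl
  | .quad _ => Finset.univ.map Function.Embedding.inr

/-- subtree -/
def sub : Tr → Ix → Tr
  | .tri c, .inl i => c i
  | .quad c, .inr k => c k
  | _, _ => .leaf

/-- level of a child -/
def lvl (a : ℕ) : Ix → ℕ
  | .inl _ => a
  | .inr _ => a - 1

@[simp] lemma mem_idx_leaf (k : Ix) : k ∈ idx .leaf ↔ False := by simp [idx]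

@[simp] lemma mem_idx_tri (c : Fin 3 → Tr) (k : Ix) : k ∈ idx (.tri c) ↔ ∃ i, .inl i = k := by
  simp [idx]

@[simp] lemma mem_idx_quad (c : Option (Fin 3) → Tr) (k : Ix) :
    k ∈ idx (.quad c) ↔ ∃ i, .inr i = k := by
  simp only [idx, Finset.mem_map, Finset.mem_univ, true_and]; rfl

lemma sum_idx_tri {M : Type*} [AddCommMonoid M] (c : Fin 3 → Tr) (f : Ix → M) :
    ∑ k ∈ idx (.tri c), f k = ∑ i, f (.inl i) := by simp [idx]

lemma sum_idx_quad {M : Type*} [AddCommMonoid M] (c : Option (Fin 3) → Tr) (f : Ix → M) :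
    ∑ k ∈ idx (.quad c), f k = ∑ i, f (.inr i) := by
  simp only [idx, Finset.sum_map]; rfl

lemma card_idx_le (t : Tr) : (idx t).card ≤ 4 := by
  cases t <;> simp [idx]

lemma Tr.ind {P : Tr → Prop} (h : ∀ t, (∀ k ∈ idx t, P (sub t k)) → P t) (t : Tr) : P t := by
  induction t with
  | leaf => exact h _ (by simp)
  | tri c ih =>
    refine h _ fun k hk => ?_
    obtain ⟨i, rfl⟩ := (mem_idx_tri c k).1 hk
    exact ih i
  | quad c ih =>
    refine h _ fun k hk => ?_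
    obtain ⟨i, rfl⟩ := (mem_idx_quad c k).1 hk
    exact ih i

lemma WL.sub {t : Tr} {a : ℕ} (h : WL t a) {k : Ix} (hk : k ∈ idx t) :
    WL (sub t k) (lvl a k) := by
  cases t with
  | leaf => simp at hk
  | tri c => obtain ⟨i, rfl⟩ := (mem_idx_tri c k).1 hk; exact h i
  | quad c => obtain ⟨i, rfl⟩ := (mem_idx_quad c k).1 hk; exact h.2 i

lemma lvl_le (a : ℕ) (k : Ix) : lvl a k ≤ a := by cases k <;> simp [lvl]

lemma le_lvl (a : ℕ) (k : Ix) : a ≤ lvl a k + 1 := by cases k <;> simp [lvl]; omega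

/-- placed and decorated node -/
structure Nd (E : Type*) where
  t : Tr
  a : ℕ
  T : Fin 3 → E
  g : Fin 3 → ℝ

/-- rules for the decoration of a new centroid -/
abbrev Rule := ℕ → (Fin 3 → ℝ) → ℝ

variable {E : Type*} [AddCommGroup E] [Module ℝ E]

/-- child node -/
noncomputable def Nd.ch (ρ : Rule) (σ : Nd E) (k : Ix) : Nd E :=
  ⟨sub σ.t k, lvl σ.a k, chT k σ.T (ctr σ.T), chT k σ.g (ρ σ.a σ.g)⟩

lemma Nd.ind (ρ : Rule) {P : Nd E → Prop}
    (h : ∀ σ : Nd E, (∀ k ∈ idx σ.t, P (σ.ch ρ k)) → P σ) (σ : Nd E) : P σ := by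
  obtain ⟨t, a, T, g⟩ := σ
  induction t using Tr.ind generalizing a T g with
  | _ t ih => exact h _ fun k hk => ih k hk _ _ _

/-- a valid node -/
def OK (σ : Nd E) : Prop := Good σ.T ∧ WL σ.t σ.a

/-- closed triangle -/
def Reg (T : Fin 3 → E) (x : E) : Prop := NN (bcf T x)

/-- open triangle -/
def Int (T : Fin 3 → E) (x : E) : Prop := PP (bcf T x)

lemma Int.reg {T : Fin 3 → E} {x : E} (h : Int T x) : Reg T x := PP.nn h

lemma reg_vertex {T : Fin 3 → E} (h : Good T) (j : Fin 3) : Reg T (T j) := by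
  unfold Reg; rw [bcf_vertex h]; exact nn_single j

lemma not_int_vertex {T : Fin 3 → E} (h : Good T) (j : Fin 3) : ¬ Int T (T j) := by
  unfold Int; rw [bcf_vertex h]; exact not_pp_single j

variable {ρ : Rule}

lemma OK.ch {σ : Nd E} (h : OK σ) {k : Ix} (hk : k ∈ idx σ.t) : OK (σ.ch ρ k) :=
  ⟨good_ch h.1 k, h.2.sub hk⟩

lemma bcf_chN {σ : Nd E} (h : Good σ.T) (k : Ix) (x : E) :
    bcf (σ.ch ρ k).T x = chB k (bcf σ.T x) := bcf_ch h k x

lemma reg_of_chT {T : Fin 3 → E} (h : Good T) {k : Ix} {x : E} (hx : Reg (chT k T (ctr T)) x) :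
    Reg T x := by
  unfold Reg at hx ⊢
  rw [bcf_ch h] at hx
  exact nn_of_ch k (bcf_sum h x) hx

lemma int_of_chT {T : Fin 3 → E} (h : Good T) {k : Ix} {x : E} (hx : Int (chT k T (ctr T)) x) :
    Int T x := by
  unfold Int at hx ⊢
  rw [bcf_ch h] at hx
  exact pp_of_ch k (bcf_sum h x) hx

lemma reg_of_ch {σ : Nd E} (h : OK σ) {k : Ix} {x : E} (hx : Reg (σ.ch ρ k).T x) : Reg σ.T x :=
  reg_of_chT h.1 hx

lemma int_of_ch {σ : Nd E} (h : OK σ) {k : Ix} {x : E} (hx : Int (σ.ch ρ k).T x) : Int σ.T x :=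
  int_of_chT h.1 hx

lemma cover_ch (ρ : Rule) {σ : Nd E} (h : OK σ) (ht : σ.t ≠ .leaf) {x : E} (hx : Reg σ.T x) :
    ∃ k ∈ idx σ.t, Reg (σ.ch ρ k).T x := by
  obtain ⟨t, a, T, g⟩ := σ
  cases t with
  | leaf => exact absurd rfl ht
  | tri c =>
    obtain ⟨i, hi⟩ := cover_tri hx
    exact ⟨.inl i, by simp, by unfold Reg; rw [bcf_chN h.1]; exact hi⟩
  | quad c =>
    obtain ⟨i, hi⟩ := cover_quad hx
    exact ⟨.inr i, by simp, by unfold Reg; rw [bcf_chN h.1]; exact hi⟩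

lemma sep_ch {σ : Nd E} (h : OK σ) {k k' : Ix} (hk : k ∈ idx σ.t) (hk' : k' ∈ idx σ.t)
    (hne : k ≠ k') {x : E} (hx' : Reg (σ.ch ρ k').T x) : ¬ Int (σ.ch ρ k).T x := by
  intro hx
  have hx0 := hx.reg
  obtain ⟨t, a, T, g⟩ := σ
  unfold Reg at hx' hx0
  unfold Int at hx
  rw [bcf_chN h.1] at hx hx' hx0
  cases t with
  | leaf => simp at hk
  | tri c =>
    obtain ⟨i, rfl⟩ := (mem_idx_tri c k).1 hk
    obtain ⟨i', rfl⟩ := (mem_idx_tri c k').1 hk'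
    exact (sep_tri (fun h => hne (by rw [h])) hx0 hx').2 hx
  | quad c =>
    obtain ⟨i, rfl⟩ := (mem_idx_quad c k).1 hk
    obtain ⟨i', rfl⟩ := (mem_idx_quad c k').1 hk'
    exact sep_quad (fun h => hne (by rw [h])) (bcf_sum h.1 x) hx' hx

/-- auxiliary recursion for `cells` -/
noncomputable def cellsAux (ρ : Rule) (i : ℕ) :
    Tr → ℕ → (Fin 3 → E) → (Fin 3 → ℝ) → Multiset (Nd E)
  | .leaf, a, T, g => {⟨.leaf, a, T, g⟩}
  | .tri c, a, T, g => if a < i then {⟨.tri c, a, T, g⟩} else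
      ∑ k, cellsAux ρ i (c k) a (upd k T (ctr T)) (upd k g (ρ a g))
  | .quad c, a, T, g => if a < i then {⟨.quad c, a, T, g⟩} else
      ∑ k, cellsAux ρ i (c k) (a - 1) (quadT k T) (quadT k g)

/-- the maximal descendants of level `< i`, or leaves -/
noncomputable def cells (ρ : Rule) (i : ℕ) (σ : Nd E) : Multiset (Nd E) :=
  cellsAux ρ i σ.t σ.a σ.T σ.g

/-- where the descent stops -/
def Stop (i : ℕ) (σ : Nd E) : Prop := σ.t = .leaf ∨ σ.a < i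

lemma cells_stop {i : ℕ} {σ : Nd E} (h : Stop i σ) : cells ρ i σ = {σ} := by
  obtain ⟨t, a, T, g⟩ := σ
  rcases h with h | h
  · obtain rfl : t = .leaf := h
    rfl
  · cases t <;> simp [cells, cellsAux, show a < i from h]

lemma cells_go {i : ℕ} {σ : Nd E} (h : ¬ Stop i σ) :
    cells ρ i σ = ∑ k ∈ idx σ.t, cells ρ i (σ.ch ρ k) := by
  obtain ⟨t, a, T, g⟩ := σ
  have h1 : ¬ a < i := fun h' => h (Or.inr h')
  cases t with
  | leaf => exact absurd (Or.inl rfl) h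
  | tri c => rw [sum_idx_tri]; simp only [cells, cellsAux, if_neg h1]; rfl
  | quad c => rw [sum_idx_quad]; simp only [cells, cellsAux, if_neg h1]; rfl

lemma mem_cells_stop {i : ℕ} {σ c : Nd E} (h : Stop i σ) : c ∈ cells ρ i σ ↔ c = σ := by
  rw [cells_stop h, Multiset.mem_singleton]

lemma mem_cells_go {i : ℕ} {σ c : Nd E} (h : ¬ Stop i σ) :
    c ∈ cells ρ i σ ↔ ∃ k ∈ idx σ.t, c ∈ cells ρ i (σ.ch ρ k) := by
  rw [cells_go h, Multiset.mem_sum]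

/-- properties inherited by children are inherited by cells -/
lemma cells_inherit {P : Nd E → Prop} {i : ℕ}
    (hP : ∀ σ, P σ → ¬ Stop i σ → ∀ k ∈ idx σ.t, P (σ.ch ρ k)) (σ : Nd E) :
    P σ → ∀ c ∈ cells ρ i σ, P c ∧ Stop i c := by
  induction σ using @Nd.ind E _ _ ρ with
  | _ σ ih =>
    intro h c hc
    by_cases hs : Stop i σ
    · rw [mem_cells_stop hs] at hc
      subst hc
      exact ⟨h, hs⟩
    · obtain ⟨k, hk, hc⟩ := (mem_cells_go hs).1 hc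
      exact ih k hk (hP σ h hs k hk) c hc

lemma OK.cells {i : ℕ} {σ c : Nd E} (h : OK σ) (hc : c ∈ cells ρ i σ) : OK c :=
  (cells_inherit (P := OK) (fun _ h _ _ hk => h.ch hk) σ h c hc).1

lemma stop_cells {i : ℕ} {σ c : Nd E} (hc : c ∈ cells ρ i σ) : Stop i c :=
  (cells_inherit (P := fun _ => True) (fun _ _ _ _ _ => trivial) σ trivial c hc).2

lemma reg_of_cells {i : ℕ} {σ c : Nd E} (h : OK σ) (hc : c ∈ cells ρ i σ) {x : E}
    (hx : Reg c.T x) : Reg σ.T x :=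
  (cells_inherit (P := fun c => OK c ∧ (Reg c.T x → Reg σ.T x))
    (fun _ h _ _ hk => ⟨h.1.ch hk, fun h' => h.2 (reg_of_ch h.1 h')⟩) σ ⟨h, id⟩ c hc).1.2 hx

lemma int_of_cells {i : ℕ} {σ c : Nd E} (h : OK σ) (hc : c ∈ cells ρ i σ) {x : E}
    (hx : Int c.T x) : Int σ.T x :=
  (cells_inherit (P := fun c => OK c ∧ (Int c.T x → Int σ.T x))
    (fun _ h _ _ hk => ⟨h.1.ch hk, fun h' => h.2 (int_of_ch h.1 h')⟩) σ ⟨h, id⟩ c hc).1.2 hx

lemma level_cells {i : ℕ} {σ c : Nd E} (h : OK σ) (ha : i - 1 ≤ σ.a) (hc : c ∈ cells ρ i σ) :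
    c.a = i - 1 := by
  obtain ⟨⟨h1, h2⟩, h3⟩ := cells_inherit (P := fun c => OK c ∧ i - 1 ≤ c.a)
    (fun τ h hs k hk => ⟨h.1.ch hk, by
      have h1 : ¬ τ.a < i := fun h' => hs (Or.inr h')
      have := le_lvl τ.a k
      change i - 1 ≤ lvl τ.a k
      omega⟩) σ ⟨h, ha⟩ c hc
  rcases h3 with h3 | h3
  · have h4 := h1.2
    rw [h3] at h4
    have h5 : c.a = 0 := h4
    omega
  · omega

lemma leaf_of_cells_zero {σ c : Nd E} (hc : c ∈ cells ρ 0 σ) : c.t = .leaf :=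
  (stop_cells hc).resolve_right (Nat.not_lt_zero _)

lemma exists_cell (ρ : Rule) (i : ℕ) (σ : Nd E) {x : E} :
    OK σ → Reg σ.T x → ∃ c ∈ cells ρ i σ, Reg c.T x := by
  induction σ using @Nd.ind E _ _ ρ with
  | _ σ ih =>
    intro h hx
    by_cases hs : Stop i σ
    · exact ⟨σ, (mem_cells_stop hs).2 rfl, hx⟩
    · obtain ⟨k, hk, hx'⟩ := cover_ch ρ h (fun h' => hs (Or.inl h')) hx
      obtain ⟨c, hc, hx''⟩ := ih k hk (h.ch hk) hx'
      exact ⟨c, (mem_cells_go hs).2 ⟨k, hk, hc⟩, hx''⟩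

section Inv

variable {α : Type*} {Φ : Nd E → α} {i : ℕ} {x : E}

lemma inv_bdy
    (h1 : ∀ σ, OK σ → ¬ Stop i σ → ∀ k ∈ idx σ.t, Reg (σ.ch ρ k).T x → ¬ Int σ.T x →
      Φ (σ.ch ρ k) = Φ σ) (σ : Nd E) :
    OK σ → ¬ Int σ.T x → ∀ c ∈ cells ρ i σ, Reg c.T x → Φ c = Φ σ := by
  induction σ using @Nd.ind E _ _ ρ with
  | _ σ ih =>
    intro h hx c hc hcx
    by_cases hs : Stop i σ
    · rw [(mem_cells_stop hs).1 hc]
    · obtain ⟨k, hk, hc⟩ := (mem_cells_go hs).1 hc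
      rw [ih k hk (h.ch hk) (fun h' => hx (int_of_ch h h')) c hc hcx]
      exact h1 σ h hs k hk (reg_of_cells (h.ch hk) hc hcx) hx

lemma inv_cmp
    (h1 : ∀ σ, OK σ → ¬ Stop i σ → ∀ k ∈ idx σ.t, Reg (σ.ch ρ k).T x → ¬ Int σ.T x →
      Φ (σ.ch ρ k) = Φ σ)
    (h2 : ∀ σ, OK σ → ¬ Stop i σ → ∀ k ∈ idx σ.t, ∀ k' ∈ idx σ.t, k ≠ k' →
      Reg (σ.ch ρ k).T x → Reg (σ.ch ρ k').T x → Φ (σ.ch ρ k) = Φ (σ.ch ρ k')) (σ : Nd E) :
    OK σ → ∀ c ∈ cells ρ i σ, ∀ c' ∈ cells ρ i σ, Reg c.T x → Reg c'.T x →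
      c = c' ∨ (¬ Int c.T x ∧ ¬ Int c'.T x ∧ Φ c = Φ c') := by
  induction σ using @Nd.ind E _ _ ρ with
  | _ σ ih =>
    intro h c hc c' hc' hx hx'
    by_cases hs : Stop i σ
    · left; rw [(mem_cells_stop hs).1 hc, (mem_cells_stop hs).1 hc']
    · obtain ⟨k, hk, hc⟩ := (mem_cells_go hs).1 hc
      obtain ⟨k', hk', hc'⟩ := (mem_cells_go hs).1 hc'
      by_cases hkk : k = k'
      · subst hkk
        exact ih k hk (h.ch hk) c hc c' hc' hx hx'
      · right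
        have r1 := reg_of_cells (h.ch hk) hc hx
        have r2 := reg_of_cells (h.ch hk') hc' hx'
        have n1 := sep_ch h hk hk' hkk r2
        have n2 := sep_ch h hk' hk (Ne.symm hkk) r1
        refine ⟨fun h' => n1 (int_of_cells (h.ch hk) hc h'),
          fun h' => n2 (int_of_cells (h.ch hk') hc' h'), ?_⟩
        rw [inv_bdy h1 _ (h.ch hk) n1 c hc hx, inv_bdy h1 _ (h.ch hk') n2 c' hc' hx']
        exact h2 σ h hs k hk k' hk' hkk r1 r2

end Inv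

/-- lattice points near `x` -/
def PhiC (i : ℕ) (x : E) (σ : Nd E) : Set (E × ℝ) :=
  {p | p.2 < 1 ∧ Car (σ.a - (i - 1)) p.2 (bcf σ.T x) (bcf σ.T p.1)}

/-- interpolated value -/
noncomputable def PhiV (x : E) (σ : Nd E) : ℝ := val σ.g (bcf σ.T x)

lemma phiC_quad {i : ℕ} (x : E) {c : Option (Fin 3) → Tr} {a : ℕ} {T : Fin 3 → E} {g : Fin 3 → ℝ}
    (h : OK (⟨.quad c, a, T, g⟩ : Nd E)) (hs : ¬ Stop i (⟨.quad c, a, T, g⟩ : Nd E))
    (k : Option (Fin 3)) :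
    PhiC i x (Nd.ch ρ ⟨.quad c, a, T, g⟩ (.inr k)) = PhiC i x ⟨.quad c, a, T, g⟩ := by
  have h1 : ¬ a < i := fun h' => hs (Or.inr h')
  have h2 : 1 ≤ a := h.2.1
  ext p
  simp only [PhiC, Set.mem_ofPred_eq, bcf_chN h.1]
  have h3 : a - (i - 1) = (a - 1 - (i - 1)) + 1 := by omega
  rw [h3, ← car_quad k]
  rfl

lemma phiC_bdy (i : ℕ) (x : E) (σ : Nd E) (h : OK σ) (hs : ¬ Stop i σ) (k : Ix)
    (hk : k ∈ idx σ.t) (hx : Reg (σ.ch ρ k).T x) (hn : ¬ Int σ.T x) :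
    PhiC i x (σ.ch ρ k) = PhiC i x σ := by
  obtain ⟨t, a, T, g⟩ := σ
  cases t with
  | leaf => simp at hk
  | tri c =>
    obtain ⟨j, rfl⟩ := (mem_idx_tri c k).1 hk
    unfold Reg at hx
    rw [bcf_chN h.1] at hx
    have h0 := zero_of_bdy_tri hx hn
    ext p
    simp only [PhiC, Set.mem_ofPred_eq, bcf_chN h.1]
    exact and_congr_right fun hp => car_tri j _ hp _ h0
  | quad c =>
    obtain ⟨j, rfl⟩ := (mem_idx_quad c k).1 hk
    exact phiC_quad x h hs j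

lemma phiC_sib (i : ℕ) (x : E) (σ : Nd E) (h : OK σ) (hs : ¬ Stop i σ) (k : Ix)
    (hk : k ∈ idx σ.t) (k' : Ix) (hk' : k' ∈ idx σ.t) (hne : k ≠ k') (hx : Reg (σ.ch ρ k).T x)
    (hx' : Reg (σ.ch ρ k').T x) : PhiC i x (σ.ch ρ k) = PhiC i x (σ.ch ρ k') := by
  obtain ⟨t, a, T, g⟩ := σ
  cases t with
  | leaf => simp at hk
  | tri c =>
    obtain ⟨j, rfl⟩ := (mem_idx_tri c k).1 hk
    obtain ⟨j', rfl⟩ := (mem_idx_tri c k').1 hk'
    have hj : j ≠ j' := fun h => hne (by rw [h])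
    unfold Reg at hx hx'
    rw [bcf_chN h.1] at hx hx'
    have h0 := (sep_tri hj hx hx').1
    ext p
    simp only [PhiC, Set.mem_ofPred_eq, bcf_chN h.1]
    exact and_congr_right fun hp =>
      ⟨car_sib hj _ hp _ h0, car_sib hj.symm _ hp _ h0.symm⟩
  | quad c =>
    obtain ⟨j, rfl⟩ := (mem_idx_quad c k).1 hk
    obtain ⟨j', rfl⟩ := (mem_idx_quad c k').1 hk'
    rw [phiC_quad x h hs j, phiC_quad x h hs j']

lemma phiV_bdy (i : ℕ) (x : E) (σ : Nd E) (h : OK σ) (_hs : ¬ Stop i σ) (k : Ix)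
    (hk : k ∈ idx σ.t) (hx : Reg (σ.ch ρ k).T x) (hn : ¬ Int σ.T x) :
    PhiV x (σ.ch ρ k) = PhiV x σ := by
  obtain ⟨t, a, T, g⟩ := σ
  unfold PhiV
  unfold Reg at hx
  rw [bcf_chN h.1] at hx ⊢
  cases t with
  | leaf => simp at hk
  | tri c =>
    obtain ⟨j, rfl⟩ := (mem_idx_tri c k).1 hk
    exact val_tri j g _ (zero_of_bdy_tri hx hn)
  | quad c =>
    obtain ⟨j, rfl⟩ := (mem_idx_quad c k).1 hk
    exact val_quad j g (bcf_sum h.1 x)

lemma phiV_sib (i : ℕ) (x : E) (σ : Nd E) (h : OK σ) (_hs : ¬ Stop i σ) (k : Ix)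
    (hk : k ∈ idx σ.t) (k' : Ix) (hk' : k' ∈ idx σ.t) (hne : k ≠ k') (hx : Reg (σ.ch ρ k).T x)
    (hx' : Reg (σ.ch ρ k').T x) : PhiV x (σ.ch ρ k) = PhiV x (σ.ch ρ k') := by
  obtain ⟨t, a, T, g⟩ := σ
  unfold PhiV
  unfold Reg at hx hx'
  rw [bcf_chN h.1] at hx hx' ⊢
  rw [bcf_chN h.1]
  cases t with
  | leaf => simp at hk
  | tri c =>
    obtain ⟨j, rfl⟩ := (mem_idx_tri c k).1 hk
    obtain ⟨j', rfl⟩ := (mem_idx_tri c k').1 hk'
    have hj : j ≠ j' := fun h => hne (by rw [h])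
    exact val_sib hj g _ (sep_tri hj hx hx').1
  | quad c =>
    obtain ⟨j, rfl⟩ := (mem_idx_quad c k).1 hk
    obtain ⟨j', rfl⟩ := (mem_idx_quad c k').1 hk'
    exact (val_quad j g (bcf_sum h.1 x)).trans (val_quad j' g (bcf_sum h.1 x)).symm

/-- two cells containing a point are equal, or the point is on the boundary of both -/
lemma cells_eq_or {i : ℕ} {σ c c' : Nd E} (h : OK σ) (hc : c ∈ cells ρ i σ)
    (hc' : c' ∈ cells ρ i σ) {x : E} (hx : Reg c.T x) (hx' : Reg c'.T x) :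
    c = c' ∨ (¬ Int c.T x ∧ ¬ Int c'.T x) :=
  (inv_cmp (phiV_bdy i x) (phiV_sib i x) σ h c hc c' hc' hx hx').imp id fun h => ⟨h.1, h.2.1⟩

/-- cells meet face to face -/
lemma cells_corner {i : ℕ} {σ c c' : Nd E} (h : OK σ) (ha : i - 1 ≤ σ.a) (hc : c ∈ cells ρ i σ)
    (hc' : c' ∈ cells ρ i σ) {x : E} (hx : Reg c.T x) (hx' : Reg c'.T x) {j : Fin 3}
    (hj : 0 < bcf c.T x j) : ∃ j', c'.T j' = c.T j ∧ bcf c.T x j ≤ bcf c'.T x j' := by
  rcases inv_cmp (phiC_bdy i x) (phiC_sib i x) σ h c hc c' hc' hx hx' with rfl | ⟨-, -, h1⟩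
  · exact ⟨j, rfl, le_rfl⟩
  · have g1 := (h.cells hc).1
    have g2 := (h.cells hc').1
    have h2 : (c.T j, 1 - bcf c.T x j) ∈ PhiC i x c := by
      refine ⟨by linarith, ?_⟩
      rw [level_cells h ha hc, Nat.sub_self, bcf_vertex g1]
      exact car_single (bcf_sum g1 x) hx j le_rfl
    rw [h1] at h2
    obtain ⟨h3, h4⟩ := h2
    rw [level_cells h ha hc', Nat.sub_self] at h4
    obtain ⟨j', h5, h6⟩ := single_of_car h3 (bcf_sum g2 x) hx' (bcf_sum g2 _) h4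
    exact ⟨j', (eq_vertex_of_bcf g2 h5).symm, by linarith⟩

/-- vertices on the boundary of a node are lattice points -/
lemma lattice_of_bdy {σ l : Nd E} (h : OK σ) (hl : l ∈ cells ρ 0 σ) (j : Fin 3)
    (hn : ¬ Int σ.T (l.T j)) (m : Fin 3) : ∃ k : ℤ, 2 ^ σ.a * bcf σ.T (l.T j) m = k := by
  have g1 := (h.cells hl).1
  have h1 := inv_bdy (phiC_bdy 0 (l.T j)) σ h hn l hl (reg_vertex g1 j)
  have h2 : (l.T j, (0 : ℝ)) ∈ PhiC 0 (l.T j) l := by
    refine ⟨by norm_num, ?_⟩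
    rw [level_cells h (by simp) hl, bcf_vertex g1]
    exact car_single (by fin_cases j <;> simp) (nn_single j) j (by simp)
  rw [h1] at h2
  obtain ⟨k, hk, -⟩ := h2.2 m
  exact ⟨k, by simpa using hk⟩

lemma value_bdy {σ l : Nd E} (h : OK σ) (hl : l ∈ cells ρ 0 σ) (j : Fin 3)
    (hn : ¬ Int σ.T (l.T j)) : l.g j = val σ.g (bcf σ.T (l.T j)) := by
  have g1 := (h.cells hl).1
  have h1 := inv_bdy (phiV_bdy 0 (l.T j)) σ h hn l hl (reg_vertex g1 j)
  unfold PhiV at h1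
  rw [bcf_vertex g1, val_single] at h1
  exact h1

lemma value_unique {σ l l' : Nd E} (h : OK σ) (hl : l ∈ cells ρ 0 σ) (hl' : l' ∈ cells ρ 0 σ)
    {j j' : Fin 3} (hj : l.T j = l'.T j') : l.g j = l'.g j' := by
  have g1 := (h.cells hl).1
  have g2 := (h.cells hl').1
  rcases inv_cmp (phiV_bdy 0 (l.T j)) (phiV_sib 0 (l.T j)) σ h l hl l' hl' (reg_vertex g1 j)
    (hj ▸ reg_vertex g2 j') with rfl | ⟨-, -, h1⟩
  · rw [g1.affineIndependent.injective hj]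
  · unfold PhiV at h1
    rw [bcf_vertex g1, val_single, hj, bcf_vertex g2, val_single] at h1
    exact h1

end Pool.Agent.MP_295da9_pr.Th
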