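import Mathlib
import Pool.Agent.MP_295da9_pr.ThCells

/-! Systems of triangles, captured nodes, distances along sides. -/

namespace Pool.Agent.MP_295da9_pr.Th

variable {E : Type*} [AddCommGroup E] [Module ℝ E] {ρ : Rule}

/-- `L` is a leaf triangle of the tree placed on `T` -/
def LeafOf : Tr → (Fin 3 → E) → (Fin 3 → E) → Prop
  | .leaf, T, L => L = T
  | .tri c, T, L => ∃ k, LeafOf (c k) (upd k T (ctr T)) L
  | .quad c, T, L => ∃ k, LeafOf (c k) (quadT k T) L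

lemma leafOf_go (ρ : Rule) {σ : Nd E} (h : σ.t ≠ .leaf) (L : Fin 3 → E) :
    LeafOf σ.t σ.T L ↔ ∃ k ∈ idx σ.t, LeafOf (σ.ch ρ k).t (σ.ch ρ k).T L := by
  obtain ⟨t, a, T, g⟩ := σ
  cases t with
  | leaf => exact absurd rfl h
  | tri c =>
    constructor
    · rintro ⟨k, hk⟩; exact ⟨.inl k, by simp, hk⟩
    · rintro ⟨k, hk, h⟩
      obtain ⟨i, rfl⟩ := (mem_idx_tri c k).1 hk
      exact ⟨i, h⟩
  | quad c =>
    constructor
    · rintro ⟨k, hk⟩; exact ⟨.inr k, by simp, hk⟩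
    · rintro ⟨k, hk, h⟩
      obtain ⟨i, rfl⟩ := (mem_idx_quad c k).1 hk
      exact ⟨i, h⟩

lemma ne_leaf_of_mem {t : Tr} {k : Ix} (hk : k ∈ idx t) : t ≠ .leaf := by
  rintro rfl; simp at hk

lemma leafOf_of_ch {σ : Nd E} {k : Ix} (hk : k ∈ idx σ.t) {L : Fin 3 → E}
    (h : LeafOf (σ.ch ρ k).t (σ.ch ρ k).T L) : LeafOf σ.t σ.T L :=
  (leafOf_go ρ (ne_leaf_of_mem hk) L).2 ⟨k, hk, h⟩

lemma leafOf_cells (ρ : Rule) (i : ℕ) (σ : Nd E) (L : Fin 3 → E) :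
    LeafOf σ.t σ.T L ↔ ∃ c ∈ cells ρ i σ, LeafOf c.t c.T L := by
  induction σ using @Nd.ind E _ _ ρ with
  | _ σ ih =>
    by_cases hs : Stop i σ
    · simp [mem_cells_stop hs]
    · rw [leafOf_go ρ (fun h' => hs (Or.inl h'))]
      constructor
      · rintro ⟨k, hk, h⟩
        obtain ⟨c, hc, h⟩ := (ih k hk).1 h
        exact ⟨c, (mem_cells_go hs).2 ⟨k, hk, hc⟩, h⟩
      · rintro ⟨c, hc, h⟩
        obtain ⟨k, hk, hc⟩ := (mem_cells_go hs).1 hc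
        exact ⟨k, hk, (ih k hk).2 ⟨c, hc, h⟩⟩

lemma leafOf_zero (ρ : Rule) (σ : Nd E) (L : Fin 3 → E) :
    LeafOf σ.t σ.T L ↔ ∃ l ∈ cells ρ 0 σ, l.T = L := by
  rw [leafOf_cells ρ 0]
  refine exists_congr fun l => and_congr_right fun hl => ?_
  rw [leaf_of_cells_zero hl]
  exact eq_comm

/-- the trivial rule -/
def rho0 : Rule := fun _ _ => 0

lemma OK.good_leaf {σ : Nd E} (h : OK σ) {L : Fin 3 → E} (hL : LeafOf σ.t σ.T L) : Good L := by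
  obtain ⟨l, hl, rfl⟩ := (leafOf_zero rho0 σ L).1 hL
  exact (h.cells hl).1

lemma OK.reg_leaf {σ : Nd E} (h : OK σ) {L : Fin 3 → E} (hL : LeafOf σ.t σ.T L) {x : E}
    (hx : Reg L x) : Reg σ.T x := by
  obtain ⟨l, hl, rfl⟩ := (leafOf_zero rho0 σ L).1 hL
  exact reg_of_cells h hl hx

lemma OK.reg_leaf_vertex {σ : Nd E} (h : OK σ) {L : Fin 3 → E} (hL : LeafOf σ.t σ.T L)
    (j : Fin 3) : Reg σ.T (L j) := h.reg_leaf hL (reg_vertex (h.good_leaf hL) j)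

lemma OK.exists_leaf {σ : Nd E} (h : OK σ) {x : E} (hx : Reg σ.T x) :
    ∃ L, LeafOf σ.t σ.T L ∧ Reg L x := by
  obtain ⟨l, hl, hx⟩ := exists_cell rho0 0 σ h hx
  exact ⟨l.T, (leafOf_zero rho0 σ _).2 ⟨l, hl, rfl⟩, hx⟩

lemma OK.leaf_ff {σ : Nd E} (h : OK σ) {L L' : Fin 3 → E} (hL : LeafOf σ.t σ.T L)
    (hL' : LeafOf σ.t σ.T L') {x : E} (hx : Reg L x) (hx' : Reg L' x) {j : Fin 3}
    (hj : 0 < bcf L x j) : ∃ j', L' j' = L j := by
  obtain ⟨l, hl, rfl⟩ := (leafOf_zero rho0 σ L).1 hL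
  obtain ⟨l', hl', rfl⟩ := (leafOf_zero rho0 σ L').1 hL'
  obtain ⟨j', h1, -⟩ := cells_corner h (by simp) hl hl' hx hx' hj
  exact ⟨j', h1⟩

/-- a family of triangles meeting face to face -/
structure Sys (𝓛 : Set (Fin 3 → E)) : Prop where
  good : ∀ L ∈ 𝓛, Good L
  ff : ∀ L ∈ 𝓛, ∀ L' ∈ 𝓛, ∀ x, Reg L x → Reg L' x → ∀ j, 0 < bcf L x j → ∃ j', L' j' = L j

/-- the node carries exactly the triangles of the family that meet its interior -/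
structure Cap (𝓛 : Set (Fin 3 → E)) (σ : Nd E) : Prop where
  ok : OK σ
  mem : ∀ L, LeafOf σ.t σ.T L → L ∈ 𝓛
  cap : ∀ L ∈ 𝓛, ∀ x, Reg L x → Int σ.T x → LeafOf σ.t σ.T L

variable {𝓛 : Set (Fin 3 → E)}

lemma Cap.ch {σ : Nd E} (h : Cap 𝓛 σ) {k : Ix} (hk : k ∈ idx σ.t) : Cap 𝓛 (σ.ch ρ k) where
  ok := h.ok.ch hk
  mem _ hL := h.mem _ (leafOf_of_ch hk hL)
  cap L hL x hx hi := by
    have h1 := h.cap L hL x hx (int_of_ch h.ok hi)
    obtain ⟨k', hk', h2⟩ := (leafOf_go ρ (ne_leaf_of_mem hk) L).1 h1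
    by_cases hkk : k = k'
    · exact hkk ▸ h2
    · exact absurd hi (sep_ch h.ok hk hk' hkk ((h.ok.ch hk').reg_leaf h2 hx))

lemma Cap.cells {i : ℕ} {σ c : Nd E} (h : Cap 𝓛 σ) (hc : c ∈ cells ρ i σ) : Cap 𝓛 c :=
  (cells_inherit (P := Cap 𝓛) (fun _ h _ _ hk => h.ch hk) σ h c hc).1

lemma Cap.redec {σ : Nd E} (h : Cap 𝓛 σ) (g : Fin 3 → ℝ) : Cap 𝓛 ⟨σ.t, σ.a, σ.T, g⟩ :=
  ⟨h.ok, h.mem, h.cap⟩

/-- vertex of the family -/
def Vtx (𝓛 : Set (Fin 3 → E)) (x : E) : Prop := ∃ L ∈ 𝓛, ∃ j, L j = x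

/-- two vertices of one triangle -/
def Co (𝓛 : Set (Fin 3 → E)) (x y : E) : Prop := ∃ L ∈ 𝓛, (∃ j, L j = x) ∧ ∃ j, L j = y

omit [AddCommGroup E] [Module ℝ E] in
lemma Co.symm {x y : E} (h : Co 𝓛 x y) : Co 𝓛 y x := by
  obtain ⟨L, hL, h1, h2⟩ := h
  exact ⟨L, hL, h2, h1⟩

omit [AddCommGroup E] [Module ℝ E] in
lemma Co.left {x y : E} (h : Co 𝓛 x y) : Vtx 𝓛 x := by
  obtain ⟨L, hL, h1, -⟩ := h
  exact ⟨L, hL, h1⟩

omit [AddCommGroup E] [Module ℝ E] in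
lemma Co.right {x y : E} (h : Co 𝓛 x y) : Vtx 𝓛 y := h.symm.left

lemma Cap.vtx_leaf (hS : Sys 𝓛) {σ : Nd E} (h : Cap 𝓛 σ) {x : E} (hv : Vtx 𝓛 x)
    (hx : Reg σ.T x) : ∃ L, LeafOf σ.t σ.T L ∧ ∃ j, L j = x := by
  obtain ⟨L, hL, j, rfl⟩ := hv
  obtain ⟨L', hL', hx'⟩ := h.ok.exists_leaf hx
  have g1 := hS.good L hL
  exact ⟨L', hL', hS.ff L hL L' (h.mem _ hL') _ (reg_vertex g1 j) hx' j
    (by rw [bcf_vertex g1]; simp)⟩

lemma Cap.co_leaf (hS : Sys 𝓛) {σ : Nd E} (h : Cap 𝓛 σ) {x y : E} (hxy : Co 𝓛 x y)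
    (hx : Int σ.T x) : ∃ L, LeafOf σ.t σ.T L ∧ (∃ j, L j = x) ∧ ∃ j, L j = y := by
  obtain ⟨L, hL, ⟨j, rfl⟩, h2⟩ := hxy
  exact ⟨L, h.cap L hL _ (reg_vertex (hS.good L hL) j) hx, ⟨j, rfl⟩, h2⟩

lemma Cap.co_reg (hS : Sys 𝓛) {σ : Nd E} (h : Cap 𝓛 σ) {x y : E} (hxy : Co 𝓛 x y)
    (hx : Int σ.T x) : Reg σ.T y := by
  obtain ⟨L, hL, -, j, rfl⟩ := h.co_leaf hS hxy hx
  exact h.ok.reg_leaf_vertex hL j

/-- joined by at most `n` steps -/
inductive Near (𝓛 : Set (Fin 3 → E)) : ℕ → E → E → Prop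
  | refl (n : ℕ) (x : E) : Near 𝓛 n x x
  | step {n : ℕ} {x y z : E} : Co 𝓛 x y → Near 𝓛 n y z → Near 𝓛 (n + 1) x z

section near
omit [AddCommGroup E] [Module ℝ E]

lemma Near.mono {n m : ℕ} {x y : E} (h : Near 𝓛 n x y) (hm : n ≤ m) : Near 𝓛 m x y := by
  induction h generalizing m with
  | refl => exact .refl _ _
  | step h1 _ ih =>
    obtain ⟨m, rfl⟩ : ∃ m', m = m' + 1 := ⟨m - 1, by omega⟩
    exact .step h1 (ih (by omega))

lemma Near.trans {n m : ℕ} {x y z : E} (h : Near 𝓛 n x y) (h' : Near 𝓛 m y z) :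
    Near 𝓛 (n + m) x z := by
  induction h with
  | refl => exact h'.mono (by omega)
  | step h1 _ ih => rw [Nat.add_right_comm]; exact .step h1 (ih h')

lemma Co.near {x y : E} (h : Co 𝓛 x y) : Near 𝓛 1 x y := .step h (.refl 0 _)

lemma Near.symm {n : ℕ} {x y : E} (h : Near 𝓛 n x y) : Near 𝓛 n y x := by
  induction h with
  | refl => exact .refl _ _
  | step h1 _ ih => exact ih.trans h1.symm.near

lemma Near.vtx {n : ℕ} {x y : E} (h : Near 𝓛 n x y) (hx : Vtx 𝓛 x) : Vtx 𝓛 y := by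
  induction h with
  | refl => exact hx
  | step h1 _ ih => exact ih h1.right

lemma Near.induct {P : ℕ → E → Prop} {x : E} (h0 : ∀ n, P n x)
    (h1 : ∀ n y z, Near 𝓛 n x y → P n y → Co 𝓛 y z → P (n + 1) z) (n : ℕ) :
    ∀ y, Near 𝓛 n x y → P n y := by
  induction n with
  | zero => intro y h; cases h; exact h0 0
  | succ n ih =>
    intro y h
    have h' := h.symm
    cases h' with
    | refl => exact h0 _
    | step h2 h3 => exact h1 n _ _ h3.symm (ih _ h3.symm) h2.symm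

end near

/-- the `m`-th subdivision point on the segment from `p` to `q` -/
noncomputable def pt (a : ℕ) (p q : E) (m : ℕ) : E := p + ((m : ℝ) / 2 ^ a) • (q - p)

lemma pt_zero (a : ℕ) (p q : E) : pt a p q 0 = p := by simp [pt]

lemma pt_top (a : ℕ) (p q : E) : pt a p q (2 ^ a) = q := by
  have : (2 : ℝ) ^ a ≠ 0 := by positivity
  simp [pt, this]

lemma pt_lo (a : ℕ) (p q : E) (m : ℕ) : pt (a + 1) p q m = pt a p ((1 / 2 : ℝ) • (p + q)) m := by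
  have : (2 : ℝ) ^ a ≠ 0 := by positivity
  unfold pt
  rw [pow_succ, ← div_div]
  module

lemma pt_hi (a : ℕ) (p q : E) (m : ℕ) :
    pt (a + 1) p q (2 ^ a + m) = pt a ((1 / 2 : ℝ) • (q + p)) q m := by
  have h : (2 : ℝ) ^ a ≠ 0 := by positivity
  unfold pt
  have h1 : ((2 ^ a + m : ℕ) : ℝ) / 2 ^ (a + 1) = 1 / 2 + (m : ℝ) / 2 ^ a / 2 := by
    push_cast; rw [pow_succ]; field_simp
  rw [h1]
  module

lemma pt_rev (a : ℕ) (p q : E) {m m' : ℕ} (hm : m + m' = 2 ^ a) : pt a p q m = pt a q p m' := by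
  have h : (2 : ℝ) ^ a ≠ 0 := by positivity
  unfold pt
  have h0 : (m : ℝ) + m' = 2 ^ a := by exact_mod_cast hm
  have h1 : (m : ℝ) / 2 ^ a = 1 - (m' : ℝ) / 2 ^ a := by
    field_simp; linarith
  rw [h1]
  module

lemma half_self (p : E) : (1 / 2 : ℝ) • (p + p) = p := by module

lemma bcf_pt {T : Fin 3 → E} (h : Good T) (a : ℕ) (j j' : Fin 3) (m : ℕ) :
    bcf T (pt a (T j) (T j') m) =
      Pi.single j (1 - (m : ℝ) / 2 ^ a) + Pi.single j' ((m : ℝ) / 2 ^ a) := by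
  apply bcf_eq h
  unfold pt
  generalize (m : ℝ) / 2 ^ a = s
  fin_cases j <;> fin_cases j' <;> simp [IsBC] <;> module

lemma third (j j' : Fin 3) : ∃ k : Fin 3, k ≠ j ∧ k ≠ j' := by
  revert j j'; decide

lemma upd_pos (k j j' : Fin 3) (hj : k ≠ j) (hj' : k ≠ j') (hne : j ≠ j') :
    ∃ p p' : Fin 3, p ≠ p' ∧ p ≠ 2 ∧ p' ≠ 2 ∧ ∀ {α : Type _} (T : Fin 3 → α) (w : α),
      upd k T w p = T j ∧ upd k T w p' = T j' := by
  fin_cases k <;> fin_cases j <;> fin_cases j' <;> simp at hj hj' hne <;>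
    first
    | exact ⟨0, 1, by decide, by decide, by decide, fun T w => ⟨rfl, rfl⟩⟩
    | exact ⟨1, 0, by decide, by decide, by decide, fun T w => ⟨rfl, rfl⟩⟩

lemma side_path (t : Tr) : ∀ (a : ℕ) (T : Fin 3 → E), WL t a → ∀ j j' : Fin 3, j ≠ j' →
    ∀ m, m < 2 ^ a → ∃ L, LeafOf t T L ∧ (∃ i, L i = pt a (T j) (T j') m) ∧
      ∃ i, L i = pt a (T j) (T j') (m + 1) := by
  induction t with
  | leaf =>
    intro a T h j j' _ m hm
    obtain rfl : a = 0 := h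
    obtain rfl : m = 0 := by simpa using hm
    exact ⟨T, rfl, ⟨j, (pt_zero _ _ _).symm⟩, ⟨j', (pt_top 0 _ _).symm⟩⟩
  | tri c ih =>
    intro a T h j j' hne m hm
    obtain ⟨k, hk, hk'⟩ := third j j'
    obtain ⟨p, p', hp, -, -, e⟩ := upd_pos k j j' hk hk' hne
    obtain ⟨L, hL, h1⟩ := ih k a (upd k T (ctr T)) (h k) p p' hp m hm
    rw [(e T _).1, (e T _).2] at h1
    exact ⟨L, ⟨k, hL⟩, h1⟩
  | quad c ih =>
    intro a T h j j' hne m hm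
    obtain ⟨a, rfl⟩ : ∃ b, a = b + 1 := ⟨a - 1, by have := h.1; omega⟩
    by_cases hm' : m < 2 ^ a
    · obtain ⟨L, hL, h1⟩ := ih (some j) a (quadT (some j) T) (h.2 _) j j' hne m hm'
      simp only [quadT, half_self, ← pt_lo] at h1
      exact ⟨L, ⟨some j, hL⟩, h1⟩
    · obtain ⟨m, rfl⟩ : ∃ m', m = 2 ^ a + m' := ⟨m - 2 ^ a, by omega⟩
      obtain ⟨L, hL, h1⟩ := ih (some j') a (quadT (some j') T) (h.2 _) j j' hne m
        (by rw [pow_succ] at hm; omega)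
      simp only [quadT, half_self, ← pt_hi] at h1
      exact ⟨L, ⟨some j', hL⟩, by rw [add_assoc]; exact h1⟩

lemma Cap.co_side {σ : Nd E} (h : Cap 𝓛 σ) {j j' : Fin 3} (hne : j ≠ j') {m : ℕ}
    (hm : m < 2 ^ σ.a) : Co 𝓛 (pt σ.a (σ.T j) (σ.T j') m) (pt σ.a (σ.T j) (σ.T j') (m + 1)) := by
  obtain ⟨L, hL, h1⟩ := side_path σ.t σ.a σ.T h.ok.2 j j' hne m hm
  exact ⟨L, h.mem L hL, h1⟩

lemma Cap.near_side {σ : Nd E} (h : Cap 𝓛 σ) {j j' : Fin 3} (hne : j ≠ j') (m : ℕ)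
    (hm : m ≤ 2 ^ σ.a) : Near 𝓛 m (σ.T j) (pt σ.a (σ.T j) (σ.T j') m) := by
  induction m with
  | zero => rw [pt_zero]; exact .refl _ _
  | succ m ih => exact (ih (by omega)).trans (h.co_side hne (by omega)).near

lemma Cap.near_corner {σ : Nd E} (h : Cap 𝓛 σ) (j j' : Fin 3) :
    Near 𝓛 (2 ^ σ.a) (σ.T j) (σ.T j') := by
  by_cases hne : j = j'
  · rw [hne]; exact .refl _ _
  · have := h.near_side hne _ le_rfl
    rwa [pt_top] at this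

lemma Cap.vtx_corner {σ : Nd E} (h : Cap 𝓛 σ) (j : Fin 3) : Vtx 𝓛 (σ.T j) := by
  obtain ⟨j', hj, -⟩ := third j j
  have := (h.co_side hj.symm (m := 0) (by positivity)).left
  rwa [pt_zero] at this

lemma Cap.near_ch {σ : Nd E} (h : Cap 𝓛 σ) {k : Ix} (hk : k ∈ idx σ.t) :
    Near 𝓛 (2 * 2 ^ σ.a) (σ.T 0) ((σ.ch ρ k).T 0) := by
  have hc := fun k hk => (h.ch (ρ := ρ) (k := k) hk).near_corner
  have h0 := h.near_corner
  obtain ⟨t, a, T, g⟩ := σ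
  have hp : 2 ^ (a - 1) ≤ 2 ^ a := Nat.pow_le_pow_right (by norm_num) (by omega)
  cases t with
  | leaf => simp at hk
  | tri c =>
    obtain ⟨j, rfl⟩ := (mem_idx_tri c k).1 hk
    exact (h0 0 (if j = 0 then 1 else 0)).mono (by dsimp only; omega)
  | quad c =>
    obtain ⟨j, rfl⟩ := (mem_idx_quad c k).1 hk
    rcases j with _ | j
    · have h1 := hc (.inr (some 1)) (by simp) 1 2
      have e1 : (Nd.ch ρ ⟨.quad c, a, T, g⟩ (.inr (some 1))).T 1 = T 1 := half_self _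
      have e2 : (Nd.ch ρ ⟨.quad c, a, T, g⟩ (.inr (some 1))).T 2 =
          (Nd.ch ρ ⟨.quad c, a, T, g⟩ (.inr none)).T 0 := by
        simp only [Nd.ch, chT, quadT]; module
      rw [e1, e2] at h1
      exact ((h0 0 1).trans h1).mono (by simp only [Nd.ch, lvl]; omega)
    · have h1 := hc (.inr (some j)) (by simp) j 0
      have e1 : (Nd.ch ρ ⟨.quad c, a, T, g⟩ (.inr (some j))).T j = T j := half_self _
      rw [e1] at h1
      exact ((h0 0 j).trans h1).mono (by simp only [Nd.ch, lvl]; omega)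

end Pool.Agent.MP_295da9_pr.Th
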