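import Mathlib
import Pool.Agent.MP_295da9_pr.ThSys

/-! Counting functions on subdivision trees and their geometric meaning. -/

namespace Pool.Agent.MP_295da9_pr.Th

/-- number of leaves -/
def size : Tr → ℕ
  | .leaf => 1
  | .tri c => ∑ k, size (c k)
  | .quad c => ∑ k, size (c k)

/-- weighted height -/
def hgt : Tr → ℕ → ℕ
  | .leaf, _ => 0
  | .tri c, a => 2 ^ a + Finset.univ.sup fun k => hgt (c k) a
  | .quad c, a => 2 ^ a + Finset.univ.sup fun k => hgt (c k) (a - 1)

/-- number of leaves of weighted depth at most `L` -/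
def reach : Tr → ℕ → ℕ → ℕ
  | .leaf, _, _ => 1
  | .tri c, a, L => if 2 ^ a ≤ L then ∑ k, reach (c k) a (L - 2 ^ a) else 0
  | .quad c, a, L => if 2 ^ a ≤ L then ∑ k, reach (c k) (a - 1) (L - 2 ^ a) else 0

/-- the depth rule -/
noncomputable def rho2 : Rule := fun a g => min (g 0) (min (g 1) (g 2)) + 2 ^ a

open Classical in
/-- number of leaves with a corner of depth `< R` -/
noncomputable def cnt (R : ℝ) : Tr → ℕ → (Fin 3 → ℝ) → ℕ
  | .leaf, _, g => if ∃ j, g j < R then 1 else 0
  | .tri c, a, g => ∑ k, cnt R (c k) a (upd k g (rho2 a g))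
  | .quad c, a, g => ∑ k, cnt R (c k) (a - 1) (quadT k g)

/-- number of leaves at a corner -/
def cp : Tr → Fin 3 → ℕ
  | .leaf, _ => 1
  | .tri c, j => ![cp (c 1) 0 + cp (c 2) 0, cp (c 0) 0 + cp (c 2) 1, cp (c 0) 1 + cp (c 1) 1] j
  | .quad c, j => cp (c (some j)) j

/-- all subtrees have the property -/
def All (P : Tr → ℕ → Prop) : Tr → ℕ → Prop
  | .leaf, a => P .leaf a
  | .tri c, a => P (.tri c) a ∧ ∀ k, All P (c k) a
  | .quad c, a => P (.quad c) a ∧ ∀ k, All P (c k) (a - 1)

lemma All.root {P : Tr → ℕ → Prop} {t : Tr} {a : ℕ} (h : All P t a) : P t a := by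
  cases t with
  | leaf => exact h
  | tri c => exact h.1
  | quad c => exact h.1

lemma All.sub {P : Tr → ℕ → Prop} {t : Tr} {a : ℕ} (h : All P t a) {k : Ix} (hk : k ∈ idx t) :
    All P (sub t k) (lvl a k) := by
  cases t with
  | leaf => simp at hk
  | tri c => obtain ⟨i, rfl⟩ := (mem_idx_tri c k).1 hk; exact h.2 i
  | quad c => obtain ⟨i, rfl⟩ := (mem_idx_quad c k).1 hk; exact h.2 i

lemma all_of_inherit {P Q : Tr → ℕ → Prop} (h1 : ∀ t a, Q t a → P t a)
    (h2 : ∀ t a, Q t a → ∀ k ∈ idx t, Q (sub t k) (lvl a k)) (t : Tr) :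
    ∀ a, Q t a → All P t a := by
  induction t with
  | leaf => exact fun a h => h1 _ _ h
  | tri c ih => exact fun a h => ⟨h1 _ _ h, fun k => ih k _ (h2 _ _ h (.inl k) (by simp))⟩
  | quad c ih => exact fun a h => ⟨h1 _ _ h, fun k => ih k _ (h2 _ _ h (.inr k) (by simp))⟩

lemma one_le_cp (t : Tr) : ∀ j, 1 ≤ cp t j := by
  induction t with
  | leaf => intro j; exact le_rfl
  | tri c ih =>
    intro j
    have := ih 0 0
    have := ih 1 0
    have := ih 0 1
    fin_cases j <;> simp [cp] <;> omega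
  | quad c ih => intro j; exact ih _ _

lemma hgt_sub {t : Tr} (a : ℕ) {k : Ix} (hk : k ∈ idx t) :
    2 ^ a + hgt (sub t k) (lvl a k) ≤ hgt t a := by
  cases t with
  | leaf => simp at hk
  | tri c =>
    obtain ⟨i, rfl⟩ := (mem_idx_tri c k).1 hk
    exact Nat.add_le_add_left
      (Finset.le_sup (f := fun k => hgt (c k) a) (Finset.mem_univ i)) _
  | quad c =>
    obtain ⟨i, rfl⟩ := (mem_idx_quad c k).1 hk
    exact Nat.add_le_add_left
      (Finset.le_sup (f := fun k => hgt (c k) (a - 1)) (Finset.mem_univ i)) _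

lemma reach_go {t : Tr} (ht : t ≠ .leaf) (a L : ℕ) : reach t a L =
    if 2 ^ a ≤ L then ∑ k ∈ idx t, reach (sub t k) (lvl a k) (L - 2 ^ a) else 0 := by
  cases t with
  | leaf => exact absurd rfl ht
  | tri c => rw [sum_idx_tri]; rfl
  | quad c => rw [sum_idx_quad]; rfl

lemma size_go {t : Tr} (ht : t ≠ .leaf) : size t = ∑ k ∈ idx t, size (sub t k) := by
  cases t with
  | leaf => exact absurd rfl ht
  | tri c => rw [sum_idx_tri]; rfl
  | quad c => rw [sum_idx_quad]; rfl

lemma reach_eq_size (t : Tr) : ∀ a L, hgt t a ≤ L → reach t a L = size t := by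
  induction t using Tr.ind with
  | _ t ih =>
    intro a L h
    by_cases ht : t = .leaf
    · subst ht; rfl
    · have h1 : 2 ^ a ≤ L := by
        cases t with
        | leaf => exact absurd rfl ht
        | tri c => exact le_trans (Nat.le_add_right _ _) h
        | quad c => exact le_trans (Nat.le_add_right _ _) h
      rw [reach_go ht, if_pos h1, size_go ht]
      exact Finset.sum_congr rfl fun k hk => ih k hk _ _ (by have := hgt_sub a hk; omega)

lemma reach_mono (t : Tr) : ∀ a L L', L ≤ L' → reach t a L ≤ reach t a L' := by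
  induction t using Tr.ind with
  | _ t ih =>
    intro a L L' h
    by_cases ht : t = .leaf
    · subst ht; exact le_rfl
    · rw [reach_go ht, reach_go ht]
      split_ifs with h1 h2
      · exact Finset.sum_le_sum fun k hk => ih k hk _ _ _ (by omega)
      · omega
      · omega
      · omega

lemma reach_sub {t : Tr} (a L : ℕ) {k : Ix} (hk : k ∈ idx t) :
    reach (sub t k) (lvl a k) L ≤ reach t a (2 ^ a + L) := by
  rw [reach_go (ne_leaf_of_mem hk), if_pos (Nat.le_add_right _ _), Nat.add_sub_cancel_left]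
  exact Finset.single_le_sum (f := fun k => reach (sub t k) (lvl a k) L)
    (fun _ _ => Nat.zero_le _) hk

variable {E : Type*} [AddCommGroup E] [Module ℝ E] {ρ : Rule} {𝓛 : Set (Fin 3 → E)}

omit [AddCommGroup E] [Module ℝ E] in
lemma not_stop_zero {σ : Nd E} (h : σ.t ≠ .leaf) : ¬ Stop 0 σ :=
  fun h' => h'.elim h (Nat.not_lt_zero _)

open Classical in
lemma countP_cnt (R : ℝ) (σ : Nd E) :
    Multiset.countP (fun l : Nd E => ∃ j, l.g j < R) (cells rho2 0 σ) = cnt R σ.t σ.a σ.g := by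
  induction σ using @Nd.ind E _ _ rho2 with
  | _ σ ih =>
    by_cases ht : σ.t = .leaf
    · rw [cells_stop (Or.inl ht), ht, cnt, Multiset.countP_eq_card_filter, Multiset.filter_singleton]
      split_ifs <;> simp
    · rw [cells_go (not_stop_zero ht), ← Multiset.coe_countPAddMonoidHom, map_sum]
      simp only [Multiset.coe_countPAddMonoidHom]
      rw [Finset.sum_congr rfl ih]
      obtain ⟨t, a, T, g⟩ := σ
      cases t with
      | leaf => exact absurd rfl ht
      | tri c => rw [sum_idx_tri]; rfl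
      | quad c => rw [sum_idx_quad]; rfl

lemma Cap.near_leaf (σ : Nd E) : Cap 𝓛 σ → ∀ L, LeafOf σ.t σ.T L →
    Near 𝓛 (2 * hgt σ.t σ.a) (σ.T 0) (L 0) := by
  induction σ using @Nd.ind E _ _ rho0 with
  | _ σ ih =>
    intro h L hL
    by_cases ht : σ.t = .leaf
    · rw [ht] at hL
      obtain rfl : L = σ.T := hL
      exact .refl _ _
    · obtain ⟨k, hk, hL⟩ := (leafOf_go rho0 ht L).1 hL
      have h1 := hgt_sub σ.a hk
      exact ((h.near_ch hk).trans (ih k hk (h.ch hk) L hL)).mono (by simp only [Nd.ch]; omega)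

lemma Cap.near_vtx (hS : Sys 𝓛) {σ : Nd E} (h : Cap 𝓛 σ) {x : E} (hv : Vtx 𝓛 x)
    (hx : Reg σ.T x) : Near 𝓛 (2 * hgt σ.t σ.a + 1) (σ.T 0) x := by
  obtain ⟨L, hL, hj⟩ := h.vtx_leaf hS hv hx
  exact (h.near_leaf σ L hL).trans (Co.near ⟨L, h.mem L hL, ⟨0, rfl⟩, hj⟩)

lemma cap_exists_reach (σ : Nd E) : Cap 𝓛 σ → ∀ L, ∃ s ≤ cells ρ 0 σ,
    Multiset.card s = reach σ.t σ.a L ∧ ∀ l ∈ s, Near 𝓛 (2 * L) (σ.T 0) (l.T 0) := by
  induction σ using @Nd.ind E _ _ ρ with
  | _ σ ih =>
    intro h L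
    by_cases ht : σ.t = .leaf
    · refine ⟨{σ}, by rw [cells_stop (Or.inl ht)], by rw [ht]; rfl, fun l hl => ?_⟩
      rw [Multiset.mem_singleton.1 hl]
      exact .refl _ _
    · rw [reach_go ht]
      split_ifs with h1
      · have h2 : ∀ k, ∃ s, k ∈ idx σ.t → s ≤ cells ρ 0 (σ.ch ρ k) ∧
            Multiset.card s = reach (sub σ.t k) (lvl σ.a k) (L - 2 ^ σ.a) ∧
            ∀ l ∈ s, Near 𝓛 (2 * (L - 2 ^ σ.a)) ((σ.ch ρ k).T 0) (l.T 0) := by
          intro k
          by_cases hk : k ∈ idx σ.t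
          · obtain ⟨s, hs⟩ := ih k hk (h.ch hk) (L - 2 ^ σ.a)
            exact ⟨s, fun _ => hs⟩
          · exact ⟨0, fun h => absurd h hk⟩
        choose s hs using h2
        refine ⟨∑ k ∈ idx σ.t, s k, ?_, ?_, fun l hl => ?_⟩
        · rw [cells_go (not_stop_zero ht)]
          exact Finset.sum_le_sum fun k hk => (hs k hk).1
        · rw [Multiset.card_sum]
          exact Finset.sum_congr rfl fun k hk => (hs k hk).2.1
        · obtain ⟨k, hk, hl⟩ := Multiset.mem_sum.1 hl
          exact ((h.near_ch hk).trans ((hs k hk).2.2 l hl)).mono (by omega)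
      · exact ⟨0, Multiset.zero_le _, rfl, by simp⟩

open Classical in
/-- number of cells having `X` as a corner -/
noncomputable def cc (ρ : Rule) (i : ℕ) (X : E) (σ : Nd E) : ℕ :=
  Multiset.countP (fun c : Nd E => ∃ j, c.T j = X) (cells ρ i σ)

open Classical in
lemma cc_go {i : ℕ} {X : E} {σ : Nd E} (h : ¬ Stop i σ) :
    cc ρ i X σ = ∑ k ∈ idx σ.t, cc ρ i X (σ.ch ρ k) := by
  unfold cc
  rw [cells_go h, ← Multiset.coe_countPAddMonoidHom, map_sum]

lemma not_nn_tri (j : Fin 3) : ¬ NN (chB (.inl j) (Pi.single j 1)) := by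
  intro h
  have := h 0
  fin_cases j <;> simp [chB, updB] at this <;> linarith

lemma not_nn_quad (j : Fin 3) (k : Option (Fin 3)) (hk : k ≠ some j) :
    ¬ NN (chB (.inr k) (Pi.single j 1)) := by
  intro h
  rcases k with _ | k
  · have := h j
    simp [chB, quadB] at this
  · have := h k
    have hne : k ≠ j := fun h => hk (by rw [h])
    simp [chB, quadB, hne] at this
    linarith

open Classical in
lemma cc_stop {i : ℕ} {X : E} {σ : Nd E} (h : Stop i σ) : cc ρ i X σ ≤ 1 := by
  unfold cc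
  rw [cells_stop h]
  exact (Multiset.countP_le_card _ _).trans (by simp)

open Classical in
lemma cc_not_reg {i : ℕ} {X : E} {σ : Nd E} (h : OK σ) (hX : ¬ Reg σ.T X) : cc ρ i X σ = 0 := by
  unfold cc
  rw [Multiset.countP_eq_zero]
  rintro c hc ⟨j, rfl⟩
  exact hX (reg_of_cells h hc (reg_vertex (h.cells hc).1 j))

lemma cc_corner (i : ℕ) (σ : Nd E) : OK σ → ∀ j, cc ρ i (σ.T j) σ ≤ cp σ.t j := by
  induction σ using @Nd.ind E _ _ ρ with
  | _ σ ih =>
    intro h j
    by_cases hs : Stop i σ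
    · exact (cc_stop hs).trans (one_le_cp _ _)
    · rw [cc_go hs]
      have hz : ∀ k ∈ idx σ.t, ¬ NN (chB k (Pi.single j 1)) → cc ρ i (σ.T j) (σ.ch ρ k) = 0 :=
        fun k hk hn => cc_not_reg (h.ch hk) (by
          unfold Reg; rwa [bcf_chN h.1, bcf_vertex h.1])
      have ih' := fun k hk => ih k hk (h.ch hk)
      obtain ⟨t, a, T, g⟩ := σ
      cases t with
      | leaf => exact absurd (Or.inl rfl) hs
      | tri c =>
        rw [sum_idx_tri, Fin.sum_univ_three]
        have h0 := hz (.inl j) (by simp) (not_nn_tri j)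
        fin_cases j
        · exact (Nat.add_le_add (Nat.add_le_add h0.le (ih' (.inl 1) (by simp) 0))
            (ih' (.inl 2) (by simp) 0)).trans (by simp [cp, Nd.ch, sub])
        · exact (Nat.add_le_add (Nat.add_le_add (ih' (.inl 0) (by simp) 0) h0.le)
            (ih' (.inl 2) (by simp) 1)).trans (by simp [cp, Nd.ch, sub])
        · exact (Nat.add_le_add (Nat.add_le_add (ih' (.inl 0) (by simp) 1)
            (ih' (.inl 1) (by simp) 1)) h0.le).trans (by simp [cp, Nd.ch, sub])
      | quad c =>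
        rw [sum_idx_quad, Finset.sum_eq_single (some j)]
        · have h1 := ih' (.inr (some j)) (by simp) j
          have e1 : (Nd.ch ρ ⟨.quad c, a, T, g⟩ (.inr (some j))).T j = T j := half_self _
          rw [e1] at h1
          exact h1
        · intro k _ hk
          exact hz (.inr k) (by simp) (not_nn_quad j k hk)
        · simp

lemma class_bdy_tri {b : Fin 3 → ℝ} (hs : b 0 + b 1 + b 2 = 1) (hb : NN b) (hn : ¬ PP b)
    (hc : ∀ j, b ≠ Pi.single j 1) : ∃ k0, ∀ k, NN (updB k b) → k = k0 := by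
  obtain ⟨k0, hk0⟩ := cover_tri hb
  refine ⟨k0, fun k hk => ?_⟩
  by_contra hne
  have h1 := zero_of_bdy_tri hk0 hn
  have h2 := zero_of_bdy_tri (i := k) hk hn
  obtain ⟨j, hj, hj'⟩ := third k k0
  apply hc j
  ext m
  fin_cases k <;> fin_cases k0 <;> fin_cases j <;> fin_cases m <;>
    simp at hne hj hj' h1 h2 ⊢ <;> linarith

lemma class_int_tri {b : Fin 3 → ℝ} (hs : b 0 + b 1 + b 2 = 1) :
    (∃ k0, ¬ NN (updB k0 b)) ∨ ∀ k, updB k b = Pi.single 2 1 := by
  by_cases h : ∃ k0, ¬ NN (updB k0 b)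
  · exact Or.inl h
  · push Not at h
    right
    have h0 := ((updB_nonneg_iff 0 b).1 (h 0)).2
    have h1 := ((updB_nonneg_iff 1 b).1 (h 1)).2
    have h2 := ((updB_nonneg_iff 2 b).1 (h 2)).2
    have := h0 1
    have := h0 2
    have := h1 0
    have := h2 0
    intro k
    ext m
    fin_cases k <;> fin_cases m <;> simp [updB] <;> linarith

lemma class_int_quad {b : Fin 3 → ℝ} (hs : b 0 + b 1 + b 2 = 1) (hb : PP b) :
    ∃ j, ∀ k, NN (quadB k b) → k = none ∨ k = some j := by
  rw [pp_iff] at hb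
  by_cases h : ∃ j, NN (quadB (some j) b)
  · obtain ⟨j, hj⟩ := h
    refine ⟨j, fun k hk => ?_⟩
    rcases k with _ | k
    · exact Or.inl rfl
    · right
      rw [nn_iff] at hj hk
      fin_cases j <;> fin_cases k <;> simp [quadB] at hj hk ⊢ <;> linarith
  · refine ⟨0, fun k hk => ?_⟩
    rcases k with _ | k
    · exact Or.inl rfl
    · exact absurd ⟨k, hk⟩ h

lemma class_bdy_quad {b : Fin 3 → ℝ} (hs : b 0 + b 1 + b 2 = 1) (hb : NN b) (hn : ¬ PP b) :
    (∃ k0, ∀ k, NN (quadB k b) → k = k0) ∨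
    ∃ j0, ¬ NN (quadB (some j0) b) ∧ ∀ k, NN (quadB k b) → ∃ j, quadB k b = Pi.single j 1 := by
  obtain ⟨j0, hj0⟩ : ∃ j0, b j0 = 0 := by
    by_contra h
    push Not at h
    exact hn fun j => lt_of_le_of_ne (hb j) (h j).symm
  by_cases h : NN (quadB none b)
  · right
    rw [nn_iff] at h
    simp only [quadB] at h
    refine ⟨j0, fun h' => by have := h' j0; simp [quadB, hj0] at this; linarith, fun k hk => ?_⟩
    rcases k with _ | k
    · refine ⟨j0, ?_⟩
      ext m
      fin_cases j0 <;> fin_cases m <;> simp [quadB] at hj0 ⊢ <;> linarith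
    · have hk0 : k ≠ j0 := by
        rintro rfl
        have := hk k
        simp [quadB, hj0] at this
        linarith
      obtain ⟨j, hj, hj'⟩ := third k j0
      refine ⟨j, ?_⟩
      ext m
      fin_cases j0 <;> fin_cases k <;> fin_cases j <;> fin_cases m <;>
        simp [quadB] at hj0 hk0 hj hj' ⊢ <;> linarith
  · left
    obtain ⟨k0, hk0⟩ := cover_quad hb
    refine ⟨k0, fun k hk => ?_⟩
    rcases k0 with _ | k0
    · exact absurd hk0 h
    · rcases k with _ | k
      · exact absurd hk h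
      · by_contra hne
        apply h
        rw [nn_iff] at hk hk0 hb ⊢
        fin_cases k <;> fin_cases k0 <;> simp [quadB, chB] at hne hk hk0 ⊢ <;>
          refine ⟨?_, ?_, ?_⟩ <;> linarith

open Classical in
lemma class_ch (σ : Nd E) (h : OK σ) {X : E} (hX : Reg σ.T X) (hc : ∀ j, σ.T j ≠ X) :
    ((idx σ.t).filter fun k => Reg (σ.ch ρ k).T X).card ≤ (if Int σ.T X then 2 else 1) ∨
    (((idx σ.t).filter fun k => Reg (σ.ch ρ k).T X).card ≤ 3 ∧
      ∀ k ∈ idx σ.t, Reg (σ.ch ρ k).T X → ∃ j, (σ.ch ρ k).T j = X) := by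
  have hs := bcf_sum h.1 X
  have hc' : ∀ j, bcf σ.T X ≠ Pi.single j 1 := fun j hj => hc j (eq_vertex_of_bcf h.1 hj).symm
  have hr : ∀ k, Reg (σ.ch ρ k).T X ↔ NN (chB k (bcf σ.T X)) := fun k => by
    unfold Reg; rw [bcf_chN h.1]
  have hv : ∀ k j, chB k (bcf σ.T X) = Pi.single j 1 → (σ.ch ρ k).T j = X := fun k j hj =>
    (eq_vertex_of_bcf (good_ch h.1 k) ((bcf_ch h.1 k X).trans hj)).symm
  simp only [hr]
  obtain ⟨t, a, T, g⟩ := σ
  cases t with
  | leaf => left; simp [idx]
  | tri c =>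
    have h3 : (idx (.tri c)).card = 3 := by simp [idx]
    split_ifs with hi
    · rcases class_int_tri hs with ⟨k0, hk0⟩ | h1
      · left
        refine (Finset.card_le_card (t := (idx (.tri c)).erase (.inl k0)) ?_).trans ?_
        · intro k hk
          rw [Finset.mem_filter] at hk
          exact Finset.mem_erase.2 ⟨fun h => hk0 (h ▸ hk.2 :), hk.1⟩
        · rw [Finset.card_erase_of_mem (by simp), h3]
      · right
        refine ⟨(Finset.card_filter_le _ _).trans h3.le, fun k hk _ => ?_⟩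
        obtain ⟨i, rfl⟩ := (mem_idx_tri c k).1 hk
        exact ⟨2, hv _ _ (h1 i)⟩
    · left
      obtain ⟨k0, hk0⟩ := class_bdy_tri hs hX hi hc'
      refine (Finset.card_le_card (t := {.inl k0}) ?_).trans (by simp)
      intro k hk
      rw [Finset.mem_filter] at hk
      obtain ⟨i, rfl⟩ := (mem_idx_tri c k).1 hk.1
      rw [hk0 i hk.2]; simp
  | quad c =>
    split_ifs with hi
    · left
      obtain ⟨j, hj⟩ := class_int_quad hs hi
      refine (Finset.card_le_card (t := {.inr none, .inr (some j)}) ?_).trans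
        Finset.card_le_two
      intro k hk
      rw [Finset.mem_filter] at hk
      obtain ⟨i, rfl⟩ := (mem_idx_quad c k).1 hk.1
      rcases hj i hk.2 with rfl | rfl <;> simp
    · rcases class_bdy_quad hs hX hi with ⟨k0, hk0⟩ | ⟨j0, h1, h2⟩
      · left
        refine (Finset.card_le_card (t := {.inr k0}) ?_).trans (by simp)
        intro k hk
        rw [Finset.mem_filter] at hk
        obtain ⟨i, rfl⟩ := (mem_idx_quad c k).1 hk.1
        rw [hk0 i hk.2]; simp
      · right
        constructor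
        · refine (Finset.card_le_card (t := (idx (.quad c)).erase (.inr (some j0))) ?_).trans ?_
          · intro k hk
            rw [Finset.mem_filter] at hk
            exact Finset.mem_erase.2 ⟨fun h => h1 (h ▸ hk.2 :), hk.1⟩
          · rw [Finset.card_erase_of_mem (by simp)]
            have := card_idx_le (.quad c)
            omega
        · intro k hk hk'
          obtain ⟨i, rfl⟩ := (mem_idx_quad c k).1 hk
          obtain ⟨j, hj⟩ := h2 i hk'
          exact ⟨j, hv _ _ hj⟩

lemma cc_le {κ : ℕ} (i : ℕ) (X : E) (σ : Nd E) : OK σ →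
    All (fun t _ => ∀ j, cp t j ≤ κ) σ.t σ.a →
    (¬ Int σ.T X → cc ρ i X σ ≤ 3 * κ) ∧ cc ρ i X σ ≤ 6 * κ := by
  classical
  induction σ using @Nd.ind E _ _ ρ with
  | _ σ ih =>
    intro h hA
    have hκ : 1 ≤ κ := (one_le_cp _ 0).trans (hA.root 0)
    by_cases hs : Stop i σ
    · have := cc_stop (ρ := ρ) (X := X) hs
      exact ⟨fun _ => by omega, by omega⟩
    by_cases hX : Reg σ.T X
    swap
    · rw [cc_not_reg h hX]; simp
    by_cases hc : ∃ j, σ.T j = X
    · obtain ⟨j, rfl⟩ := hc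
      have := (cc_corner (ρ := ρ) i σ h j).trans (hA.root j)
      exact ⟨fun _ => by omega, by omega⟩
    push Not at hc
    set s := (idx σ.t).filter fun k => Reg (σ.ch ρ k).T X with hs'
    have e : cc ρ i X σ = ∑ k ∈ s, cc ρ i X (σ.ch ρ k) := by
      rw [cc_go hs, hs', Finset.sum_filter_of_ne]
      intro k hk hne
      by_contra hr
      exact hne (cc_not_reg (h.ch hk) hr)
    have ih' := fun k (hk : k ∈ s) => ih k (Finset.mem_filter.1 hk).1
      (h.ch (Finset.mem_filter.1 hk).1) (hA.sub (Finset.mem_filter.1 hk).1)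
    have hb : ∀ N, (∀ k ∈ s, cc ρ i X (σ.ch ρ k) ≤ N) → cc ρ i X σ ≤ s.card * N := fun N hN => by
      rw [e]; exact Finset.sum_le_card_nsmul _ _ _ hN
    rcases class_ch (ρ := ρ) σ h hX hc with h1 | ⟨h1, h2⟩
    · split_ifs at h1 with hi
      · refine ⟨fun h' => absurd hi h', ?_⟩
        by_cases h3 : s.card ≤ 1
        · exact (hb _ fun k hk => (ih' k hk).2).trans (by nlinarith)
        · refine (hb (3 * κ) fun k hk => (ih' k hk).1 ?_).trans (by nlinarith)
          obtain ⟨k', hk', hne⟩ := Finset.exists_mem_ne (by omega : 1 < s.card) k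
          rw [hs', Finset.mem_filter] at hk hk'
          exact sep_ch h hk.1 hk'.1 hne.symm hk'.2
      · have := (hb (3 * κ) fun k hk => (ih' k hk).1 fun h' => hi (int_of_ch h h'))
        exact ⟨fun _ => by nlinarith, by nlinarith⟩
    · have := hb κ fun k hk => by
        rw [hs', Finset.mem_filter] at hk
        obtain ⟨j, hj⟩ := h2 k hk.1 hk.2
        rw [← hj]
        exact (cc_corner i _ (h.ch hk.1) j).trans ((hA.sub hk.1).root j)
      exact ⟨fun _ => by nlinarith, by nlinarith⟩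

end Pool.Agent.MP_295da9_pr.Th
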