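import Mathlib
import Pool.Agent.MP_295da9_pr.ThCount

/-! Lipschitz decorations and the upper bound for balls. -/

namespace Pool.Agent.MP_295da9_pr.Th

/-- oscillation at most `2 ^ a` -/
def Osc (a : ℕ) (g : Fin 3 → ℝ) : Prop := ∀ j j', g j ≤ g j' + 2 ^ a

/-- rules that keep the oscillation small -/
def RuleOK (ρ : Rule) : Prop :=
  ∀ a g, Osc a g → ∀ j, ρ a g ≤ g j + 2 ^ a ∧ g j ≤ ρ a g + 2 ^ a

/-- the majority rule -/
noncomputable def rho1 : Rule := fun _ g => if g 0 = g 1 then g 0 else g 2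

lemma ruleOK_rho1 : RuleOK rho1 := by
  intro a g h j
  unfold rho1
  split_ifs
  · exact ⟨h _ _, h _ _⟩
  · exact ⟨h _ _, h _ _⟩

lemma min3_le (g : Fin 3 → ℝ) (j : Fin 3) : min (g 0) (min (g 1) (g 2)) ≤ g j := by
  fin_cases j
  · exact min_le_left _ _
  · exact (min_le_right _ _).trans (min_le_left _ _)
  · exact (min_le_right _ _).trans (min_le_right _ _)

lemma le_min3 {g : Fin 3 → ℝ} {m : ℝ} (h : ∀ j, m ≤ g j) : m ≤ min (g 0) (min (g 1) (g 2)) :=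
  le_min (h 0) (le_min (h 1) (h 2))

lemma ruleOK_rho2 : RuleOK rho2 := by
  intro a g h j
  unfold rho2
  have h1 := min3_le g j
  have h2 : g j - 2 ^ a ≤ min (g 0) (min (g 1) (g 2)) := le_min3 fun m => by linarith [h j m]
  have h3 : (0 : ℝ) < 2 ^ a := by positivity
  constructor <;> linarith

variable {E : Type*} [AddCommGroup E] [Module ℝ E] {ρ : Rule} {𝓛 : Set (Fin 3 → E)}

lemma osc_ch (hρ : RuleOK ρ) {σ : Nd E} (h : OK σ) (ho : Osc σ.a σ.g) {k : Ix}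
    (hk : k ∈ idx σ.t) : Osc (σ.ch ρ k).a (σ.ch ρ k).g := by
  obtain ⟨t, a, T, g⟩ := σ
  have h3 : (0 : ℝ) < 2 ^ a := by positivity
  cases t with
  | leaf => simp at hk
  | tri c =>
    obtain ⟨i, rfl⟩ := (mem_idx_tri c k).1 hk
    intro j j'
    simp only [Nd.ch, chT, lvl]
    rcases upd_mem i g (ρ a g) j with h1 | ⟨m, -, h1⟩ <;>
      rcases upd_mem i g (ρ a g) j' with h2 | ⟨m', -, h2⟩ <;> rw [h1, h2]
    · linarith
    · exact (hρ a g ho m').1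
    · exact (hρ a g ho m).2
    · exact ho m m'
  | quad c =>
    obtain ⟨i, rfl⟩ := (mem_idx_quad c k).1 hk
    obtain ⟨a, rfl⟩ : ∃ b, a = b + 1 := ⟨a - 1, by have : 1 ≤ a := h.2.1; omega⟩
    intro j j'
    have h1 := ho j j'
    have h2 := ho j' j
    simp only [pow_succ] at h1 h2
    rcases i with _ | i <;>
      simp only [Nd.ch, chT, lvl, quadT, smul_eq_mul, Nat.add_sub_cancel] <;> linarith

lemma osc_leaf (hρ : RuleOK ρ) {σ l : Nd E} (h : OK σ) (ho : Osc σ.a σ.g)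
    (hl : l ∈ cells ρ 0 σ) (j j' : Fin 3) : l.g j ≤ l.g j' + 1 := by
  have h1 := (cells_inherit (P := fun c => OK c ∧ Osc c.a c.g)
    (fun _ h _ _ hk => ⟨h.1.ch hk, osc_ch hρ h.1 h.2 hk⟩) σ ⟨h, ho⟩ l hl).1.2 j j'
  rw [level_cells h (by simp) hl] at h1
  simpa using h1

/-- value of the decoration at a vertex -/
def HasV (ρ : Rule) (σ : Nd E) (x : E) (v : ℝ) : Prop :=
  ∃ l ∈ cells ρ 0 σ, ∃ j, l.T j = x ∧ l.g j = v

lemma hasV_of_leaf (ρ : Rule) {σ : Nd E} {L : Fin 3 → E} (hL : LeafOf σ.t σ.T L) (j : Fin 3) :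
    ∃ v, HasV ρ σ (L j) v := by
  obtain ⟨l, hl, rfl⟩ := (leafOf_zero ρ σ L).1 hL
  exact ⟨_, l, hl, j, rfl, rfl⟩

lemma Cap.hasV (ρ : Rule) (hS : Sys 𝓛) {σ : Nd E} (h : Cap 𝓛 σ) {x : E} (hv : Vtx 𝓛 x)
    (hx : Reg σ.T x) : ∃ v, HasV ρ σ x v := by
  obtain ⟨L, hL, j, rfl⟩ := h.vtx_leaf hS hv hx
  exact hasV_of_leaf ρ hL j

lemma HasV.bdy {σ : Nd E} (h : OK σ) {x : E} {v : ℝ} (hv : HasV ρ σ x v) (hn : ¬ Int σ.T x) :
    v = val σ.g (bcf σ.T x) := by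
  obtain ⟨l, hl, j, rfl, rfl⟩ := hv
  exact value_bdy h hl j hn

lemma HasV.unique {σ : Nd E} (h : OK σ) {x : E} {v v' : ℝ} (hv : HasV ρ σ x v)
    (hv' : HasV ρ σ x v') : v = v' := by
  obtain ⟨l, hl, j, rfl, rfl⟩ := hv
  obtain ⟨l', hl', j', h1, rfl⟩ := hv'
  exact value_unique h hl hl' h1.symm

lemma HasV.reg {σ : Nd E} (h : OK σ) {x : E} {v : ℝ} (hv : HasV ρ σ x v) : Reg σ.T x := by
  obtain ⟨l, hl, j, rfl, rfl⟩ := hv
  exact reg_of_cells h hl (reg_vertex (h.cells hl).1 j)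

lemma HasV.step (hρ : RuleOK ρ) {σ : Nd E} (h : OK σ) (ho : Osc σ.a σ.g) {L : Fin 3 → E}
    (hL : LeafOf σ.t σ.T L) {j : Fin 3} {v : ℝ} (hv : HasV ρ σ (L j) v) (j' : Fin 3) :
    ∃ v', HasV ρ σ (L j') v' ∧ v' ≤ v + 1 := by
  obtain ⟨l, hl, rfl⟩ := (leafOf_zero ρ σ L).1 hL
  refine ⟨_, ⟨l, hl, j', rfl, rfl⟩, ?_⟩
  rw [hv.unique h ⟨l, hl, j, rfl, rfl⟩]
  exact osc_leaf hρ h ho hl _ _

lemma depth_le (hS : Sys 𝓛) {σ : Nd E} (h : Cap 𝓛 σ) (hg : σ.g = 0) {n : ℕ} {w z : E}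
    (hn : Near 𝓛 n w z) (hz : ¬ Int σ.T z) (hv : Vtx 𝓛 w) (hw : Reg σ.T w) :
    ∃ v, HasV rho2 σ w v ∧ v ≤ n := by
  have key : ∀ (n : ℕ) (w : E), ¬ Int σ.T w → Vtx 𝓛 w → Reg σ.T w →
      ∃ v, HasV rho2 σ w v ∧ v ≤ n := by
    intro n w h1 h2 h3
    obtain ⟨v, h4⟩ := h.hasV rho2 hS h2 h3
    refine ⟨v, h4, ?_⟩
    rw [h4.bdy h.ok h1, hg]
    simp [val]
  induction hn with
  | refl n x => exact key n x hz hv hw
  | @step n x y z h1 _ ih =>
    by_cases hi : Int σ.T x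
    · obtain ⟨L, hL, ⟨j, rfl⟩, j', rfl⟩ := h.co_leaf hS h1 hi
      obtain ⟨v, h2, h3⟩ := ih hz h1.right (h.ok.reg_leaf_vertex hL j')
      obtain ⟨v', h4, h5⟩ := h2.step ruleOK_rho2 h.ok (by rw [hg]; intro _ _; simp) hL j
      exact ⟨v', h4, by push_cast; linarith⟩
    · exact key _ x hi hv hw

/-- bound for the number of shallow leaves -/
def Bd (t : Tr) (a : ℕ) (L : ℝ) (N : ℕ) : Prop :=
  ∀ g R, (∀ j, R ≤ g j + L) → cnt R t a g ≤ N

lemma shallow_finset (hS : Sys 𝓛) {σ : Nd E} (h : Cap 𝓛 σ) {L : ℝ} {N n : ℕ}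
    (hB : Bd σ.t σ.a L N) (hn : (n : ℝ) + 1 ≤ L) : ∃ F : Finset E, F.card ≤ 3 * N ∧
      ∀ w z, Vtx 𝓛 w → Reg σ.T w → Near 𝓛 n w z → ¬ Int σ.T z → w ∈ F := by
  classical
  set σ0 : Nd E := ⟨σ.t, σ.a, σ.T, 0⟩ with hσ0
  set s := Multiset.filter (fun l : Nd E => ∃ j, l.g j < (n : ℝ) + 1) (cells rho2 0 σ0) with hs
  refine ⟨(s.bind fun l => {l.T 0, l.T 1, l.T 2}).toFinset, ?_, fun w z h1 h2 h3 h4 => ?_⟩
  · refine (Multiset.toFinset_card_le _).trans ?_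
    have h1 : Multiset.card s ≤ N := by
      rw [hs, ← Multiset.countP_eq_card_filter]
      convert (countP_cnt ((n : ℝ) + 1) σ0).le.trans (hB 0 _ fun j => by simpa using hn)
    rw [Multiset.card_bind]
    simp only [Function.comp_def, Multiset.insert_eq_cons, Multiset.card_cons,
      Multiset.card_singleton, Multiset.map_const', Multiset.sum_replicate, smul_eq_mul]
    omega
  · obtain ⟨v, ⟨l, hl, j, rfl, rfl⟩, h5⟩ := depth_le hS (h.redec 0) rfl h3 h4 h1 h2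
    rw [Multiset.mem_toFinset, Multiset.mem_bind]
    refine ⟨l, Multiset.mem_filter.2 ⟨hl, j, by linarith⟩, ?_⟩
    fin_cases j <;> simp

lemma ball_low (hS : Sys 𝓛) {i N r : ℕ} (hr : 2 * r + 1 ≤ 2 ^ i) {v : E} (hv : Vtx 𝓛 v)
    (σ : Nd E) : Cap 𝓛 σ → All (fun t a => a ≤ i → Bd t a (2 ^ i) N) σ.t σ.a → σ.a ≤ i →
    (∀ w, Near 𝓛 r v w → Reg σ.T w) →
    ∃ F : Finset E, F.card ≤ 12 * N + 3 ∧ ∀ w, Near 𝓛 r v w → w ∈ F := by
  classical
  induction σ using @Nd.ind E _ _ rho0 with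
  | _ σ ih =>
    intro h hA ha hB
    by_cases h1 : ∃ k ∈ idx σ.t, ∀ w, Near 𝓛 r v w → Reg (σ.ch rho0 k).T w
    · obtain ⟨k, hk, h1⟩ := h1
      exact ih k hk (h.ch hk) (hA.sub hk) ((lvl_le _ _).trans ha) h1
    by_cases ht : σ.t = .leaf
    · refine ⟨{σ.T 0, σ.T 1, σ.T 2}, Finset.card_le_three.trans (by omega), fun w hw => ?_⟩
      obtain ⟨L, hL, j, rfl⟩ := h.vtx_leaf hS (hw.vtx hv) (hB w hw)
      rw [ht] at hL
      obtain rfl : L = σ.T := hL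
      fin_cases j <;> simp
    push Not at h1
    have h2 : ∀ k, ∃ F : Finset E, k ∈ idx σ.t → F.card ≤ 3 * N ∧
        ∀ w, Near 𝓛 r v w → Reg (σ.ch rho0 k).T w → w ∈ F := by
      intro k
      by_cases hk : k ∈ idx σ.t
      · obtain ⟨z, hz, hz'⟩ := h1 k hk
        obtain ⟨F, hF, hF'⟩ := shallow_finset hS (h.ch (ρ := rho0) hk) (n := 2 * r)
          ((hA.sub hk).root ((lvl_le _ _).trans ha)) (by exact_mod_cast hr)
        exact ⟨F, fun _ => ⟨hF, fun w hw hw' => hF' w z (hw.vtx hv) hw'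
          (by rw [two_mul]; exact hw.symm.trans hz) fun h' => hz' h'.reg⟩⟩
      · exact ⟨∅, fun h => absurd h hk⟩
    choose F hF using h2
    refine ⟨(idx σ.t).biUnion F, ?_, fun w hw => ?_⟩
    · refine (Finset.card_biUnion_le_card_mul _ _ _ fun k hk => (hF k hk).1).trans ?_
      have := card_idx_le σ.t
      nlinarith
    · obtain ⟨k, hk, hw'⟩ := cover_ch rho0 h.ok ht (hB w hw)
      exact Finset.mem_biUnion.2 ⟨k, hk, (hF k hk).2 w hw hw'⟩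

/-- decoration vanishing at one corner -/
noncomputable def dec (c : Nd E) (j : Fin 3) : Nd E :=
  ⟨c.t, c.a, c.T, fun m => if m = j then 0 else 2 ^ c.a⟩

omit [AddCommGroup E] [Module ℝ E] in
lemma osc_dec (c : Nd E) (j : Fin 3) : Osc (dec c j).a (dec c j).g := by
  intro m m'
  have h3 : (0 : ℝ) < 2 ^ c.a := by positivity
  simp only [dec]
  split_ifs <;> linarith

omit [AddCommGroup E] [Module ℝ E] in
lemma val_dec (c : Nd E) (j : Fin 3) {b : Fin 3 → ℝ} (hs : b 0 + b 1 + b 2 = 1) :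
    val (dec c j).g b = 2 ^ c.a * (1 - b j) := by
  rw [← hs]
  fin_cases j <;> simp [val, dec] <;> ring

lemma exists_half {b : Fin 3 → ℝ} (hs : b 0 + b 1 + b 2 = 1) (hb : NN b) (hn : ¬ PP b) :
    ∃ j, 1 / 2 ≤ b j := by
  by_contra h
  push Not at h
  apply hn
  rw [pp_iff]
  have := h 0
  have := h 1
  have := h 2
  refine ⟨?_, ?_, ?_⟩ <;> linarith

lemma star_walk (hS : Sys 𝓛) {i r : ℕ} (hr : 2 * r < 2 ^ i) {σ c : Nd E} (h : Cap 𝓛 σ)
    (ha : i ≤ σ.a) (hc : c ∈ cells rho0 (i + 1) σ) {p : E} (hp : Vtx 𝓛 p) (h1 : Reg c.T p)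
    (h2 : ¬ Int c.T p) (hI : ∀ w, Near 𝓛 r p w → Int σ.T w) :
    ∃ X, ∀ w, Near 𝓛 r p w → ∃ c' ∈ cells rho0 (i + 1) σ, (∃ j, c'.T j = X) ∧ Reg c'.T w := by
  have hlev : ∀ c' ∈ cells rho0 (i + 1) σ, c'.a = i := fun c' hc' =>
    level_cells h.ok (by simpa using ha) hc'
  have hcap : ∀ c' ∈ cells rho0 (i + 1) σ, ∀ j, Cap 𝓛 (dec c' j) := fun c' hc' j =>
    (h.cells hc').redec _
  have hpos : (0 : ℝ) < 2 ^ i := by positivity
  obtain ⟨j, hj⟩ := exists_half (bcf_sum (h.cells hc).ok.1 p) h1 h2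
  refine ⟨c.T j, fun w hw => ?_⟩
  have key := Near.induct (𝓛 := 𝓛) (x := p) (P := fun n w => n ≤ r →
    ∃ c' ∈ cells rho0 (i + 1) σ, ∃ j', c'.T j' = c.T j ∧ ∃ u, HasV rho1 (dec c' j') w u ∧
      u ≤ 2 ^ i / 2 + n) ?_ ?_ r w hw le_rfl
  · obtain ⟨c', hc', j', e, u, hu, -⟩ := key
    exact ⟨c', hc', ⟨j', e⟩, hu.reg (hcap c' hc' j').ok⟩
  · intro n _
    obtain ⟨u, hu⟩ := (hcap c hc j).hasV rho1 hS hp h1
    refine ⟨c, hc, j, rfl, u, hu, ?_⟩
    rw [hu.bdy (hcap c hc j).ok h2, val_dec _ _ (bcf_sum (hcap c hc j).ok.1 p), hlev c hc]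
    have : (0 : ℝ) ≤ n := Nat.cast_nonneg n
    change 2 ^ i * (1 - bcf c.T p j) ≤ _
    nlinarith
  · intro n y z hy ih hyz hn
    obtain ⟨c', hc', j', e, u, hu, hu'⟩ := ih (by omega)
    obtain ⟨L, hL, ⟨m, rfl⟩, m', rfl⟩ := h.co_leaf hS hyz (hI y (hy.mono (by omega)))
    obtain ⟨c'', hc'', hL'⟩ := (leafOf_cells rho0 (i + 1) σ L).1 hL
    have r1 : Reg c'.T (L m) := hu.reg (hcap c' hc' j').ok
    have r2 : Reg c''.T (L m) := (h.cells hc'').ok.reg_leaf_vertex hL' m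
    have fin : ∀ j'', c''.T j'' = c.T j → ∀ u', HasV rho1 (dec c'' j'') (L m) u' → u' ≤ u →
        ∃ c' ∈ cells rho0 (i + 1) σ, ∃ j', c'.T j' = c.T j ∧
          ∃ u, HasV rho1 (dec c' j') (L m') u ∧ u ≤ 2 ^ i / 2 + ((n + 1 : ℕ) : ℝ) := by
      intro j'' e' u' h3 h4
      obtain ⟨u'', h5, h6⟩ := h3.step ruleOK_rho1 (hcap c'' hc'' j'').ok (osc_dec _ _) hL' m'
      exact ⟨c'', hc'', j'', e', u'', h5, by push_cast; linarith⟩
    rcases cells_eq_or h.ok hc' hc'' r1 r2 with rfl | ⟨n1, n2⟩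
    · exact fin j' e u hu le_rfl
    · have e1 := hu.bdy (hcap c' hc' j').ok n1
      rw [val_dec _ _ (bcf_sum (hcap c' hc' j').ok.1 _), hlev c' hc'] at e1
      change u = 2 ^ i * (1 - bcf c'.T (L m) j') at e1
      have h3 : (2 * n : ℝ) < 2 ^ i := by
        have : 2 * n < 2 ^ i := by omega
        exact_mod_cast this
      have h4 : 0 < bcf c'.T (L m) j' := by nlinarith
      obtain ⟨j'', e', h5⟩ := cells_corner h.ok (by simpa using ha) hc' hc'' r1 r2 h4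
      obtain ⟨u', hu''⟩ := hasV_of_leaf rho1 (σ := dec c'' j'') hL' m
      refine fin j'' (e'.trans e) u' hu'' ?_
      rw [hu''.bdy (hcap c'' hc'' j'').ok n2, val_dec _ _ (bcf_sum (hcap c'' hc'' j'').ok.1 _),
        hlev c'' hc'', e1]
      change 2 ^ i * (1 - bcf c''.T (L m) j'') ≤ _
      nlinarith

lemma all_cells {P : Tr → ℕ → Prop} {i : ℕ} {σ c : Nd E} (hA : All P σ.t σ.a)
    (hc : c ∈ cells ρ i σ) : All P c.t c.a :=
  (cells_inherit (P := fun c => All P c.t c.a) (fun _ h _ _ hk => h.sub hk) σ hA c hc).1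

/-- upper bound for balls -/
lemma ball_upper (hS : Sys 𝓛) {i N r κ : ℕ} (hr : 4 * r < 2 ^ i) {v : E} (hv : Vtx 𝓛 v)
    {σ : Nd E} (h : Cap 𝓛 σ) (hA : All (fun t a => a ≤ i → Bd t a (2 ^ i) N) σ.t σ.a)
    (hκ : All (fun t _ => ∀ j, cp t j ≤ κ) σ.t σ.a) (ha : i ≤ σ.a)
    (hI : ∀ w, Near 𝓛 (3 * r) v w → Int σ.T w) :
    ∃ F : Finset E, F.card ≤ 18 * κ * N + 12 * N + 3 ∧ ∀ w, Near 𝓛 r v w → w ∈ F := by
  classical
  have hlev : ∀ c' ∈ cells rho0 (i + 1) σ, c'.a = i := fun c' hc' =>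
    level_cells h.ok (by simpa using ha) hc'
  by_cases h1 : ∃ p, Near 𝓛 r v p ∧ ∃ c ∈ cells rho0 (i + 1) σ, Reg c.T p ∧ ¬ Int c.T p
  · obtain ⟨p, hp, c, hc, h1, h2⟩ := h1
    obtain ⟨X, hX⟩ := star_walk hS (r := 2 * r) (by omega) h ha hc (hp.vtx hv) h1 h2
      fun w hw => hI w ((hp.trans hw).mono (by omega))
    have h3 : ∀ c', ∃ F : Finset E, c' ∈ cells rho0 (i + 1) σ → F.card ≤ 3 * N ∧
        ∀ w, Near 𝓛 r v w → Reg c'.T w → w ∈ F := by
      intro c'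
      by_cases hc' : c' ∈ cells rho0 (i + 1) σ
      · obtain ⟨F, hF, hF'⟩ := shallow_finset hS (h.cells hc') (n := 2 * r)
          ((all_cells hA hc').root (hlev c' hc').le)
          (by have : 2 * r + 1 ≤ 2 ^ i := by omega
              exact_mod_cast this)
        refine ⟨F, fun _ => ⟨hF, fun w hw hw' => hF' w p (hw.vtx hv) hw'
          (by rw [two_mul]; exact hw.symm.trans hp) fun h' => ?_⟩⟩
        rcases cells_eq_or h.ok hc hc' h1 h'.reg with rfl | h4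
        · exact h2 h'
        · exact h4.2 h'
      · exact ⟨∅, fun h => absurd h hc'⟩
    choose F hF using h3
    set s := Multiset.filter (fun c : Nd E => ∃ j, c.T j = X) (cells rho0 (i + 1) σ) with hs
    refine ⟨s.toFinset.biUnion F, ?_, fun w hw => ?_⟩
    · refine (Finset.card_biUnion_le_card_mul _ _ _ fun k hk =>
        (hF k (Multiset.mem_filter.1 (Multiset.mem_toFinset.1 hk)).1).1).trans ?_
      have h4 : s.toFinset.card ≤ 6 * κ := by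
        refine (Multiset.toFinset_card_le _).trans ?_
        rw [hs, ← Multiset.countP_eq_card_filter]
        have h5 := (cc_le (ρ := rho0) (i + 1) X σ h.ok hκ).2
        unfold cc at h5
        convert h5
      nlinarith
    · obtain ⟨c', hc', h4, h5⟩ := hX w (by rw [two_mul]; exact hp.symm.trans hw)
      exact Finset.mem_biUnion.2 ⟨c', Multiset.mem_toFinset.2 (Multiset.mem_filter.2 ⟨hc', h4⟩),
        (hF c' hc').2 w hw h5⟩
  · push Not at h1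
    obtain ⟨c, hc, h2⟩ := exists_cell rho0 (i + 1) σ h.ok (hI v (.refl _ _)).reg
    have h3 : ∀ w, Near 𝓛 r v w → Reg c.T w := by
      intro w hw
      refine Near.induct (𝓛 := 𝓛) (x := v) (P := fun n w => n ≤ r → Reg c.T w)
        (fun _ _ => h2) ?_ r w hw le_rfl
      intro n y z hy ih hyz hn
      exact (h.cells hc).co_reg hS hyz (h1 y (hy.mono (by omega)) c hc (ih (by omega)))
    obtain ⟨F, hF, hF'⟩ := ball_low hS (i := i) (r := r) (by omega) hv c (h.cells hc)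
      (all_cells hA hc) (hlev c hc).le h3
    exact ⟨F, by omega, hF'⟩

/-- lower bound for balls -/
lemma ball_lower (hS : Sys 𝓛) {i H L N κ : ℕ} {v : E} (hv : Vtx 𝓛 v) (σ : Nd E) :
    Cap 𝓛 σ → All (fun t a => a ≤ i + 1 → (a ≤ i ∧ hgt t a ≤ H) ∨ N ≤ reach t a L) σ.t σ.a →
    All (fun t _ => ∀ j, cp t j ≤ κ) σ.t σ.a → ¬ (σ.a ≤ i ∧ hgt σ.t σ.a ≤ H) → Reg σ.T v →
    ∃ F : Finset E, N ≤ 6 * κ * F.card ∧
      ∀ w ∈ F, Near 𝓛 (2 * H + 1 + 4 * 2 ^ i + 2 * L) v w := by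
  classical
  induction σ using @Nd.ind E _ _ rho0 with
  | _ σ ih =>
    intro h hA hκ hs hx
    have ht : σ.t ≠ .leaf := by
      intro ht
      have h1 := h.ok.2
      rw [ht] at h1
      have h2 : σ.a = 0 := h1
      exact hs ⟨by omega, by rw [ht]; exact Nat.zero_le _⟩
    obtain ⟨k, hk, hx'⟩ := cover_ch rho0 h.ok ht hx
    by_cases hc : (σ.ch rho0 k).a ≤ i ∧ hgt (σ.ch rho0 k).t (σ.ch rho0 k).a ≤ H
    swap
    · exact ih k hk (h.ch hk) (hA.sub hk) (hκ.sub hk) hc hx'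
    have ha : σ.a ≤ i + 1 := (le_lvl σ.a k).trans (Nat.add_le_add_right hc.1 1)
    have h1 := (hA.root ha).resolve_left hs
    obtain ⟨s, hs1, hs2, hs3⟩ := cap_exists_reach (ρ := rho0) σ h L
    have h2 : Near 𝓛 (2 * H + 1 + 4 * 2 ^ i) v (σ.T 0) := by
      have h3 : 2 ^ σ.a ≤ 2 ^ (i + 1) := Nat.pow_le_pow_right (by norm_num) ha
      rw [pow_succ] at h3
      exact (((h.ch hk).near_vtx hS hv hx').symm.trans (h.near_ch hk).symm).mono
        (by have := hc.2; omega)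
    refine ⟨(s.map fun l => l.T 0).toFinset, ?_, fun w hw => ?_⟩
    · refine h1.trans ?_
      rw [← hs2, ← Multiset.card_map (fun l : Nd E => l.T 0), ← Multiset.toFinset_sum_count_eq,
        mul_comm]
      refine Finset.sum_le_card_nsmul _ _ _ fun X _ => ?_
      have h5 := (cc_le (ρ := rho0) 0 X σ h.ok hκ).2
      unfold cc at h5
      refine le_trans ?_ h5
      rw [Multiset.count_map, Multiset.countP_eq_card_filter]
      exact Multiset.card_le_card ((Multiset.filter_le_filter _ hs1).trans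
        (Multiset.monotone_filter_right _ fun l hl => ⟨0, hl.symm⟩))
    · obtain ⟨l, hl, rfl⟩ := Multiset.mem_map.1 (Multiset.mem_toFinset.1 hw)
      exact h2.trans (hs3 l hl)

end Pool.Agent.MP_295da9_pr.Th
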