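import Mathlib
import Pool.Agent.MP_295da9_pr.ThLip

/-! Disjoint paths around a corner, and the isoperimetric property. -/

namespace Pool.Agent.MP_295da9_pr.Th

variable {E : Type*} [AddCommGroup E] [Module ℝ E] {ρ : Rule} {𝓛 : Set (Fin 3 → E)}

/-- joined inside the level set -/
def Lk (ρ : Rule) (σ : Nd E) (v : ℝ) (x y : E) : Prop :=
  Relation.ReflTransGen (fun p q => ∃ l ∈ cells ρ 0 σ,
    (∃ j, l.T j = p ∧ l.g j = v) ∧ ∃ j, l.T j = q ∧ l.g j = v) x y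

lemma Lk.of_ch {σ : Nd E} {k : Ix} (hk : k ∈ idx σ.t) {v : ℝ} {x y : E}
    (h : Lk ρ (σ.ch ρ k) v x y) : Lk ρ σ v x y := by
  induction h with
  | refl => exact .refl
  | tail _ h2 ih =>
    obtain ⟨l, hl, h1⟩ := h2
    exact ih.tail ⟨l, (mem_cells_go (not_stop_zero (ne_leaf_of_mem hk))).2 ⟨k, hk, hl⟩, h1⟩

lemma Lk.symm {σ : Nd E} {v : ℝ} {x y : E} (h : Lk ρ σ v x y) : Lk ρ σ v y x := by
  induction h with
  | refl => exact .refl
  | tail _ h2 ih =>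
    obtain ⟨l, hl, h3, h4⟩ := h2
    exact Relation.ReflTransGen.head ⟨l, hl, h4, h3⟩ ih

lemma sum3 {M : Type*} [AddCommMonoid M] (T : Fin 3 → M) {X Y Z : Fin 3} (h1 : X ≠ Y)
    (h2 : X ≠ Z) (h3 : Y ≠ Z) : T 0 + T 1 + T 2 = T X + T Y + T Z := by
  fin_cases X <;> fin_cases Y <;> fin_cases Z <;> simp at h1 h2 h3 ⊢ <;> abel

lemma rho1_eq (a : ℕ) (g : Fin 3 → ℝ) {X Y Z : Fin 3} (h1 : X ≠ Y) (h2 : X ≠ Z) (h3 : Y ≠ Z)
    {d : ℝ} (hY : g Y = g X + d) (hZ : g Z = g X + d) : rho1 a g = g X + d := by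
  unfold rho1
  fin_cases X <;> fin_cases Y <;> fin_cases Z <;> simp at h1 h2 h3 hY hZ ⊢ <;>
    split_ifs with h <;> first | linarith | (exfalso; apply h; linarith)

omit [AddCommGroup E] [Module ℝ E] in
lemma upd_pos' (k j j' : Fin 3) (hj : k ≠ j) (hj' : k ≠ j') (hne : j ≠ j') :
    ∃ p p' : Fin 3, p ≠ p' ∧ p ≠ 2 ∧ p' ≠ 2 ∧ (∀ (T : Fin 3 → E) (w : E),
      upd k T w p = T j ∧ upd k T w p' = T j') ∧ ∀ (T : Fin 3 → ℝ) (w : ℝ),
      upd k T w p = T j ∧ upd k T w p' = T j' := by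
  fin_cases k <;> fin_cases j <;> fin_cases j' <;> simp at hj hj' hne <;>
    first
    | exact ⟨0, 1, by decide, by decide, by decide, fun T w => ⟨rfl, rfl⟩, fun T w => ⟨rfl, rfl⟩⟩
    | exact ⟨1, 0, by decide, by decide, by decide, fun T w => ⟨rfl, rfl⟩, fun T w => ⟨rfl, rfl⟩⟩

lemma link (t : Tr) : ∀ (a : ℕ) (T : Fin 3 → E) (g : Fin 3 → ℝ), WL t a →
    ∀ X Y Z : Fin 3, X ≠ Y → X ≠ Z → Y ≠ Z → ∀ d : ℝ, d ≠ 0 → g Y = g X + d → g Z = g X + d →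
    ∀ m : ℕ, m ≤ 2 ^ a → Lk rho1 ⟨t, a, T, g⟩ (g X + d * (m / 2 ^ a))
      (pt a (T X) (T Y) m) (pt a (T X) (T Z) m) := by
  induction t with
  | leaf =>
    intro a T g h X Y Z _ _ _ d _ hY hZ m hm
    obtain rfl : a = 0 := h
    rcases Nat.le_one_iff_eq_zero_or_eq_one.1 (by simpa using hm) with rfl | rfl
    · rw [pt_zero, pt_zero]; exact .refl
    · exact .single ⟨_, (mem_cells_stop (Or.inl rfl)).2 rfl,
        ⟨Y, (pt_top 0 _ _).symm, by simpa using hY⟩, Z, (pt_top 0 _ _).symm, by simpa using hZ⟩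
  | tri c ih =>
    intro a T g h X Y Z h1 h2 h3 d hd hY hZ m hm
    have hw := rho1_eq a g h1 h2 h3 hY hZ
    have key : ∀ Y Z : Fin 3, X ≠ Y → X ≠ Z → Y ≠ Z → g Y = g X + d →
        Lk rho1 ⟨.tri c, a, T, g⟩ (g X + d * (m / 2 ^ a))
          (pt a (T X) (T Y) m) (pt a (T X) (ctr T) m) := by
      intro Y Z h1 h2 h3 hY
      obtain ⟨p, p', hp, hp2, hp2', e, e'⟩ := upd_pos' (E := E) Z X Y h2.symm h3.symm h1
      have h4 := ih Z a (upd Z T (ctr T)) (upd Z g (rho1 a g)) (h Z) p p' 2 hp hp2 hp2' d hd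
        (by rw [(e' g _).1, (e' g _).2, hY]) (by rw [(e' g _).1]; exact hw) m hm
      rw [(e T _).1, (e T _).2, (e' g _).1] at h4
      exact Lk.of_ch (σ := ⟨.tri c, a, T, g⟩) (k := .inl Z) (by simp) h4
    exact (key Y Z h1 h2 h3 hY).trans (key Z Y h2 h1 h3.symm hZ).symm
  | quad c ih =>
    intro a T g h X Y Z h1 h2 h3 d hd hY hZ m hm
    obtain ⟨a, rfl⟩ : ∃ b, a = b + 1 := ⟨a - 1, by have := h.1; omega⟩
    have hpos : (2 : ℝ) ^ a ≠ 0 := by positivity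
    by_cases hm' : m ≤ 2 ^ a
    · have h4 := ih (some X) a (quadT (some X) T) (quadT (some X) g) (h.2 _) X Y Z h1 h2 h3
        (d / 2) (by positivity) (by simp only [quadT, smul_eq_mul, hY]; ring)
        (by simp only [quadT, smul_eq_mul, hZ]; ring) m hm'
      have e : quadT (some X) g X + d / 2 * (m / 2 ^ a) = g X + d * (m / 2 ^ (a + 1)) := by
        simp only [quadT, smul_eq_mul]; rw [pow_succ]; field_simp; ring
      rw [e] at h4
      have h5 := Lk.of_ch (σ := ⟨.quad c, a + 1, T, g⟩) (k := .inr (some X)) (by simp) h4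
      simp only [quadT, half_self, ← pt_lo] at h5
      exact h5
    · obtain ⟨m, rfl⟩ : ∃ m', m = 2 ^ a + m' := ⟨m - 2 ^ a, by omega⟩
      have hm2 : m ≤ 2 ^ a := by rw [pow_succ] at hm; omega
      have key : ∀ Y Z : Fin 3, X ≠ Y → X ≠ Z → Y ≠ Z → g Y = g X + d → g Z = g X + d →
          Lk rho1 ⟨.quad c, a + 1, T, g⟩ (g X + d * (((2 ^ a + m : ℕ) : ℝ) / 2 ^ (a + 1)))
            (pt (a + 1) (T X) (T Y) (2 ^ a + m))
            (pt a ((1 / 2 : ℝ) • (T Y + T Z)) ((1 / 2 : ℝ) • (T Y + T X)) (2 ^ a - m)) := by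
        intro Y Z h1 h2 h3 hY hZ
        have h4 := ih (some Y) a (quadT (some Y) T) (quadT (some Y) g) (h.2 _) X Y Z h1 h2 h3
          (d / 2) (by positivity) (by simp only [quadT, smul_eq_mul, hY]; ring)
          (by simp only [quadT, smul_eq_mul, hY, hZ]; ring) m hm2
        have e : quadT (some Y) g X + d / 2 * (m / 2 ^ a) =
            g X + d * (((2 ^ a + m : ℕ) : ℝ) / 2 ^ (a + 1)) := by
          simp only [quadT, smul_eq_mul, hY]; push_cast; rw [pow_succ]; field_simp; ring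
        rw [e] at h4
        have h5 := Lk.of_ch (σ := ⟨.quad c, a + 1, T, g⟩) (k := .inr (some Y)) (by simp) h4
        simp only [quadT, half_self, ← pt_hi] at h5
        rw [pt_rev a _ _ (m := 2 ^ a - m) (m' := m) (by omega)]
        exact h5
      have hs := sum3 g h1 h2 h3
      have hT := sum3 T h1 h2 h3
      have h4 := ih none a (quadT none T) (quadT none g) (h.2 _) X Y Z h1 h2 h3
        (-(d / 2)) (by simpa using hd) (by simp only [quadT, smul_eq_mul, hs, hY]; ring)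
        (by simp only [quadT, smul_eq_mul, hs, hZ]; ring) (2 ^ a - m) (by omega)
      have e : quadT none g X + -(d / 2) * (((2 ^ a - m : ℕ) : ℝ) / 2 ^ a) =
          g X + d * (((2 ^ a + m : ℕ) : ℝ) / 2 ^ (a + 1)) := by
        simp only [quadT, smul_eq_mul, hs, hY, hZ]
        rw [Nat.cast_sub hm2]; push_cast; rw [pow_succ]; field_simp; ring
      rw [e] at h4
      have h5 := Lk.of_ch (σ := ⟨.quad c, a + 1, T, g⟩) (k := .inr none) (by simp) h4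
      have e1 : quadT none T X = (1 / 2 : ℝ) • (T Y + T Z) := by
        simp only [quadT, hT]; module
      have e2 : quadT none T Y = (1 / 2 : ℝ) • (T Z + T X) := by
        simp only [quadT, hT]; module
      have e3 : quadT none T Z = (1 / 2 : ℝ) • (T Y + T X) := by
        simp only [quadT, hT]; module
      rw [e1, e2, e3] at h5
      have h6 := key Z Y h2 h1 h3.symm hZ hY
      rw [add_comm (T Z) (T Y)] at h6
      exact ((key Y Z h1 h2 h3 hY hZ).trans h5.symm).trans h6.symm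

/-- `A` is a set of vertices whose neighbours outside `S` lie in `A` -/
structure Clo (𝓛 : Set (Fin 3 → E)) (A : Set E) (S : Finset E) : Prop where
  vtx : ∀ x ∈ A, Vtx 𝓛 x
  disj : ∀ x ∈ A, x ∉ S
  clo : ∀ x ∈ A, ∀ y, Co 𝓛 x y → y ∉ S → y ∈ A

variable {A : Set E} {S : Finset E}

lemma Lk.mem {σ : Nd E} (h : Cap 𝓛 σ) (hA : Clo 𝓛 A S) {v : ℝ} {x y : E} (hl : Lk ρ σ v x y)
    (hx : x ∈ A) (hS : ∀ s ∈ S, ¬ HasV ρ σ s v) : y ∈ A := by
  induction hl with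
  | refl => exact hx
  | tail _ h2 ih =>
    obtain ⟨l, hl, ⟨j, rfl, -⟩, j', rfl, h3⟩ := h2
    exact hA.clo _ ih _ ⟨l.T, h.mem _ ((leafOf_zero ρ σ _).2 ⟨l, hl, rfl⟩), ⟨j, rfl⟩, j', rfl⟩
      fun h4 => hS _ h4 ⟨l, hl, j', rfl, h3⟩

lemma not_int_of_zero {T : Fin 3 → E} {x : E} {z : Fin 3} (h : bcf T x z = 0) : ¬ Int T x :=
  fun h' => (h' z).ne' h

lemma eq_pt_of {T : Fin 3 → E} (h : Good T) {X Y Z : Fin 3} (h1 : X ≠ Y) (h2 : X ≠ Z)
    (h3 : Y ≠ Z) {x : E} (hz : bcf T x Z = 0) {a m : ℕ} (hm : 2 ^ a * (1 - bcf T x X) = m) :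
    x = pt a (T X) (T Y) m := by
  apply eq_of_bcf_eq h
  have hs := bcf_sum h x
  have hpos : (2 : ℝ) ^ a ≠ 0 := by positivity
  have e : (m : ℝ) / 2 ^ a = 1 - bcf T x X := by rw [← hm]; field_simp
  rw [bcf_pt h, e]
  ext j
  fin_cases X <;> fin_cases Y <;> fin_cases Z <;> simp at h1 h2 h3 <;> fin_cases j <;>
    simp at hz ⊢ <;> linarith

lemma exists_pt (hS : Sys 𝓛) {σ : Nd E} (h : Cap 𝓛 σ) {X Y Z : Fin 3} (h1 : X ≠ Y) (h2 : X ≠ Z)
    (h3 : Y ≠ Z) {x : E} (hv : Vtx 𝓛 x) (hx : Reg σ.T x) (hz : bcf σ.T x Z = 0) :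
    ∃ m ≤ 2 ^ σ.a, x = pt σ.a (σ.T X) (σ.T Y) m := by
  obtain ⟨L, hL, j, rfl⟩ := h.vtx_leaf hS hv hx
  obtain ⟨l, hl, rfl⟩ := (leafOf_zero rho0 σ L).1 hL
  obtain ⟨k, hk⟩ := lattice_of_bdy h.ok hl j (not_int_of_zero hz) Y
  have hs := (sum3 _ h1 h2 h3).symm.trans (bcf_sum h.ok.1 (l.T j))
  have hpos : (0 : ℝ) < 2 ^ σ.a := by positivity
  have hX := hx X
  have hY := hx Y
  have k0 : 0 ≤ k := by
    have : (0 : ℝ) ≤ k := by rw [← hk]; positivity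
    exact_mod_cast this
  lift k to ℕ using k0
  refine ⟨k, ?_, eq_pt_of h.ok.1 h1 h2 h3 hz ?_⟩
  · have : (k : ℝ) ≤ 2 ^ σ.a := by
      have h4 : ((k : ℤ) : ℝ) = k := by simp
      rw [← h4, ← hk]; nlinarith
    exact_mod_cast this
  · have h4 : ((k : ℤ) : ℝ) = k := by simp
    rw [← h4, ← hk]; congr 1; linarith

lemma reg_pt {T : Fin 3 → E} (h : Good T) {a m : ℕ} (hm : m ≤ 2 ^ a) (X Y : Fin 3) :
    Reg T (pt a (T X) (T Y) m) := by
  have hpos : (0 : ℝ) < 2 ^ a := by positivity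
  have h1 : (m : ℝ) / 2 ^ a ≤ 1 := by rw [div_le_one hpos]; exact_mod_cast hm
  have h2 : 0 ≤ (m : ℝ) / 2 ^ a := by positivity
  intro j
  rw [bcf_pt h]
  simp only [Pi.add_apply, Pi.single_apply]
  split_ifs <;> linarith

lemma pt_inj {T : Fin 3 → E} (h : Good T) (a : ℕ) {X Y : Fin 3} (h1 : X ≠ Y) :
    Function.Injective (pt a (T X) (T Y)) := by
  intro m m' e
  have h2 := congrFun (congrArg (bcf T) e) Y
  rw [bcf_pt h, bcf_pt h] at h2
  have hpos : (2 : ℝ) ^ a ≠ 0 := by positivity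
  simpa [h1.symm, hpos] using h2

/-- number of elements with a property -/
noncomputable def nb {α : Type*} (S : Finset α) (p : α → Prop) : ℕ :=
  (@Finset.filter _ p (Classical.decPred p) S).card

lemma nb_eq {α : Type*} (S : Finset α) (p : α → Prop) [DecidablePred p] :
    nb S p = (S.filter p).card := by
  unfold nb; convert rfl

lemma nb_le {α : Type*} (S : Finset α) (p : α → Prop) : nb S p ≤ S.card := by
  classical
  rw [nb_eq]; exact Finset.card_filter_le _ _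

/-- at least `n` points of `A` on the side opposite to corner `z` -/
def St (A : Set E) (T : Fin 3 → E) (z : Fin 3) (n : ℕ) : Prop :=
  ∃ P : Finset E, (∀ x ∈ P, x ∈ A ∧ Reg T x ∧ bcf T x z = 0) ∧ n ≤ P.card

lemma St.move {T T' : Fin 3 → E} {z z' : Fin 3} {n : ℕ} (h : St A T z n)
    (h1 : ∀ x, Reg T x → bcf T x z = 0 → Reg T' x ∧ bcf T' x z' = 0) : St A T' z' n := by
  obtain ⟨P, h2, h3⟩ := h
  exact ⟨P, fun x hx => ⟨(h2 x hx).1, h1 x (h2 x hx).2.1 (h2 x hx).2.2⟩, h3⟩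

open Classical in
lemma St.cross (hS : Sys 𝓛) (hA : Clo 𝓛 A S) {σ : Nd E} (h : Cap 𝓛 σ) {Z : Fin 3} {n : ℕ}
    (hs : St A σ.T Z n) {Y : Fin 3} (h3 : Y ≠ Z) :
    St A σ.T Y (n - nb S fun s => Reg σ.T s ∧ bcf σ.T s Z ≠ 0) := by
  rw [nb_eq]
  obtain ⟨P, hP, hn⟩ := hs
  obtain ⟨X, h1, h2⟩ := third Y Z
  have hc : Cap 𝓛 (dec σ X) := h.redec _
  have hpos : (2 : ℝ) ^ σ.a ≠ 0 := by positivity
  have e0 : ∀ x ∈ P, ∃ m ≤ 2 ^ σ.a, x = pt σ.a (σ.T X) (σ.T Y) m := fun x hx =>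
    exists_pt hS h h1 h2 h3 (hA.vtx x (hP x hx).1) (hP x hx).2.1 (hP x hx).2.2
  set I := (Finset.range (2 ^ σ.a + 1)).filter fun m => pt σ.a (σ.T X) (σ.T Y) m ∈ A with hI
  have c1 : P.card ≤ I.card := by
    refine le_trans (Finset.card_le_card (t := I.image (pt σ.a (σ.T X) (σ.T Y))) ?_)
      Finset.card_image_le
    intro x hx
    obtain ⟨m, hm, rfl⟩ := e0 x hx
    exact Finset.mem_image_of_mem _
      (Finset.mem_filter.2 ⟨Finset.mem_range.2 (by omega), (hP _ hx).1⟩)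
  have c2 : (I.filter fun m : ℕ => ∃ s ∈ S, HasV rho1 (dec σ X) s m).card ≤
      (S.filter fun s => Reg σ.T s ∧ bcf σ.T s Z ≠ 0).card := by
    refine Finset.card_le_card_of_forall_subsingleton (fun m s => HasV rho1 (dec σ X) s (m : ℕ))
      ?_ ?_
    · intro m hm
      obtain ⟨hm1, s, hs, hv⟩ := Finset.mem_filter.1 hm
      refine ⟨s, Finset.mem_filter.2 ⟨hs, hv.reg hc.ok, fun hz => ?_⟩, hv⟩
      have h4 := hv.bdy hc.ok (not_int_of_zero hz)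
      rw [val_dec _ _ (bcf_sum hc.ok.1 s)] at h4
      have h5 := eq_pt_of h.ok.1 h1 h2 h3 hz h4.symm
      exact hA.disj s (h5 ▸ (Finset.mem_filter.1 hm1).2) hs
    · rintro s - m ⟨-, hm⟩ m' ⟨-, hm'⟩
      exact_mod_cast hm.unique hc.ok hm'
  refine ⟨(I.filter fun m : ℕ => ¬ ∃ s ∈ S, HasV rho1 (dec σ X) s m).image
    (pt σ.a (σ.T X) (σ.T Z)), ?_, ?_⟩
  · intro x hx
    obtain ⟨m, hm, rfl⟩ := Finset.mem_image.1 hx
    obtain ⟨hm1, hm2⟩ := Finset.mem_filter.1 hm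
    obtain ⟨hm3, hm4⟩ := Finset.mem_filter.1 hm1
    have hm5 : m ≤ 2 ^ σ.a := by have := Finset.mem_range.1 hm3; omega
    refine ⟨?_, reg_pt h.ok.1 hm5 _ _, by rw [bcf_pt h.ok.1]; simp [h1.symm, h3]⟩
    have h4 := link σ.t σ.a σ.T (dec σ X).g h.ok.2 X Y Z h1 h2 h3 (2 ^ σ.a) hpos
      (by simp [dec, h1.symm]) (by simp [dec, h2.symm]) m hm5
    have e : (dec σ X).g X + 2 ^ σ.a * ((m : ℝ) / 2 ^ σ.a) = m := by
      simp only [dec, if_true]; field_simp; ring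
    rw [e] at h4
    exact Lk.mem hc hA h4 hm4 fun s hs hv => hm2 ⟨s, hs, hv⟩
  · rw [Finset.card_image_of_injective _ (pt_inj h.ok.1 _ h2)]
    have := Finset.card_filter_add_card_filter_not (s := I)
      (fun m : ℕ => ∃ s ∈ S, HasV rho1 (dec σ X) s m)
    omega

open Classical in
lemma card_three {α : Type*} (S : Finset α) {p q r R : α → Prop} (h1 : ∀ s, p s → R s)
    (h2 : ∀ s, q s → R s ∧ ¬ p s) (h3 : ∀ s, r s → R s ∧ ¬ p s ∧ ¬ q s) :
    nb S p + nb S q + nb S r ≤ nb S R := by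
  simp only [nb_eq, Finset.card_filter]
  rw [← Finset.sum_add_distrib, ← Finset.sum_add_distrib]
  refine Finset.sum_le_sum fun s _ => ?_
  have := h1 s
  have := h2 s
  have := h3 s
  split_ifs <;> first | omega | tauto

lemma tri_side (i z : Fin 3) (hz : z ≠ 2) : ∃ i' z' : Fin 3, 2 ≠ z' ∧
    (∀ b : Fin 3 → ℝ, NN (updB i b) → updB i b z = 0 → NN (updB i' b) ∧ updB i' b z' = 0) ∧
    ∀ b : Fin 3 → ℝ, NN (updB i b) → NN (updB i' b) → updB i' b z' = 0 := by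
  fin_cases i <;> fin_cases z <;> simp at hz
  · refine ⟨1, 0, by decide, fun b h1 h2 => ?_, fun b h1 h2 => ?_⟩ <;>
      simp [nn_iff, updB] at h1 h2 ⊢ <;> (try refine ⟨⟨?_, ?_, ?_⟩, ?_⟩) <;> linarith
  · refine ⟨2, 0, by decide, fun b h1 h2 => ?_, fun b h1 h2 => ?_⟩ <;>
      simp [nn_iff, updB] at h1 h2 ⊢ <;> (try refine ⟨⟨?_, ?_, ?_⟩, ?_⟩) <;> linarith
  · refine ⟨0, 0, by decide, fun b h1 h2 => ?_, fun b h1 h2 => ?_⟩ <;>
      simp [nn_iff, updB] at h1 h2 ⊢ <;> (try refine ⟨⟨?_, ?_, ?_⟩, ?_⟩) <;> linarith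
  · refine ⟨2, 1, by decide, fun b h1 h2 => ?_, fun b h1 h2 => ?_⟩ <;>
      simp [nn_iff, updB] at h1 h2 ⊢ <;> (try refine ⟨⟨?_, ?_, ?_⟩, ?_⟩) <;> linarith
  · refine ⟨0, 1, by decide, fun b h1 h2 => ?_, fun b h1 h2 => ?_⟩ <;>
      simp [nn_iff, updB] at h1 h2 ⊢ <;> (try refine ⟨⟨?_, ?_, ?_⟩, ?_⟩) <;> linarith
  · refine ⟨1, 1, by decide, fun b h1 h2 => ?_, fun b h1 h2 => ?_⟩ <;>
      simp [nn_iff, updB] at h1 h2 ⊢ <;> (try refine ⟨⟨?_, ?_, ?_⟩, ?_⟩) <;> linarith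

lemma quad_in {b : Fin 3 → ℝ} (hs : b 0 + b 1 + b 2 = 1) (j : Fin 3)
    (h1 : NN (quadB (some j) b)) (h2 : quadB (some j) b j = 0) :
    NN (quadB none b) ∧ quadB none b j = 0 := by
  fin_cases j <;> simp [nn_iff, quadB] at h1 h2 ⊢ <;> refine ⟨⟨?_, ?_, ?_⟩, ?_⟩ <;> linarith

lemma quad_out {b : Fin 3 → ℝ} (hs : b 0 + b 1 + b 2 = 1) (j : Fin 3)
    (h1 : NN (quadB none b)) (h2 : quadB none b j = 0) :
    NN (quadB (some j) b) ∧ quadB (some j) b j = 0 := by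
  fin_cases j <;> simp [nn_iff, quadB] at h1 h2 ⊢ <;> refine ⟨⟨?_, ?_, ?_⟩, ?_⟩ <;> linarith

lemma quad_two {b : Fin 3 → ℝ} (j : Fin 3) (h1 : NN (quadB none b)) (h2 : NN (quadB (some j) b)) :
    quadB none b j = 0 ∧ quadB (some j) b j = 0 := by
  have h3 := h1 j
  have h4 := h2 j
  simp [quadB] at h3 h4 ⊢
  constructor <;> linarith

lemma quad_three {b : Fin 3 → ℝ} (hs : b 0 + b 1 + b 2 = 1) {j y : Fin 3} (hj : y ≠ j)
    (h1 : NN (quadB (some j) b)) (h2 : NN (quadB (some y) b)) : quadB (some y) b y = 0 := by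
  fin_cases j <;> fin_cases y <;> simp [nn_iff, quadB] at hj h1 h2 ⊢ <;> linarith

lemma St.up (hS : Sys 𝓛) (hA : Clo 𝓛 A S) {σ : Nd E} (h : Cap 𝓛 σ) {k : Ix} (hk : k ∈ idx σ.t)
    {z : Fin 3} {n : ℕ} (hs : St A (σ.ch ρ k).T z n) : ∃ z' n', St A σ.T z' n' ∧
      n + nb S (fun s => Reg (σ.ch ρ k).T s) ≤ n' + nb S fun s => Reg σ.T s := by
  have hsum := bcf_sum h.ok.1
  have hb : ∀ k x, bcf (σ.ch ρ k).T x = chB k (bcf σ.T x) := bcf_chN h.ok.1
  have hr : ∀ k x, Reg (σ.ch ρ k).T x ↔ NN (chB k (bcf σ.T x)) := fun k x => by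
    unfold Reg; rw [hb]
  have hup : ∀ k x, Reg (σ.ch ρ k).T x → Reg σ.T x := fun k x => reg_of_ch h.ok
  have hmono := card_three S (p := fun s => Reg (σ.ch ρ k).T s) (q := fun _ => False)
    (r := fun _ => False) (R := fun s => Reg σ.T s) (hup k) (by simp) (by simp)
  have out1 : ∀ (i : Fin 3) n, St A (σ.ch ρ (.inl i)).T 2 n → St A σ.T i n := fun i n h1 =>
    h1.move fun x h2 h3 => ⟨hup _ x h2, by rw [hb] at h3; simpa [chB, updB] using h3⟩
  have out2 : ∀ (j y : Fin 3) n, y ≠ j → St A (σ.ch ρ (.inr (some j))).T y n → St A σ.T y n :=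
    fun j y n hy h1 => h1.move fun x h2 h3 =>
      ⟨hup _ x h2, by rw [hb] at h3; simpa [chB, quadB, hy] using h3⟩
  have out3 : ∀ (j : Fin 3) n, St A (σ.ch ρ (.inr none)).T j n →
      St A (σ.ch ρ (.inr (some j))).T j n := fun j n h1 =>
    h1.move fun x h2 h3 => by
      rw [hr, hb] at *
      exact quad_out (hsum x) j h2 h3
  have hc := fun k hk => h.ch (ρ := ρ) (k := k) hk
  obtain ⟨t, a, T, g⟩ := σ
  cases t with
  | leaf => simp at hk
  | tri c =>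
    obtain ⟨i, rfl⟩ := (mem_idx_tri c k).1 hk
    by_cases hz : z = 2
    · subst hz
      exact ⟨i, n, out1 i n hs, by omega⟩
    · obtain ⟨i', z', h1, h2, h3⟩ := tri_side i z hz
      have h4 := (hs.move (T' := (Nd.ch ρ ⟨.tri c, a, T, g⟩ (.inl i')).T) (z' := z')
        fun x h5 h6 => by
          rw [hr, hb] at *
          exact h2 _ h5 h6).cross hS hA (hc (.inl i') (by simp)) h1
      refine ⟨i', _, out1 i' _ h4, ?_⟩
      have h5 := card_three S (p := fun s => Reg (Nd.ch ρ ⟨.tri c, a, T, g⟩ (.inl i)).T s)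
        (q := fun s => Reg (Nd.ch ρ ⟨.tri c, a, T, g⟩ (.inl i')).T s ∧
          bcf (Nd.ch ρ ⟨.tri c, a, T, g⟩ (.inl i')).T s z' ≠ 0)
        (r := fun _ => False) (R := fun s => Reg T s) (hup _)
        (fun s h6 => ⟨hup _ s h6.1, fun h7 => h6.2 (by
          rw [hb]; exact h3 _ ((hr _ _).1 h7) ((hr _ _).1 h6.1))⟩) (by simp)
      change _ ≤ _ + nb S fun s => Reg T s
      omega
  | quad c =>
    obtain ⟨i, rfl⟩ := (mem_idx_quad c k).1 hk
    rcases i with _ | j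
    · obtain ⟨y, hy, -⟩ := third z z
      have h4 := (out3 z n hs).cross hS hA (hc (.inr (some z)) (by simp)) hy
      refine ⟨y, _, out2 z y _ hy h4, ?_⟩
      have h5 := card_three S (p := fun s => Reg (Nd.ch ρ ⟨.quad c, a, T, g⟩ (.inr none)).T s)
        (q := fun s => Reg (Nd.ch ρ ⟨.quad c, a, T, g⟩ (.inr (some z))).T s ∧
          bcf (Nd.ch ρ ⟨.quad c, a, T, g⟩ (.inr (some z))).T s z ≠ 0)
        (r := fun _ => False) (R := fun s => Reg T s) (hup _)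
        (fun s h6 => ⟨hup _ s h6.1, fun h7 => h6.2 (by
          rw [hb]; exact (quad_two z ((hr _ _).1 h7) ((hr _ _).1 h6.1)).2)⟩) (by simp)
      change _ ≤ _ + nb S fun s => Reg T s
      omega
    · by_cases hz : z = j
      swap
      · exact ⟨z, n, out2 j z n hz hs, by omega⟩
      subst hz
      obtain ⟨y, hy, -⟩ := third z z
      obtain ⟨y', hy', -⟩ := third y y
      have h4 := (hs.move (T' := (Nd.ch ρ ⟨.quad c, a, T, g⟩ (.inr none)).T) (z' := z)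
        fun x h5 h6 => by
          rw [hr, hb] at *
          exact quad_in (hsum x) z h5 h6).cross hS hA (hc (.inr none) (by simp)) hy
      have h4' := (out3 y _ h4).cross hS hA (hc (.inr (some y)) (by simp)) hy'
      refine ⟨y', _, out2 y y' _ hy' h4', ?_⟩
      have h5 := card_three S
        (p := fun s => Reg (Nd.ch ρ ⟨.quad c, a, T, g⟩ (.inr (some z))).T s)
        (q := fun s => Reg (Nd.ch ρ ⟨.quad c, a, T, g⟩ (.inr none)).T s ∧
          bcf (Nd.ch ρ ⟨.quad c, a, T, g⟩ (.inr none)).T s z ≠ 0)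
        (r := fun s => Reg (Nd.ch ρ ⟨.quad c, a, T, g⟩ (.inr (some y))).T s ∧
          bcf (Nd.ch ρ ⟨.quad c, a, T, g⟩ (.inr (some y))).T s y ≠ 0)
        (R := fun s => Reg T s) (hup _)
        (fun s h6 => ⟨hup _ s h6.1, fun h7 => h6.2 (by
          rw [hb]; exact (quad_two z ((hr _ _).1 h6.1) ((hr _ _).1 h7)).1)⟩)
        (fun s h6 => ⟨hup _ s h6.1, fun h7 => h6.2 (by
          rw [hb]; exact quad_three (hsum s) hy ((hr _ _).1 h7) ((hr _ _).1 h6.1)),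
          fun h7 => h6.2 (by
          rw [hb]; exact (quad_two y ((hr _ _).1 h7.1) ((hr _ _).1 h6.1)).2)⟩)
      change _ ≤ _ + nb S fun s => Reg T s
      omega

lemma OK.sys_self {σ : Nd E} (h : OK σ) : Sys {L | LeafOf σ.t σ.T L} :=
  ⟨fun _ hL => h.good_leaf hL, fun _ hL _ hL' _ hx hx' _ hj => h.leaf_ff hL hL' hx hx' hj⟩

lemma OK.cap_self {σ : Nd E} (h : OK σ) : Cap {L | LeafOf σ.t σ.T L} σ :=
  ⟨h, fun _ hL => hL, fun _ hL _ _ _ => hL⟩

lemma clean_mem (hS : Sys 𝓛) (hA : Clo 𝓛 A S) {σ : Nd E} (h : Cap 𝓛 σ)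
    (hc : ∀ s ∈ S, ¬ Reg σ.T s) {v : E} (hv : v ∈ A) (hr : Reg σ.T v) {m : ℕ}
    (hm : m ≤ 2 ^ σ.a) : pt σ.a (σ.T 0) (σ.T 1) m ∈ A := by
  obtain ⟨L, hL, hj⟩ := h.vtx_leaf hS (hA.vtx v hv) hr
  have h1 := (h.ok.cap_self.near_vtx h.ok.sys_self ⟨L, hL, hj⟩ hr).symm.trans
    (h.ok.cap_self.near_side (j := 0) (j' := 1) (by decide) m hm)
  refine Near.induct (P := fun _ y => y ∈ A) (fun _ => hv) ?_ _ _ h1
  rintro n y z - ih ⟨L, hL, h2, j, rfl⟩
  exact hA.clo y ih _ ⟨L, h.mem L hL, h2, j, rfl⟩ fun h3 => hc _ h3 (h.ok.reg_leaf_vertex hL j)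

open Classical in
lemma iso_up (hS : Sys 𝓛) (hA : Clo 𝓛 A S) {a0 : ℕ} (σ : Nd E) : Cap 𝓛 σ → a0 ≤ σ.a →
    ∀ c ∈ cells rho0 (a0 + 1) σ, (∀ s ∈ S, ¬ Reg c.T s) → ∀ v ∈ A, Reg c.T v →
    ∃ z n, St A σ.T z n ∧ 2 ^ a0 + 1 ≤ n + nb S fun s => Reg σ.T s := by
  induction σ using @Nd.ind E _ _ rho0 with
  | _ σ ih =>
    intro h ha c hc h1 v hv h2
    by_cases hs : Stop (a0 + 1) σ
    · have h3 := level_cells h.ok (by simpa using ha) hc
      obtain rfl := (mem_cells_stop hs).1 hc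
      refine ⟨2, 2 ^ a0 + 1, ⟨(Finset.range (2 ^ c.a + 1)).image (pt c.a (c.T 0) (c.T 1)),
        fun x hx => ?_, ?_⟩, by omega⟩
      · obtain ⟨m, hm, rfl⟩ := Finset.mem_image.1 hx
        have hm' : m ≤ 2 ^ c.a := by have := Finset.mem_range.1 hm; omega
        exact ⟨clean_mem hS hA h h1 hv h2 hm', reg_pt h.ok.1 hm' _ _,
          by rw [bcf_pt h.ok.1]; simp⟩
      · rw [Finset.card_image_of_injective _ (pt_inj h.ok.1 _ (by decide)), Finset.card_range, h3]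
        simp
    · obtain ⟨k, hk, hc⟩ := (mem_cells_go hs).1 hc
      have h3 : ¬ σ.a < a0 + 1 := fun h' => hs (Or.inr h')
      obtain ⟨z, n, h4, h5⟩ := ih k hk (h.ch hk) (by
        have := le_lvl σ.a k
        change a0 ≤ lvl σ.a k
        omega) c hc h1 v hv h2
      obtain ⟨z', n', h6, h7⟩ := h4.up hS hA h hk
      exact ⟨z', n', h6, by omega⟩

/-- a set with small boundary stays near its boundary -/
lemma iso_near (hS : Sys 𝓛) (hA : Clo 𝓛 A S) {a0 H : ℕ} {σ : Nd E} (h : Cap 𝓛 σ)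
    (ha : a0 ≤ σ.a) (hH : All (fun t a => a ≤ a0 → hgt t a ≤ H) σ.t σ.a)
    (hI : ∀ v ∈ A, Int σ.T v) (hc : S.card ≤ 2 ^ a0) (hSv : ∀ s ∈ S, Vtx 𝓛 s) {v : E}
    (hv : v ∈ A) : ∃ s ∈ S, Near 𝓛 (4 * H + 2) s v := by
  classical
  obtain ⟨c, hc1, h1⟩ := exists_cell rho0 (a0 + 1) σ h.ok (hI v hv).reg
  by_cases h2 : ∃ s ∈ S, Reg c.T s
  · obtain ⟨s, hs, h2⟩ := h2
    have h3 := (all_cells hH hc1).root (level_cells h.ok (by simpa using ha) hc1).le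
    exact ⟨s, hs, (((h.cells hc1).near_vtx hS (hSv s hs) h2).symm.trans
      ((h.cells hc1).near_vtx hS (hA.vtx v hv) h1)).mono (by omega)⟩
  · push Not at h2
    obtain ⟨z, n, ⟨P, h3, h4⟩, h5⟩ := iso_up hS hA σ h ha c hc1 h2 v hv h1
    have h6 := nb_le S fun s => Reg σ.T s
    obtain ⟨x, hx⟩ := Finset.card_pos.1 (by omega : 0 < P.card)
    exact absurd (hI x (h3 x hx).1) (not_int_of_zero (h3 x hx).2.2)

end Pool.Agent.MP_295da9_pr.Th
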