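import Mathlib
import Pool.Agent.MP_295da9_pr.ThIso

/-! Increasing sequences of nodes exhausting the plane. -/

namespace Pool.Agent.MP_295da9_pr.Th

variable {E : Type*} [AddCommGroup E] [Module ℝ E] {ρ : Rule} {𝓛 : Set (Fin 3 → E)}

/-- `τ` is a piece of `σ` -/
def Sub (σ τ : Nd E) : Prop :=
  Cap {L | LeafOf σ.t σ.T L} τ ∧ ∀ x, Int τ.T x → Int σ.T x

lemma Sub.refl {σ : Nd E} (h : OK σ) : Sub σ σ := ⟨h.cap_self, fun _ h => h⟩

lemma Cap.sub {σ τ : Nd E} (h : Cap 𝓛 σ) (hs : Sub σ τ) : Cap 𝓛 τ :=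
  ⟨hs.1.ok, fun L hL => h.mem L (hs.1.mem L hL),
    fun L hL x hx hi => hs.1.cap L (h.cap L hL x hx (hs.2 x hi)) x hx hi⟩

lemma Sub.trans {σ τ υ : Nd E} (h : Sub σ τ) (h' : Sub τ υ) : Sub σ υ :=
  ⟨h.1.sub h', fun x hx => h.2 x (h'.2 x hx)⟩

lemma Sub.ch {σ : Nd E} (h : OK σ) {k : Ix} (hk : k ∈ idx σ.t) : Sub σ (σ.ch ρ k) :=
  ⟨h.cap_self.ch hk, fun _ hx => int_of_ch h hx⟩

lemma Sub.redec {σ τ : Nd E} (h : Sub σ τ) (g g' : Fin 3 → ℝ) :
    Sub ⟨σ.t, σ.a, σ.T, g⟩ ⟨τ.t, τ.a, τ.T, g'⟩ := ⟨h.1.redec g', h.2⟩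

lemma Sub.reg {σ τ : Nd E} (h : Sub σ τ) (hσ : OK σ) {x : E} (hx : Reg τ.T x) : Reg σ.T x := by
  obtain ⟨L, hL, h1⟩ := h.1.ok.exists_leaf hx
  exact hσ.reg_leaf (h.1.mem L hL) h1

/-- the l1 norm -/
def N1 (b : Fin 3 → ℝ) : ℝ := |b 0| + |b 1| + |b 2|

lemma n1_le_ch (k : Ix) {b : Fin 3 → ℝ} (hs : b 0 + b 1 + b 2 = 1) : N1 b ≤ N1 (chB k b) := by
  have h0 := le_abs_self (chB k b 0)
  have h1 := le_abs_self (chB k b 1)
  have h2 := le_abs_self (chB k b 2)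
  have g0 := neg_abs_le (chB k b 0)
  have g1 := neg_abs_le (chB k b 1)
  have g2 := neg_abs_le (chB k b 2)
  unfold N1
  generalize |chB k b 0| = u0 at *
  generalize |chB k b 1| = u1 at *
  generalize |chB k b 2| = u2 at *
  rcases k with i | _ | j
  · fin_cases i <;> simp [chB, updB] at h0 h1 h2 g0 g1 g2 <;>
      rcases abs_cases (b 0) with e0 | e0 <;> rcases abs_cases (b 1) with e1 | e1 <;>
      rcases abs_cases (b 2) with e2 | e2 <;> linarith [e0.1, e1.1, e2.1]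
  · simp [chB, quadB] at h0 h1 h2 g0 g1 g2
    rcases abs_cases (b 0) with e0 | e0 <;> rcases abs_cases (b 1) with e1 | e1 <;>
      rcases abs_cases (b 2) with e2 | e2 <;> linarith [e0.1, e1.1, e2.1]
  · fin_cases j <;> simp [chB, quadB] at h0 h1 h2 g0 g1 g2 <;>
      rcases abs_cases (b 0) with e0 | e0 <;> rcases abs_cases (b 1) with e1 | e1 <;>
      rcases abs_cases (b 2) with e2 | e2 <;> linarith [e0.1, e1.1, e2.1, e0.2, e1.2, e2.2]

lemma n1_three {b : Fin 3 → ℝ} (hs : b 0 + b 1 + b 2 = 1) :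
    N1 b - 1 ≤ 2 / 3 * (N1 (updB 0 (updB 0 (updB 0 b))) - 1) ∧
      (N1 (updB 0 (updB 0 (updB 0 b))) < 5 / 4 → PP b) := by
  set c := updB 0 (updB 0 (updB 0 b)) with hc
  have c0 : c 0 = 3 * b 0 - (b 2 - b 0) - ((b 2 - b 0) - (b 1 - b 0) - ((b 2 - b 0) - (b 1 - b 0)))
      - ((b 2 - b 0) - (b 1 - b 0)) + (b 2 - b 0) - (b 1 - b 0) := by
    simp [hc, updB]; ring
  have c1 : c 1 = 3 * (b 1 - b 0) - ((b 2 - b 0) - (b 1 - b 0)) := by simp [hc, updB]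
  have c2 : c 2 = 3 * ((b 2 - b 0) - (b 1 - b 0)) := by simp [hc, updB]
  have h0 := le_abs_self (c 0)
  have h1 := le_abs_self (c 1)
  have h2 := le_abs_self (c 2)
  have g0 := neg_abs_le (c 0)
  have g1 := neg_abs_le (c 1)
  have g2 := neg_abs_le (c 2)
  unfold N1
  constructor
  · rcases abs_cases (b 0) with e0 | e0 <;> rcases abs_cases (b 1) with e1 | e1 <;>
      rcases abs_cases (b 2) with e2 | e2 <;> linarith [e0.1, e1.1, e2.1]
  · intro h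
    rw [pp_iff]
    refine ⟨?_, ?_, ?_⟩ <;> linarith

lemma n1_of_nn {b : Fin 3 → ℝ} (hs : b 0 + b 1 + b 2 = 1) (h : NN b) : N1 b = 1 := by
  unfold N1
  rw [abs_of_nonneg (h 0), abs_of_nonneg (h 1), abs_of_nonneg (h 2), hs]

/-- the distinguished child of a stellar split -/
noncomputable def down (T : Fin 3 → E) : Fin 3 → E := upd 0 T (ctr T)

lemma good_down {T : Fin 3 → E} (h : Good T) (n : ℕ) : Good (down^[n] T) := by
  induction n with
  | zero => exact h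
  | succ n ih => rw [Function.iterate_succ_apply']; exact good_ch ih (.inl 0)

lemma bcf_down3 {T : Fin 3 → E} (h : Good T) (x : E) :
    bcf (down^[3] T) x = updB 0 (updB 0 (updB 0 (bcf T x))) := by
  have h1 := bcf_ch h (.inl 0) x
  have h2 := bcf_ch (good_ch h (.inl 0)) (.inl 0) x
  have h3 := bcf_ch (good_ch (good_ch h (.inl 0)) (.inl 0)) (.inl 0) x
  rw [h1] at h2
  rw [h2] at h3
  exact h3

lemma reg_down {T : Fin 3 → E} (h : Good T) {m n : ℕ} (hmn : m ≤ n) {x : E}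
    (hx : Reg (down^[n] T) x) : Reg (down^[m] T) x := by
  induction n, hmn using Nat.le_induction with
  | base => exact hx
  | succ n _ ih =>
    rw [Function.iterate_succ_apply'] at hx
    exact ih (reg_of_chT (good_down h n) (k := .inl 0) hx)

lemma int_down {T : Fin 3 → E} (h : Good T) {m n : ℕ} (hmn : m + 3 ≤ n) {x : E}
    (hx : Reg (down^[n] T) x) : Int (down^[m] T) x := by
  have h1 := reg_down h hmn hx
  rw [add_comm, Function.iterate_add_apply] at h1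
  have h2 := good_down h m
  have h3 := n1_of_nn (bcf_sum (good_down h2 3) x) h1
  rw [bcf_down3 h2] at h3
  exact (n1_three (bcf_sum h2 x)).2 (by rw [h3]; norm_num)

/-- a path in a tree -/
inductive PathT : Tr → ℕ → Tr → ℕ → Prop
  | refl (t : Tr) (a : ℕ) : PathT t a t a
  | step {t : Tr} {a : ℕ} {k : Ix} {t' : Tr} {a' : ℕ} :
      k ∈ idx t → PathT (sub t k) (lvl a k) t' a' → PathT t a t' a'

/-- a chain of stellar splits along the distinguished children -/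
def ChainT : ℕ → Tr → Tr → Prop
  | 0, t, t' => t = t'
  | n + 1, t, t' => ∃ c, t = .tri c ∧ ChainT n (c 0) t'

lemma ChainT.trans {m n : ℕ} {t t' t'' : Tr} (h : ChainT m t t') (h' : ChainT n t' t'') :
    ChainT (n + m) t t'' := by
  induction m generalizing t with
  | zero => obtain rfl : t = t' := h; exact h'
  | succ m ih =>
    obtain ⟨c, rfl, h1⟩ := h
    exact ⟨c, rfl, ih h1⟩

lemma PathT.lift {t t' : Tr} {a a' : ℕ} (h : PathT t a t' a') (hw : WL t a) {T' : Fin 3 → E}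
    (hT : Good T') : ∃ T, Good T ∧ Sub ⟨t, a, T, 0⟩ ⟨t', a', T', 0⟩ ∧
      ∀ x, N1 (bcf T x) ≤ N1 (bcf T' x) := by
  induction h with
  | refl t a => exact ⟨T', hT, Sub.refl ⟨hT, hw⟩, fun _ => le_rfl⟩
  | @step t a k t' a' hk _ ih =>
    obtain ⟨T1, h1, h2, h3⟩ := ih (hw.sub hk)
    obtain ⟨T, rfl⟩ := chT_surj k T1
    have h4 := good_of_ch k h1
    refine ⟨T, h4, ((Sub.ch (ρ := rho0) (σ := ⟨t, a, T, 0⟩) ⟨h4, hw⟩ hk).redec 0 0).trans h2,
      fun x => le_trans ?_ (h3 x)⟩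
    rw [bcf_ch h4]
    exact n1_le_ch k (bcf_sum h4 x)

lemma ChainT.sub {n : ℕ} {t t' : Tr} (h : ChainT n t t') {a : ℕ} (hw : WL t a) {T : Fin 3 → E}
    (hT : Good T) : Sub ⟨t, a, T, 0⟩ ⟨t', a, down^[n] T, 0⟩ ∧
      ∀ j ≤ n, ∃ u, Sub ⟨t, a, T, 0⟩ ⟨u, a, down^[j] T, 0⟩ := by
  induction n generalizing t T with
  | zero =>
    obtain rfl : t = t' := h
    exact ⟨Sub.refl ⟨hT, hw⟩, fun j hj => ⟨t, by
      obtain rfl : j = 0 := by omega
      exact Sub.refl ⟨hT, hw⟩⟩⟩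
  | succ n ih =>
    obtain ⟨c, rfl, h1⟩ := h
    have h2 : Sub (⟨.tri c, a, T, 0⟩ : Nd E) ⟨c 0, a, down T, 0⟩ :=
      (Sub.ch (ρ := rho0) (σ := ⟨.tri c, a, T, 0⟩) (k := .inl 0) ⟨hT, hw⟩ (by simp)).redec 0 0
    obtain ⟨h3, h4⟩ := ih h1 (hw 0) (good_down hT 1)
    refine ⟨h2.trans h3, fun j hj => ?_⟩
    cases j with
    | zero => exact ⟨_, Sub.refl ⟨hT, hw⟩⟩
    | succ j =>
      obtain ⟨u, hu⟩ := h4 j (by omega)
      exact ⟨u, h2.trans hu⟩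

lemma ChainT.wl {n : ℕ} {t t' : Tr} (h : ChainT n t t') {a : ℕ} (hw : WL t a) : WL t' a := by
  induction n generalizing t with
  | zero => obtain rfl : t = t' := h; exact hw
  | succ n ih =>
    obtain ⟨c, rfl, h1⟩ := h
    exact ih h1 (hw 0)

lemma PathT.wl {t t' : Tr} {a a' : ℕ} (h : PathT t a t' a') (hw : WL t a) : WL t' a' := by
  induction h with
  | refl => exact hw
  | step hk _ ih => exact ih (hw.sub hk)

lemma exists_up (n : ℕ) {T' : Fin 3 → E} (h : Good T') : ∃ T, Good T ∧ down^[n] T = T' ∧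
    ∀ x, N1 (bcf T x) ≤ N1 (bcf T' x) := by
  induction n with
  | zero => exact ⟨T', h, rfl, fun _ => le_rfl⟩
  | succ n ih =>
    obtain ⟨T1, h1, h2, h3⟩ := ih
    obtain ⟨T, rfl⟩ := chT_surj (.inl 0) T1
    have h4 := good_of_ch _ h1
    refine ⟨T, h4, h2, fun x => le_trans ?_ (h3 x)⟩
    rw [bcf_ch h4]
    exact n1_le_ch _ (bcf_sum h4 x)

/-- one step of the exhaustion -/
structure Up (len : ℕ) (σ τ : Nd E) : Prop where
  ok : OK σ
  sub : Sub σ τ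
  contr : ∀ x, N1 (bcf σ.T x) - 1 ≤ 2 / 3 * (N1 (bcf τ.T x) - 1)
  pos : ∀ x, N1 (bcf τ.T x) < 5 / 4 → Int σ.T x
  ring : ∀ j ≤ len, ∃ u, Sub σ ⟨u, σ.a, down^[j] σ.T, 0⟩
  inner : ∀ x, Reg τ.T x → Reg (down^[len] σ.T) x

lemma exists_Up {len : ℕ} {t r h t' : Tr} {a a' : ℕ} (hw : WL t a) (h1 : ChainT len t r)
    (h2 : PathT r a h a') (h3 : ChainT 3 h t') {T' : Fin 3 → E} (hT : Good T') :
    ∃ T, Up len ⟨t, a, T, 0⟩ ⟨t', a', T', 0⟩ := by
  obtain ⟨T3, g3, rfl, -⟩ := exists_up 3 hT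
  have w1 := h1.wl hw
  have w2 := h2.wl w1
  obtain ⟨T2, g2, s2, n2⟩ := h2.lift w1 g3
  obtain ⟨T1, g1, rfl, n1⟩ := exists_up len g2
  obtain ⟨s1, r1⟩ := h1.sub hw g1
  obtain ⟨s3, -⟩ := h3.sub w2 g3
  refine ⟨T1, ⟨g1, hw⟩, s1.trans (s2.trans s3), fun x => ?_, fun x hx => ?_, r1, fun x hx => ?_⟩
  · have := (n1_three (bcf_sum g3 x)).1
    rw [← bcf_down3 g3] at this
    linarith [n1 x, n2 x]
  · refine (s1.trans s2).2 x ((n1_three (bcf_sum g3 x)).2 ?_)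
    rwa [← bcf_down3 g3]
  · exact (s2.trans s3).reg ⟨g2, w1⟩ hx

lemma exists_spine {B : ℕ → Tr} {lv len : ℕ → ℕ} (hw : ∀ k, WL (B k) (lv k))
    (h : ∀ k, ∃ r h, ChainT (len k) (B (k + 1)) r ∧ PathT r (lv (k + 1)) h (lv k) ∧
      ChainT 3 h (B k)) {T0 : Fin 3 → E} (h0 : Good T0) :
    ∃ T : ℕ → Fin 3 → E, T 0 = T0 ∧
      ∀ k, Up (len k) ⟨B (k + 1), lv (k + 1), T (k + 1), 0⟩ ⟨B k, lv k, T k, 0⟩ := by
  have h1 : ∀ k (T' : {T : Fin 3 → E // Good T}), ∃ T : {T : Fin 3 → E // Good T},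
      Up (len k) ⟨B (k + 1), lv (k + 1), T.1, 0⟩ ⟨B k, lv k, T'.1, 0⟩ := by
    intro k T'
    obtain ⟨r, u, h1, h2, h3⟩ := h k
    obtain ⟨T, hT⟩ := exists_Up (hw (k + 1)) h1 h2 h3 T'.2
    exact ⟨⟨T, hT.ok.1⟩, hT⟩
  choose f hf using h1
  exact ⟨fun k => (Nat.rec ⟨T0, h0⟩ f k : {T : Fin 3 → E // Good T}).1, rfl, fun k => hf k _⟩

section Seq

variable {N : ℕ → Nd E} {len : ℕ → ℕ}

/-- all leaf triangles -/
def allL (N : ℕ → Nd E) : Set (Fin 3 → E) := {L | ∃ n, LeafOf (N n).t (N n).T L}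

lemma seq_ok (h : ∀ k, Up (len k) (N (k + 1)) (N k)) (n : ℕ) : OK (N n) := (h n).sub.1.ok

lemma seq_sub (h : ∀ k, Up (len k) (N (k + 1)) (N k)) {m n : ℕ} (hmn : m ≤ n) :
    Sub (N n) (N m) := by
  induction n, hmn using Nat.le_induction with
  | base => exact Sub.refl (seq_ok h m)
  | succ n _ ih => exact (h n).sub.trans ih

lemma seq_sys (h : ∀ k, Up (len k) (N (k + 1)) (N k)) : Sys (allL N) where
  good := fun _ ⟨n, hL⟩ => (seq_ok h n).good_leaf hL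
  ff := fun L ⟨n, hL⟩ L' ⟨m, hL'⟩ _ hx hx' _ hj =>
    (seq_ok h (max n m)).leaf_ff ((seq_sub h (le_max_left n m)).1.mem L hL)
      ((seq_sub h (le_max_right n m)).1.mem L' hL') hx hx' hj

lemma seq_cap (h : ∀ k, Up (len k) (N (k + 1)) (N k)) (n : ℕ) : Cap (allL N) (N n) where
  ok := seq_ok h n
  mem := fun _ hL => ⟨n, hL⟩
  cap := fun L ⟨m, hL⟩ x hx hi =>
    (seq_sub h (le_max_left n m)).1.cap L ((seq_sub h (le_max_right n m)).1.mem L hL) x hx hi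

lemma seq_int (h : ∀ k, Up (len k) (N (k + 1)) (N k)) {m n : ℕ} (hmn : m < n) {x : E}
    (hx : Reg (N m).T x) : Int (N n).T x :=
  (seq_sub h hmn).2 x ((h m).pos x (by rw [n1_of_nn (bcf_sum (seq_ok h m).1 x) hx]; norm_num))

lemma seq_exhaust (h : ∀ k, Up (len k) (N (k + 1)) (N k)) (R : ℝ) :
    ∃ n, ∀ x, N1 (bcf (N 0).T x) ≤ R → Int (N n).T x := by
  obtain ⟨n, hn⟩ := exists_pow_lt_of_lt_one (x := 1 / (4 * (|R| + 1))) (y := (2 / 3 : ℝ))
    (by positivity) (by norm_num)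
  refine ⟨n + 1, fun x hx => (h n).pos x ?_⟩
  have h1 : ∀ n, N1 (bcf (N n).T x) - 1 ≤ (2 / 3) ^ n * (|R| + 1) := by
    intro n
    induction n with
    | zero => have := le_abs_self R; simp; linarith
    | succ n ih => have := (h n).contr x; rw [pow_succ]; linarith
  have h2 := h1 n
  have h3 : (0 : ℝ) < |R| + 1 := by positivity
  rw [lt_div_iff₀ (by positivity)] at hn
  nlinarith

lemma seq_near (h : ∀ k, Up (len k) (N (k + 1)) (N k)) {n r : ℕ} {v w : E}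
    (hv : Reg (N n).T v) (hw : Near (allL N) r v w) : Reg (N (n + r)).T w := by
  refine Near.induct (P := fun r w => Reg (N (n + r)).T w) (fun r => ?_) ?_ r w hw
  · exact (seq_sub h (Nat.le_add_right n r)).reg (seq_ok h _) hv
  · intro r y z _ ih hyz
    exact (seq_cap h _).co_reg (seq_sys h) hyz (seq_int h (by omega) ih)

lemma seq_vtx (h : ∀ k, Up (len k) (N (k + 1)) (N k)) {v : E} (hv : Vtx (allL N) v) :
    ∃ n, Reg (N n).T v := by
  obtain ⟨L, ⟨n, hL⟩, j, rfl⟩ := hv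
  exact ⟨n, (seq_ok h n).reg_leaf_vertex hL j⟩

end Seq

end Pool.Agent.MP_295da9_pr.Th
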