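import Mathlib
import Pool.Agent.MP_295da9_pr.ThSpine

/-! The self-similar family of subdivision trees. -/

namespace Pool.Agent.MP_295da9_pr.Th

/-- stellar split with distinguished child `X` -/
def tri3 (X Y : Tr) : Tr := .tri ![X, Y, Y]

/-- midpoint split with central child `X` -/
def quad4 (X Y : Tr) : Tr := .quad fun o => o.elim X fun _ => Y

/-- three stellar splits -/
def host3 (Y X : Tr) : Tr := tri3 (tri3 (tri3 X Y) Y) Y

lemma size_tri3 (X Y : Tr) : size (tri3 X Y) = size X + 2 * size Y := by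
  simp [tri3, size, Fin.sum_univ_three]; ring

lemma size_quad4 (X Y : Tr) : size (quad4 X Y) = size X + 3 * size Y := by
  simp [quad4, size, Fintype.sum_option]

lemma hgt_tri3 {X Y : Tr} {a M : ℕ} (h1 : hgt X a ≤ M) (h2 : hgt Y a ≤ M) :
    hgt (tri3 X Y) a ≤ M + 2 ^ a := by
  rw [add_comm]
  refine Nat.add_le_add_left (Finset.sup_le fun k _ => ?_) _
  fin_cases k <;> assumption

lemma hgt_quad4 {X Y : Tr} {a M : ℕ} (h1 : hgt X a ≤ M) (h2 : hgt Y a ≤ M) :
    hgt (quad4 X Y) (a + 1) ≤ M + 2 ^ (a + 1) := by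
  rw [add_comm M]
  refine Nat.add_le_add_left (Finset.sup_le fun k _ => ?_) _
  cases k <;> assumption

lemma all_tri3 {P : Tr → ℕ → Prop} {X Y : Tr} {a : ℕ} (h : P (tri3 X Y) a) (h1 : All P X a)
    (h2 : All P Y a) : All P (tri3 X Y) a :=
  ⟨h, fun k => by fin_cases k <;> assumption⟩

lemma all_quad4 {P : Tr → ℕ → Prop} {X Y : Tr} {a : ℕ} (h : P (quad4 X Y) (a + 1))
    (h1 : All P X a) (h2 : All P Y a) : All P (quad4 X Y) (a + 1) :=
  ⟨h, fun k => by cases k <;> assumption⟩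

lemma wl_tri3 {X Y : Tr} {a : ℕ} (h1 : WL X a) (h2 : WL Y a) : WL (tri3 X Y) a :=
  fun k => by fin_cases k <;> assumption

lemma wl_quad4 {X Y : Tr} {a : ℕ} (h1 : WL X a) (h2 : WL Y a) : WL (quad4 X Y) (a + 1) :=
  ⟨by omega, fun k => by cases k <;> assumption⟩

lemma reach_tri3_left (X Y : Tr) (a L : ℕ) : reach X a L ≤ reach (tri3 X Y) a (L + 2 ^ a) := by
  rw [add_comm]; exact reach_sub (t := tri3 X Y) a L (k := .inl 0) (by simp [tri3])

lemma reach_tri3_right (X Y : Tr) (a L : ℕ) : reach Y a L ≤ reach (tri3 X Y) a (L + 2 ^ a) := by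
  rw [add_comm]; exact reach_sub (t := tri3 X Y) a L (k := .inl 1) (by simp [tri3])

lemma reach_quad4 (X Y : Tr) (a L : ℕ) :
    reach X a L ≤ reach (quad4 X Y) (a + 1) (L + 2 ^ (a + 1)) := by
  rw [add_comm L]; exact reach_sub (t := quad4 X Y) (a + 1) L (k := .inr none) (by simp [quad4])

lemma all_small {P : Tr → ℕ → Prop} {i H : ℕ} (hP : ∀ t a, a ≤ i → hgt t a ≤ H → P t a)
    {t : Tr} {a : ℕ} (ha : a ≤ i) (h : hgt t a ≤ H) : All P t a :=
  all_of_inherit (Q := fun t a => a ≤ i ∧ hgt t a ≤ H) (fun t a h => hP t a h.1 h.2)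
    (fun _ a h k hk => ⟨(lvl_le a k).trans h.1, 
      le_trans (Nat.le_add_left _ _) ((hgt_sub a hk).trans h.2)⟩) t a ⟨ha, h⟩

section defs

variable (lv : ℕ → ℕ) (B : ℕ → Tr)

/-- face of level `a` hosting the bush of scale `k` -/
def Hh : ℕ → ℕ → Tr
  | 0, k => B k
  | a + 1, k => if a + 1 ≤ lv k then B k else
      quad4 (Hh a k) (if a = 0 then .leaf else Hh a a)

/-- plain face of level `a` -/
def Ee (a : ℕ) : Tr := if a = 0 then .leaf else Hh lv B a a

/-- tube segment of level `a` and length `2 ^ (a + d)` followed by `r` -/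
def Seg (a : ℕ) : ℕ → Tr → Tr
  | 0, r => tri3 r (Ee lv B a)
  | d + 1, r => Seg a d (host3 (Hh lv B a (a + d)) (Seg a d r))

/-- change of level -/
def drp (a a' : ℕ) (X : Tr) : Tr := if a' = a then X else quad4 X (Ee lv B a)

/-- the next bush -/
def nxtB (k : ℕ) : Tr :=
  Seg lv B (lv (k + 1)) (k - lv (k + 1)) (drp lv B (lv k) (lv (k + 1)) (host3 (B k) (B k)))

/-- total weight of the side faces of a segment -/
def sgw (w : Tr → ℕ) (a : ℕ) : ℕ → ℕ
  | 0 => w (Ee lv B a)
  | d + 1 => 2 * sgw w a d + 3 * w (Hh lv B a (a + d))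

end defs

variable {lv : ℕ → ℕ} {B : ℕ → Tr}

lemma Hh_congr {B' : ℕ → Tr} {K : ℕ} (h : ∀ m ≤ K, B m = B' m) (a : ℕ) :
    ∀ k, a ≤ K → k ≤ K → Hh lv B a k = Hh lv B' a k := by
  induction a with
  | zero => intro k _ hk; exact h k hk
  | succ a ih =>
    intro k ha hk
    simp only [Hh, h k hk, ih k (by omega) hk, ih a (by omega) (by omega)]

lemma Ee_congr {B' : ℕ → Tr} {K : ℕ} (h : ∀ m ≤ K, B m = B' m) {a : ℕ} (ha : a ≤ K) :
    Ee lv B a = Ee lv B' a := by
  simp only [Ee, Hh_congr h a a ha ha]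

lemma Seg_congr {B' : ℕ → Tr} {K : ℕ} (h : ∀ m ≤ K, B m = B' m) {a : ℕ} (d : ℕ) :
    a + d ≤ K → ∀ r, Seg lv B a d r = Seg lv B' a d r := by
  induction d with
  | zero => intro ha r; simp only [Seg, Ee_congr h (show a ≤ K from ha)]
  | succ d ih =>
    intro ha r
    simp only [Seg, ih (by omega), Hh_congr h a (a + d) (by omega) (by omega)]

/-- slowly increasing levels -/
structure Slow (lv : ℕ → ℕ) : Prop where
  zero : lv 0 = 0
  step : ∀ k, lv (k + 1) = lv k ∨ lv (k + 1) = lv k + 1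
  slow : ∀ k, lv (k + 1) ≠ 0 → 2 * lv (k + 1) + 3 ≤ k

lemma Slow.succ_le (h : Slow lv) (k : ℕ) : lv (k + 1) ≤ k := by
  have := h.slow k; omega

lemma Slow.le (h : Slow lv) (k : ℕ) : lv k ≤ k - 1 := by
  cases k with
  | zero => rw [h.zero]
  | succ k => exact h.succ_le k

lemma Slow.mono (h : Slow lv) : Monotone lv :=
  monotone_nat_of_le_succ fun k => by have := h.step k; omega

lemma nxtB_congr (h : Slow lv) {B' : ℕ → Tr} {k : ℕ} (h1 : ∀ m ≤ k, B m = B' m) :
    nxtB lv B k = nxtB lv B' k := by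
  have h2 := h.succ_le k
  have h3 := h.le k
  simp only [nxtB, drp]
  rw [Seg_congr h1 _ (by omega), Ee_congr h1 (by omega), h1 k le_rfl]

lemma exists_fam (h : Slow lv) :
    ∃ B : ℕ → Tr, B 0 = tri3 .leaf .leaf ∧ ∀ k, B (k + 1) = nxtB lv B k := by
  let Bs : ℕ → ℕ → Tr := fun n => Nat.rec (fun _ => tri3 .leaf .leaf)
    (fun k f => Function.update f (k + 1) (nxtB lv f k)) n
  have h1 : ∀ n, ∀ m ≤ n, Bs n m = Bs m m := by
    intro n
    induction n with
    | zero => intro m hm; obtain rfl : m = 0 := by omega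
              rfl
    | succ n ih =>
      intro m hm
      rcases Nat.lt_or_eq_of_le hm with h2 | rfl
      · change Function.update (Bs n) (n + 1) _ m = _
        rw [Function.update_of_ne (by omega), ih m (by omega)]
      · rfl
  refine ⟨fun k => Bs k k, rfl, fun k => ?_⟩
  change Function.update (Bs k) (k + 1) _ (k + 1) = _
  rw [Function.update_self]
  exact nxtB_congr h (h1 k)

lemma Hh_of_eq {a k : ℕ} (h : lv k = a) : Hh lv B a k = B k := by
  cases a with
  | zero => rfl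
  | succ a => simp only [Hh]; rw [if_pos h.ge]

lemma Hh_succ {a k : ℕ} (h : lv k ≤ a) :
    Hh lv B (a + 1) k = quad4 (Hh lv B a k) (Ee lv B a) := by
  simp only [Hh]; rw [if_neg (by omega)]; rfl

lemma Ee_zero : Ee lv B 0 = .leaf := rfl

lemma Ee_succ (a : ℕ) : Ee lv B (a + 1) = Hh lv B (a + 1) (a + 1) := rfl

/-- induction principle for the faces -/
lemma Hh_ind (h : Slow lv) {K : ℕ} {Q : ℕ → ℕ → Tr → Prop} {R : ℕ → Tr → Prop}
    (h0 : ∀ k ≤ K, Q (lv k) k (B k)) (h1 : R 0 .leaf)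
    (h2 : ∀ a X, Q (a + 1) (a + 1) (quad4 X (Ee lv B a)) → R a (Ee lv B a) →
      R (a + 1) (quad4 X (Ee lv B a)))
    (h3 : ∀ a k X Y, lv k ≤ a → a < k → k ≤ K → Q a k X → R a Y → Q (a + 1) k (quad4 X Y))
    (a : ℕ) : (∀ k, lv k ≤ a → a ≤ k → k ≤ K → Q a k (Hh lv B a k)) ∧
      (a ≤ K → R a (Ee lv B a)) := by
  induction a with
  | zero =>
    refine ⟨fun k hk _ hK => ?_, fun _ => h1⟩
    have := h0 k hK
    rwa [show lv k = 0 by omega] at this
  | succ a ih =>
    have key : ∀ k, lv k ≤ a + 1 → a + 1 ≤ k → k ≤ K → Q (a + 1) k (Hh lv B (a + 1) k) := by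
      intro k hk hk' hK
      rcases Nat.lt_or_eq_of_le hk with h4 | h4
      · rw [Hh_succ (by omega)]
        exact h3 a k _ _ (by omega) hk' hK (ih.1 k (by omega) (by omega) hK) (ih.2 (by omega))
      · rw [Hh_of_eq h4, ← h4]; exact h0 k hK
    refine ⟨key, fun hK => ?_⟩
    have h4 := key (a + 1) ((h.succ_le a).trans (by omega)) le_rfl hK
    rw [Ee_succ]
    rw [Hh_succ (h.succ_le a)] at h4 ⊢
    exact h2 a _ h4 (ih.2 (by omega))

section seg

variable {a : ℕ} {S : Tr → Prop} {Q : Tr → ℕ → Prop} {w : Tr → ℕ} {P : Tr → ℕ → Prop}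

lemma seg_small (rule : ∀ X Y n, S Y → Q X n → Q (tri3 X Y) (n + w Y)) {nmax : ℕ}
    (hP : ∀ t n, Q t n → n ≤ nmax → P t a) (hS : ∀ Y, S Y → All P Y a) (hE : S (Ee lv B a))
    (d : ℕ) : (∀ d' < d, S (Hh lv B a (a + d'))) → ∀ r n, Q r n →
      Q (Seg lv B a d r) (n + sgw lv B w a d) ∧
      (All P r a → n + sgw lv B w a d ≤ nmax → All P (Seg lv B a d r) a) := by
  induction d with
  | zero =>
    intro _ r n hr
    exact ⟨rule _ _ _ hE hr, fun h1 h2 => all_tri3 (hP _ _ (rule _ _ _ hE hr) h2) h1 (hS _ hE)⟩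
  | succ d ih =>
    intro hH r n hr
    have hY := hH d (by omega)
    obtain ⟨q0, a0⟩ := ih (fun d' h => hH d' (by omega)) r n hr
    have q1 := rule _ _ _ hY q0
    have q2 := rule _ _ _ hY q1
    have q3 := rule _ _ _ hY q2
    obtain ⟨q4, a4⟩ := ih (fun d' h => hH d' (by omega)) _ _ q3
    have e : n + sgw lv B w a d + w (Hh lv B a (a + d)) + w (Hh lv B a (a + d)) +
        w (Hh lv B a (a + d)) + sgw lv B w a d = n + sgw lv B w a (d + 1) := by
      simp only [sgw]; ring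
    refine ⟨e ▸ q4, fun h1 h2 => a4 ?_ (e ▸ h2)⟩
    exact all_tri3 (hP _ _ q3 (by omega)) (all_tri3 (hP _ _ q2 (by omega))
      (all_tri3 (hP _ _ q1 (by omega)) (a0 h1 (by omega)) (hS _ hY)) (hS _ hY)) (hS _ hY)

lemma seg_Q (rule : ∀ X Y n, S Y → Q X n → Q (tri3 X Y) (n + w Y)) (hE : S (Ee lv B a))
    {d : ℕ} (hH : ∀ d' < d, S (Hh lv B a (a + d'))) {r : Tr} {n : ℕ} (hr : Q r n) :
    Q (Seg lv B a d r) (n + sgw lv B w a d) :=
  (seg_small (P := fun _ _ => True) (nmax := 0) rule (fun _ _ _ _ => trivial)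
    (fun Y _ => all_of_inherit (Q := fun _ _ => True) (fun _ _ h => h) (fun _ _ _ _ _ => trivial)
      Y a trivial) hE d hH r n hr).1

lemma seg_triv (hP : ∀ t, P t a) (hE : All P (Ee lv B a) a) {d : ℕ}
    (hH : ∀ d' < d, All P (Hh lv B a (a + d')) a) {r : Tr} (hr : All P r a) :
    All P (Seg lv B a d r) a :=
  (seg_small (S := fun Y => All P Y a) (Q := fun _ _ => True) (w := fun _ => 0)
    (nmax := sgw lv B (fun _ => 0) a d) (fun _ _ _ _ _ => trivial) (fun t _ _ _ => hP t)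
    (fun _ h => h) hE d hH r 0 trivial).2 hr (by simp)

lemma seg_big {R : Tr → Prop} {d0 : ℕ}
    (base : ∀ r, R r → All P r a → All P (Seg lv B a d0 r) a) (hR : ∀ t, R t → P t a) (d : ℕ)
    (hd : d0 ≤ d) : (∀ d' < d, All P (Hh lv B a (a + d')) a) →
    (∀ d' r, d0 ≤ d' → d' < d → R (tri3 (Seg lv B a d' r) (Hh lv B a (a + d'))) ∧
      R (tri3 (tri3 (Seg lv B a d' r) (Hh lv B a (a + d'))) (Hh lv B a (a + d'))) ∧
      R (host3 (Hh lv B a (a + d')) (Seg lv B a d' r))) →
    ∀ r, R r → All P r a → All P (Seg lv B a d r) a := by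
  induction d, hd using Nat.le_induction with
  | base => exact fun _ _ => base
  | succ d hd ih =>
    intro hH hb r h1 h2
    have ih' := ih (fun d' h => hH d' (by omega)) (fun d' r h h' => hb d' r h (by omega))
    obtain ⟨r1, r2, r3⟩ := hb d r hd (by omega)
    have hY := hH d (by omega)
    exact ih' _ r3 (all_tri3 (hR _ r3) (all_tri3 (hR _ r2)
      (all_tri3 (hR _ r1) (ih' r h1 h2) hY) hY) hY)

lemma seg_pre {d0 d : ℕ} (hd : d0 ≤ d) (r : Tr) :
    ∃ r', Seg lv B a d r = Seg lv B a d0 r' := by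
  induction d, hd using Nat.le_induction generalizing r with
  | base => exact ⟨r, rfl⟩
  | succ d _ ih => exact ih _

lemma sgw_const (c d : ℕ) : sgw lv B (fun _ => c) a d + 3 * c = 4 * 2 ^ d * c := by
  induction d with
  | zero => simp only [sgw]; ring
  | succ d ih => simp only [sgw]; rw [pow_succ]; linarith

lemma chain_host3 (Y X : Tr) : ChainT 3 (host3 Y X) X := ⟨_, rfl, _, rfl, _, rfl, rfl⟩

lemma chain_seg (d : ℕ) : ∀ r, ChainT (4 * 2 ^ d - 3) (Seg lv B a d r) r := by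
  induction d with
  | zero => intro r; exact ⟨_, rfl, rfl⟩
  | succ d ih =>
    intro r
    have h := (ih (host3 (Hh lv B a (a + d)) (Seg lv B a d r))).trans
      ((chain_host3 _ _).trans (ih r))
    have h1 : 0 < 2 ^ d := by positivity
    rwa [show 4 * 2 ^ d - 3 + 3 + (4 * 2 ^ d - 3) = 4 * 2 ^ (d + 1) - 3 by
      rw [pow_succ]; omega] at h

lemma size_seg (d : ℕ) (r : Tr) :
    size (Seg lv B a d r) = size r + sgw lv B (fun Y => 2 * size Y) a d :=
  seg_Q (S := fun _ => True) (Q := fun t n => size t = n)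
    (fun X Y n _ h => by rw [size_tri3, h]) trivial (fun _ _ => trivial) rfl

end seg

/-- the family -/
structure Fam (lv : ℕ → ℕ) (B : ℕ → Tr) : Prop where
  slow : Slow lv
  zero : B 0 = tri3 .leaf .leaf
  succ : ∀ k, B (k + 1) = nxtB lv B k

lemma drp_cases (h : Slow lv) (k : ℕ) (X : Tr) :
    (lv (k + 1) = lv k ∧ drp lv B (lv k) (lv (k + 1)) X = X) ∨
    (lv (k + 1) = lv k + 1 ∧ drp lv B (lv k) (lv (k + 1)) X = quad4 X (Ee lv B (lv k))) := by
  rcases h.step k with h1 | h1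
  · exact Or.inl ⟨h1, if_pos h1⟩
  · exact Or.inr ⟨h1, if_neg (by omega)⟩

lemma Fam.chain (h : Fam lv B) (k : ℕ) : ∃ r u, ChainT (4 * 2 ^ (k - lv (k + 1)) - 3) (B (k + 1)) r ∧
    PathT r (lv (k + 1)) u (lv k) ∧ ChainT 3 u (B k) := by
  refine ⟨_, host3 (B k) (B k), by rw [h.succ k]; exact chain_seg _ _, ?_, chain_host3 _ _⟩
  rcases drp_cases (B := B) h.slow k (host3 (B k) (B k)) with ⟨h1, h2⟩ | ⟨h1, h2⟩
  · rw [h2, h1]; exact .refl _ _
  · rw [h2, h1]; exact .step (k := .inr none) (by simp [quad4]) (.refl _ _)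

lemma Fam.wl (h : Fam lv B) (k : ℕ) : WL (B k) (lv k) := by
  induction k using Nat.strong_induction_on with
  | _ k ih =>
    cases k with
    | zero => rw [h.zero, h.slow.zero]; exact wl_tri3 rfl rfl
    | succ k =>
      have h1 := Hh_ind (B := B) h.slow (K := k) (Q := fun a _ t => WL t a) (R := fun a t => WL t a)
        (fun m hm => ih m (by omega)) rfl (fun _ _ h _ => h)
        (fun _ _ _ _ _ _ _ h1 h2 => wl_quad4 h1 h2)
      have h2 := h.slow.succ_le k
      have h3 := h.slow.le k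
      have h4 := ih k (by omega)
      have h5 : WL (host3 (B k) (B k)) (lv k) := wl_tri3 (wl_tri3 (wl_tri3 h4 h4) h4) h4
      rw [h.succ]
      refine seg_Q (S := fun t => WL t (lv (k + 1))) (Q := fun t _ => WL t (lv (k + 1)))
        (w := fun _ => 0) (n := 0) (fun _ _ _ h1 h2 => wl_tri3 h2 h1) ((h1 _).2 h2)
        (fun d' hd => (h1 _).1 _ (h.slow.mono (by omega)) (by omega) (by omega)) ?_
      rcases drp_cases (B := B) h.slow k (host3 (B k) (B k)) with ⟨e1, e2⟩ | ⟨e1, e2⟩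
      · rw [e2, e1]; exact h5
      · rw [e2, e1]; exact wl_quad4 h5 ((h1 _).2 (by omega))

lemma Fam.size_ge (h : Fam lv B) (k : ℕ) : 8 ^ k ≤ size (B k) := by
  induction k using Nat.strong_induction_on with
  | _ k ih =>
    cases k with
    | zero => rw [h.zero, size_tri3]; simp [size]
    | succ k =>
      have h1 := Hh_ind (B := B) h.slow (K := k) (Q := fun _ k t => 8 ^ k ≤ size t)
        (R := fun a t => 8 ^ a ≤ size t) (fun m hm => ih m (by omega)) le_rfl (fun _ _ h _ => h)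
        (fun _ _ _ _ _ _ _ h1 _ => by rw [size_quad4]; omega)
      have h2 := h.slow.succ_le k
      have h4 := ih k (by omega)
      have h5 : ∀ d, lv (k + 1) + d ≤ k →
          8 ^ (lv (k + 1) + d) ≤ sgw lv B (fun Y => 2 * size Y) (lv (k + 1)) d := by
        intro d
        induction d with
        | zero => intro _; have := (h1 _).2 h2; simp only [sgw, add_zero]; omega
        | succ d ih =>
          intro hd
          have := (h1 (lv (k + 1))).1 (lv (k + 1) + d) (h.slow.mono (by omega)) (by omega) (by omega)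
          have := ih (by omega)
          simp only [sgw]
          rw [← add_assoc, pow_succ]
          omega
      have h6 := h5 (k - lv (k + 1)) (by omega)
      rw [show lv (k + 1) + (k - lv (k + 1)) = k by omega] at h6
      rw [h.succ, nxtB, size_seg, pow_succ]
      rcases drp_cases (B := B) h.slow k (host3 (B k) (B k)) with ⟨-, e2⟩ | ⟨-, e2⟩ <;>
        rw [e2] <;> simp only [host3, size_tri3, size_quad4] <;> omega

lemma faces_size_le (h : Slow lv) {K : ℕ} (ih : ∀ m ≤ K, size (B m) + 3 * 4 ^ m ≤ 6 * 8 ^ m)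
    (a : ℕ) : (∀ k, lv k ≤ a → a ≤ k → k ≤ K →
      size (Hh lv B a k) ≤ size (B k) + if a = 0 then 0 else 6 * 8 ^ a) ∧
      (a ≤ K → size (Ee lv B a) ≤ if a = 0 then 1 else 12 * 8 ^ a) := by
  refine (Hh_ind (B := B) h (K := K)
    (Q := fun a k t => k ≤ K ∧ size t ≤ size (B k) + if a = 0 then 0 else 6 * 8 ^ a)
    (R := fun a t => size t ≤ if a = 0 then 1 else 12 * 8 ^ a)
    (fun m hm => ⟨hm, Nat.le_add_right _ _⟩) le_rfl (fun a X h _ => ?_)
    (fun a k X Y _ _ hk h1 h2 => ⟨hk, ?_⟩) a).imp_left fun h k h1 h2 h3 => (h k h1 h2 h3).2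
  · have := ih _ h.1
    have := h.2
    simp only [Nat.add_eq_zero_iff, one_ne_zero, and_false, if_false] at this ⊢
    omega
  · have h3 := h1.2
    have h4 : 1 ≤ 8 ^ a := Nat.one_le_pow _ _ (by norm_num)
    rw [size_quad4, if_neg (by omega), pow_succ]
    split_ifs at h2 h3 <;> omega

lemma sgw_size_le (h : Slow lv) {K : ℕ} (ih : ∀ m ≤ K, size (B m) + 3 * 4 ^ m ≤ 6 * 8 ^ m)
    {a : ℕ} (ha : a ≤ K) (d : ℕ) : a + d ≤ K + 1 → lv (a + d) ≤ a →
      sgw lv B (fun Y => 2 * size Y) a d + (if a = 0 then 0 else 36 * 8 ^ a) + 9 * 4 ^ (a + d) ≤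
        2 ^ d * (if a = 0 then 2 else 60 * 8 ^ a) + 6 * 8 ^ (a + d) + 3 * 2 ^ (a + d) := by
  induction d with
  | zero =>
    intro _ _
    have h1 := (faces_size_le h ih a).2 ha
    simp only [sgw, add_zero, pow_zero, one_mul]
    split_ifs at h1 ⊢ with h0
    · subst h0; omega
    · obtain ⟨a, rfl⟩ : ∃ b, a = b + 1 := ⟨a - 1, by omega⟩
      have : 4 ^ a ≤ 8 ^ a := Nat.pow_le_pow_left (by norm_num) a
      simp only [pow_succ] at h1 ⊢
      omega
  | succ d ihd =>
    intro hd hl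
    have h0 : lv (a + d) ≤ a := (h.mono (by omega)).trans hl
    have h1 := (faces_size_le h ih a).1 (a + d) h0 (by omega) (by omega)
    have h2 := ihd (by omega) h0
    have h3 := ih (a + d) (by omega)
    simp only [sgw, ← add_assoc, pow_succ]
    generalize (if a = 0 then 2 else 60 * 8 ^ a) = u at *
    split_ifs at h1 h2 ⊢ <;> nlinarith

lemma Fam.size_le (h : Fam lv B) (k : ℕ) : size (B k) + 3 * 4 ^ k ≤ 6 * 8 ^ k := by
  induction k using Nat.strong_induction_on with
  | _ k ih =>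
    cases k with
    | zero => rw [h.zero, size_tri3]; simp [size]
    | succ k =>
      have ih' : ∀ m ≤ k, size (B m) + 3 * 4 ^ m ≤ 6 * 8 ^ m := fun m hm => ih m (by omega)
      have h2 := h.slow.succ_le k
      have h3 := h.slow.le k
      have h4 := ih' k le_rfl
      have h5 := sgw_size_le h.slow ih' h2 (k - lv (k + 1)) (by omega) (h.slow.mono (by omega))
      rw [show lv (k + 1) + (k - lv (k + 1)) = k by omega] at h5
      have h6 := (faces_size_le h.slow ih' (lv k)).2 (by omega)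
      have h7 : size (drp lv B (lv k) (lv (k + 1)) (host3 (B k) (B k))) ≤
          7 * size (B k) + if lv (k + 1) = 0 then 0 else 36 * 8 ^ lv (k + 1) := by
        rcases drp_cases (B := B) h.slow k (host3 (B k) (B k)) with ⟨e1, e2⟩ | ⟨e1, e2⟩
        · rw [e2]; simp only [host3, size_tri3]; omega
        · have : 1 ≤ 8 ^ lv k := Nat.one_le_pow _ _ (by norm_num)
          rw [e2]
          simp only [host3, size_tri3, size_quad4]
          rw [if_neg (by omega), e1, pow_succ]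
          split_ifs at h6 <;> omega
      have h8 : 2 ^ k ≤ 4 ^ k := Nat.pow_le_pow_left (by norm_num) k
      have h9 : 2 ^ (k - lv (k + 1)) * (if lv (k + 1) = 0 then 2 else 60 * 8 ^ lv (k + 1)) ≤
          8 * 4 ^ k := by
        split_ifs with h0
        · rw [h0, Nat.sub_zero]; omega
        · have h10 := h.slow.slow k h0
          obtain ⟨e, he⟩ : ∃ e, k = 2 * lv (k + 1) + 3 + e := ⟨k - (2 * lv (k + 1) + 3), by omega⟩
          generalize lv (k + 1) = a at *
          subst he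
          have e1 : 2 * a + 3 + e - a = a + 3 + e := by omega
          have e2 : (8 : ℕ) ^ a = 2 ^ a * 2 ^ a * 2 ^ a := by rw [← mul_pow, ← mul_pow]; rfl
          have e3 : (4 : ℕ) ^ (2 * a + 3 + e) =
              64 * (2 ^ a * 2 ^ a * 2 ^ a * 2 ^ a) * (2 ^ e * 2 ^ e) := by
            rw [show (4 : ℕ) = 2 * 2 by norm_num, mul_pow]; ring
          have e4 : 1 ≤ 2 ^ e := Nat.one_le_two_pow
          rw [e1, e2, e3, pow_add, pow_add]
          generalize 2 ^ a = x at *
          generalize 2 ^ e = y at *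
          have e5 : x * x * x * x * y ≤ x * x * x * x * (y * y) :=
            Nat.mul_le_mul_left _ (Nat.le_mul_self y)
          have e6 : x * 2 ^ 3 * y * (60 * (x * x * x)) = 480 * (x * x * x * x * y) := by ring
          have e7 : 8 * (64 * (x * x * x * x) * (y * y)) = 512 * (x * x * x * x * (y * y)) := by
            ring
          omega
      rw [h.succ, nxtB, size_seg, pow_succ, pow_succ]
      omega

end Pool.Agent.MP_295da9_pr.Th
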