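import Mathlib
import Pool.Agent.MP_295da9_pr.ThFam

/-! Heights, corner numbers and shallow parts of the family. -/

namespace Pool.Agent.MP_295da9_pr.Th

variable {lv : ℕ → ℕ} {B : ℕ → Tr}

lemma two_pow_le {a b : ℕ} (h : a ≤ b) : 2 ^ a ≤ 2 ^ b := Nat.pow_le_pow_right (by norm_num) h

lemma eight_pow_le {a b : ℕ} (h : a ≤ b) : 8 ^ a ≤ 8 ^ b := Nat.pow_le_pow_right (by norm_num) h

lemma faces_hgt (h : Slow lv) {K : ℕ} (ih : ∀ m ≤ K, hgt (B m) (lv m) ≤ 10 * 2 ^ m) (a : ℕ) :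
    (∀ k, lv k ≤ a → a ≤ k → k ≤ K → hgt (Hh lv B a k) a ≤ 10 * 2 ^ k + 2 * 2 ^ a) ∧
      (a ≤ K → hgt (Ee lv B a) a ≤ 12 * 2 ^ a) :=
  Hh_ind (B := B) h (K := K) (Q := fun a k t => hgt t a ≤ 10 * 2 ^ k + 2 * 2 ^ a)
    (R := fun a t => hgt t a ≤ 12 * 2 ^ a) (fun m hm => (ih m hm).trans (Nat.le_add_right _ _))
    (Nat.zero_le _) (fun a X h _ => by omega)
    (fun a k X Y _ hk _ h1 h2 => by
      have h3 := two_pow_le hk.le
      have := hgt_quad4 h1 (h2.trans (by omega : 12 * 2 ^ a ≤ 10 * 2 ^ k + 2 * 2 ^ a))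
      rw [pow_succ] at this ⊢
      omega) a

lemma hgt_host3 {X Y : Tr} {a M : ℕ} (h1 : hgt X a ≤ M) (h2 : hgt Y a ≤ M) :
    hgt (host3 Y X) a ≤ M + 3 * 2 ^ a := by
  have h3 := hgt_tri3 h1 h2
  have h4 := hgt_tri3 h3 (h2.trans (Nat.le_add_right _ _))
  have h5 := hgt_tri3 h4 (h2.trans ((Nat.le_add_right _ _).trans (Nat.le_add_right _ _)))
  exact h5.trans (by omega)

lemma Fam.hgt_le (h : Fam lv B) (k : ℕ) : hgt (B k) (lv k) ≤ 10 * 2 ^ k := by
  induction k using Nat.strong_induction_on with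
  | _ k ih =>
    cases k with
    | zero =>
      rw [h.zero, h.slow.zero]
      exact (hgt_tri3 (M := 0) le_rfl le_rfl).trans (by norm_num)
    | succ k =>
      have h1 := faces_hgt h.slow (K := k) fun m hm => ih m (by omega)
      have h2 := h.slow.succ_le k
      have h3 := h.slow.le k
      have h4 := ih k (by omega)
      have p1 := two_pow_le h2
      have p2 := two_pow_le (show lv k ≤ k by omega)
      have h5 : hgt (drp lv B (lv k) (lv (k + 1)) (host3 (B k) (B k))) (lv (k + 1)) ≤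
          14 * 2 ^ k + 0 := by
        have h6 := hgt_host3 h4 h4
        rcases drp_cases (B := B) h.slow k (host3 (B k) (B k)) with ⟨e1, e2⟩ | ⟨e1, e2⟩
        · rw [e2, e1]; omega
        · have h7 := (h1 (lv k)).2 (by omega)
          have := hgt_quad4 (M := 13 * 2 ^ k) (h6.trans (by omega)) (h7.trans (by omega))
          rw [e2]
          rw [← e1] at this
          omega
      have h6 := seg_Q (lv := lv) (B := B) (a := lv (k + 1))
        (S := fun Y => hgt Y (lv (k + 1)) ≤ 14 * 2 ^ k)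
        (Q := fun t n => hgt t (lv (k + 1)) ≤ 14 * 2 ^ k + n) (w := fun _ => 2 ^ lv (k + 1))
        (fun X Y n h1 h2 => (hgt_tri3 h2 (h1.trans (Nat.le_add_right _ _))).trans (by omega))
        (((h1 _).2 h2).trans (by omega)) (d := k - lv (k + 1))
        (fun d' hd => ((h1 _).1 _ (h.slow.mono (by omega)) (by omega) (by omega)).trans (by
          have := two_pow_le (show lv (k + 1) + d' ≤ k by omega)
          omega)) h5
      have h7 := sgw_const (lv := lv) (B := B) (a := lv (k + 1)) (2 ^ lv (k + 1)) (k - lv (k + 1))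
      rw [mul_assoc, ← pow_add, show k - lv (k + 1) + lv (k + 1) = k by omega] at h7
      rw [h.succ, nxtB, pow_succ]
      omega

lemma Fam.hgt_H (h : Fam lv B) {a k : ℕ} (h1 : lv k ≤ a) (h2 : a ≤ k) :
    hgt (Hh lv B a k) a ≤ 12 * 2 ^ k := by
  have := (faces_hgt h.slow (K := k) (fun m _ => h.hgt_le m) a).1 k h1 h2 le_rfl
  have := two_pow_le h2
  omega

lemma Fam.hgt_E (h : Fam lv B) (a : ℕ) : hgt (Ee lv B a) a ≤ 12 * 2 ^ a :=
  (faces_hgt h.slow (K := a) (fun m _ => h.hgt_le m) a).2 le_rfl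

lemma Fam.size_H_ge (h : Fam lv B) {a k : ℕ} (h1 : lv k ≤ a) (h2 : a ≤ k) :
    8 ^ k ≤ size (Hh lv B a k) :=
  (Hh_ind (B := B) h.slow (K := k) (Q := fun _ k t => 8 ^ k ≤ size t)
    (R := fun a t => 8 ^ a ≤ size t) (fun m _ => h.size_ge m) le_rfl (fun _ _ h _ => h)
    (fun _ _ _ _ _ _ _ h1 _ => by rw [size_quad4]; omega) a).1 k h1 h2 le_rfl

lemma Fam.size_E_le (h : Fam lv B) (a : ℕ) : size (Ee lv B a) ≤ 12 * 8 ^ a := by
  have := (faces_size_le h.slow (K := a) (fun m _ => h.size_le m) a).2 le_rfl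
  have h1 : 1 ≤ 8 ^ a := Nat.one_le_pow _ _ (by norm_num)
  split_ifs at this <;> omega

lemma Fam.sgw_le (h : Fam lv B) {a d : ℕ} (h1 : lv (a + d) ≤ a) :
    sgw lv B (fun Y => 2 * size Y) a d ≤ 69 * 8 ^ (a + d) := by
  have h2 := sgw_size_le h.slow (K := a + d) (fun m _ => h.size_le m) (Nat.le_add_right a d) d
    (by omega) h1
  have h3 : 2 ^ (a + d) ≤ 8 ^ (a + d) := Nat.pow_le_pow_left (by norm_num) _
  have h4 : 2 ^ d * (if a = 0 then 2 else 60 * 8 ^ a) ≤ 60 * 8 ^ (a + d) := by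
    have h5 : 2 ^ d ≤ 8 ^ d := Nat.pow_le_pow_left (by norm_num) _
    have h6 : 1 ≤ 8 ^ a := Nat.one_le_pow _ _ (by norm_num)
    calc _ ≤ 8 ^ d * (60 * 8 ^ a) := Nat.mul_le_mul h5 (by split_ifs <;> omega)
      _ = _ := by rw [pow_add]; ring
  omega

/-! corner numbers -/

/-- bounds for tube nodes -/
def CTube (t : Tr) : Prop := cp t 0 ≤ 4 ∧ cp t 1 ≤ 9 ∧ cp t 2 ≤ 14

/-- bounds for bushes -/
def CTop (t : Tr) : Prop := cp t 0 ≤ 2 ∧ cp t 1 ≤ 5 ∧ cp t 2 ≤ 14

/-- bounds for plain faces -/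
def COne (t : Tr) : Prop := ∀ j, cp t j ≤ 1

lemma COne.top {t : Tr} (h : COne t) : CTop t := by
  have := h 0; have := h 1; have := h 2
  refine ⟨?_, ?_, ?_⟩ <;> omega

lemma CTop.tube {t : Tr} (h : CTop t) : CTube t := by
  obtain ⟨h0, h1, h2⟩ := h
  refine ⟨?_, ?_, ?_⟩ <;> omega

lemma CTube.le {t : Tr} (h : CTube t) (j : Fin 3) : cp t j ≤ 14 := by
  obtain ⟨h0, h1, h2⟩ := h
  fin_cases j
  · exact h0.trans (by norm_num)
  · exact h1.trans (by norm_num)
  · exact h2

lemma ctube_tri3 {X Y : Tr} (h1 : CTube X) (h2 : CTop Y) : CTube (tri3 X Y) := by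
  obtain ⟨a0, a1, a2⟩ := h1
  obtain ⟨b0, b1, b2⟩ := h2
  refine ⟨?_, ?_, ?_⟩ <;> simp [tri3, cp] <;> omega

lemma ctop_tri3 {X Y : Tr} (h1 : CTube X) (h2 : COne Y) : CTop (tri3 X Y) := by
  obtain ⟨a0, a1, a2⟩ := h1
  have := h2 0
  have := h2 1
  refine ⟨?_, ?_, ?_⟩ <;> simp [tri3, cp] <;> omega

lemma cone_quad4 (X : Tr) {Y : Tr} (h : COne Y) : COne (quad4 X Y) := fun j => h j

lemma Fam.cp_le (h : Fam lv B) (k : ℕ) :
    CTop (B k) ∧ All (fun t _ => ∀ j, cp t j ≤ 14) (B k) (lv k) := by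
  induction k using Nat.strong_induction_on with
  | _ k ih =>
    have hl : COne .leaf := fun _ => le_rfl
    cases k with
    | zero =>
      rw [h.zero]
      have := ctop_tri3 hl.top.tube hl
      exact ⟨this, all_tri3 this.tube.le hl.top.tube.le hl.top.tube.le⟩
    | succ k =>
      have h1 := Hh_ind (B := B) h.slow (K := k)
        (Q := fun a _ t => CTop t ∧ All (fun t _ => ∀ j, cp t j ≤ 14) t a)
        (R := fun a t => COne t ∧ All (fun t _ => ∀ j, cp t j ≤ 14) t a)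
        (fun m hm => ih m (by omega)) ⟨hl, hl.top.tube.le⟩
        (fun _ _ h h' => ⟨cone_quad4 _ h'.1, h.2⟩)
        (fun _ _ X _ _ _ _ h1 h2 => ⟨(cone_quad4 X h2.1).top,
          all_quad4 (cone_quad4 X h2.1).top.tube.le h1.2 h2.2⟩)
      have h2 := h.slow.succ_le k
      have h3 := h.slow.le k
      obtain ⟨h4, h4'⟩ := ih k (by omega)
      have t1 := ctube_tri3 h4.tube h4
      have t2 := ctube_tri3 t1 h4
      have t3 := ctube_tri3 t2 h4
      have a3 := all_tri3 t3.le (all_tri3 t2.le (all_tri3 t1.le h4' h4') h4') h4'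
      have h5 : CTube (drp lv B (lv k) (lv (k + 1)) (host3 (B k) (B k))) ∧
          All (fun t _ => ∀ j, cp t j ≤ 14) (drp lv B (lv k) (lv (k + 1)) (host3 (B k) (B k)))
            (lv (k + 1)) := by
        rcases drp_cases (B := B) h.slow k (host3 (B k) (B k)) with ⟨e1, e2⟩ | ⟨e1, e2⟩
        · rw [e2, e1]; exact ⟨t3, a3⟩
        · have h7 := (h1 (lv k)).2 (by omega)
          rw [e2, e1]
          exact ⟨(cone_quad4 _ h7.1).top.tube, all_quad4 (cone_quad4 _ h7.1).top.tube.le a3 h7.2⟩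
      have hE := (h1 _).2 h2
      have hH := fun d' (hd : d' < k - lv (k + 1)) => (h1 (lv (k + 1))).1 (lv (k + 1) + d')
        (h.slow.mono (by omega)) (by omega) (by omega)
      have h6 := fun d hd => seg_small (lv := lv) (B := B) (a := lv (k + 1))
        (S := fun t => CTop t ∧ All (fun t _ => ∀ j, cp t j ≤ 14) t (lv (k + 1)))
        (Q := fun t _ => CTube t) (w := fun _ => 0) (P := fun t _ => ∀ j, cp t j ≤ 14)
        (nmax := sgw lv B (fun _ => 0) (lv (k + 1)) (k - lv (k + 1)))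
        (fun _ _ _ h1 h2 => ctube_tri3 h2 h1.1) (fun _ _ h _ => h.le) (fun _ h => h.2)
        ⟨hE.1.top, hE.2⟩ d hd
      rw [h.succ, nxtB]
      refine ⟨?_, (h6 _ hH _ 0 h5.1).2 h5.2 (by simp)⟩
      have h7 : ∀ d ≤ k - lv (k + 1), ∀ r, CTube r → CTop (Seg lv B (lv (k + 1)) d r) := by
        intro d
        induction d with
        | zero => exact fun _ r hr => ctop_tri3 hr hE.1
        | succ d ih =>
          intro hd r hr
          have hY := (hH d hd).1
          exact ih (by omega) _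
            (ctube_tri3 (ctube_tri3 (ctube_tri3 (ih (by omega) r hr).tube hY) hY) hY)
      exact h7 _ le_rfl _ h5.1

/-! heights by level -/

lemma Fam.hgt_level (h : Fam lv B) {a0 K : ℕ} (hK : ∀ k, lv k ≤ a0 → k ≤ K) (k : ℕ) :
    All (fun t a => a ≤ a0 → hgt t a ≤ 13 * 2 ^ K) (B k) (lv k) := by
  have small : ∀ t a, a ≤ a0 → hgt t a ≤ 13 * 2 ^ K →
      All (fun t a => a ≤ a0 → hgt t a ≤ 13 * 2 ^ K) t a := fun t a h1 h2 =>
    all_small (P := fun t a => a ≤ a0 → hgt t a ≤ 13 * 2 ^ K) (fun _ _ _ h _ => h) h1 h2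
  induction k using Nat.strong_induction_on with
  | _ k ih =>
    by_cases h0 : lv k ≤ a0
    · have := two_pow_le (hK k h0)
      exact small _ _ h0 ((h.hgt_le k).trans (by omega))
    cases k with
    | zero => exact absurd (h.slow.zero.le.trans (Nat.zero_le _)) h0
    | succ k =>
      have h1 := Hh_ind (B := B) h.slow (K := k)
        (Q := fun a k t => t = Hh lv B a k ∧
          All (fun t a => a ≤ a0 → hgt t a ≤ 13 * 2 ^ K) t a)
        (R := fun a t => t = Ee lv B a ∧ All (fun t a => a ≤ a0 → hgt t a ≤ 13 * 2 ^ K) t a)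
        (fun m hm => ⟨(Hh_of_eq rfl).symm, ih m (by omega)⟩) ⟨rfl, fun _ => Nat.zero_le _⟩
        (fun _ _ h _ => h)
        (fun a m X Y h1 h2 _ h3 h4 => by
          have e : quad4 X Y = Hh lv B (a + 1) m := by rw [h3.1, h4.1, Hh_succ h1]
          refine ⟨e, all_quad4 (fun h5 => ?_) h3.2 h4.2⟩
          have := two_pow_le (hK m (by omega))
          rw [e]
          exact (h.hgt_H (by omega) h2).trans (by omega))
      have h2 := h.slow.succ_le k
      have h3 := h.slow.le k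
      have h4 := ih k (by omega)
      have h5 : All (fun t a => a ≤ a0 → hgt t a ≤ 13 * 2 ^ K) (host3 (B k) (B k)) (lv k) := by
        by_cases h6 : lv k ≤ a0
        · have := two_pow_le (hK k h6)
          have := two_pow_le (show lv k ≤ k by omega)
          exact small _ _ h6 ((hgt_host3 (h.hgt_le k) (h.hgt_le k)).trans (by omega))
        · exact all_tri3 (fun h => absurd h h6) (all_tri3 (fun h => absurd h h6)
            (all_tri3 (fun h => absurd h h6) h4 h4) h4) h4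
      rw [h.succ]
      refine seg_triv (fun _ h => absurd h h0) ((h1 _).2 h2).2
        (fun d' hd => ((h1 _).1 _ (h.slow.mono (by omega)) (by omega) (by omega)).2) ?_
      rcases drp_cases (B := B) h.slow k (host3 (B k) (B k)) with ⟨e1, e2⟩ | ⟨e1, e2⟩
      · rw [e2, e1]; exact h5
      · rw [e2, e1]
        exact all_quad4 (fun h => absurd (e1 ▸ h) h0) h5 ((h1 _).2 (by omega)).2

/-! rich nodes -/

lemma Fam.rich_seg (_h : Fam lv B) {N a d L : ℕ} {r : Tr} (hr : N ≤ reach r a L) :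
    N ≤ reach (Seg lv B a d r) a (L + sgw lv B (fun _ => 2 ^ a) a d) :=
  seg_Q (S := fun _ => True) (Q := fun t n => N ≤ reach t a n) (w := fun _ => 2 ^ a)
    (fun X Y n _ h => h.trans (reach_tri3_left X Y a n)) trivial (fun _ _ => trivial) hr

lemma sgw_pow (a d : ℕ) : sgw lv B (fun _ => 2 ^ a) a d + 3 * 2 ^ a = 4 * 2 ^ (a + d) := by
  rw [sgw_const, pow_add]; ring

lemma Fam.rich_B (h : Fam lv B) {i k : ℕ} (hk : i + 1 ≤ k) (hl : lv k ≤ i + 1) :
    8 ^ i ≤ reach (B k) (lv k) (26 * 2 ^ i) := by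
  rcases Nat.lt_or_eq_of_le hk with h1 | rfl
  · obtain ⟨k, rfl⟩ : ∃ m, k = m + 1 := ⟨k - 1, by omega⟩
    rw [h.succ, nxtB]
    rcases Nat.lt_or_eq_of_le hl with h2 | h2
    · obtain ⟨r, hr⟩ := seg_pre (lv := lv) (B := B) (a := lv (k + 1))
        (d0 := i - lv (k + 1) + 1) (d := k - lv (k + 1)) (by omega)
        (drp lv B (lv k) (lv (k + 1)) (host3 (B k) (B k)))
      have e : lv (k + 1) + (i - lv (k + 1)) = i := by omega
      have h3 : lv i ≤ lv (k + 1) := h.slow.mono (by omega)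
      have h4 := h.size_H_ge h3 (by omega)
      rw [← reach_eq_size _ _ _ (h.hgt_H h3 (by omega))] at h4
      have h5 := h.rich_seg (d := i - lv (k + 1)) (h4.trans (reach_tri3_right
        (tri3 (tri3 (Seg lv B (lv (k + 1)) (i - lv (k + 1)) r) (Hh lv B (lv (k + 1)) i))
          (Hh lv B (lv (k + 1)) i)) _ _ _))
      have h6 := sgw_pow (lv := lv) (B := B) (lv (k + 1)) (i - lv (k + 1))
      rw [e] at h6
      rw [hr, Seg, e]
      exact h5.trans (reach_mono _ _ _ _ (by omega))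
    · obtain ⟨r, hr⟩ := seg_pre (lv := lv) (B := B) (a := lv (k + 1))
        (d0 := 0) (d := k - lv (k + 1)) (by omega)
        (drp lv B (lv k) (lv (k + 1)) (host3 (B k) (B k)))
      have h4 := h.size_H_ge (a := i + 1) (k := i + 1) ((h.slow.succ_le i).trans (by omega)) le_rfl
      rw [← Ee_succ, ← reach_eq_size _ _ _ (h.hgt_E (i + 1))] at h4
      rw [hr, Seg, h2]
      refine (eight_pow_le (Nat.le_succ i)).trans (h4.trans ((reach_tri3_right r _ _ _).trans
        (reach_mono _ _ _ _ ?_)))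
      rw [pow_succ]; omega
  · have h4 := h.size_ge (i + 1)
    rw [← reach_eq_size _ _ _ (h.hgt_le (i + 1))] at h4
    refine (eight_pow_le (Nat.le_succ i)).trans (h4.trans (reach_mono _ _ _ _ ?_))
    rw [pow_succ]; omega

lemma Fam.rich_H (h : Fam lv B) {i k : ℕ} (hk : i + 1 ≤ k) (a : ℕ) :
    lv k ≤ a → a ≤ i + 1 → 8 ^ i ≤ reach (Hh lv B a k) a (26 * 2 ^ i + 2 * 2 ^ a) := by
  induction a with
  | zero =>
    intro h1 _
    have := h.rich_B hk (by omega)
    rw [show lv k = 0 by omega] at this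
    exact this.trans (reach_mono _ _ _ _ (by omega))
  | succ a ih =>
    intro h1 h2
    rcases Nat.lt_or_eq_of_le h1 with h3 | h3
    · rw [Hh_succ (by omega)]
      refine (ih (by omega) (by omega)).trans ((reach_quad4 _ _ _ _).trans
        (reach_mono _ _ _ _ ?_))
      rw [pow_succ]; omega
    · rw [Hh_of_eq h3, ← h3]
      exact (h.rich_B hk (by omega)).trans (reach_mono _ _ _ _ (by omega))

lemma Fam.all_rich (h : Fam lv B) (i k : ℕ) :
    All (fun t a => a ≤ i + 1 → (a ≤ i ∧ hgt t a ≤ 24 * 2 ^ i) ∨ 8 ^ i ≤ reach t a (40 * 2 ^ i))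
      (B k) (lv k) := by
  set P : Tr → ℕ → Prop := fun t a => a ≤ i + 1 → (a ≤ i ∧ hgt t a ≤ 24 * 2 ^ i) ∨
    8 ^ i ≤ reach t a (40 * 2 ^ i) with hP
  have small : ∀ t a, a ≤ i → hgt t a ≤ 24 * 2 ^ i → All P t a := fun t a h1 h2 =>
    all_small (fun _ _ h1 h2 _ => Or.inl ⟨h1, h2⟩) h1 h2
  have rich : ∀ t a L, 8 ^ i ≤ reach t a L → L ≤ 40 * 2 ^ i → P t a := fun t a L h1 h2 _ =>
    Or.inr (h1.trans (reach_mono _ _ _ _ h2))
  induction k using Nat.strong_induction_on with
  | _ k ih =>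
    by_cases h0 : k ≤ i + 1
    · have := two_pow_le h0
      have := h.slow.le k
      rw [pow_succ] at *
      exact small _ _ (by omega) ((h.hgt_le k).trans (by omega))
    obtain ⟨k, rfl⟩ : ∃ m, k = m + 1 := ⟨k - 1, by omega⟩
    have h1 := Hh_ind (B := B) h.slow (K := k) (Q := fun a k t => t = Hh lv B a k ∧ All P t a)
      (R := fun a t => t = Ee lv B a ∧ All P t a)
      (fun m hm => ⟨(Hh_of_eq rfl).symm, ih m (by omega)⟩)
      ⟨rfl, fun _ => Or.inl ⟨Nat.zero_le _, Nat.zero_le _⟩⟩ (fun _ _ h _ => h)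
      (fun a m X Y h1 h2 _ h3 h4 => by
        have e : quad4 X Y = Hh lv B (a + 1) m := by rw [h3.1, h4.1, Hh_succ h1]
        refine ⟨e, all_quad4 (fun h5 => ?_) h3.2 h4.2⟩
        rw [e]
        by_cases h6 : m ≤ i
        · have := two_pow_le h6
          exact Or.inl ⟨by omega, (h.hgt_H (by omega) h2).trans (by omega)⟩
        · have := two_pow_le h5
          rw [pow_succ 2 i] at this
          exact rich _ _ _ (h.rich_H (by omega) _ (by omega) h5) (by omega) h5)
    have h2 := h.slow.succ_le k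
    have h3 := h.slow.le k
    have h4 := ih k (by omega)
    have hm : lv k ≤ lv (k + 1) := h.slow.mono (by omega)
    have hE := ((h1 _).2 h2).2
    have hH := fun d' (hd : d' < k - lv (k + 1)) => ((h1 (lv (k + 1))).1 (lv (k + 1) + d')
      (h.slow.mono (by omega)) (by omega) (by omega)).2
    have side : ∀ X, lv k ≤ i + 1 → 8 ^ i ≤ reach (tri3 X (B k)) (lv k) (28 * 2 ^ i) := by
      intro X h5
      have := two_pow_le h5
      rw [pow_succ] at this
      exact (h.rich_B (by omega) h5).trans ((reach_tri3_right _ _ _ _).trans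
        (reach_mono _ _ _ _ (by omega)))
    have h5 : All P (host3 (B k) (B k)) (lv k) :=
      all_tri3 (fun h => rich _ _ _ (side _ h) (by omega) h)
        (all_tri3 (fun h => rich _ _ _ (side _ h) (by omega) h)
          (all_tri3 (fun h => rich _ _ _ (side _ h) (by omega) h) h4 h4) h4) h4
    have h6 : (lv (k + 1) ≤ i + 1 → 8 ^ i ≤
        reach (drp lv B (lv k) (lv (k + 1)) (host3 (B k) (B k))) (lv (k + 1)) (32 * 2 ^ i)) ∧
        All P (drp lv B (lv k) (lv (k + 1)) (host3 (B k) (B k))) (lv (k + 1)) := by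
      rcases drp_cases (B := B) h.slow k (host3 (B k) (B k)) with ⟨e1, e2⟩ | ⟨e1, e2⟩
      · rw [e2, e1]
        exact ⟨fun h => (side _ h).trans (reach_mono _ _ _ _ (by omega)), h5⟩
      · rw [e2, e1]
        have h7 : lv k + 1 ≤ i + 1 → 8 ^ i ≤
            reach (quad4 (host3 (B k) (B k)) (Ee lv B (lv k))) (lv k + 1) (32 * 2 ^ i) := by
          intro h8
          have := two_pow_le h8
          rw [pow_succ 2 i] at this
          exact (side _ (by omega)).trans ((reach_quad4 _ _ _ _).trans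
            (reach_mono _ _ _ _ (by omega)))
        exact ⟨h7, all_quad4 (fun h => rich _ _ _ (h7 h) (by omega) h) h5 ((h1 _).2 (by omega)).2⟩
    rw [h.succ]
    by_cases ha : lv (k + 1) ≤ i + 1
    swap
    · exact seg_triv (fun _ h => absurd h ha) hE hH h6.2
    have p1 := two_pow_le ha
    rw [pow_succ 2 i] at p1
    refine seg_big (R := fun t => 8 ^ i ≤ reach t (lv (k + 1)) (32 * 2 ^ i))
      (d0 := i + 1 - lv (k + 1)) (fun r h7 h8 => ?_) (fun t h => rich _ _ _ h (by omega)) _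
      (by omega) hH (fun d' r h7 h8 => ?_) _ (h6.1 ha) h6.2
    · have h9 := sgw_pow (lv := lv) (B := B) (lv (k + 1)) (i + 1 - lv (k + 1))
      rw [show lv (k + 1) + (i + 1 - lv (k + 1)) = i + 1 by omega, pow_succ 2 i] at h9
      exact (seg_small (S := fun Y => All P Y (lv (k + 1)))
        (Q := fun t n => 8 ^ i ≤ reach t (lv (k + 1)) n) (w := fun _ => 2 ^ lv (k + 1))
        (nmax := 40 * 2 ^ i) (fun X Y n _ h => h.trans (reach_tri3_left X Y _ n))
        (fun t n => rich t _ n) (fun _ h => h) hE _ (fun d' hd => hH d' (by omega)) r _ h7).2 h8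
        (by omega)
    · have h9 : ∀ X, 8 ^ i ≤ reach (tri3 X (Hh lv B (lv (k + 1)) (lv (k + 1) + d'))) (lv (k + 1))
          (32 * 2 ^ i) := fun X =>
        (h.rich_H (by omega) _ (h.slow.mono (by omega)) ha).trans
          ((reach_tri3_right _ _ _ _).trans (reach_mono _ _ _ _ (by omega)))
      exact ⟨h9 _, h9 _, h9 _⟩

end Pool.Agent.MP_295da9_pr.Th
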