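import Mathlib
import Pool.Agent.MP_295da9_pr.ThFam2

/-! Upper bounds for the shallow parts of the family. -/

namespace Pool.Agent.MP_295da9_pr.Th

variable {lv : ℕ → ℕ} {B : ℕ → Tr}

lemma cnt_le_size (R : ℝ) (t : Tr) : ∀ a g, cnt R t a g ≤ size t := by
  induction t with
  | leaf => intro a g; simp only [cnt, size]; split_ifs <;> omega
  | tri c ih => exact fun a g => Finset.sum_le_sum fun k _ => ih k _ _
  | quad c ih => exact fun a g => Finset.sum_le_sum fun k _ => ih k _ _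

lemma le_upd {g : Fin 3 → ℝ} {m : ℝ} (h : ∀ j, m ≤ g j) (a : ℕ) (k j : Fin 3) :
    m ≤ upd k g (rho2 a g) j := by
  rcases upd_mem k g (rho2 a g) j with h1 | ⟨j', -, h1⟩ <;> rw [h1]
  · have h2 := le_min3 h
    have h3 : (0 : ℝ) < 2 ^ a := by positivity
    unfold rho2
    linarith
  · exact h _

lemma le_quad {g : Fin 3 → ℝ} {m : ℝ} (h : ∀ j, m ≤ g j) (k : Option (Fin 3)) (j : Fin 3) :
    m ≤ quadT k g j := by
  have h0 := h 0
  have h1 := h 1
  have h2 := h 2
  cases k with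
  | none => fin_cases j <;> simp [quadT] <;> linarith
  | some k =>
    have := h k
    have := h j
    simp only [quadT, smul_eq_mul]
    linarith

lemma cnt_eq_zero (R : ℝ) (t : Tr) : ∀ a g, (∀ j, R ≤ g j) → cnt R t a g = 0 := by
  induction t with
  | leaf =>
    intro a g h
    simp only [cnt]
    rw [if_neg]
    rintro ⟨j, hj⟩
    exact absurd (h j) (not_le.2 hj)
  | tri c ih => exact fun a g h => Finset.sum_eq_zero fun k _ => ih k _ _ (le_upd h a k)
  | quad c ih => exact fun a g h => Finset.sum_eq_zero fun k _ => ih k _ _ (le_quad h k)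

lemma bd_size (t : Tr) (a : ℕ) (L : ℝ) : Bd t a L (size t) := fun g R _ => cnt_le_size R t a g

lemma bd_zero (t : Tr) (a : ℕ) {L : ℝ} (h : L ≤ 0) : Bd t a L 0 :=
  fun g R h1 => (cnt_eq_zero R t a g fun j => by linarith [h1 j]).le

lemma Bd.mono {t : Tr} {a : ℕ} {L : ℝ} {N N' : ℕ} (h : Bd t a L N) (h1 : N ≤ N') :
    Bd t a L N' := fun g R h2 => (h g R h2).trans h1

lemma bd_tri3 {X Y : Tr} {a : ℕ} {L : ℝ} {N M : ℕ} (h1 : Bd X a L N) (h2 : Bd Y a L M) :
    Bd (tri3 X Y) a L (N + 2 * M) := by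
  intro g R h
  have h3 : ∀ k j, R ≤ upd k g (rho2 a g) j + L := fun k j => by
    linarith [le_upd (m := R - L) (g := g) (fun j => by linarith [h j]) a k j]
  have e0 := h1 _ _ (h3 0)
  have e1 := h2 _ _ (h3 1)
  have e2 := h2 _ _ (h3 2)
  simp only [tri3, cnt, Fin.sum_univ_three, Matrix.cons_val]
  omega

lemma bd_quad4 {X Y : Tr} {a : ℕ} {L : ℝ} {N M : ℕ} (h1 : Bd X a L N) (h2 : Bd Y a L M) :
    Bd (quad4 X Y) (a + 1) L (N + 3 * M) := by
  intro g R h
  have h3 : ∀ k j, R ≤ quadT k g j + L := fun k j => by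
    linarith [le_quad (m := R - L) (g := g) (fun j => by linarith [h j]) k j]
  have e0 := h1 _ _ (h3 none)
  have e1 := h2 _ _ (h3 (some 0))
  have e2 := h2 _ _ (h3 (some 1))
  have e3 := h2 _ _ (h3 (some 2))
  simp only [quad4, cnt, Fintype.sum_option, Fin.sum_univ_three, Option.elim, Nat.add_sub_cancel]
  omega

lemma cnt_tri3 {X Y : Tr} {a : ℕ} {L R : ℝ} {M : ℕ} {g : Fin 3 → ℝ} (h2 : Bd Y a L M)
    (h : ∀ j, R ≤ g j + L) : cnt R (tri3 X Y) a g ≤ cnt R X a (upd 0 g (rho2 a g)) + 2 * M := by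
  have h3 : ∀ k j, R ≤ upd k g (rho2 a g) j + L := fun k j => by
    linarith [le_upd (m := R - L) (g := g) (fun j => by linarith [h j]) a k j]
  have e1 := h2 _ _ (h3 1)
  have e2 := h2 _ _ (h3 2)
  simp only [tri3, cnt, Fin.sum_univ_three, Matrix.cons_val]
  omega

lemma bd_host3 {X Y : Tr} {a : ℕ} {L : ℝ} {N M : ℕ} (h1 : Bd X a (L - 2 ^ a) N)
    (h2 : Bd Y a L M) : Bd (host3 Y X) a L (N + 6 * M) := by
  intro g R h
  have a0 : ∀ j, R - L ≤ g j := fun j => by linarith [h j]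
  have a1 := le_upd a0 a 0
  have a2 := le_upd a1 a 0
  have b0 := le_min3 a0
  have b1 := le_min3 a1
  have b2 := le_min3 a2
  have e0 := cnt_tri3 (X := tri3 (tri3 X Y) Y) h2 h
  have e1 := cnt_tri3 (X := tri3 X Y) (R := R) (g := upd 0 g (rho2 a g)) h2
    fun j => by linarith [a1 j]
  have e2 := cnt_tri3 (X := X) (R := R)
    (g := upd 0 (upd 0 g (rho2 a g)) (rho2 a (upd 0 g (rho2 a g)))) h2 fun j => by linarith [a2 j]
  have e3 := h1 (upd 0 (upd 0 (upd 0 g (rho2 a g)) (rho2 a (upd 0 g (rho2 a g))))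
    (rho2 a (upd 0 (upd 0 g (rho2 a g)) (rho2 a (upd 0 g (rho2 a g)))))) R (by
      intro j
      fin_cases j
      · change R ≤ rho2 a g + _
        unfold rho2
        linarith
      · change R ≤ rho2 a (upd 0 g (rho2 a g)) + _
        generalize upd 0 g (rho2 a g) = g' at *
        unfold rho2
        linarith
      · change R ≤ rho2 a (upd 0 (upd 0 g (rho2 a g)) (rho2 a (upd 0 g (rho2 a g)))) + _
        generalize upd 0 (upd 0 g (rho2 a g)) (rho2 a (upd 0 g (rho2 a g))) = g' at *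
        unfold rho2
        linarith)
  unfold host3
  omega

lemma bd_seg {a : ℕ} (d : ℕ) : ∀ (r : Tr) (L : ℝ) (N : ℕ), Bd r a (L - (2 ^ (a + d) - 2 ^ a)) N →
    Bd (Seg lv B a d r) a L (N + sgw lv B (fun Y => 2 * size Y) a d) := by
  induction d with
  | zero => intro r L N h; exact bd_tri3 (by simpa using h) (bd_size _ _ _)
  | succ d ih =>
    intro r L N h
    have h1 := ih r (L - (2 ^ (a + d) - 2 ^ a) - 2 ^ a) N (by
      convert h using 1
      rw [← add_assoc, pow_succ]; ring)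
    exact (ih _ _ _ (bd_host3 h1 (bd_size (Hh lv B a (a + d)) _ _))).mono
      (by simp only [sgw]; omega)

lemma size_sub {t : Tr} {k : Ix} (hk : k ∈ idx t) : size (sub t k) ≤ size t := by
  rw [size_go (ne_leaf_of_mem hk)]
  exact Finset.single_le_sum (f := fun k => size (sub t k)) (fun _ _ => Nat.zero_le _) hk

lemma all_bd_size {i N : ℕ} {L : ℝ} {t : Tr} (a : ℕ) (h : size t ≤ N) :
    All (fun t a => a ≤ i → Bd t a L N) t a :=
  all_of_inherit (P := fun t a => a ≤ i → Bd t a L N) (Q := fun t _ => size t ≤ N)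
    (fun t a h _ => (bd_size t a L).mono h)
    (fun _ _ h _ hk => (size_sub hk).trans h) t a h

lemma Fam.bd_seg (h : Fam lv B) {i a d : ℕ} (h1 : a ≤ i) (h2 : i + 1 ≤ a + d)
    (h3 : lv (i + 1) ≤ a) (r : Tr) : Bd (Seg lv B a d r) a (2 ^ i) (552 * 8 ^ i) := by
  obtain ⟨r', hr⟩ := seg_pre (lv := lv) (B := B) (a := a) (d0 := i + 1 - a) (d := d) (by omega) r
  have e : a + (i + 1 - a) = i + 1 := by omega
  have h4 := h.sgw_le (a := a) (d := i + 1 - a) (by rwa [e])
  rw [e, pow_succ] at h4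
  rw [hr]
  refine (Th.bd_seg _ _ _ _ (bd_zero _ _ ?_)).mono (by omega)
  have h5 : (2 : ℝ) ^ a ≤ 2 ^ i := pow_le_pow_right₀ (by norm_num) h1
  rw [e, pow_succ]
  linarith

lemma Fam.bd_B (h : Fam lv B) {i k : ℕ} (h1 : lv k ≤ i) :
    Bd (B k) (lv k) (2 ^ i) (552 * 8 ^ i) := by
  by_cases h0 : k ≤ i + 1
  · have h2 := eight_pow_le h0
    have h3 := h.size_le k
    rw [pow_succ] at h2
    exact (bd_size _ _ _).mono (by omega)
  · obtain ⟨k, rfl⟩ : ∃ m, k = m + 1 := ⟨k - 1, by omega⟩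
    have h2 := h.slow.succ_le k
    rw [h.succ]
    exact h.bd_seg h1 (by omega) (h.slow.mono (by omega)) _

lemma Fam.bd_H (h : Fam lv B) {i a k : ℕ} (h0 : a ≤ i) (h1 : lv k ≤ a) (h2 : a ≤ k) :
    Bd (Hh lv B a k) a (2 ^ i) (558 * 8 ^ i) := by
  have h3 := ((Hh_ind (B := B) h.slow (K := k)
    (Q := fun a k t => t = Hh lv B a k ∧ (a ≤ i → Bd t a (2 ^ i) (552 * 8 ^ i + 6 * 8 ^ a)))
    (R := fun a t => t = Ee lv B a)
    (fun m _ => ⟨(Hh_of_eq rfl).symm, fun h4 => (h.bd_B h4).mono (Nat.le_add_right _ _)⟩) rfl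
    (fun a X h4 _ => h4.1) (fun a m X Y h3 _ _ h4 h5 => ⟨by rw [h4.1, h5, Hh_succ h3],
      fun h6 => ?_⟩) a).1 k h1 h2 le_rfl).2 h0
  · have := eight_pow_le h0
    exact h3.mono (by omega)
  · have h7 := h.size_E_le a
    refine (bd_quad4 (h4.2 (by omega)) (bd_size Y _ _)).mono ?_
    rw [h5, pow_succ]
    omega

lemma Fam.all_bd (h : Fam lv B) (i k : ℕ) :
    All (fun t a => a ≤ i → Bd t a (2 ^ i) (5000 * 8 ^ i)) (B k) (lv k) := by
  set P : Tr → ℕ → Prop := fun t a => a ≤ i → Bd t a (2 ^ i) (5000 * 8 ^ i) with hP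
  have mk : ∀ t a n, Bd t a (2 ^ i) n → n ≤ 5000 * 8 ^ i → P t a := fun t a n h1 h2 _ =>
    h1.mono h2
  induction k using Nat.strong_induction_on with
  | _ k ih =>
    by_cases h0 : k ≤ i + 1
    · have h2 := eight_pow_le h0
      have h3 := h.size_le k
      rw [pow_succ] at h2
      exact all_bd_size _ (by omega)
    obtain ⟨k, rfl⟩ : ∃ m, k = m + 1 := ⟨k - 1, by omega⟩
    have h1 := Hh_ind (B := B) h.slow (K := k) (Q := fun a k t => t = Hh lv B a k ∧ All P t a)
      (R := fun a t => t = Ee lv B a ∧ All P t a)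
      (fun m hm => ⟨(Hh_of_eq rfl).symm, ih m (by omega)⟩)
      ⟨rfl, all_bd_size _ (by have : 1 ≤ 8 ^ i := Nat.one_le_pow _ _ (by norm_num)
                              simp only [size]; omega)⟩ (fun _ _ h _ => h)
      (fun a m X Y h1 h2 _ h3 h4 => by
        have e : quad4 X Y = Hh lv B (a + 1) m := by rw [h3.1, h4.1, Hh_succ h1]
        refine ⟨e, all_quad4 (fun h5 => ?_) h3.2 h4.2⟩
        rw [e]
        exact (h.bd_H h5 (by omega) h2).mono (by omega))
    have h2 := h.slow.succ_le k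
    have h3 := h.slow.le k
    have h4 := ih k (by omega)
    have hm : lv k ≤ lv (k + 1) := h.slow.mono (by omega)
    have hE := ((h1 _).2 h2).2
    have hH := fun d' (hd : d' < k - lv (k + 1)) => ((h1 (lv (k + 1))).1 (lv (k + 1) + d')
      (h.slow.mono (by omega)) (by omega) (by omega)).2
    have b1 := fun h5 : lv k ≤ i => bd_tri3 (h.bd_B h5) (h.bd_B h5)
    have b2 := fun h5 : lv k ≤ i => bd_tri3 (b1 h5) (h.bd_B h5)
    have b3 := fun h5 : lv k ≤ i => bd_tri3 (b2 h5) (h.bd_B h5)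
    have h5 : All P (host3 (B k) (B k)) (lv k) :=
      all_tri3 (fun h => (b3 h).mono (by omega)) (all_tri3 (fun h => (b2 h).mono (by omega))
        (all_tri3 (fun h => (b1 h).mono (by omega)) h4 h4) h4) h4
    have h6 : (lv (k + 1) ≤ i → Bd (drp lv B (lv k) (lv (k + 1)) (host3 (B k) (B k)))
        (lv (k + 1)) (2 ^ i) (3900 * 8 ^ i)) ∧
        All P (drp lv B (lv k) (lv (k + 1)) (host3 (B k) (B k))) (lv (k + 1)) := by
      rcases drp_cases (B := B) h.slow k (host3 (B k) (B k)) with ⟨e1, e2⟩ | ⟨e1, e2⟩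
      · rw [e2, e1]
        exact ⟨fun h => (b3 h).mono (by omega), h5⟩
      · rw [e2, e1]
        have h7 : lv k + 1 ≤ i → Bd (quad4 (host3 (B k) (B k)) (Ee lv B (lv k))) (lv k + 1)
            (2 ^ i) (3900 * 8 ^ i) := by
          intro h8
          have := eight_pow_le (show lv k ≤ i by omega)
          have := h.size_E_le (lv k)
          exact (bd_quad4 (b3 (by omega)) (bd_size _ _ _)).mono (by omega)
        exact ⟨h7, all_quad4 (fun h => (h7 h).mono (by omega)) h5 ((h1 _).2 (by omega)).2⟩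
    rw [h.succ]
    by_cases ha : lv (k + 1) ≤ i
    swap
    · exact seg_triv (fun _ h => absurd h ha) hE hH h6.2
    have hl : lv (i + 1) ≤ lv (k + 1) := h.slow.mono (by omega)
    refine seg_big (R := fun t => Bd t (lv (k + 1)) (2 ^ i) (3900 * 8 ^ i))
      (d0 := i + 1 - lv (k + 1)) (fun r h7 h8 => ?_) (fun t h => mk _ _ _ h (by omega)) _
      (by omega) hH (fun d' r h7 h8 => ?_) _ (h6.1 ha) h6.2
    · have e : lv (k + 1) + (i + 1 - lv (k + 1)) = i + 1 := by omega
      have h9 := h.sgw_le (a := lv (k + 1)) (d := i + 1 - lv (k + 1)) (by rwa [e])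
      rw [e, pow_succ] at h9
      exact (seg_small (S := fun Y => All P Y (lv (k + 1)))
        (Q := fun t n => Bd t (lv (k + 1)) (2 ^ i) n) (w := fun Y => 2 * size Y)
        (nmax := 5000 * 8 ^ i) (fun X Y n _ h => bd_tri3 h (bd_size Y _ _))
        (fun t n => mk t _ n) (fun _ h => h) hE _ (fun d' hd => hH d' (by omega)) r _ h7).2 h8
        (by omega)
    · have c0 := h.bd_H (k := lv (k + 1) + d') ha (h.slow.mono (by omega)) (by omega)
      have c1 := bd_tri3 (h.bd_seg (d := d') ha (by omega) hl r) c0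
      have c2 := bd_tri3 c1 c0
      exact ⟨c1.mono (by omega), c2.mono (by omega), (bd_tri3 c2 c0).mono (by omega)⟩

end Pool.Agent.MP_295da9_pr.Th
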