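import Mathlib
import Pool.Agent.MP_295da9_pr.ThSpine

/-! The graph and the simplicial complex of a system of triangles. -/

namespace Pool.Agent.MP_295da9_pr.Th

variable {E : Type*}

/-- vertices -/
abbrev VV (𝓛 : Set (Fin 3 → E)) := {x : E // Vtx 𝓛 x}

/-- the graph of a family of triangles -/
def Gr (𝓛 : Set (Fin 3 → E)) : SimpleGraph (VV 𝓛) where
  Adj u v := u ≠ v ∧ Co 𝓛 u.1 v.1
  symm := ⟨fun _ _ h => ⟨h.1.symm, h.2.symm⟩⟩
  loopless := ⟨fun _ h => h.1 rfl⟩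

variable {𝓛 : Set (Fin 3 → E)}

lemma near_of_walk {u w : VV 𝓛} (q : (Gr 𝓛).Walk u w) : Near 𝓛 q.length u.1 w.1 := by
  induction q with
  | nil => exact .refl _ _
  | cons h _ ih => exact .step h.2 ih

lemma walk_of_near {n : ℕ} {x y : E} (h : Near 𝓛 n x y) :
    ∀ u w : VV 𝓛, u.1 = x → w.1 = y → ∃ q : (Gr 𝓛).Walk u w, q.length ≤ n := by
  induction h with
  | refl n x =>
    intro u w h1 h2
    obtain rfl : u = w := Subtype.ext (h1.trans h2.symm)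
    exact ⟨.nil, Nat.zero_le _⟩
  | @step n x y z h1 _ ih =>
    intro u w h2 h3
    obtain ⟨q, hq⟩ := ih ⟨y, h1.right⟩ w rfl h3
    by_cases h4 : u = ⟨y, h1.right⟩
    · subst h4; exact ⟨q, by omega⟩
    · exact ⟨.cons (v := ⟨y, h1.right⟩) ⟨h4, h2 ▸ h1⟩ q, by simp [hq]⟩

lemma dist_le_iff (hc : (Gr 𝓛).Connected) (u w : VV 𝓛) (n : ℕ) :
    (Gr 𝓛).dist u w ≤ n ↔ Near 𝓛 n u.1 w.1 := by
  constructor
  · intro h
    obtain ⟨q, hq⟩ := hc.exists_walk_length_eq_dist u w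
    exact (near_of_walk q).mono (hq ▸ h)
  · intro h
    obtain ⟨q, hq⟩ := walk_of_near h u w rfl rfl
    exact (SimpleGraph.dist_le q).trans hq

lemma ncard_le_of {P : VV 𝓛 → Prop} {F : Finset E} (h : ∀ w, P w → w.1 ∈ F) :
    {w | P w}.Finite ∧ {w | P w}.ncard ≤ F.card := by
  have h1 : Subtype.val '' {w | P w} ⊆ F := by rintro _ ⟨w, hw, rfl⟩; exact h w hw
  refine ⟨Set.Finite.of_finite_image (F.finite_toSet.subset h1) Subtype.val_injective.injOn, ?_⟩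
  rw [← Set.ncard_image_of_injective _ Subtype.val_injective, ← Set.ncard_coe_finset]
  exact Set.ncard_le_ncard h1 F.finite_toSet

lemma le_ncard_of {P : VV 𝓛 → Prop} {F : Finset E} (hP : {w | P w}.Finite)
    (h : ∀ x ∈ F, ∃ w : VV 𝓛, P w ∧ w.1 = x) : F.card ≤ {w | P w}.ncard := by
  rw [← Set.ncard_image_of_injective _ Subtype.val_injective, ← Set.ncard_coe_finset]
  exact Set.ncard_le_ncard h (hP.image _)

variable [AddCommGroup E] [Module ℝ E]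

lemma face_bc (hS : Sys 𝓛) {L : Fin 3 → E} (hL : L ∈ 𝓛) {s : Set E} (hs : s ⊆ Set.range L)
    {x : E} (hx : x ∈ convexHull ℝ s) : Reg L x ∧ ∀ j, L j ∉ s → bcf L x j = 0 :=
  (hS.good L hL).of_mem_convexHull hs hx (isBC_bcf (hS.good L hL) x)

lemma same_bc (hS : Sys 𝓛) {L L' : Fin 3 → E} (hL : L ∈ 𝓛) (hL' : L' ∈ 𝓛) {x : E}
    (hx : Reg L x) (hx' : Reg L' x) {j : Fin 3} (hj : bcf L x j ≠ 0) :
    ∃ j', L' j' = L j ∧ bcf L' x j' ≠ 0 := by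
  have h1 : x ∈ convexHull ℝ {y | ∃ j', L' j' = y ∧ bcf L' x j' ≠ 0} :=
    (isBC_bcf (hS.good L' hL') x).mem_convexHull hx' fun j' h => ⟨j', rfl, h⟩
  by_contra h
  refine hj ((face_bc hS hL ?_ h1).2 j h)
  rintro _ ⟨j', rfl, h2⟩
  exact hS.ff L' hL' L hL x hx' hx j' (lt_of_le_of_ne (hx' j') h2.symm)

/-- the triangulation -/
def cx (hS : Sys 𝓛) : Geometry.SimplicialComplex ℝ E where
  faces := {s | s.Nonempty ∧ ∃ L ∈ 𝓛, (s : Set E) ⊆ Set.range L}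
  isRelLowerSet_faces := by
    rintro s ⟨hs, L, hL, h⟩
    refine ⟨hs, fun t ht htn => ⟨htn, L, hL, Set.Subset.trans ?_ h⟩⟩
    exact_mod_cast ht
  indep := by
    rintro s ⟨-, L, hL, h⟩
    exact (hS.good L hL).affineIndependent.range.mono h
  inter_subset_convexHull := by
    rintro s t ⟨-, L, hL, hs⟩ ⟨-, L', hL', ht⟩ x ⟨hxs, hxt⟩
    obtain ⟨h1, h2⟩ := face_bc hS hL hs hxs
    obtain ⟨h3, h4⟩ := face_bc hS hL' ht hxt
    refine (isBC_bcf (hS.good L hL) x).mem_convexHull h1 fun j hj => ⟨?_, ?_⟩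
    · by_contra h; exact hj (h2 j h)
    · obtain ⟨j', h5, h6⟩ := same_bc hS hL hL' h1 h3 hj
      rw [← h5]
      by_contra h; exact h6 (h4 j' h)

lemma mem_cx (hS : Sys 𝓛) {s : Finset E} :
    s ∈ (cx hS).faces ↔ s.Nonempty ∧ ∃ L ∈ 𝓛, (s : Set E) ⊆ Set.range L := Iff.rfl

lemma range_val (hS : Sys 𝓛) : Set.range (fun u : VV 𝓛 => u.1) = (cx hS).vertices := by
  ext x
  rw [Geometry.SimplicialComplex.mem_vertices, mem_cx]
  constructor
  · rintro ⟨⟨x, L, hL, hx⟩, rfl⟩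
    exact ⟨by simp, L, hL, by simpa using hx⟩
  · rintro ⟨-, L, hL, h⟩
    exact ⟨⟨x, L, hL, by simpa using h⟩, rfl⟩

lemma adj_iff (hS : Sys 𝓛) (u v : VV 𝓛) :
    (Gr 𝓛).Adj u v ↔ u ≠ v ∧ ∃ s ∈ (cx hS).faces, (s : Set E) = {u.1, v.1} := by
  classical
  refine and_congr_right fun _ => ⟨?_, ?_⟩
  · rintro ⟨L, hL, h1, h2⟩
    refine ⟨{u.1, v.1}, ⟨by simp, L, hL, ?_⟩, by simp⟩
    rw [Finset.coe_pair]
    rintro x (rfl | rfl)
    · exact h1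
    · exact h2
  · rintro ⟨s, ⟨-, L, hL, h⟩, hs⟩
    rw [hs] at h
    exact ⟨L, hL, h (Set.mem_insert _ _), h (Set.mem_insert_of_mem _ rfl)⟩

lemma cx_pure (hS : Sys 𝓛) : ∀ s ∈ (cx hS).faces, ∃ t ∈ (cx hS).faces, s ⊆ t ∧ t.card = 3 := by
  classical
  rintro s ⟨-, L, hL, h⟩
  refine ⟨Finset.univ.image L, ⟨by simp, L, hL, by simp⟩, ?_, ?_⟩
  · intro x hx
    simpa using h hx
  · rw [Finset.card_image_of_injective _ (hS.good L hL).affineIndependent.injective]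
    simp

lemma cx_space (hS : Sys 𝓛) (hE : ∀ x, ∃ L ∈ 𝓛, Reg L x) : (cx hS).space = Set.univ := by
  classical
  rw [Set.eq_univ_iff_forall]
  intro x
  obtain ⟨L, hL, hx⟩ := hE x
  rw [Geometry.SimplicialComplex.mem_space_iff]
  refine ⟨Finset.univ.image L, ⟨by simp, L, hL, by simp⟩, ?_⟩
  exact (isBC_bcf (hS.good L hL) x).mem_convexHull hx fun j _ => by simp

lemma finite_leaf (σ : Nd E) : {L | LeafOf σ.t σ.T L}.Finite := by
  classical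
  refine ((cells rho0 0 σ).map fun l => l.T).toFinset.finite_toSet.subset fun L hL => ?_
  obtain ⟨l, hl, rfl⟩ := (leafOf_zero rho0 σ L).1 hL
  exact Multiset.mem_toFinset.2 (Multiset.mem_map.2 ⟨l, hl, rfl⟩)

lemma cx_finite (hS : Sys 𝓛) {σ : Nd E} (h : Cap 𝓛 σ) {A : Set E} (hA : ∀ x ∈ A, Int σ.T x) :
    {s ∈ (cx hS).faces | (convexHull ℝ (s : Set E) ∩ A).Nonempty}.Finite := by
  classical
  refine ((finite_leaf σ).biUnion fun L _ =>
    (Finset.univ.image L).powerset.finite_toSet).subset ?_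
  rintro s ⟨⟨-, L, hL, hs⟩, x, hx, hxA⟩
  simp only [Set.mem_iUnion]
  refine ⟨L, h.cap L hL x (face_bc hS hL hs hx).1 (hA x hxA), ?_⟩
  rw [Finset.mem_coe, Finset.mem_powerset]
  intro y hy
  simpa using hs hy

lemma finite_reg (hS : Sys 𝓛) {σ : Nd E} (h : Cap 𝓛 σ) : {w : VV 𝓛 | Reg σ.T w.1}.Finite := by
  refine Set.Finite.of_finite_image (((finite_leaf σ).biUnion fun L _ =>
    Set.finite_range L).subset ?_) Subtype.val_injective.injOn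
  rintro _ ⟨w, hw, rfl⟩
  obtain ⟨L, hL, hj⟩ := h.vtx_leaf hS w.2 hw
  exact Set.mem_biUnion hL hj

lemma ring_card (hS : Sys 𝓛) {σ : Nd E} (h : Cap 𝓛 σ) :
    {w : VV 𝓛 | Reg σ.T w.1 ∧ ¬ Int σ.T w.1}.ncard ≤ 3 * (2 ^ σ.a + 1) := by
  classical
  refine (ncard_le_of (F := (Finset.range (2 ^ σ.a + 1)).image (pt σ.a (σ.T 1) (σ.T 2)) ∪
    (Finset.range (2 ^ σ.a + 1)).image (pt σ.a (σ.T 0) (σ.T 2)) ∪
    (Finset.range (2 ^ σ.a + 1)).image (pt σ.a (σ.T 0) (σ.T 1))) ?_).2.trans ?_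
  · rintro w ⟨h1, h2⟩
    obtain ⟨z, hz⟩ : ∃ z, bcf σ.T w.1 z = 0 := by
      by_contra h3
      push Not at h3
      exact h2 fun j => lt_of_le_of_ne (h1 j) (h3 j).symm
    simp only [Finset.mem_union, Finset.mem_image, Finset.mem_range]
    fin_cases z
    · obtain ⟨m, hm, e⟩ := exists_pt hS h (X := 1) (Y := 2) (Z := 0) (by decide) (by decide)
        (by decide) w.2 h1 hz
      exact Or.inl (Or.inl ⟨m, by omega, e.symm⟩)
    · obtain ⟨m, hm, e⟩ := exists_pt hS h (X := 0) (Y := 2) (Z := 1) (by decide) (by decide)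
        (by decide) w.2 h1 hz
      exact Or.inl (Or.inr ⟨m, by omega, e.symm⟩)
    · obtain ⟨m, hm, e⟩ := exists_pt hS h (X := 0) (Y := 1) (Z := 2) (by decide) (by decide)
        (by decide) w.2 h1 hz
      exact Or.inr ⟨m, by omega, e.symm⟩
  · have h1 := fun f : ℕ → E => (Finset.card_image_le (s := Finset.range (2 ^ σ.a + 1)) (f := f))
    simp only [Finset.card_range] at h1
    refine (Finset.card_union_le _ _).trans ((Nat.add_le_add ((Finset.card_union_le _ _).trans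
      (Nat.add_le_add (h1 _) (h1 _))) (h1 _)).trans (by omega))

lemma walk_stays (hS : Sys 𝓛) {σ : Nd E} (h : Cap 𝓛 σ) {ω : Set (VV 𝓛)}
    (hω : ∀ x : VV 𝓛, Reg σ.T x.1 → ¬ Int σ.T x.1 → x ∉ ω) {u w : VV 𝓛} (q : (Gr 𝓛).Walk u w)
    (hq : ∀ x ∈ q.support, x ∈ ω) (hu : Reg σ.T u.1) : Reg σ.T w.1 := by
  induction q with
  | nil => exact hu
  | @cons u v w h1 q ih =>
    refine ih (fun x hx => hq x (by simp [hx])) (h.co_reg hS h1.2 ?_)
    by_contra h2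
    exact hω u hu h2 (hq u (by simp))

/-- sets with a small boundary stay close to it -/
lemma iso_graph (hS : Sys 𝓛) {a0 H : ℕ} {σ : Nd E} (h : Cap 𝓛 σ) (ha : a0 ≤ σ.a)
    (hH : All (fun t a => a ≤ a0 → hgt t a ≤ H) σ.t σ.a) {A : Set (VV 𝓛)} {S : Finset (VV 𝓛)}
    (hI : ∀ v ∈ A, Int σ.T v.1) (hc : S.card ≤ 2 ^ a0) (h1 : ∀ v ∈ A, v ∉ S)
    (h2 : ∀ v ∈ A, ∀ w, (Gr 𝓛).Adj v w → w ∉ S → w ∈ A) {v : VV 𝓛} (hv : v ∈ A) :
    ∃ s ∈ S, Near 𝓛 (4 * H + 2) s.1 v.1 := by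
  classical
  have hA : Clo 𝓛 (Subtype.val '' A) (S.image Subtype.val) := by
    refine ⟨?_, ?_, ?_⟩
    · rintro _ ⟨x, -, rfl⟩; exact x.2
    · rintro _ ⟨x, hx, rfl⟩ h3
      obtain ⟨y, hy, e⟩ := Finset.mem_image.1 h3
      exact h1 x hx (Subtype.ext e ▸ hy)
    · rintro _ ⟨x, hx, rfl⟩ y h3 h4
      by_cases e : x = ⟨y, h3.right⟩
      · exact ⟨x, hx, by rw [e]⟩
      · exact ⟨⟨y, h3.right⟩, h2 x hx _ ⟨e, h3⟩ fun h5 => h4 (Finset.mem_image.2 ⟨_, h5, rfl⟩), rfl⟩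
  obtain ⟨s, hs, h3⟩ := iso_near hS hA h ha hH (by rintro _ ⟨x, hx, rfl⟩; exact hI x hx)
    (Finset.card_image_le.trans hc)
    (fun s hs => by obtain ⟨y, -, rfl⟩ := Finset.mem_image.1 hs; exact y.2) ⟨v, hv, rfl⟩
  obtain ⟨y, hy, rfl⟩ := Finset.mem_image.1 hs
  exact ⟨y, hy, h3⟩

end Pool.Agent.MP_295da9_pr.Th
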