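import Mathlib
import Pool.Agent.MP_295da9_pr.Graph
import Pool.Agent.MP_295da9_pr.ThGraph
import Pool.Agent.MP_295da9_pr.ThFam3

/-! Closed rings stop percolation; growth and isoperimetry of the limit graph. -/

namespace Pool.Agent.MP_295da9_pr.Th

open MeasureTheory ProbabilityTheory

lemma one_sub_pow_mul_le {x : ℝ} (h0 : 0 ≤ x) (h1 : x ≤ 1) (n : ℕ) :
    (1 - x) ^ n * (1 + n * x) ≤ 1 := by
  induction n with
  | zero => simp
  | succ n ih =>
    have h2 : 0 ≤ (1 - x) ^ n := pow_nonneg (by linarith) n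
    have h3 : (1 - x) * (1 + (n + 1) * x) ≤ 1 + n * x := by
      have : (0 : ℝ) ≤ (n + 1) * x * x := by positivity
      nlinarith
    rw [pow_succ, mul_assoc]
    push_cast
    exact (mul_le_mul_of_nonneg_left h3 h2).trans ih

lemma prob_none_closed {ι : Type*} (p : unitInterval) {n r : ℕ} (T : Fin n → Finset ι)
    (hT : Pairwise fun a b => Disjoint (T a) (T b)) (hc : ∀ k, (T k).card ≤ r) :
    (setBernoulli Set.univ p).real {ω : Set ι | ∀ k, ¬ ∀ x ∈ T k, x ∉ ω} *
      (1 + n * (1 - p : ℝ) ^ r) ≤ 1 := by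
  classical
  set μ := setBernoulli (Set.univ : Set ι) p with hμ
  let C : Fin n → Set (Set ι) := fun k => {ω | ∀ x ∈ T k, x ∉ ω}
  have hC : ∀ k, MeasurableSet (C k) := fun k => measurableSet_closed _
  have hind : iIndepSet C μ := by
    rw [iIndepSet_iff_meas_biInter hC]
    intro s
    have h1 : ⋂ k ∈ s, C k = {ω | ∀ x ∈ s.biUnion T, x ∉ ω} := by
      ext ω
      simp only [C, Set.mem_iInter, Set.mem_ofPred_eq, Finset.mem_biUnion]
      exact ⟨fun h x ⟨k, hk, hx⟩ => h k hk x hx, fun h k hk x hx => h x ⟨k, hk, hx⟩⟩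
    rw [h1, setBer_closed, Finset.card_biUnion (fun a _ b _ hab => hT hab),
      ← Finset.prod_pow_eq_pow_sum]
    exact Finset.prod_congr rfl fun k _ => (setBer_closed p _).symm
  have h1 := ((iIndepSet_iff_iIndep _ _).1 hind).meas_iInter (s := fun k => (C k)ᶜ)
    fun k => (MeasurableSpace.measurableSet_generateFrom (Set.mem_singleton _)).compl
  have h2 : {ω : Set ι | ∀ k, ¬ ∀ x ∈ T k, x ∉ ω} = ⋂ k, (C k)ᶜ := by
    ext ω; simp only [C, Set.mem_iInter, Set.mem_compl_iff, Set.mem_ofPred_eq]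
  have q0 : (0 : ℝ) ≤ 1 - p := by linarith [p.2.2]
  have q1 : (1 - p : ℝ) ≤ 1 := by linarith [p.2.1]
  have h3 : ∀ k, μ.real (C k)ᶜ ≤ 1 - (1 - p : ℝ) ^ r := by
    intro k
    rw [probReal_compl_eq_one_sub (hC k), measureReal_def, setBer_closed]
    have := pow_le_pow_of_le_one q0 q1 (hc k)
    simp only [ENNReal.toReal_pow, ENNReal.coe_toReal, unitInterval.coe_toNNReal,
      unitInterval.coe_symm_eq]
    linarith
  have h4 : μ.real (⋂ k, (C k)ᶜ) ≤ (1 - (1 - p : ℝ) ^ r) ^ n := by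
    rw [measureReal_def, h1, ENNReal.toReal_prod]
    refine (Finset.prod_le_prod (fun k _ => ENNReal.toReal_nonneg) fun k _ => h3 k).trans ?_
    simp
  rw [h2]
  exact (mul_le_mul_of_nonneg_right h4 (by positivity)).trans
    (one_sub_pow_mul_le (by positivity) (pow_le_one₀ q0 q1) n)

variable {E : Type*} [AddCommGroup E] [Module ℝ E] {N : ℕ → Nd E} {len : ℕ → ℕ}

lemma seq_conn (h : ∀ k, Up (len k) (N (k + 1)) (N k)) : (Gr (allL N)).Connected := by
  have : Nonempty (VV (allL N)) := ⟨⟨_, (seq_cap h 0).vtx_corner 0⟩⟩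
  refine ⟨fun u w => ?_⟩
  obtain ⟨n, hn⟩ := seq_vtx h u.2
  obtain ⟨m, hm⟩ := seq_vtx h w.2
  have h1 := (seq_cap h (max n m)).near_vtx (seq_sys h) u.2
    ((seq_sub h (le_max_left n m)).reg (seq_ok h _) hn)
  have h2 := (seq_cap h (max n m)).near_vtx (seq_sys h) w.2
    ((seq_sub h (le_max_right n m)).reg (seq_ok h _) hm)
  obtain ⟨q, -⟩ := walk_of_near (h1.symm.trans h2) u w rfl rfl
  exact ⟨q⟩

lemma seq_perc (h : ∀ k, Up (len k) (N (k + 1)) (N k)) (p : unitInterval)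
    (hp : ∀ M : ℕ, ∃ k n : ℕ, M ≤ k ∧ 3 * n ≤ len k + 3 ∧
      (M : ℝ) ≤ n * (1 - p : ℝ) ^ (3 * (2 ^ (N (k + 1)).a + 1))) (v : VV (allL N)) :
    setBernoulli Set.univ p {ω : Set (VV (allL N)) |
      {w | ∃ q : (Gr (allL N)).Walk v w, ∀ x ∈ q.support, x ∈ ω}.Infinite} = 0 := by
  classical
  obtain ⟨n0, h0⟩ := seq_vtx h v.2
  rw [← measureReal_eq_zero_iff]
  refine le_antisymm (le_of_not_gt fun hpos => ?_) measureReal_nonneg
  obtain ⟨M, hM⟩ := exists_nat_one_div_lt hpos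
  obtain ⟨k, n, h1, h2, h3⟩ := hp (max M n0)
  have hS := seq_sys h
  have hg := (seq_ok h (k + 1)).1
  have h4 : ∀ j : Fin n, ∃ u, Cap (allL N) ⟨u, (N (k + 1)).a, down^[3 * j] (N (k + 1)).T, 0⟩ := by
    intro j
    obtain ⟨u, hu⟩ := (h k).ring (3 * j) (by omega)
    exact ⟨u, (seq_cap h (k + 1)).sub hu⟩
  choose u hu using h4
  have hfin : ∀ j : Fin n, {w : VV (allL N) | Reg (down^[3 * j] (N (k + 1)).T) w.1 ∧
      ¬ Int (down^[3 * j] (N (k + 1)).T) w.1}.Finite := fun j =>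
    (finite_reg hS (hu j)).subset fun _ h => h.1
  have h5 := prob_none_closed p (r := 3 * (2 ^ (N (k + 1)).a + 1)) (fun j => (hfin j).toFinset)
    (by
      have key : ∀ a b : Fin n, a < b → Disjoint (hfin a).toFinset (hfin b).toFinset := by
        intro a b hab
        rw [Finset.disjoint_left]
        intro x hx hx'
        rw [Set.Finite.mem_toFinset] at hx hx'
        exact hx.2 (int_down hg (by have : a.1 < b.1 := hab; omega) hx'.1)
      intro a b hab
      rcases lt_or_gt_of_ne hab with h | h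
      · exact key a b h
      · exact (key b a h).symm)
    fun j => by
      have := ring_card hS (hu j)
      dsimp only at this ⊢
      rwa [← Set.ncard_eq_toFinset_card _ (hfin j)]
  have h6 : (setBernoulli Set.univ p).real {ω : Set (VV (allL N)) |
      {w | ∃ q : (Gr (allL N)).Walk v w, ∀ x ∈ q.support, x ∈ ω}.Infinite} ≤
      (setBernoulli Set.univ p).real {ω | ∀ k, ¬ ∀ x ∈ (hfin k).toFinset, x ∉ ω} := by
    refine measureReal_mono fun ω hω j hj => hω ((finite_reg hS (hu j)).subset ?_)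
    rintro w ⟨q, hq⟩
    refine walk_stays hS (hu j) (fun x h1 h2 => hj x ((hfin j).mem_toFinset.2 ⟨h1, h2⟩)) q hq ?_
    exact reg_down hg (by omega) ((h k).inner _
      ((seq_sub h ((le_max_right _ _).trans h1)).reg (seq_ok h _) h0))
  have h7 : (M : ℝ) ≤ (max M n0 : ℕ) := by exact_mod_cast le_max_left M n0
  have h8 : (0 : ℝ) < M + 1 := by positivity
  rw [div_lt_iff₀ h8] at hM
  nlinarith

end Pool.Agent.MP_295da9_pr.Th
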