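import Mathlib
import Pool.Agent.MP_295da9_pr.ThPerc

/-! The thick triangulation. -/

namespace Pool.Agent.MP_295da9_pr.Th

open MeasureTheory ProbabilityTheory

/-- the family placed on an exhausting sequence of triangles -/
structure World {E : Type*} [AddCommGroup E] [Module ℝ E] (lv : ℕ → ℕ) (B : ℕ → Tr)
    (N : ℕ → Nd E) : Prop where
  fam : Fam lv B
  unb : ∀ a, ∃ k, a ≤ lv k
  t : ∀ k, (N k).t = B k
  a : ∀ k, (N k).a = lv k
  up : ∀ k, Up (4 * 2 ^ (k - lv (k + 1)) - 3) (N (k + 1)) (N k)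

section general

variable {E : Type*} [AddCommGroup E] [Module ℝ E] {lv : ℕ → ℕ} {B : ℕ → Tr} {N : ℕ → Nd E}

lemma exists_world (h : Slow lv) (unb : ∀ a, ∃ k, a ≤ lv k) {T0 : Fin 3 → E} (h0 : Good T0) :
    ∃ (B : ℕ → Tr) (N : ℕ → Nd E), World lv B N ∧ (N 0).T = T0 := by
  obtain ⟨B, h1, h2⟩ := exists_fam h
  have hF : Fam lv B := ⟨h, h1, h2⟩
  obtain ⟨T, h3, h4⟩ := exists_spine hF.wl hF.chain h0
  exact ⟨B, fun k => ⟨B k, lv k, T k, 0⟩, ⟨hF, unb, fun _ => rfl, fun _ => rfl, h4⟩, h3⟩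

lemma World.root (h : World lv B N) (i r : ℕ) {v : E} (hv : Vtx (allL N) v) :
    ∃ m, i ≤ lv m ∧ ∀ w, Near (allL N) r v w → Int (N m).T w := by
  obtain ⟨n, hn⟩ := seq_vtx h.up hv
  obtain ⟨k, hk⟩ := h.unb i
  exact ⟨max k (n + r + 1), hk.trans (h.fam.slow.mono (le_max_left _ _)), fun w hw =>
    seq_int h.up (lt_of_lt_of_le (Nat.lt_succ_self _) (le_max_right _ _)) (seq_near h.up hn hw)⟩

lemma World.upper (h : World lv B N) (v : VV (allL N)) {n : ℕ} (hn : 1 ≤ n) :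
    {w : VV (allL N) | Near (allL N) n v.1 w.1}.Finite ∧
      {w : VV (allL N) | Near (allL N) n v.1 w.1}.ncard ≤ 700000000 * n ^ 3 := by
  obtain ⟨i, h1, h2⟩ : ∃ i, 4 * n < 2 ^ i ∧ 2 ^ i ≤ 8 * n :=
    ⟨Nat.log 2 (4 * n) + 1, Nat.lt_pow_succ_log_self (by norm_num) _, by
      have := Nat.pow_log_le_self 2 (show 4 * n ≠ 0 by omega)
      rw [pow_succ]; omega⟩
  obtain ⟨m, h3, h4⟩ := h.root i (3 * n) v.2
  obtain ⟨F, h5, h6⟩ := ball_upper (seq_sys h.up) (N := 5000 * 8 ^ i) (κ := 14) h1 v.2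
    (seq_cap h.up m) (by rw [h.t, h.a]; exact h.fam.all_bd i m)
    (by rw [h.t, h.a]; exact (h.fam.cp_le m).2) (by rwa [h.a]) h4
  obtain ⟨h7, h8⟩ := ncard_le_of (P := fun w : VV (allL N) => Near (allL N) n v.1 w.1)
    fun w hw => h6 w.1 hw
  refine ⟨h7, h8.trans (h5.trans ?_)⟩
  have h9 : 8 ^ i ≤ (8 * n) ^ 3 := by
    rw [show (8 : ℕ) ^ i = (2 ^ i) ^ 3 by rw [← pow_mul, mul_comm, pow_mul]; norm_num]
    exact Nat.pow_le_pow_left h2 3
  have h10 : 1 ≤ n ^ 3 := Nat.one_le_pow _ _ hn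
  rw [mul_pow] at h9
  omega

lemma World.lower (h : World lv B N) (v : VV (allL N)) {n : ℕ} (hn : 1 ≤ n) :
    n ^ 3 ≤ 2000000000 * {w : VV (allL N) | Near (allL N) n v.1 w.1}.ncard := by
  have hf := (h.upper v hn).1
  by_cases h0 : n < 133
  · have h1 : 0 < {w : VV (allL N) | Near (allL N) n v.1 w.1}.ncard :=
      (Set.ncard_pos hf).2 ⟨v, .refl _ _⟩
    have h2 : n ^ 3 ≤ 133 ^ 3 := Nat.pow_le_pow_left h0.le 3
    omega
  obtain ⟨i, h1, h2⟩ : ∃ i, 133 * 2 ^ i ≤ n ∧ n ≤ 266 * 2 ^ i :=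
    ⟨Nat.log 2 (n / 133), by
      have := Nat.pow_log_le_self 2 (show n / 133 ≠ 0 by omega)
      omega, by
      have := Nat.lt_pow_succ_log_self (b := 2) (by norm_num) (n / 133)
      rw [pow_succ] at this
      omega⟩
  obtain ⟨m, h3, h4⟩ := h.root (i + 1) 0 v.2
  obtain ⟨F, h5, h6⟩ := ball_lower (seq_sys h.up) (κ := 14) v.2 (N m)
    (seq_cap h.up m) (by rw [h.t, h.a]; exact h.fam.all_rich i m)
    (by rw [h.t, h.a]; exact (h.fam.cp_le m).2) (by rw [h.a]; omega) (h4 _ (.refl _ _)).reg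
  have h7 : 1 ≤ 2 ^ i := Nat.one_le_two_pow
  have h8 := le_ncard_of (P := fun w : VV (allL N) => Near (allL N) n v.1 w.1) hf
    fun x hx => ⟨⟨x, (h6 x hx).vtx v.2⟩, (h6 x hx).mono (by omega), rfl⟩
  have h9 : n ^ 3 ≤ 266 ^ 3 * 8 ^ i := by
    rw [show (8 : ℕ) ^ i = (2 ^ i) ^ 3 by rw [← pow_mul, mul_comm, pow_mul]; norm_num, ← mul_pow]
    exact Nat.pow_le_pow_left h2 3
  omega

lemma World.ball (h : World lv B N) (v : VV (allL N)) (n : ℕ) :
    {w | (Gr (allL N)).dist v w ≤ n} = {w : VV (allL N) | Near (allL N) n v.1 w.1} :=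
  Set.ext fun w => dist_le_iff (seq_conn h.up) v w n

lemma World.growth (h : World lv B N) : ∃ c C : ℝ, 0 < c ∧ c < C ∧ ∀ n : ℕ, 1 ≤ n →
    ∀ v : VV (allL N), c * (n : ℝ) ^ 3 < ({w | (Gr (allL N)).dist v w ≤ n}.ncard : ℝ) ∧
      ({w | (Gr (allL N)).dist v w ≤ n}.ncard : ℝ) < C * (n : ℝ) ^ 3 := by
  refine ⟨1 / 2000000001, 700000001, by norm_num, by norm_num, fun n hn v => ?_⟩
  rw [h.ball]
  have h1 : ((n : ℝ)) ^ 3 ≤
      2000000000 * ({w : VV (allL N) | Near (allL N) n v.1 w.1}.ncard : ℝ) := by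
    exact_mod_cast h.lower v hn
  have h2 : ({w : VV (allL N) | Near (allL N) n v.1 w.1}.ncard : ℝ) ≤ 700000000 * (n : ℝ) ^ 3 := by
    exact_mod_cast (h.upper v hn).2
  have h3 : (0 : ℝ) < (n : ℝ) ^ 3 := by positivity
  constructor <;> nlinarith

lemma World.locFin (h : World lv B N) (v : VV (allL N)) : ((Gr (allL N)).neighborSet v).Finite :=
  (h.upper v le_rfl).1.subset fun _ hw => Co.near hw.2

lemma World.infinite (h : World lv B N) : Infinite (VV (allL N)) := by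
  by_contra h0
  rw [not_infinite_iff_finite] at h0
  obtain ⟨v⟩ := (seq_conn h.up).nonempty
  have h1 := h.lower v (n := 2000000000 * Nat.card (VV (allL N)) + 1) (by omega)
  have h2 := Set.ncard_le_card
    {w : VV (allL N) | Near (allL N) (2000000000 * Nat.card (VV (allL N)) + 1) v.1 w.1}
  have h3 := Nat.le_self_pow (n := 3) (by norm_num) (2000000000 * Nat.card (VV (allL N)) + 1)
  omega

lemma World.close (h : World lv B N) {a0 K : ℕ} (hK : ∀ k, lv k ≤ a0 → k ≤ K)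
    {A : Set (VV (allL N))} (hA : A.Finite) {S : Finset (VV (allL N))} (hc : S.card ≤ 2 ^ a0)
    (h1 : ∀ v ∈ A, v ∉ S) (h2 : ∀ v ∈ A, ∀ w, (Gr (allL N)).Adj v w → w ∉ S → w ∈ A)
    {v : VV (allL N)} (hv : v ∈ A) : ∃ s ∈ S, Near (allL N) (52 * 2 ^ K + 2) s.1 v.1 := by
  choose f hf using fun v : VV (allL N) => seq_vtx h.up v.2
  obtain ⟨b, hb⟩ := (hA.image f).bddAbove
  obtain ⟨k, hk⟩ := h.unb a0
  obtain ⟨s, hs, h3⟩ := iso_graph (seq_sys h.up) (seq_cap h.up (max k (b + 1)))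
    (by rw [h.a]; exact hk.trans (h.fam.slow.mono (le_max_left _ _)))
    (by rw [h.t, h.a]; exact h.fam.hgt_level hK _)
    (fun w hw => seq_int h.up (lt_of_lt_of_le (Nat.lt_succ_of_le (hb ⟨w, hw, rfl⟩))
      (le_max_right _ _)) (hf w)) hc h1 h2 hv
  exact ⟨s, hs, h3.mono (by omega)⟩

lemma World.iso (h : World lv B N) (M : ℕ) : ∃ n : ℕ, ∀ A : Finset (VV (allL N)), n ≤ A.card →
    M ≤ {w | w ∉ A ∧ ∃ v ∈ A, (Gr (allL N)).Adj v w}.ncard := by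
  classical
  obtain ⟨K, hK⟩ := h.unb (M + 1)
  have hK' : ∀ k, lv k ≤ M → k ≤ K := fun k hk => by
    by_contra h1
    have := h.fam.slow.mono (show K ≤ k by omega)
    omega
  refine ⟨M * (700000000 * (52 * 2 ^ K + 2) ^ 3) + 1, fun A hA => ?_⟩
  by_contra h1
  have hf : {w | w ∉ A ∧ ∃ v ∈ A, (Gr (allL N)).Adj v w}.Finite :=
    (A.finite_toSet.biUnion fun v _ => h.locFin v).subset fun w ⟨_, v, hv, hw⟩ =>
      Set.mem_biUnion hv hw
  rw [Set.ncard_eq_toFinset_card _ hf] at h1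
  have h2 := fun s : VV (allL N) => h.upper s (n := 52 * 2 ^ K + 2) (by omega)
  have h3 : A ⊆ hf.toFinset.biUnion fun s => (h2 s).1.toFinset := by
    intro v hv
    obtain ⟨s, hs, h4⟩ := h.close hK' A.finite_toSet (S := hf.toFinset)
      (by have := Nat.lt_two_pow_self (n := M); omega)
      (fun v hv h => (hf.mem_toFinset.1 h).1 hv)
      (fun v hv w hw h => by
        by_contra h5
        exact h (hf.mem_toFinset.2 ⟨h5, v, hv, hw⟩)) hv
    exact Finset.mem_biUnion.2 ⟨s, hs, (h2 s).1.mem_toFinset.2 h4⟩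
  have h4 := (Finset.card_le_card h3).trans (Finset.card_biUnion_le_card_mul _ _ _ fun s _ => by
    rw [← Set.ncard_eq_toFinset_card _ (h2 s).1]; exact (h2 s).2)
  have h5 := Nat.mul_le_mul_right (700000000 * (52 * 2 ^ K + 2) ^ 3) (not_le.1 h1).le
  omega

lemma World.perc (h : World lv B N) (p : unitInterval)
    (hp : ∀ M : ℕ, ∃ k : ℕ, M ≤ k ∧
      (M : ℝ) ≤ 2 ^ (k - lv (k + 1)) * (1 - p : ℝ) ^ (3 * (2 ^ lv (k + 1) + 1)))
    (v : VV (allL N)) : setBernoulli Set.univ p {ω : Set (VV (allL N)) |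
      {w | ∃ q : (Gr (allL N)).Walk v w, ∀ x ∈ q.support, x ∈ ω}.Infinite} = 0 := by
  refine seq_perc h.up p (fun M => ?_) v
  obtain ⟨k, h1, h2⟩ := hp M
  refine ⟨k, 2 ^ (k - lv (k + 1)), h1, ?_, by rw [h.a]; exact_mod_cast h2⟩
  have : 1 ≤ 2 ^ (k - lv (k + 1)) := Nat.one_le_two_pow
  omega

end general

/-- levels rising when the threshold is passed -/
def lvOf (thr : ℕ → ℕ) : ℕ → ℕ
  | 0 => 0
  | k + 1 => if thr (lvOf thr k + 1) ≤ k then lvOf thr k + 1 else lvOf thr k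

lemma lvOf_thr (thr : ℕ → ℕ) (k : ℕ) : lvOf thr (k + 1) ≠ 0 → thr (lvOf thr (k + 1)) ≤ k := by
  induction k with
  | zero =>
    simp only [lvOf]
    split_ifs with h
    · exact fun _ => h
    · exact fun h => absurd rfl h
  | succ k ih =>
    rw [lvOf]
    split_ifs with h
    · exact fun _ => h
    · exact fun h => (ih h).trans (Nat.le_succ k)

lemma lvOf_slow {thr : ℕ → ℕ} (h : ∀ a, 2 * a + 3 ≤ thr a) : Slow (lvOf thr) where
  zero := rfl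
  step k := by rw [lvOf]; split_ifs <;> simp
  slow k hk := (h _).trans (lvOf_thr thr k hk)

lemma lvOf_unb {thr : ℕ → ℕ} (h : Slow (lvOf thr)) (a : ℕ) : ∃ k, a ≤ lvOf thr k := by
  induction a with
  | zero => exact ⟨0, le_rfl⟩
  | succ a ih =>
    obtain ⟨k, hk⟩ := ih
    have h1 := hk.trans (h.mono (le_max_left k (thr (a + 1))))
    rcases Nat.lt_or_eq_of_le h1 with h2 | h2
    · exact ⟨_, h2⟩
    · exact ⟨max k (thr (a + 1)) + 1, by rw [lvOf, ← h2, if_pos (le_max_right _ _)]⟩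

/-- the plane -/
abbrev Pl := EuclideanSpace ℝ (Fin 2)

/-- the first triangle -/
noncomputable def T0 : Fin 3 → Pl := ![0, EuclideanSpace.single 0 1, EuclideanSpace.single 1 1]

lemma isBC_T0 (x : Pl) (b : Fin 3 → ℝ) : IsBC T0 x b ↔ b = ![1 - x 0 - x 1, x 0, x 1] := by
  unfold IsBC
  constructor
  · rintro ⟨h1, rfl⟩
    ext j
    fin_cases j <;> simp [T0]
    linarith
  · rintro rfl
    refine ⟨by simp; ring, ?_⟩
    ext j
    fin_cases j <;> simp [T0]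

lemma good_T0 : Good T0 := fun x => by simp only [isBC_T0]; exact existsUnique_eq

lemma n1_T0 (x : Pl) : N1 (bcf T0 x) ≤ 1 + 4 * ‖x‖ := by
  rw [(isBC_T0 x _).1 (isBC_bcf good_T0 x)]
  have h0 : |x 0| ≤ ‖x‖ := PiLp.norm_apply_le x 0
  have h1 : |x 1| ≤ ‖x‖ := PiLp.norm_apply_le x 1
  have h2 : |1 - x 0 - x 1| ≤ 1 + 2 * ‖x‖ := by
    rw [abs_le] at *
    constructor <;> linarith [h0.1, h0.2, h1.1, h1.2, norm_nonneg x]
  simp only [N1, Matrix.cons_val]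
  linarith

lemma World.exhaust {lv : ℕ → ℕ} {B : ℕ → Tr} {N : ℕ → Nd Pl} (h : World lv B N)
    (h0 : (N 0).T = T0) (R : ℝ) : ∃ n, ∀ x : Pl, ‖x‖ < R → Int (N n).T x := by
  obtain ⟨n, hn⟩ := seq_exhaust h.up (1 + 4 * R)
  exact ⟨n, fun x hx => hn x (by rw [h0]; linarith [n1_T0 x])⟩

lemma World.space {lv : ℕ → ℕ} {B : ℕ → Tr} {N : ℕ → Nd Pl} (h : World lv B N)
    (h0 : (N 0).T = T0) : (cx (seq_sys h.up)).space = Set.univ := by
  refine cx_space _ fun x => ?_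
  obtain ⟨n, hn⟩ := h.exhaust h0 (‖x‖ + 1)
  obtain ⟨L, hL, hx⟩ := (seq_ok h.up n).exists_leaf (hn x (by linarith)).reg
  exact ⟨L, ⟨n, hL⟩, hx⟩

lemma World.faces {lv : ℕ → ℕ} {B : ℕ → Tr} {N : ℕ → Nd Pl} (h : World lv B N)
    (h0 : (N 0).T = T0) (R : ℝ) : {s ∈ (cx (seq_sys h.up)).faces |
      (convexHull ℝ (s : Set Pl) ∩ Metric.ball 0 R).Nonempty}.Finite := by
  obtain ⟨n, hn⟩ := h.exhaust h0 R
  exact cx_finite _ (seq_cap h.up n) fun x hx => hn x (by simpa using hx)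

/-- very slow thresholds -/
def thr1 (a : ℕ) : ℕ := a * (3 * (2 ^ a + 1)) + (2 * a + 3)

lemma slow1 : Slow (lvOf thr1) := lvOf_slow fun _ => Nat.le_add_left _ _

lemma perc1 {q : ℝ} (hq : 0 < q) (M : ℕ) : ∃ k : ℕ, M ≤ k ∧
    (M : ℝ) ≤ 2 ^ (k - lvOf thr1 (k + 1)) * q ^ (3 * (2 ^ lvOf thr1 (k + 1) + 1)) := by
  obtain ⟨a1, h1⟩ := exists_pow_lt_of_lt_one hq (show (1 / 2 : ℝ) < 1 by norm_num)
  obtain ⟨k0, h2⟩ := lvOf_unb slow1 (max (M + 1) a1)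
  refine ⟨max k0 M, le_max_right _ _, ?_⟩
  have h3 : max (M + 1) a1 ≤ lvOf thr1 (max k0 M + 1) :=
    h2.trans (slow1.mono ((le_max_left k0 M).trans (Nat.le_succ _)))
  have h4 := lvOf_thr thr1 (max k0 M) (by omega)
  generalize lvOf thr1 (max k0 M + 1) = a at *
  unfold thr1 at h4
  generalize max k0 M = k at *
  generalize 3 * (2 ^ a + 1) = r at *
  have h5 : (1 / 2 : ℝ) ^ a ≤ q :=
    (pow_le_pow_of_le_one (by norm_num) (by norm_num) ((le_max_right _ _).trans h3)).trans h1.le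
  have h6 : (2 : ℝ) ^ (a * r + a) ≤ 2 ^ (k - a) := pow_le_pow_right₀ (by norm_num) (by omega)
  have h7 : (M : ℝ) ≤ 2 ^ a := by
    have : M ≤ 2 ^ a := by have := Nat.lt_two_pow_self (n := a); omega
    exact_mod_cast this
  calc (M : ℝ) ≤ 2 ^ (a * r + a) * ((1 / 2) ^ a) ^ r := by
        rw [← pow_mul, pow_add, mul_right_comm, ← mul_pow]
        simpa using h7
    _ ≤ _ := mul_le_mul h6 (pow_le_pow_left₀ (by positivity) h5 r) (by positivity) (by positivity)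

theorem main : ∃ (V : Type) (G : SimpleGraph V) (pos : V → EuclideanSpace ℝ (Fin 2))
    (K : Geometry.SimplicialComplex ℝ (EuclideanSpace ℝ (Fin 2))),
    G.Connected ∧ Infinite V ∧ (∀ v, (G.neighborSet v).Finite) ∧
    Function.Injective pos ∧ Set.range pos = K.vertices ∧
    (∀ u v, G.Adj u v ↔ u ≠ v ∧ ∃ s ∈ K.faces,
      (s : Set (EuclideanSpace ℝ (Fin 2))) = {pos u, pos v}) ∧
    K.space = Set.univ ∧ (∀ s ∈ K.faces, ∃ t ∈ K.faces, s ⊆ t ∧ t.card = 3) ∧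
    (∀ R : ℝ, {s ∈ K.faces |
      (convexHull ℝ (s : Set (EuclideanSpace ℝ (Fin 2))) ∩ Metric.ball 0 R).Nonempty}.Finite) ∧
    (∃ c C : ℝ, 0 < c ∧ c < C ∧ ∀ n : ℕ, 1 ≤ n → ∀ v : V,
      c * (n : ℝ) ^ 3 < ({w | G.dist v w ≤ n}.ncard : ℝ) ∧
        ({w | G.dist v w ≤ n}.ncard : ℝ) < C * (n : ℝ) ^ 3) ∧
    (∀ M : ℕ, ∃ n : ℕ, ∀ A : Finset V, n ≤ A.card →
      M ≤ {w | w ∉ A ∧ ∃ v ∈ A, G.Adj v w}.ncard) ∧
    ∀ p : unitInterval, p < 1 → ∀ v : V, setBernoulli Set.univ p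
      {ω : Set V | {w | ∃ q : G.Walk v w, ∀ x ∈ q.support, x ∈ ω}.Infinite} = 0 := by
  obtain ⟨B, N, h, h0⟩ := exists_world slow1 (lvOf_unb slow1) good_T0
  exact ⟨VV (allL N), Gr (allL N), fun u => u.1, cx (seq_sys h.up), seq_conn h.up, h.infinite,
    h.locFin, Subtype.val_injective, range_val _, adj_iff _, h.space h0, cx_pure _, h.faces h0,
    h.growth, h.iso, fun p hp => h.perc p (perc1 (sub_pos.2 hp))⟩

end Pool.Agent.MP_295da9_pr.Th
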