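import Mathlib
import Pool.Agent.MP_295da9_pr.ThMain

/-! Cocycles on the triangulation have potentials. -/

namespace Pool.Agent.MP_295da9_pr.Th

variable {E : Type*} [AddCommGroup E] [Module ℝ E] {𝓛 : Set (Fin 3 → E)} {M : Type*}
  [AddCommGroup M] {φ : E → E → M}

/-- `f` is a potential of `φ` on the leaves of the node -/
def Pot (φ : E → E → M) (σ : Nd E) (f : E → M) : Prop :=
  ∀ L, LeafOf σ.t σ.T L → ∀ i j, φ (L i) (L j) = f (L j) - f (L i)

lemma Pot.shift {σ : Nd E} {f : E → M} (h : Pot φ σ f) (c : M) : Pot φ σ fun x => f x + c :=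
  fun L hL i j => by rw [h L hL, add_sub_add_right_eq_sub]

lemma Pot.step {σ : Nd E} {f : E → M} (h : Pot φ σ f) (ho : OK σ) {X Y : Fin 3} (hne : X ≠ Y)
    {m : ℕ} (hm : m < 2 ^ σ.a) : f (pt σ.a (σ.T X) (σ.T Y) (m + 1)) =
      f (pt σ.a (σ.T X) (σ.T Y) m) +
        φ (pt σ.a (σ.T X) (σ.T Y) m) (pt σ.a (σ.T X) (σ.T Y) (m + 1)) := by
  obtain ⟨L, hL, ⟨i, hi⟩, j, hj⟩ := side_path σ.t σ.a σ.T ho.2 X Y hne m hm
  rw [← hi, ← hj, h L hL]; abel

lemma Pot.side {σ τ : Nd E} {f g : E → M} (h : Pot φ σ f) (h' : Pot φ τ g) (ho : OK σ)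
    (ho' : OK τ) {X Y X' Y' : Fin 3} (hne : X ≠ Y) (hne' : X' ≠ Y') (ha : τ.a = σ.a)
    (hX : τ.T X' = σ.T X) (hY : τ.T Y' = σ.T Y) (h0 : f (σ.T X) = g (σ.T X)) {m : ℕ}
    (hm : m ≤ 2 ^ σ.a) : f (pt σ.a (σ.T X) (σ.T Y) m) = g (pt σ.a (σ.T X) (σ.T Y) m) := by
  induction m with
  | zero => rwa [pt_zero]
  | succ m ih =>
    have h1 := h'.step ho' hne' (m := m) (by rw [ha]; omega)
    rw [ha, hX, hY] at h1
    rw [h1, h.step ho hne (by omega), ih (by omega)]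

omit [AddCommGroup E] [Module ℝ E] in
lemma tri_pos (i i' : Fin 3) (h : i ≠ i') : ∃ p p' q l : Fin 3, 2 ≠ p ∧ 2 ≠ p' ∧ p ≠ p' ∧ 2 ≠ q ∧
    (∀ (T : Fin 3 → E) (w : E), upd i T w p = T l ∧ upd i' T w q = T l) ∧
    ∀ b : Fin 3 → ℝ, updB i b p' = b i' - b i := by
  fin_cases i <;> fin_cases i' <;> simp at h
  · exact ⟨1, 0, 1, 2, by decide, by decide, by decide, by decide, fun _ _ => ⟨rfl, rfl⟩,
      fun _ => rfl⟩
  · exact ⟨0, 1, 1, 1, by decide, by decide, by decide, by decide, fun _ _ => ⟨rfl, rfl⟩,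
      fun _ => rfl⟩
  · exact ⟨1, 0, 1, 2, by decide, by decide, by decide, by decide, fun _ _ => ⟨rfl, rfl⟩,
      fun _ => rfl⟩
  · exact ⟨0, 1, 0, 0, by decide, by decide, by decide, by decide, fun _ _ => ⟨rfl, rfl⟩,
      fun _ => rfl⟩
  · exact ⟨1, 0, 0, 1, by decide, by decide, by decide, by decide, fun _ _ => ⟨rfl, rfl⟩,
      fun _ => rfl⟩
  · exact ⟨0, 1, 0, 0, by decide, by decide, by decide, by decide, fun _ _ => ⟨rfl, rfl⟩,
      fun _ => rfl⟩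

lemma glue {σ : Nd E} (h : Cap 𝓛 σ) (ht : σ.t ≠ .leaf) (F : Ix → E → M)
    (h1 : ∀ k ∈ idx σ.t, Pot φ (σ.ch rho0 k) (F k))
    (h2 : ∀ k ∈ idx σ.t, ∀ k' ∈ idx σ.t, ∀ x, Vtx 𝓛 x → Reg (σ.ch rho0 k).T x →
      Reg (σ.ch rho0 k').T x → F k x = F k' x) : ∃ f, Pot φ σ f := by
  classical
  refine ⟨fun x => if hx : ∃ k ∈ idx σ.t, Reg (σ.ch rho0 k).T x then F hx.choose x else 0,
    fun L hL i j => ?_⟩
  obtain ⟨k, hk, h3⟩ := (leafOf_go rho0 ht L).1 hL
  have key : ∀ i, (if hx : ∃ k ∈ idx σ.t, Reg (σ.ch rho0 k).T (L i) then F hx.choose (L i)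
      else 0) = F k (L i) := fun i => by
    have h4 := (h.ok.ch (ρ := rho0) hk).reg_leaf_vertex h3 i
    have h5 : ∃ k ∈ idx σ.t, Reg (σ.ch rho0 k).T (L i) := ⟨k, hk, h4⟩
    rw [dif_pos h5]
    exact h2 _ h5.choose_spec.1 k hk _ ⟨L, h.mem L hL, i, rfl⟩ h5.choose_spec.2 h4
  simp only [key]
  exact h1 k hk L h3 i j

lemma exists_pot (hS : Sys 𝓛)
    (hφ : ∀ L ∈ 𝓛, ∀ i j k, φ (L i) (L j) + φ (L j) (L k) = φ (L i) (L k)) (σ : Nd E) :
    Cap 𝓛 σ → ∃ f, Pot φ σ f := by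
  induction σ using @Nd.ind E _ _ rho0 with
  | _ σ ih =>
    intro h
    have hc := fun k hk => h.ch (ρ := rho0) (k := k) hk
    have h0 : ∀ k, ∃ f, k ∈ idx σ.t → Pot φ (σ.ch rho0 k) f := fun k => by
      by_cases hk : k ∈ idx σ.t
      · obtain ⟨f, hf⟩ := ih k hk (hc k hk)
        exact ⟨f, fun _ => hf⟩
      · exact ⟨0, fun h => absurd h hk⟩
    choose F hF using h0
    have hb : ∀ k x, bcf (σ.ch rho0 k).T x = chB k (bcf σ.T x) := bcf_chN h.ok.1
    have hr : ∀ k x, Reg (σ.ch rho0 k).T x ↔ NN (chB k (bcf σ.T x)) := fun k x => by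
      unfold Reg; rw [hb]
    have hsum := bcf_sum h.ok.1
    obtain ⟨t, a, T, g⟩ := σ
    cases t with
    | leaf =>
      refine ⟨φ (T 0), fun L hL i j => ?_⟩
      obtain rfl : L = T := hL
      rw [← hφ L (h.mem L rfl) 0 i j]; abel
    | tri c =>
      refine glue h (by simp) (fun k x => F k x + -F k (ctr T)) (fun k hk => (hF k hk).shift _) ?_
      intro k hk k' hk' x hv hx hx'
      obtain ⟨i, rfl⟩ := (mem_idx_tri c k).1 hk
      obtain ⟨i', rfl⟩ := (mem_idx_tri c k').1 hk'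
      by_cases hne : i = i'
      · rw [hne]
      obtain ⟨p, p', q, l, e1, e2, e3, e4, e5, e6⟩ := tri_pos (E := E) i i' hne
      obtain ⟨m, hm, rfl⟩ := exists_pt hS (hc _ hk) e1 e2 e3 hv hx (by
        rw [hb]
        change updB i _ p' = 0
        rw [e6, (sep_tri hne ((hr _ _).1 hx) ((hr _ _).1 hx')).1, sub_self])
      exact ((hF _ hk).shift _).side ((hF _ hk').shift _) (hc _ hk).ok (hc _ hk').ok e1 e4 rfl rfl
        ((e5 T _).2.trans (e5 T _).1.symm) ((add_neg_cancel _).trans (add_neg_cancel _).symm) hm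
    | quad c =>
      have h3 : ∀ j : Fin 3, ∃ y z : Fin 3, y ≠ z ∧ y ≠ j ∧ z ≠ j := by decide
      choose y z hyz hy hz using h3
      have e1 : ∀ j y z : Fin 3, y ≠ z → y ≠ j → z ≠ j → quadT none T z = quadT (some j) T y := by
        intro j y z h1 h2 h3
        simp only [quadT, sum3 T h1 h2 h3]; module
      let G : Ix → E → M := fun k x => match k with
        | .inr (some j) => F k x + (F (.inr none) (quadT (some j) T (y j)) -
            F k (quadT (some j) T (y j)))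
        | _ => F k x
      have hG : ∀ k ∈ idx (.quad c), Pot φ (Nd.ch rho0 ⟨.quad c, a, T, g⟩ k) (G k) := by
        intro k hk
        obtain ⟨i, rfl⟩ := (mem_idx_quad c k).1 hk
        rcases i with _ | j
        · exact hF _ hk
        · exact (hF _ hk).shift _
      have key : ∀ i x, Vtx 𝓛 x → Reg (Nd.ch rho0 ⟨.quad c, a, T, g⟩ (.inr i)).T x →
          Reg (Nd.ch rho0 ⟨.quad c, a, T, g⟩ (.inr none)).T x → G (.inr i) x = G (.inr none) x := by
        intro i x hv hx hx'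
        rcases i with _ | j
        · rfl
        have hk : .inr (some j) ∈ idx (.quad c) := by simp
        have hk' : .inr none ∈ idx (.quad c) := by simp
        obtain ⟨m, hm, rfl⟩ := exists_pt hS (hc _ hk) (hyz j) (hy j) (hz j) hv hx (by
          rw [hb]; exact (quad_two j ((hr _ _).1 hx') ((hr _ _).1 hx)).2)
        exact (hG _ hk).side (hG _ hk') (hc _ hk).ok (hc _ hk').ok (hyz j) (hyz j).symm rfl
          (e1 j _ _ (hyz j) (hy j) (hz j)) (e1 j _ _ (hyz j).symm (hz j) (hy j))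
          (add_sub_cancel _ _) hm
      refine glue h (by simp) G hG ?_
      intro k hk k' hk' x hv hx hx'
      obtain ⟨i, rfl⟩ := (mem_idx_quad c k).1 hk
      obtain ⟨i', rfl⟩ := (mem_idx_quad c k').1 hk'
      by_cases hne : i = i'
      · rw [hne]
      have h4 : Reg (Nd.ch rho0 ⟨.quad c, a, T, g⟩ (.inr none)).T x := by
        rcases i with _ | j
        · exact hx
        rcases i' with _ | j'
        · exact hx'
        rw [hr] at hx hx' ⊢
        exact (quad_in (hsum x) j hx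
          (quad_three (hsum x) (fun e => hne (by rw [e])) hx' hx)).1
      rw [key i x hv hx h4, key i' x hv hx' h4]

lemma Pot.bdy (hS : Sys 𝓛) {σ : Nd E} (h : Cap 𝓛 σ) {f : E → M} (hf : Pot φ σ f)
    (h0 : ∀ x y, ¬ Int σ.T x → ¬ Int σ.T y → φ x y = 0) {x : E} (hv : Vtx 𝓛 x) (hx : Reg σ.T x)
    (hn : ¬ Int σ.T x) : f x = f (σ.T 0) := by
  have h1 : ∀ X Y : Fin 3, X ≠ Y → ∀ m ≤ 2 ^ σ.a, f (pt σ.a (σ.T X) (σ.T Y) m) = f (σ.T X) := by
    intro X Y hne m hm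
    obtain ⟨Z, hZ, hZ'⟩ := third X Y
    have h2 : ∀ m, ¬ Int σ.T (pt σ.a (σ.T X) (σ.T Y) m) := fun m =>
      not_int_of_zero (z := Z) (by rw [bcf_pt h.ok.1]; simp [hZ, hZ'])
    induction m with
    | zero => rw [pt_zero]
    | succ m ih => rw [hf.step h.ok hne (by omega), ih (by omega), h0 _ _ (h2 _) (h2 _), add_zero]
  have h2 : ∀ X, f (σ.T X) = f (σ.T 0) := fun X => by
    by_cases hX : 0 = X
    · rw [hX]
    · rw [← h1 0 X hX _ le_rfl, pt_top]
  obtain ⟨Z, hz⟩ : ∃ z, bcf σ.T x z = 0 := by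
    by_contra h3
    push Not at h3
    exact hn fun j => lt_of_le_of_ne (hx j) (h3 j).symm
  obtain ⟨X, hX, -⟩ := third Z Z
  obtain ⟨Y, hY, hY'⟩ := third X Z
  obtain ⟨m, hm, rfl⟩ := exists_pt hS h hY.symm hX hY' hv hx hz
  rw [h1 X Y hY.symm m hm, h2]

/-- finitely supported cocycles on triangles are coboundaries of finitely supported functions -/
def Fill {V : Type*} (G : SimpleGraph V) (M : Type*) [AddCommGroup M] : Prop :=
  ∀ (φ : V → V → M) (A : Set V), A.Finite →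
    (∀ x y z, (x = y ∨ G.Adj x y) → (y = z ∨ G.Adj y z) → (x = z ∨ G.Adj x z) →
      φ x y + φ y z = φ x z) → (∀ x y, x ∉ A → y ∉ A → φ x y = 0) →
    ∃ f : V → M, (Function.support f).Finite ∧ ∀ x y, G.Adj x y → φ x y = f y - f x

lemma World.fill {lv : ℕ → ℕ} {B : ℕ → Tr} {N : ℕ → Nd E} (h : World lv B N) :
    Fill (Gr (allL N)) M := by
  classical
  intro φ A hA h1 h2
  have hS := seq_sys h.up
  choose n hn using fun v : VV (allL N) => seq_vtx h.up v.2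
  obtain ⟨b, hb⟩ := (hA.image n).bddAbove
  have hC := seq_cap h.up (b + 1)
  have hI : ∀ w ∈ A, Int (N (b + 1)).T w.1 := fun w hw =>
    seq_int h.up (Nat.lt_succ_of_le (hb ⟨w, hw, rfl⟩)) (hn w)
  let ψ : E → E → M := fun x y =>
    if e : Vtx (allL N) x ∧ Vtx (allL N) y then φ ⟨x, e.1⟩ ⟨y, e.2⟩ else 0
  have hψ : ∀ x y : VV (allL N), ψ x.1 y.1 = φ x y := fun x y => dif_pos ⟨x.2, y.2⟩
  obtain ⟨f, hf⟩ := exists_pot (φ := ψ) hS (fun L hL i j k => by
    have h3 : ∀ i j, (⟨L i, L, hL, i, rfl⟩ : VV (allL N)) = ⟨L j, L, hL, j, rfl⟩ ∨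
        (Gr (allL N)).Adj ⟨L i, L, hL, i, rfl⟩ ⟨L j, L, hL, j, rfl⟩ := fun i j =>
      (em _).imp id fun e => ⟨e, L, hL, ⟨i, rfl⟩, j, rfl⟩
    have h4 := h1 _ _ _ (h3 i j) (h3 j k) (h3 i k)
    rwa [← hψ, ← hψ, ← hψ] at h4) _ hC
  have h3 : ∀ x y, ¬ Int (N (b + 1)).T x → ¬ Int (N (b + 1)).T y → ψ x y = 0 := by
    intro x y hx hy
    by_cases e : Vtx (allL N) x ∧ Vtx (allL N) y
    · exact (dif_pos e).trans (h2 _ _ (fun h => hx (hI _ h)) fun h => hy (hI _ h))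
    · exact dif_neg e
  have h4 : ∀ x : VV (allL N), Reg (N (b + 1)).T x.1 →
      (if Int (N (b + 1)).T x.1 then f x.1 - f ((N (b + 1)).T 0) else 0) =
        f x.1 - f ((N (b + 1)).T 0) := fun x hx => by
    split_ifs with e
    · rfl
    · rw [hf.bdy hS hC h3 x.2 hx e, sub_self]
  refine ⟨fun x => if Int (N (b + 1)).T x.1 then f x.1 - f ((N (b + 1)).T 0) else 0,
    (finite_reg hS hC).subset fun x hx => ?_, fun x y hxy => ?_⟩
  · by_contra e
    exact hx (if_neg fun e' => e e'.reg)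
  have h5 : ∀ L, LeafOf (N (b + 1)).t (N (b + 1)).T L → (∃ j, L j = x.1) → (∃ j, L j = y.1) →
      φ x y = (if Int (N (b + 1)).T y.1 then f y.1 - f ((N (b + 1)).T 0) else 0) -
        if Int (N (b + 1)).T x.1 then f x.1 - f ((N (b + 1)).T 0) else 0 := by
    rintro L hL ⟨i, hi⟩ ⟨j, hj⟩
    rw [h4 x (hi ▸ hC.ok.reg_leaf_vertex hL i), h4 y (hj ▸ hC.ok.reg_leaf_vertex hL j), ← hψ,
      ← hi, ← hj, hf L hL]
    abel
  by_cases hx : Int (N (b + 1)).T x.1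
  · obtain ⟨L, hL, e1, e2⟩ := hC.co_leaf hS hxy.2 hx
    exact h5 L hL e1 e2
  by_cases hy : Int (N (b + 1)).T y.1
  · obtain ⟨L, hL, e1, e2⟩ := hC.co_leaf hS hxy.2.symm hy
    exact h5 L hL e2 e1
  simp only [if_neg hx, if_neg hy, sub_self]
  rw [← hψ, h3 _ _ hx hy]

end Pool.Agent.MP_295da9_pr.Th
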