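import Mathlib
import Pool.Agent.MP_295da9_pr.ThCoc

/-! The Peierls argument. -/

namespace Pool.Agent.MP_295da9_pr.Th

open MeasureTheory ProbabilityTheory Relation
open scoped ENNReal

variable {V : Type*} {G : SimpleGraph V}

/-- adjacency inside `S` -/
def AdjIn (G : SimpleGraph V) (S : Set V) (a b : V) : Prop := G.Adj a b ∧ a ∈ S ∧ b ∈ S

/-- the component of `y` inside `S` -/
def comp (G : SimpleGraph V) (S : Set V) (y : V) : Set V := {z | ReflTransGen (AdjIn G S) y z}

lemma reach_symm {S : Set V} {y z : V} (h : ReflTransGen (AdjIn G S) y z) :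
    ReflTransGen (AdjIn G S) z y := by
  induction h with
  | refl => exact .refl
  | tail _ h ih => exact .head ⟨h.1.symm, h.2.2, h.2.1⟩ ih

lemma comp_eq {S : Set V} {y z : V} (h : z ∈ comp G S y) : comp G S y = comp G S z :=
  Set.ext fun _ => ⟨(reach_symm h).trans, ReflTransGen.trans h⟩

lemma comp_sub {S : Set V} {y : V} (hy : y ∈ S) : comp G S y ⊆ S := by
  intro z hz
  induction hz with
  | refl => exact hy
  | tail _ h _ => exact h.2.2

lemma zero_of (hc : G.Connected) [Infinite V] (g : V → ℤ) (h1 : (Function.support g).Finite)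
    (h2 : ∀ x y, G.Adj x y → g x = g y) (v : V) : g v = 0 := by
  obtain ⟨w, hw⟩ := h1.infinite_compl.nonempty
  obtain ⟨q⟩ := hc v w
  induction q with
  | nil => simpa using hw
  | cons h _ ih => rw [h2 _ _ h, ih hw]

/-- a finite set is cut off by one component of its outer boundary -/
lemma one_comp (hF : Fill G (Set V →₀ ℤ)) (hc : G.Connected) [Infinite V] {A : Set V}
    (hA : A.Finite) {v : V} (hv : v ∈ A) {S : Set V} (hS : S = {y | y ∉ A ∧ ∃ x ∈ A, G.Adj x y}) :
    ∃ y ∈ S, ∃ A' : Set V, A'.Finite ∧ v ∈ A' ∧ (∀ x ∈ A', x ∉ comp G S y) ∧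
      ∀ x ∈ A', ∀ w, G.Adj x w → w ∉ comp G S y → w ∈ A' := by
  classical
  let c : V → V → Set V →₀ ℤ := fun x y =>
    if x ∈ A ∧ y ∉ A then Finsupp.single (comp G S y) 1 else 0
  have h0 : ∀ {x y}, x ∈ A → y ∉ A → (x = y ∨ G.Adj x y) → y ∈ S := fun hx hy h =>
    hS ▸ ⟨hy, _, hx, h.resolve_left fun e => hy (e ▸ hx)⟩
  have key : ∀ {x y z}, x ∈ A → y ∉ A → z ∉ A → (x = y ∨ G.Adj x y) → (x = z ∨ G.Adj x z) →
      (y = z ∨ G.Adj y z) → comp G S y = comp G S z := by
    rintro x y z hx hy hz h1 h2 (rfl | h3)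
    · rfl
    · exact comp_eq (ReflTransGen.single ⟨h3, h0 hx hy h1, h0 hx hz h2⟩)
  have sy : ∀ {x y}, (x = y ∨ G.Adj x y) → y = x ∨ G.Adj y x := fun h => h.imp .symm .symm
  obtain ⟨f, h1, h2⟩ := hF (fun x y => c x y - c y x) A hA (fun x y z e1 e2 e3 => by
    by_cases hx : x ∈ A <;> by_cases hy : y ∈ A <;> by_cases hz : z ∈ A <;>
      simp only [c, hx, hy, hz] <;> simp
    · rw [key hx hy hz e1 e3 e2]
    · rw [key hy hx hz (sy e1) e2 e3, neg_add_cancel]
    · rw [key hz hx hy (sy e3) (sy e2) e1])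
    fun x y hx hy => by simp [c, hx, hy]
  have h3 := zero_of hc (fun w => Finsupp.degree (f w) + if w ∈ A then 1 else 0)
    ((h1.union hA).subset fun w hw => by
      by_contra h4
      simp only [Set.mem_union, Function.mem_support, not_or, not_not] at h4
      simp [h4.1, h4.2] at hw)
    (fun x y h => by
      have h4 := congrArg Finsupp.degree (h2 x y h)
      by_cases hx : x ∈ A <;> by_cases hy : y ∈ A <;> simp [c, hx, hy] at h4 ⊢ <;> linarith) v
  obtain ⟨K, hK⟩ : ∃ K, f v K ≠ 0 := by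
    by_contra h4
    push Not at h4
    simp [show f v = 0 from Finsupp.ext h4, hv] at h3
  have h4 : ∀ x y, G.Adj x y → (x ∈ S → comp G S x ≠ K) → (y ∈ S → comp G S y ≠ K) →
      f x K = f y K := fun x y h hx hy => by
    have h5 := congrArg (· K) (h2 x y h)
    by_cases hx' : x ∈ A <;> by_cases hy' : y ∈ A <;> simp [c, hx', hy'] at h5
    · linarith
    · rw [Finsupp.single_eq_of_ne (hy (h0 hx' hy' (.inr h))).symm] at h5; linarith
    · rw [Finsupp.single_eq_of_ne (hx (h0 hy' hx' (.inr h.symm))).symm] at h5; linarith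
    · linarith
  have h5 : (Function.support fun w => f w K).Finite := h1.subset fun w hw e => hw (by simp [e])
  obtain ⟨y, hy, rfl⟩ : ∃ y ∈ S, comp G S y = K := by
    by_contra h6
    push Not at h6
    exact hK (zero_of hc (fun w => f w K) h5 (fun x y h => h4 x y h (h6 x) (h6 y)) v)
  refine ⟨y, hy, {w | f w (comp G S y) ≠ 0 ∧ w ∉ comp G S y}, h5.subset fun w hw => hw.1,
    ⟨hK, fun h => (hS ▸ comp_sub hy h).1 hv⟩, fun x hx => hx.2, fun x hx w h hw => ⟨?_, hw⟩⟩
  rw [← h4 x w h (fun _ e => hx.2 (e ▸ ReflTransGen.refl)) fun _ e => hw (e ▸ ReflTransGen.refl)]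
  exact hx.1

lemma exists_tour [DecidableEq V] {S : Set V} {y s : V} {K : Finset V}
    (hK : (K : Set V) = comp G S y) (hs : s ∈ K) (n : ℕ) (hn : n + 1 ≤ K.card) :
    ∃ p : G.Walk s s, p.length = 2 * n ∧ p.support.toFinset ⊆ K ∧
      p.support.toFinset.card = n + 1 := by
  induction n with
  | zero => exact ⟨.nil, rfl, by simpa using hs, by simp⟩
  | succ n ih =>
    obtain ⟨p, h1, h2, h3⟩ := ih (by omega)
    obtain ⟨z, hz, hz'⟩ := Finset.exists_mem_notMem_of_card_lt_card (s := p.support.toFinset)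
      (t := K) (by omega)
    have h4 : (K : Set V) = comp G S s := hK.trans (comp_eq (hK ▸ hs))
    have h5 : z ∈ comp G S s := h4 ▸ hz
    obtain ⟨a, ha, b, hb, hb', hab⟩ : ∃ a ∈ p.support, ∃ b ∈ K, b ∉ p.support ∧ G.Adj a b := by
      rw [List.mem_toFinset] at hz'
      clear hz
      induction h5 with
      | refl => exact absurd p.start_mem_support hz'
      | @tail b c h6 h7 ih =>
        by_cases hb : b ∈ p.support
        · exact ⟨b, hb, c, by rw [← Finset.mem_coe, h4]; exact h6.tail h7, hz', h7.1⟩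
        · exact ih hb
    have e := p.take_spec ha
    have e1 : ((p.takeUntil a ha).append (.cons hab (.cons hab.symm (p.dropUntil a ha)))
        ).support.toFinset = insert b p.support.toFinset := by
      ext t
      have e2 := (p.takeUntil a ha).mem_support_append_iff (t := t) (p.dropUntil a ha)
      have e3 := (p.dropUntil a ha).start_mem_support
      rw [e] at e2
      simp only [List.mem_toFinset, SimpleGraph.Walk.mem_support_append_iff,
        SimpleGraph.Walk.support_cons, List.mem_cons, Finset.mem_insert, e2]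
      constructor
      · rintro (h | rfl | h | h) <;> tauto
      · tauto
    refine ⟨_, ?_, e1 ▸ Finset.insert_subset hb h2, ?_⟩
    · have e2 := congrArg SimpleGraph.Walk.length e
      simp only [SimpleGraph.Walk.length_append, SimpleGraph.Walk.length_cons] at e2 ⊢
      omega
    · rw [e1, Finset.card_insert_of_notMem (by simpa using hb'), h3]

lemma card_walks [DecidableEq V] [G.LocallyFinite] {D : ℕ} (h : ∀ v, G.degree v ≤ D) (n : ℕ)
    (u v : V) : (G.finsetWalkLength n u v).card ≤ D ^ n := by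
  induction n generalizing u with
  | zero =>
    unfold SimpleGraph.finsetWalkLength
    split_ifs with e
    · subst e; simp
    · simp
  | succ n ih =>
    unfold SimpleGraph.finsetWalkLength
    refine (Finset.card_biUnion_le_card_mul _ _ (D ^ n) fun w _ => by
      rw [Finset.card_map]; exact ih w).trans ?_
    rw [Finset.card_univ, G.card_neighborSet_eq_degree, pow_succ']
    exact Nat.mul_le_mul_right _ (h u)

theorem peierls (hF : Fill G (Set V →₀ ℤ)) (hc : G.Connected) [Infinite V] {D : ℕ} (hD : 1 ≤ D)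
    (hdeg : ∀ v, (G.neighborSet v).Finite ∧ (G.neighborSet v).ncard ≤ D) (v : V)
    (B : ℕ → Finset V) (hB : ∀ n, (B n).card ≤ D ^ (n + 1))
    (hcl : ∀ (A : Set V) (S : Finset V) (n : ℕ), A.Finite → v ∈ A → S.card = n + 1 →
      (∀ x ∈ A, x ∉ S) → (∀ x ∈ A, ∀ w, G.Adj x w → w ∉ S → w ∈ A) → ∃ s ∈ S, s ∈ B n)
    (p : unitInterval) (hp : 4 * (D : ℝ) ^ 3 * (1 - p) ≤ 1) : 0 < setBernoulli Set.univ p
      {ω : Set V | {w | ∃ q : G.Walk v w, ∀ x ∈ q.support, x ∈ ω}.Infinite} := by
  classical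
  have : G.LocallyFinite := fun v => (hdeg v).1.fintype
  have hd : ∀ v, G.degree v ≤ D := fun v => by
    rw [← G.card_neighborSet_eq_degree, ← Nat.card_eq_fintype_card]
    exact (hdeg v).2
  set r : ℝ≥0∞ := (unitInterval.toNNReal (unitInterval.symm p) : ℝ≥0∞) with hr
  have r1 : (D : ℝ≥0∞) ^ 3 * r ≤ 4⁻¹ := by
    rw [ENNReal.le_inv_iff_mul_le, hr]
    have : (D : NNReal) ^ 3 * unitInterval.toNNReal (unitInterval.symm p) * 4 ≤ 1 := by
      rw [← NNReal.coe_le_coe]
      simp only [NNReal.coe_mul, NNReal.coe_pow, NNReal.coe_natCast, unitInterval.coe_toNNReal,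
        unitInterval.coe_symm_eq, NNReal.coe_ofNat, NNReal.coe_one]
      linarith
    exact_mod_cast this
  have D1 : (1 : ℝ≥0∞) ≤ D := by exact_mod_cast hD
  have r2 : r ≤ 4⁻¹ := le_trans (le_mul_of_one_le_left' (one_le_pow₀ D1)) r1
  let C : ℕ → Set (Set V) := fun n => ⋃ s ∈ B n, ⋃ q ∈ (G.finsetWalkLength (2 * n) s s).filter
    fun q => q.support.toFinset.card = n + 1, {ω | ∀ x ∈ q.support.toFinset, x ∉ ω}
  have h1 : ∀ n, setBernoulli Set.univ p (C n) ≤ 4⁻¹ * 2⁻¹ ^ n := fun n => by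
    refine (measure_biUnion_finset_le _ _).trans ((Finset.sum_le_card_nsmul _ _
      ((D : ℝ≥0∞) ^ (2 * n) * r ^ (n + 1)) fun s _ => ?_).trans ?_)
    · refine (measure_biUnion_finset_le _ _).trans ((Finset.sum_le_card_nsmul _ _
        (r ^ (n + 1)) fun q hq => ?_).trans ?_)
      · rw [setBer_closed, (Finset.mem_filter.1 hq).2]
      · rw [nsmul_eq_mul]
        refine mul_le_mul_left ?_ _
        exact_mod_cast (Finset.card_filter_le _ _).trans (card_walks hd _ s s)
    · rw [nsmul_eq_mul]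
      calc _ ≤ (D : ℝ≥0∞) ^ (n + 1) * (D ^ (2 * (n + 1)) * r ^ (n + 1)) :=
            mul_le_mul' (by exact_mod_cast hB n)
              (mul_le_mul_left (pow_le_pow_right₀ D1 (by omega)) _)
        _ = (D ^ 3 * r) ^ (n + 1) := by ring
        _ ≤ 4⁻¹ * 2⁻¹ ^ n := by
            rw [pow_succ']
            exact mul_le_mul' r1 (pow_le_pow_left' (r1.trans (ENNReal.inv_le_inv.2 (by norm_num))) n)
  have h2 : Set.univ ⊆ {ω : Set V | {w | ∃ q : G.Walk v w, ∀ x ∈ q.support, x ∈ ω}.Infinite} ∪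
      ({ω | ∀ x ∈ ({v} : Finset V), x ∉ ω} ∪ ⋃ n, C n) := by
    intro ω _
    by_cases hA : {w | ∃ q : G.Walk v w, ∀ x ∈ q.support, x ∈ ω}.Finite
    swap
    · exact .inl hA
    by_cases hv : v ∈ ω
    swap
    · exact .inr (.inl (by simpa using hv))
    obtain ⟨y, hy, A, a1, a2, a3, a4⟩ := one_comp hF hc hA (v := v) ⟨.nil, by simpa using hv⟩ rfl
    have hf := (hA.biUnion fun x _ => (hdeg x).1).subset ((comp_sub (G := G) hy).trans
      fun w ⟨_, x, hx, hw⟩ => Set.mem_biUnion hx hw)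
    obtain ⟨n, hn⟩ : ∃ n, hf.toFinset.card = n + 1 := Nat.exists_eq_succ_of_ne_zero
      (Finset.card_pos.2 ⟨y, hf.mem_toFinset.2 ReflTransGen.refl⟩).ne'
    obtain ⟨s, hs, hs'⟩ := hcl A hf.toFinset n a1 a2 hn (by simpa using a3) (by simpa using a4)
    obtain ⟨q, q1, q2, q3⟩ := exists_tour hf.coe_toFinset hs n hn.ge
    refine .inr (.inr (Set.mem_iUnion.2 ⟨n, Set.mem_biUnion hs' (Set.mem_biUnion
      (Finset.mem_filter.2 ⟨SimpleGraph.mem_finsetWalkLength_iff.2 q1, q3⟩) fun x hx hx' => ?_)⟩))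
    obtain ⟨b1, z, ⟨w, hw⟩, b2⟩ := comp_sub hy (hf.mem_toFinset.1 (q2 hx))
    refine b1 ⟨w.concat b2, fun t ht => ?_⟩
    rw [SimpleGraph.Walk.support_concat, List.mem_append, List.mem_singleton] at ht
    exact ht.elim (hw t) fun e => e ▸ hx'
  refine pos_iff_ne_zero.2 fun h0 => ?_
  have h3 := (measure_mono (μ := setBernoulli Set.univ p) h2).trans ((measure_union_le _ _).trans
    (add_le_add le_rfl ((measure_union_le _ _).trans (add_le_add le_rfl
      ((measure_iUnion_le _).trans (ENNReal.tsum_le_tsum h1))))))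
  rw [h0, setBer_closed, ENNReal.tsum_mul_left, ENNReal.tsum_geometric_two, measure_univ,
    Finset.card_singleton, pow_one, zero_add] at h3
  have h4 := ENNReal.toReal_mono (by finiteness) (h3.trans (add_le_add r2 le_rfl))
  rw [ENNReal.toReal_add (by finiteness) (by finiteness)] at h4
  norm_num at h4

end Pool.Agent.MP_295da9_pr.Th
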