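import Mathlib
import Pool.Agent.MP_295da9_pr.ThPei

/-! Triangulations of cubic growth with critical value close to, but below, one. -/

namespace Pool.Agent.MP_295da9_pr.Th

open MeasureTheory ProbabilityTheory

lemma lvOf_ge {thr : ℕ → ℕ} (h : Slow (lvOf thr)) (hm : Monotone thr) (a : ℕ) :
    a ≤ lvOf thr (thr a + a) := by
  induction a with
  | zero => exact Nat.zero_le _
  | succ a ih =>
    have h1 := ih.trans (h.mono (Nat.add_le_add_right (hm (Nat.le_succ a)) a))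
    rcases Nat.lt_or_eq_of_le h1 with h2 | h2
    · exact le_trans h2 (h.mono (Nat.le_succ _))
    · rw [← add_assoc, lvOf, ← h2, if_pos (Nat.le_add_right _ _)]

/-- exponential thresholds -/
def thr2 (c a : ℕ) : ℕ := c * (3 * (2 ^ a + 1)) + (2 * a + 3)

lemma slow2 (c : ℕ) : Slow (lvOf (thr2 c)) := lvOf_slow fun _ => Nat.le_add_left _ _

lemma mono2 (c : ℕ) : Monotone (thr2 c) := fun a b h => by
  unfold thr2
  gcongr
  norm_num

lemma perc2 {q : ℝ} {c : ℕ} (hq : (1 / 2 : ℝ) ^ c ≤ q) (M : ℕ) : ∃ k : ℕ, M ≤ k ∧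
    (M : ℝ) ≤ 2 ^ (k - lvOf (thr2 c) (k + 1)) * q ^ (3 * (2 ^ lvOf (thr2 c) (k + 1) + 1)) := by
  obtain ⟨k0, h2⟩ := lvOf_unb (slow2 c) (M + 1)
  refine ⟨max k0 M, le_max_right _ _, ?_⟩
  have h3 : M + 1 ≤ lvOf (thr2 c) (max k0 M + 1) :=
    h2.trans ((slow2 c).mono ((le_max_left k0 M).trans (Nat.le_succ _)))
  have h4 := lvOf_thr (thr2 c) (max k0 M) (by omega)
  generalize lvOf (thr2 c) (max k0 M + 1) = a at *
  unfold thr2 at h4
  generalize max k0 M = k at *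
  generalize 3 * (2 ^ a + 1) = r at *
  have h6 : (2 : ℝ) ^ (c * r + a) ≤ 2 ^ (k - a) := pow_le_pow_right₀ (by norm_num) (by omega)
  have h7 : (M : ℝ) ≤ 2 ^ a := by
    have : M ≤ 2 ^ a := by have := Nat.lt_two_pow_self (n := a); omega
    exact_mod_cast this
  calc (M : ℝ) ≤ 2 ^ (c * r + a) * ((1 / 2) ^ c) ^ r := by
        rw [← pow_mul, pow_add, mul_right_comm, ← mul_pow]
        simpa using h7
    _ ≤ _ := mul_le_mul h6 (pow_le_pow_left₀ (by positivity) hq r) (by positivity) (by positivity)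

lemma level2 (c n : ℕ) : ∃ a, n + 1 ≤ 2 ^ a ∧
    ∀ k, lvOf (thr2 c) k ≤ a → k ≤ (15 * c + 12) * (n + 1) := by
  obtain ⟨a, h1, h2⟩ : ∃ a, n + 1 < 2 ^ a ∧ 2 ^ a ≤ 2 * (n + 1) :=
    ⟨Nat.log 2 (n + 1) + 1, Nat.lt_pow_succ_log_self (by norm_num) _, by
      have := Nat.pow_log_le_self 2 (show n + 1 ≠ 0 by omega)
      rw [pow_succ]; omega⟩
  refine ⟨a, h1.le, fun k hk => ?_⟩
  by_contra h3
  have h4 := Nat.lt_two_pow_self (n := a)
  have h5 : c * (3 * (2 ^ (a + 1) + 1)) ≤ c * (15 * (n + 1)) :=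
    Nat.mul_le_mul_left c (by rw [pow_succ]; omega)
  have h6 := (lvOf_ge (slow2 c) (mono2 c) (a + 1)).trans ((slow2 c).mono
    (show thr2 c (a + 1) + (a + 1) ≤ k by unfold thr2; nlinarith))
  omega

lemma World.super {E : Type*} [AddCommGroup E] [Module ℝ E] {c : ℕ} {B : ℕ → Tr} {N : ℕ → Nd E}
    (h : World (lvOf (thr2 c)) B N) : ∃ p : unitInterval, p < 1 ∧ ∀ v : VV (allL N),
      0 < setBernoulli Set.univ p {ω : Set (VV (allL N)) |
        {w | ∃ q : (Gr (allL N)).Walk v w, ∀ x ∈ q.support, x ∈ ω}.Infinite} := by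
  obtain ⟨D, hD⟩ : ∃ D : ℕ, D = 700000000 * 54 ^ 3 * (2 ^ (15 * c + 12)) ^ 3 := ⟨_, rfl⟩
  have h0 : 1 ≤ (2 ^ (15 * c + 12)) ^ 3 := Nat.one_le_pow _ _ (by positivity)
  have h1 : (1 : ℝ) ≤ (D : ℝ) ^ 3 := one_le_pow₀ (by exact_mod_cast (by omega : 1 ≤ D))
  have h2 : (0 : ℝ) < 1 / (4 * (D : ℝ) ^ 3) := by positivity
  have h3 : 1 / (4 * (D : ℝ) ^ 3) ≤ 1 := by rw [div_le_one (by positivity)]; linarith
  refine ⟨⟨1 - 1 / (4 * (D : ℝ) ^ 3), by linarith, by linarith⟩,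
    show 1 - 1 / (4 * (D : ℝ) ^ 3) < 1 by linarith, fun v => ?_⟩
  have := h.infinite
  have h4 := fun n : ℕ => h.upper v (n := 52 * 2 ^ ((15 * c + 12) * (n + 1)) + 2) (by omega)
  refine peierls h.fill (seq_conn h.up) (D := D) (by omega) (fun w => ⟨h.locFin w, ?_⟩) v
    (fun n => (h4 n).1.toFinset) (fun n => ?_) (fun A S n a1 a2 a3 a4 a5 => ?_) _ ?_
  · have h5 := h.upper w le_rfl
    exact (Set.ncard_le_ncard (fun _ hw => Co.near hw.2) h5.1).trans (h5.2.trans (by omega))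
  · rw [← Set.ncard_eq_toFinset_card _ (h4 n).1]
    refine (h4 n).2.trans ?_
    have h5 : 1 ≤ 2 ^ ((15 * c + 12) * (n + 1)) := Nat.one_le_two_pow
    calc _ ≤ 700000000 * (54 * 2 ^ ((15 * c + 12) * (n + 1))) ^ 3 := by gcongr; omega
      _ = (700000000 * 54 ^ 3) ^ 1 * ((2 ^ (15 * c + 12)) ^ 3) ^ (n + 1) := by
          rw [pow_mul, mul_pow, pow_right_comm, pow_one, mul_assoc]
      _ ≤ _ := by
          rw [hD, mul_pow _ _ (n + 1)]
          exact Nat.mul_le_mul_right _ (Nat.pow_le_pow_right (by norm_num) (by omega))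
  · obtain ⟨a, b1, b2⟩ := level2 c n
    obtain ⟨s, hs, h5⟩ := h.close b2 a1 (a3.trans_le b1) a4 a5 a2
    exact ⟨s, hs, (h4 n).1.mem_toFinset.2 h5.symm⟩
  · simp only [sub_sub_cancel]
    rw [mul_one_div_cancel (by positivity)]

theorem main2 (p0 : unitInterval) (hp0 : p0 < 1) : ∃ (V : Type) (G : SimpleGraph V)
    (pos : V → EuclideanSpace ℝ (Fin 2))
    (K : Geometry.SimplicialComplex ℝ (EuclideanSpace ℝ (Fin 2))),
    G.Connected ∧ Infinite V ∧ (∀ v, (G.neighborSet v).Finite) ∧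
    Function.Injective pos ∧ Set.range pos = K.vertices ∧
    (∀ u v, G.Adj u v ↔ u ≠ v ∧ ∃ s ∈ K.faces,
      (s : Set (EuclideanSpace ℝ (Fin 2))) = {pos u, pos v}) ∧
    K.space = Set.univ ∧ (∀ s ∈ K.faces, ∃ t ∈ K.faces, s ⊆ t ∧ t.card = 3) ∧
    (∀ R : ℝ, {s ∈ K.faces |
      (convexHull ℝ (s : Set (EuclideanSpace ℝ (Fin 2))) ∩ Metric.ball 0 R).Nonempty}.Finite) ∧
    (∃ c C : ℝ, 0 < c ∧ c < C ∧ ∀ n : ℕ, 1 ≤ n → ∀ v : V,
      c * (n : ℝ) ^ 3 < ({w | G.dist v w ≤ n}.ncard : ℝ) ∧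
        ({w | G.dist v w ≤ n}.ncard : ℝ) < C * (n : ℝ) ^ 3) ∧
    (∀ p : unitInterval, p ≤ p0 → ∀ v : V, setBernoulli Set.univ p
      {ω : Set V | {w | ∃ q : G.Walk v w, ∀ x ∈ q.support, x ∈ ω}.Infinite} = 0) ∧
    ∃ p : unitInterval, p < 1 ∧ ∀ v : V, 0 < setBernoulli Set.univ p
      {ω : Set V | {w | ∃ q : G.Walk v w, ∀ x ∈ q.support, x ∈ ω}.Infinite} := by
  obtain ⟨c, hc⟩ := exists_pow_lt_of_lt_one (sub_pos.2 (show (p0 : ℝ) < 1 from hp0))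
    (show (1 / 2 : ℝ) < 1 by norm_num)
  obtain ⟨B, N, h, h0⟩ := exists_world (slow2 c) (lvOf_unb (slow2 c)) good_T0
  exact ⟨VV (allL N), Gr (allL N), fun u => u.1, cx (seq_sys h.up), seq_conn h.up, h.infinite,
    h.locFin, Subtype.val_injective, range_val _, adj_iff _, h.space h0, cx_pure _, h.faces h0,
    h.growth, fun p hp => h.perc p
      (perc2 (hc.le.trans (sub_le_sub_left (show (p : ℝ) ≤ p0 from hp) 1))), h.super⟩

end Pool.Agent.MP_295da9_pr.Th
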